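import Mathlib

/-!
# Triangles in the plane: basic definitions
-/

open MeasureTheory
open scoped ComplexConjugate

namespace Pool.Agent.H67.Pl

/-- The point of angle `φ` of the unit circle. -/
noncomputable def cu (φ : ℝ) : ℂ := Complex.exp (φ * Complex.I)

/-- The real inner product of the plane. -/
noncomputable def ip (a b : ℂ) : ℝ := a.re * b.re + a.im * b.im

/-- The half-open square with lower left corner `p` and side `r`. -/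
def sq (p : ℂ) (r : ℝ) : Set ℂ :=
  {x | p.re ≤ x.re ∧ x.re < p.re + r ∧ p.im ≤ x.im ∧ x.im < p.im + r}

/-- The grid cell (of side `r`) of a point. -/
noncomputable def cell (r : ℝ) (x : ℂ) : ℤ × ℤ := (⌊x.re / r⌋, ⌊x.im / r⌋)

/-- A measurable function bounded by `1` with support in the ball of radius `R`. -/
structure Bd (R : ℝ) (f : ℂ → ℂ) : Prop where
  meas : Measurable f
  le_one : ∀ x, ‖f x‖ ≤ 1
  supp : ∀ x, R < ‖x‖ → f x = 0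

/-- The triangle form on the circle of radius `‖z‖`. -/
noncomputable def cform (a₁ a₂ : ℂ) (f₀ f₁ f₂ : ℂ → ℂ) (z : ℂ) : ℂ :=
  ∫ φ in (0 : ℝ)..(2 * Real.pi), ∫ x : ℂ, f₀ x * f₁ (x + a₁ * z * cu φ) * f₂ (x + a₂ * z * cu φ)

/-- The difference of the uniform densities of `[0, η]` and `[0, η / 2]`. -/
noncomputable def qk (η ρ : ℝ) : ℝ := if ρ < η / 2 then -(1 / η) else 1 / η

/-- The difference of the averages of the triangle form over radii in `[1, 1 + η]` and in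
`[1, 1 + η / 2]`. -/
noncomputable def Tq (a₁ a₂ : ℂ) (η : ℝ) (f₀ f₁ f₂ : ℂ → ℂ) : ℂ :=
  ∫ ρ in (0 : ℝ)..η, (qk η ρ : ℂ) * cform a₁ a₂ f₀ f₁ f₂ ((1 + ρ : ℝ) : ℂ)

/-- The weight of the box forms. -/
noncomputable def Wt (M s r : ℝ) : ℝ := max 0 (M - |s| - |r|) / M ^ 3

/-- The box form of `g` in the directions `b` and `c`. -/
noncomputable def boxf (b c : ℂ) (M : ℝ) (g : ℂ → ℂ) : ℂ :=
  ∫ s : ℝ, ∫ r : ℝ, (Wt M s r : ℂ) *
    ∫ x : ℂ, g x * conj (g (x + s * b)) * conj (g (x + r * c)) * g (x + s * b + r * c)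

/-- The form of the parallelograms `x, x + h, x + τ σ h, x + (1 + τ σ) h`. -/
noncomputable def Qf (σ : ℂ) (f : ℂ → ℂ) (h : ℂ) (τ : ℝ) : ℂ :=
  ∫ x : ℂ, f x * conj (f (x + h)) * conj (f (x + τ * σ * h)) * f (x + (1 + τ * σ) * h)

/-- The form of the parallelograms of a fixed angle. -/
noncomputable def Lam (σ : ℂ) (m : ℝ) (f : ℂ → ℂ) : ℂ :=
  ∫ h : ℂ, ∫ τ : ℝ, ((max 0 (m - ‖h‖ * (1 + |τ|)) / m ^ 3 : ℝ) : ℂ) * Qf σ f h τ

/-- A cellwise plane wave on the grid of side `m` with origin `p`. -/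
noncomputable def pw (p : ℂ) (m : ℝ) (ξ a : ℤ × ℤ → ℂ) (x : ℂ) : ℂ :=
  a (cell m (x - p)) * Complex.exp ((ip (ξ (cell m (x - p))) x : ℝ) * Complex.I)

/-- The truncation of a function to the ball of radius `R`. -/
noncomputable def bind (R : ℝ) (f : ℂ → ℂ) (x : ℂ) : ℂ := if ‖x‖ ≤ R then f x else 0

/-- The complex number whose real part is the virial and whose imaginary part is the torque. -/
noncomputable def Zf (a₁ a₂ : ℂ) (u₁ u₂ : ℂ → ℂ) (x : ℂ) (φ : ℝ) : ℂ :=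
  cu φ * (conj (u₁ (x + a₁ * cu φ)) * a₁ + conj (u₂ (x + a₂ * cu φ)) * a₂)

/-- The statement of the field rigidity theorem. -/
def FRx (a₁ a₂ : ℂ) : Prop :=
  ∃ C : ℕ, ∀ (η δ : ℝ) (u₀ u₁ u₂ : ℂ → ℂ) (G : Set (ℂ × ℝ)), 0 < η → η ≤ 1 / 2 → 0 ≤ δ →
    δ ≤ η ^ C → Measurable u₀ → Measurable u₁ → Measurable u₂ → MeasurableSet G →
    η ≤ volume.real G →
    ¬ ∀ z ∈ G, z.1 ∈ sq (-1 - Complex.I) 3 ∧ 0 ≤ z.2 ∧ z.2 < 2 * Real.pi ∧
      ‖u₀ z.1 + u₁ (z.1 + a₁ * cu z.2) + u₂ (z.1 + a₂ * cu z.2)‖ ≤ δ ∧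
      |(Zf a₁ a₂ u₁ u₂ z.1 z.2).im| ≤ δ ∧
      η ≤ |(Zf a₁ a₂ u₁ u₂ z.1 z.2).re| ∧ |(Zf a₁ a₂ u₁ u₂ z.1 z.2).re| ≤ 1 / η

/-- The box `[-T, T]²`. -/
def bx (T : ℝ) : Set ℂ := {x | |x.re| ≤ T ∧ |x.im| ≤ T}

/-- `1 / (1 + τ σ)`. -/
noncomputable def gk (σ : ℂ) (τ : ℝ) : ℂ := 1 / (1 + τ * σ)

/-- The weight after the substitution `d = (1 + τ σ) h`. -/
noncomputable def nu (σ : ℂ) (m : ℝ) (d : ℂ) (τ : ℝ) : ℝ :=
  ‖gk σ τ‖ ^ 2 * (max 0 (m - ‖gk σ τ * d‖ * (1 + |τ|)) / m ^ 3)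

/-- The pair function. -/
noncomputable def Fp (f : ℂ → ℂ) (α p : ℂ) : ℂ := f p * conj (f (p + α))

/-- The average over a square of side `w`. -/
noncomputable def Sq (w : ℝ) (F : ℂ → ℂ) (p : ℂ) : ℂ :=
  ((1 / w ^ 2 : ℝ) : ℂ) * ∫ y in sq 0 w, F (p + y)

end Pool.Agent.H67.Pl
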