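import Pool.Agent.H67.Pl.Basic

/-!
# Small facts on the forms
-/

open MeasureTheory
open scoped ComplexConjugate

namespace Pool.Agent.H67.Pl

theorem norm_cu (φ : ℝ) : ‖cu φ‖ = 1 := by
  unfold cu
  exact Complex.norm_exp_ofReal_mul_I φ

theorem Bd.mono {R R' : ℝ} {f : ℂ → ℂ} (h : Bd R f) (hR : R ≤ R') : Bd R' f :=
  ⟨h.meas, h.le_one, fun x hx => h.supp x (lt_of_le_of_lt hR hx)⟩

theorem measurable_cell (r : ℝ) : Measurable (cell r) := by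
  unfold cell
  exact (Int.measurable_floor.comp (Complex.measurable_re.div_const r)).prodMk
    (Int.measurable_floor.comp (Complex.measurable_im.div_const r))

theorem measurable_comp_cell (r : ℝ) (p : ℂ) (g : ℤ × ℤ → ℂ) :
    Measurable (fun x : ℂ => g (cell r (x - p))) :=
  (measurable_of_countable g).comp ((measurable_cell r).comp (measurable_id.sub_const p))

theorem measurable_pw (p : ℂ) (m : ℝ) (ξ a : ℤ × ℤ → ℂ) : Measurable (pw p m ξ a) := by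
  unfold pw
  refine (measurable_comp_cell m p a).mul ?_
  apply Complex.measurable_exp.comp
  refine (Complex.measurable_ofReal.comp ?_).mul_const _
  unfold ip
  have h := measurable_comp_cell m p ξ
  exact ((Complex.measurable_re.comp h).mul Complex.measurable_re).add
    ((Complex.measurable_im.comp h).mul Complex.measurable_im)

theorem norm_pw_le (p : ℂ) (m : ℝ) (ξ a : ℤ × ℤ → ℂ) (ha : ∀ k, ‖a k‖ ≤ 1) (x : ℂ) :
    ‖pw p m ξ a x‖ ≤ 1 := by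
  unfold pw
  rw [norm_mul, Complex.norm_exp_ofReal_mul_I, mul_one]
  exact ha _

theorem bd_bind {R : ℝ} {g : ℂ → ℂ} (hg : Measurable g) (h1 : ∀ x, ‖g x‖ ≤ 1) :
    Bd R (bind R g) := by
  refine ⟨?_, ?_, ?_⟩
  · unfold bind
    exact Measurable.ite (measurableSet_le measurable_norm measurable_const) hg measurable_const
  · intro x
    unfold bind
    split_ifs
    · exact h1 x
    · simp
  · intro x hx
    unfold bind
    rw [if_neg (not_le.mpr hx)]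

theorem bd_pw (R : ℝ) (p : ℂ) (m : ℝ) (ξ a : ℤ × ℤ → ℂ) (ha : ∀ k, ‖a k‖ ≤ 1) :
    Bd R (bind R (pw p m ξ a)) :=
  bd_bind (measurable_pw p m ξ a) (norm_pw_le p m ξ a ha)

theorem cform_comm (a₁ a₂ : ℂ) (f₀ f₁ f₂ : ℂ → ℂ) (z : ℂ) :
    cform a₁ a₂ f₀ f₁ f₂ z = cform a₂ a₁ f₀ f₂ f₁ z := by
  unfold cform
  congr 1
  funext φ
  congr 1
  funext x
  ring

theorem Tq_comm (a₁ a₂ : ℂ) (η : ℝ) (f₀ f₁ f₂ : ℂ → ℂ) :
    Tq a₁ a₂ η f₀ f₁ f₂ = Tq a₂ a₁ η f₀ f₂ f₁ := by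
  unfold Tq
  congr 1
  funext ρ
  rw [cform_comm]

theorem norm_qk_le (η ρ : ℝ) (hη : 0 < η) : ‖(qk η ρ : ℂ)‖ ≤ 1 / η := by
  unfold qk
  rw [Complex.norm_real, Real.norm_eq_abs]
  split_ifs
  · rw [abs_neg, abs_of_pos (by positivity)]
  · rw [abs_of_pos (by positivity)]

theorem norm_Tq_le (a₁ a₂ : ℂ) (η : ℝ) (hη : 0 < η) (f₀ f₁ f₂ : ℂ → ℂ) (K : ℝ)
    (hK : ∀ z, ‖cform a₁ a₂ f₀ f₁ f₂ z‖ ≤ K) : ‖Tq a₁ a₂ η f₀ f₁ f₂‖ ≤ K := by
  have hK0 : 0 ≤ K := (norm_nonneg _).trans (hK 0)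
  unfold Tq
  have h := intervalIntegral.norm_integral_le_of_norm_le_const (a := 0) (b := η)
    (f := fun ρ => (qk η ρ : ℂ) * cform a₁ a₂ f₀ f₁ f₂ ((1 + ρ : ℝ) : ℂ)) (C := 1 / η * K) (by
      intro ρ _
      rw [norm_mul]
      exact mul_le_mul (norm_qk_le η ρ hη) (hK _) (norm_nonneg _) (by positivity))
  refine h.trans (le_of_eq ?_)
  rw [sub_zero, abs_of_pos hη]
  field_simp

/-- Changing `f₁` and `f₂` outside a large ball does not change the form. -/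
theorem Tq_congr (a₁ a₂ : ℂ) (η : ℝ) (hη : 0 < η) (hη1 : η ≤ 1 / 2) (f₀ f₁ f₂ g₁ g₂ : ℂ → ℂ) (R : ℝ)
    (hR : 2 + 2 * ‖a₁‖ + 2 * ‖a₂‖ ≤ R) (h0 : ∀ x, x ∉ sq 0 1 → f₀ x = 0)
    (h1 : ∀ x, ‖x‖ ≤ R → f₁ x = g₁ x) (h2 : ∀ x, ‖x‖ ≤ R → f₂ x = g₂ x) :
    Tq a₁ a₂ η f₀ f₁ f₂ = Tq a₁ a₂ η f₀ g₁ g₂ := by
  unfold Tq
  apply intervalIntegral.integral_congr
  intro ρ hρ
  rw [Set.uIcc_of_le hη.le] at hρ
  simp only
  congr 1
  unfold cform
  congr 1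
  funext φ
  congr 1
  funext x
  by_cases hx : x ∈ sq 0 1
  · have hxn : ‖x‖ ≤ 2 := by
      obtain ⟨k1, k2, k3, k4⟩ := hx
      simp only [Complex.zero_re, Complex.zero_im, zero_add] at k1 k2 k3 k4
      calc ‖x‖ ≤ |x.re| + |x.im| := Complex.norm_le_abs_re_add_abs_im x
        _ ≤ 1 + 1 := by
          rw [abs_of_nonneg k1, abs_of_nonneg k3]
          linarith
        _ = 2 := by norm_num
    have hz : ∀ a : ℂ, ‖x + a * ((1 + ρ : ℝ) : ℂ) * cu φ‖ ≤ 2 + 2 * ‖a‖ := by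
      intro a
      calc ‖x + a * ((1 + ρ : ℝ) : ℂ) * cu φ‖ ≤ ‖x‖ + ‖a * ((1 + ρ : ℝ) : ℂ) * cu φ‖ :=
            norm_add_le _ _
        _ ≤ 2 + 2 * ‖a‖ := by
          rw [norm_mul, norm_mul, norm_cu, mul_one, Complex.norm_real, Real.norm_eq_abs,
            abs_of_nonneg (by linarith [hρ.1])]
          have := norm_nonneg a
          nlinarith [hρ.2]
    rw [h1 _ ((hz a₁).trans (by linarith [norm_nonneg a₂])),
      h2 _ ((hz a₂).trans (by linarith [norm_nonneg a₁]))]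
  · rw [h0 x hx]
    ring

end Pool.Agent.H67.Pl
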