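import Pool.Agent.H67.Pl.Basic

/-!
# The box forms of all directions and the form of the parallelograms of a fixed angle
-/

open MeasureTheory Set
open scoped ComplexConjugate

namespace Pool.Agent.H67.Pl.BL

theorem cu_cont : Continuous cu := by
  unfold cu
  fun_prop

theorem cu_nrm (φ : ℝ) : ‖cu φ‖ = 1 := Complex.norm_exp_ofReal_mul_I φ

theorem cu_pi (φ : ℝ) : cu (φ + Real.pi) = -cu φ := by
  unfold cu
  push_cast
  rw [add_mul, Complex.exp_add, Complex.exp_pi_mul_I]
  ring

theorem cu_two_pi (φ : ℝ) : cu (φ + 2 * Real.pi) = cu φ := by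
  have : φ + 2 * Real.pi = (φ + Real.pi) + Real.pi := by ring
  rw [this, cu_pi, cu_pi, neg_neg]

/-- The correlation. -/
noncomputable def G (f : ℂ → ℂ) (u v : ℂ) : ℂ :=
  ∫ x : ℂ, f x * conj (f (x + u)) * conj (f (x + v)) * f (x + u + v)

theorem G_meas {f : ℂ → ℂ} (hf : Measurable f) : Measurable (fun p : ℂ × ℂ => G f p.1 p.2) := by
  have h : Measurable (fun q : (ℂ × ℂ) × ℂ =>
      f q.2 * conj (f (q.2 + q.1.1)) * conj (f (q.2 + q.1.2)) * f (q.2 + q.1.1 + q.1.2)) := by
    have h1 : Measurable (fun q : (ℂ × ℂ) × ℂ => f q.2) := hf.comp measurable_snd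
    have h2 : Measurable (fun q : (ℂ × ℂ) × ℂ => f (q.2 + q.1.1)) :=
      hf.comp (measurable_snd.add (measurable_fst.comp measurable_fst))
    have h3 : Measurable (fun q : (ℂ × ℂ) × ℂ => f (q.2 + q.1.2)) :=
      hf.comp (measurable_snd.add (measurable_snd.comp measurable_fst))
    have h4 : Measurable (fun q : (ℂ × ℂ) × ℂ => f (q.2 + q.1.1 + q.1.2)) :=
      hf.comp ((measurable_snd.add (measurable_fst.comp measurable_fst)).add
        (measurable_snd.comp measurable_fst))
    exact ((h1.mul (Complex.continuous_conj.measurable.comp h2)).mul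
      (Complex.continuous_conj.measurable.comp h3)).mul h4
  exact (h.stronglyMeasurable.integral_prod_right').measurable

theorem G_meas' {α : Type*} [MeasurableSpace α] {f : ℂ → ℂ} (hf : Measurable f) {u v : α → ℂ}
    (hu : Measurable u) (hv : Measurable v) : Measurable (fun x => G f (u x) (v x)) := by
  have h := (G_meas hf).comp (hu.prodMk hv)
  simp only [Function.comp_def] at h
  exact h

theorem G_norm {R : ℝ} {f : ℂ → ℂ} (hf : Bd R f) (u v : ℂ) :
    ‖G f u v‖ ≤ volume.real (Metric.closedBall (0 : ℂ) R) := by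
  unfold G
  have h0 : ∀ x, x ∉ Metric.closedBall (0 : ℂ) R →
      f x * conj (f (x + u)) * conj (f (x + v)) * f (x + u + v) = 0 := by
    intro x hx
    have : R < ‖x‖ := by simpa using hx
    rw [hf.supp x this]
    ring
  rw [← setIntegral_eq_integral_of_forall_compl_eq_zero h0]
  have h1 := norm_setIntegral_le_of_norm_le_const (μ := (volume : Measure ℂ))
    (s := Metric.closedBall (0 : ℂ) R) (C := 1)
    (f := fun x => f x * conj (f (x + u)) * conj (f (x + v)) * f (x + u + v))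
    measure_closedBall_lt_top (by
      intro x _
      rw [norm_mul, norm_mul, norm_mul, RCLike.norm_conj, RCLike.norm_conj]
      have a1 := hf.le_one x
      have a2 := hf.le_one (x + u)
      have a3 := hf.le_one (x + v)
      have a4 := hf.le_one (x + u + v)
      have b1 := norm_nonneg (f x)
      have b2 := norm_nonneg (f (x + u))
      have b3 := norm_nonneg (f (x + v))
      have b4 := norm_nonneg (f (x + u + v))
      exact mul_le_one₀ (mul_le_one₀ (mul_le_one₀ a1 b2 a2) b3 a3) b4 a4)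
  rwa [one_mul] at h1

/-- The integrand of the form `Lam`. -/
noncomputable def Fz (f : ℂ → ℂ) (σ : ℂ) (m : ℝ) (h : ℂ) : ℂ :=
  ∫ τ : ℝ, ((max 0 (m - ‖h‖ * (1 + |τ|)) / m ^ 3 : ℝ) : ℂ) * G f h (τ * σ * h)

theorem Lam_eq (f : ℂ → ℂ) (σ : ℂ) (m : ℝ) : Lam σ m f = ∫ h : ℂ, Fz f σ m h := by
  unfold Lam Fz Qf G
  congr 1
  funext h
  congr 1
  funext τ
  congr 1
  congr 1
  funext x
  have : x + (1 + τ * σ) * h = x + h + τ * σ * h := by ring
  rw [this]

/-- The inner integral of the box form. -/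
noncomputable def H (f : ℂ → ℂ) (a c : ℂ) (M s φ : ℝ) : ℂ :=
  ∫ r : ℝ, (Wt M s r : ℂ) * G f (s * (a * (Complex.I * cu φ))) (r * (c * (Complex.I * cu φ)))

theorem boxf_eq (f : ℂ → ℂ) (a c : ℂ) (M φ : ℝ) :
    boxf (a * (Complex.I * cu φ)) (c * (Complex.I * cu φ)) M f = ∫ s : ℝ, H f a c M s φ := rfl

theorem H_neg (f : ℂ → ℂ) (a c : ℂ) (M s φ : ℝ) :
    H f a c M (-s) φ = H f a c M s (φ + Real.pi) := by
  unfold H
  rw [← integral_neg_eq_self]
  congr 1
  funext r
  unfold Wt
  rw [abs_neg, abs_neg, cu_pi]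
  congr 2
  · push_cast
    ring
  · push_cast
    ring

theorem H_per (f : ℂ → ℂ) (a c : ℂ) (M s φ : ℝ) :
    H f a c M s (φ + 2 * Real.pi) = H f a c M s φ := by
  unfold H
  rw [cu_two_pi]

theorem H_eq (f : ℂ → ℂ) (a c : ℂ) (ha : a ≠ 0) (M s φ : ℝ) (hs : 0 < s) :
    H f a c M s φ =
      ((‖a‖ ^ 2 : ℝ) : ℂ) * ((s : ℂ) * Fz f (c / a) (M * ‖a‖) (s * (a * (Complex.I * cu φ)))) := by
  have hap : 0 < ‖a‖ := norm_pos_iff.mpr ha
  have h1 : H f a c M s φ = (s : ℂ) * ∫ τ : ℝ, (Wt M s (τ * s) : ℂ) *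
      G f (s * (a * (Complex.I * cu φ))) (((τ * s : ℝ) : ℂ) * (c * (Complex.I * cu φ))) := by
    have h2 := Measure.integral_comp_mul_right (fun r : ℝ => (Wt M s r : ℂ) *
      G f (s * (a * (Complex.I * cu φ))) (r * (c * (Complex.I * cu φ)))) s
    rw [h2, abs_of_pos (inv_pos.mpr hs), Complex.real_smul, ← mul_assoc, ← Complex.ofReal_mul,
      mul_inv_cancel₀ hs.ne', Complex.ofReal_one, one_mul]
    rfl
  rw [h1, mul_left_comm ((‖a‖ ^ 2 : ℝ) : ℂ) (s : ℂ)]
  congr 1
  unfold Fz
  rw [← integral_const_mul]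
  congr 1
  funext τ
  rw [← mul_assoc ((‖a‖ ^ 2 : ℝ) : ℂ), ← Complex.ofReal_mul]
  congr 2
  · rw [norm_mul, norm_mul, norm_mul, Complex.norm_real, Complex.norm_I, cu_nrm, Real.norm_eq_abs,
      abs_of_pos hs]
    unfold Wt
    rw [abs_mul, abs_of_pos hs]
    have e : M * ‖a‖ - s * (‖a‖ * (1 * 1)) * (1 + |τ|) = ‖a‖ * (M - s - |τ| * s) := by ring
    rw [e]
    have e2 : max 0 (‖a‖ * (M - s - |τ| * s)) = ‖a‖ * max 0 (M - s - |τ| * s) := by
      rw [mul_max_of_nonneg _ _ hap.le, mul_zero]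
    rw [e2]
    rcases eq_or_ne M 0 with hM | hM
    · rw [hM]
      simp
    · field_simp
  · push_cast
    field_simp

theorem Wt_meas (M : ℝ) : Measurable (fun p : ℝ × ℝ => Wt M p.1 p.2) := by
  unfold Wt
  fun_prop

theorem H_meas {f : ℂ → ℂ} (hf : Measurable f) (a c : ℂ) (M : ℝ) :
    Measurable (fun p : ℝ × ℝ => H f a c M p.1 p.2) := by
  have h : Measurable (fun q : (ℝ × ℝ) × ℝ => (Wt M q.1.1 q.2 : ℂ) *
      G f (q.1.1 * (a * (Complex.I * cu q.1.2))) (q.2 * (c * (Complex.I * cu q.1.2)))) := by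
    have hc : Measurable (fun q : (ℝ × ℝ) × ℝ => cu q.1.2) :=
      cu_cont.measurable.comp (measurable_snd.comp measurable_fst)
    have h1 : Measurable (fun q : (ℝ × ℝ) × ℝ => (Wt M q.1.1 q.2 : ℂ)) :=
      Complex.measurable_ofReal.comp
        ((Wt_meas M).comp ((measurable_fst.comp measurable_fst).prodMk measurable_snd))
    have h2 : Measurable (fun q : (ℝ × ℝ) × ℝ => ((q.1.1 : ℂ) * (a * (Complex.I * cu q.1.2)))) :=
      (Complex.measurable_ofReal.comp (measurable_fst.comp measurable_fst)).mul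
        ((hc.const_mul _).const_mul _)
    have h3 : Measurable (fun q : (ℝ × ℝ) × ℝ => ((q.2 : ℂ) * (c * (Complex.I * cu q.1.2)))) :=
      (Complex.measurable_ofReal.comp measurable_snd).mul ((hc.const_mul _).const_mul _)
    exact h1.mul (G_meas' hf h2 h3)
  exact (h.stronglyMeasurable.integral_prod_right').measurable

theorem H_meas' {α : Type*} [MeasurableSpace α] {f : ℂ → ℂ} (hf : Measurable f) (a c : ℂ) (M : ℝ)
    {u v : α → ℝ} (hu : Measurable u) (hv : Measurable v) :
    Measurable (fun x => H f a c M (u x) (v x)) := by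
  have h := (H_meas hf a c M).comp (hu.prodMk hv)
  simp only [Function.comp_def] at h
  exact h

theorem H_zero (f : ℂ → ℂ) (a c : ℂ) (M s φ : ℝ) (hs : M < |s|) : H f a c M s φ = 0 := by
  unfold H
  have : ∀ r : ℝ, (Wt M s r : ℂ) * G f (s * (a * (Complex.I * cu φ)))
      (r * (c * (Complex.I * cu φ))) = 0 := by
    intro r
    have h0 : Wt M s r = 0 := by
      unfold Wt
      rw [max_eq_left (by linarith [abs_nonneg r]), zero_div]
    rw [h0, Complex.ofReal_zero, zero_mul]
  simp only [this, integral_zero]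

theorem H_norm {R : ℝ} {f : ℂ → ℂ} (hf : Bd R f) (a c : ℂ) {M : ℝ} (hM : 0 < M) (s φ : ℝ) :
    ‖H f a c M s φ‖ ≤ M / M ^ 3 * volume.real (Metric.closedBall (0 : ℂ) R) * (2 * M) := by
  unfold H
  set V := volume.real (Metric.closedBall (0 : ℂ) R) with hV
  have hV0 : 0 ≤ V := measureReal_nonneg
  have h0 : ∀ r : ℝ, r ∉ Icc (-M) M → (Wt M s r : ℂ) * G f (s * (a * (Complex.I * cu φ)))
      (r * (c * (Complex.I * cu φ))) = 0 := by
    intro r hr
    have hr' : M < |r| := by
      by_contra hcon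
      exact hr (abs_le.mp (not_lt.mp hcon))
    have h0 : Wt M s r = 0 := by
      unfold Wt
      rw [max_eq_left (by linarith [abs_nonneg s]), zero_div]
    rw [h0, Complex.ofReal_zero, zero_mul]
  rw [← setIntegral_eq_integral_of_forall_compl_eq_zero h0]
  have h1 := norm_setIntegral_le_of_norm_le_const (μ := (volume : Measure ℝ))
    (s := Icc (-M) M) (C := M / M ^ 3 * V)
    (f := fun r : ℝ => (Wt M s r : ℂ) * G f (s * (a * (Complex.I * cu φ)))
      (r * (c * (Complex.I * cu φ))))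
    measure_Icc_lt_top (by
      intro r _
      rw [norm_mul, Complex.norm_real, Real.norm_eq_abs]
      have hW0 : 0 ≤ Wt M s r := by
        unfold Wt
        positivity
      rw [abs_of_nonneg hW0]
      refine mul_le_mul ?_ (G_norm hf _ _) (norm_nonneg _) (by positivity)
      unfold Wt
      gcongr
      exact max_le hM.le (by linarith [abs_nonneg s, abs_nonneg r]))
  rw [Real.volume_real_Icc_of_le (by linarith)] at h1
  have e : M - -M = 2 * M := by ring
  rwa [e] at h1

/-- The part of the box form of the positive `s`. -/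
noncomputable def P (f : ℂ → ℂ) (a c : ℂ) (M φ : ℝ) : ℂ := ∫ s in Ioi (0 : ℝ), H f a c M s φ

theorem H_int {R : ℝ} {f : ℂ → ℂ} (hf : Bd R f) (a c : ℂ) {M : ℝ} (hM : 0 < M) (φ : ℝ) :
    Integrable (fun s => H f a c M s φ) := by
  set B := M / M ^ 3 * volume.real (Metric.closedBall (0 : ℂ) R) * (2 * M) with hB
  have hm : Measurable (fun s => H f a c M s φ) :=
    H_meas' hf.meas a c M measurable_id measurable_const
  refine Integrable.mono' (g := (Icc (-M) M).indicator (fun _ => B)) ?_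
    hm.aestronglyMeasurable (Filter.Eventually.of_forall fun s => ?_)
  · exact (integrable_indicator_iff measurableSet_Icc).mpr
      (integrableOn_const (by simp) (by simp))
  · by_cases hs : s ∈ Icc (-M) M
    · rw [indicator_of_mem hs]
      exact H_norm hf a c hM s φ
    · rw [indicator_of_notMem hs]
      have hs' : M < |s| := by
        by_contra hcon
        exact hs (abs_le.mp (not_lt.mp hcon))
      rw [H_zero f a c M s φ hs', norm_zero]

theorem boxf_split {R : ℝ} {f : ℂ → ℂ} (hf : Bd R f) (a c : ℂ) {M : ℝ} (hM : 0 < M) (φ : ℝ) :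
    boxf (a * (Complex.I * cu φ)) (c * (Complex.I * cu φ)) M f =
      P f a c M φ + P f a c M (φ + Real.pi) := by
  rw [boxf_eq]
  have hi := H_int hf a c hM φ
  rw [← intervalIntegral.integral_Iic_add_Ioi hi.integrableOn hi.integrableOn (b := 0), add_comm]
  congr 1
  have h := integral_comp_neg_Ioi (c := (0 : ℝ)) (f := fun s => H f a c M s φ)
  rw [neg_zero] at h
  rw [← h]
  unfold P
  simp only [H_neg]

theorem P_meas {f : ℂ → ℂ} (hf : Measurable f) (a c : ℂ) (M : ℝ) : Measurable (P f a c M) := by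
  have h : Measurable (fun p : ℝ × ℝ => H f a c M p.2 p.1) :=
    H_meas' hf a c M measurable_snd measurable_fst
  exact (h.stronglyMeasurable.integral_prod_right' (ν := volume.restrict (Ioi (0 : ℝ)))).measurable

theorem P_per (f : ℂ → ℂ) (a c : ℂ) (M : ℝ) : Function.Periodic (P f a c M) (2 * Real.pi) := by
  intro φ
  unfold P
  simp only [H_per]

theorem P_norm {R : ℝ} {f : ℂ → ℂ} (hf : Bd R f) (a c : ℂ) {M : ℝ} (hM : 0 < M) (φ : ℝ) :
    ‖P f a c M φ‖ ≤ M / M ^ 3 * volume.real (Metric.closedBall (0 : ℂ) R) * (2 * M) * M := by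
  unfold P
  have h0 : ∫ s in Ioi (0 : ℝ), H f a c M s φ = ∫ s in Ioc (0 : ℝ) M, H f a c M s φ := by
    refine setIntegral_eq_of_subset_of_forall_sdiff_eq_zero measurableSet_Ioi
      Ioc_subset_Ioi_self ?_
    intro s hs
    apply H_zero
    rcases hs with ⟨h1, h2⟩
    by_contra hcon
    apply h2
    exact ⟨h1, (le_abs_self s).trans (not_lt.mp hcon)⟩
  rw [h0]
  have h1 := norm_setIntegral_le_of_norm_le_const (μ := (volume : Measure ℝ))
    (s := Ioc (0 : ℝ) M) (C := M / M ^ 3 * volume.real (Metric.closedBall (0 : ℂ) R) * (2 * M))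
    (f := fun s => H f a c M s φ) measure_Ioc_lt_top (fun s _ => H_norm hf a c hM s φ)
  rw [Real.volume_real_Ioc_of_le hM.le, sub_zero] at h1
  exact h1

theorem P_ii {R : ℝ} {f : ℂ → ℂ} (hf : Bd R f) (a c : ℂ) {M : ℝ} (hM : 0 < M) (x y t : ℝ) :
    IntervalIntegrable (fun φ => P f a c M (φ + t)) volume x y := by
  have hm : Measurable (fun φ => P f a c M (φ + t)) :=
    (P_meas hf.meas a c M).comp (measurable_id.add_const t)
  have hc : IntervalIntegrable (fun _ : ℝ => M / M ^ 3 *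
      volume.real (Metric.closedBall (0 : ℂ) R) * (2 * M) * M) volume x y :=
    intervalIntegrable_const
  exact hc.mono_fun' hm.aestronglyMeasurable
    (Filter.Eventually.of_forall fun φ => P_norm hf a c hM _)

theorem left_eq {R : ℝ} {f : ℂ → ℂ} (hf : Bd R f) (a c : ℂ) {M : ℝ} (hM : 0 < M) :
    ∫ φ in (0 : ℝ)..(2 * Real.pi),
      boxf (a * (Complex.I * cu φ)) (c * (Complex.I * cu φ)) M f =
        2 * ∫ φ in (0 : ℝ)..(2 * Real.pi), P f a c M φ := by
  simp only [boxf_split hf a c hM]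
  have h0 := P_ii hf a c hM 0 (2 * Real.pi) 0
  simp only [add_zero] at h0
  rw [intervalIntegral.integral_add h0 (P_ii hf a c hM 0 (2 * Real.pi) Real.pi),
    intervalIntegral.integral_comp_add_right (P f a c M), zero_add]
  have h := (P_per f a c M).intervalIntegral_add_eq 0 Real.pi
  rw [zero_add, add_comm Real.pi] at h
  rw [← h]
  ring

theorem mul_change (F : ℂ → ℂ) (a : ℂ) (ha : a ≠ 0) :
    ∫ h : ℂ, F h = ((‖a‖ ^ 2 : ℝ) : ℂ) * ∫ h : ℂ, F (a * h) := by
  have hap : 0 < ‖a‖ := norm_pos_iff.mpr ha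
  have hu : ‖a / (‖a‖ : ℂ)‖ = 1 := by
    rw [norm_div, Complex.norm_real, norm_norm, div_self hap.ne']
  set u : Circle := ⟨a / (‖a‖ : ℂ), mem_sphere_zero_iff_norm.mpr hu⟩ with hu'
  have hmp := (rotation u).measurePreserving
  have h1 : ∫ h : ℂ, F ((rotation u) h) = ∫ h : ℂ, F h :=
    hmp.integral_comp (rotation u).toHomeomorph.measurableEmbedding F
  have h2 : ∫ h : ℂ, F ((rotation u) (‖a‖ • h)) =
      |(‖a‖ ^ Module.finrank ℝ ℂ)⁻¹| • ∫ h : ℂ, F ((rotation u) h) :=
    Measure.integral_comp_smul volume (fun h => F ((rotation u) h)) ‖a‖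
  have h3 : ∀ h : ℂ, (rotation u) (‖a‖ • h) = a * h := by
    intro h
    rw [rotation_apply]
    have : ((u : Circle) : ℂ) = a / (‖a‖ : ℂ) := rfl
    rw [this, Complex.real_smul]
    have hne : (‖a‖ : ℂ) ≠ 0 := by exact_mod_cast hap.ne'
    field_simp
  simp only [h3] at h2
  rw [h2, h1, Complex.finrank_real_complex, abs_of_pos (by positivity), Complex.real_smul,
    ← mul_assoc, ← Complex.ofReal_mul, mul_inv_cancel₀ (by positivity), Complex.ofReal_one, one_mul]

theorem right_eq {R : ℝ} {f : ℂ → ℂ} (hf : Bd R f) (a c : ℂ) (ha : a ≠ 0) {M : ℝ} (hM : 0 < M) :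
    Lam (c / a) (M * ‖a‖) f = ∫ φ in (0 : ℝ)..(2 * Real.pi), P f a c M φ := by
  have haI : a * Complex.I ≠ 0 := mul_ne_zero ha Complex.I_ne_zero
  have hn : ‖a * Complex.I‖ = ‖a‖ := by rw [norm_mul, Complex.norm_I, mul_one]
  rw [Lam_eq, mul_change _ (a * Complex.I) haI, hn, ← integral_const_mul,
    ← Complex.integral_comp_polarCoord_symm]
  have hper := (P_per f a c M).intervalIntegral_add_eq 0 (-Real.pi)
  have e : -Real.pi + 2 * Real.pi = Real.pi := by ring
  rw [zero_add, e] at hper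
  rw [hper, intervalIntegral.integral_of_le (by linarith [Real.pi_pos]),
    integral_Ioc_eq_integral_Ioo]
  have htar : polarCoord.target = Ioi (0 : ℝ) ×ˢ Ioo (-Real.pi) Real.pi := rfl
  rw [htar]
  have key : ∀ p ∈ Ioi (0 : ℝ) ×ˢ Ioo (-Real.pi) Real.pi,
      p.1 • (((‖a‖ ^ 2 : ℝ) : ℂ) * Fz f (c / a) (M * ‖a‖)
        (a * Complex.I * Complex.polarCoord.symm p)) = H f a c M p.1 p.2 := by
    intro p hp
    rw [H_eq f a c ha M p.1 p.2 hp.1, Complex.real_smul, mul_left_comm]
    congr 3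
    rw [Complex.polarCoord_symm_apply]
    have : cu p.2 = (Real.cos p.2 : ℂ) + (Real.sin p.2 : ℂ) * Complex.I := by
      unfold cu
      rw [Complex.exp_mul_I]
      push_cast
      rfl
    rw [this]
    ring
  rw [setIntegral_congr_fun (measurableSet_Ioi.prod measurableSet_Ioo) key]
  have hint : IntegrableOn (fun p : ℝ × ℝ => H f a c M p.1 p.2)
      (Ioi (0 : ℝ) ×ˢ Ioo (-Real.pi) Real.pi) (volume.prod volume) := by
    set B := M / M ^ 3 * volume.real (Metric.closedBall (0 : ℂ) R) * (2 * M) with hB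
    have hfin : IntegrableOn (fun _ : ℝ × ℝ => B) (Icc (-M) M ×ˢ Icc (-Real.pi) Real.pi)
        (volume.prod volume) := by
      refine integrableOn_const ?_ (by simp)
      exact (isCompact_Icc.prod isCompact_Icc).measure_lt_top.ne
    have hg : Integrable ((Icc (-M) M ×ˢ Icc (-Real.pi) Real.pi).indicator
        (fun _ : ℝ × ℝ => B)) (volume.prod volume) :=
      (integrable_indicator_iff (measurableSet_Icc.prod measurableSet_Icc)).mpr hfin
    refine Integrable.mono' (g := (Icc (-M) M ×ˢ Icc (-Real.pi) Real.pi).indicator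
      (fun _ : ℝ × ℝ => B)) hg.integrableOn (H_meas hf.meas a c M).aestronglyMeasurable ?_
    rw [ae_restrict_iff' (measurableSet_Ioi.prod measurableSet_Ioo)]
    refine Filter.Eventually.of_forall fun p hp => ?_
    by_cases hs : M < |p.1|
    · rw [H_zero f a c M p.1 p.2 hs, norm_zero]
      apply indicator_nonneg
      intro _ _
      exact (norm_nonneg _).trans (H_norm hf a c hM 0 0)
    · rw [indicator_of_mem]
      · exact H_norm hf a c hM _ _
      · exact ⟨abs_le.mp (not_lt.mp hs), Ioo_subset_Icc_self hp.2⟩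
  rw [Measure.volume_eq_prod, setIntegral_prod _ hint]
  rw [integral_integral_swap]
  · rfl
  · rw [IntegrableOn, ← Measure.prod_restrict] at hint
    exact hint

end Pool.Agent.H67.Pl.BL

namespace Pool.Agent.H67.Pl

theorem box_lam (a₁ a₂ : ℂ) (ha : a₁ ≠ 0) (R M : ℝ) (hM : 0 < M) (f : ℂ → ℂ) (hf : Bd R f) :
    ∫ φ in (0 : ℝ)..(2 * Real.pi),
      boxf (a₁ * (Complex.I * cu φ)) ((a₁ - a₂) * (Complex.I * cu φ)) M f =
        2 * Lam ((a₁ - a₂) / a₁) (M * ‖a₁‖) f := by
  rw [BL.left_eq hf a₁ (a₁ - a₂) hM, BL.right_eq hf a₁ (a₁ - a₂) ha hM]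

end Pool.Agent.H67.Pl
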