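import Pool.Agent.H67.Pl.Basic

/-!
# Many corners at one of finitely many scales
-/

open MeasureTheory
open scoped ComplexConjugate

namespace Pool.Agent.H63.Corn

/-- The real indicator of a set. -/
noncomputable def ind (A : Set ℂ) (x : ℂ) : ℝ := A.indicator (fun _ => (1 : ℝ)) x

/-- The product over a corner. -/
noncomputable def tri (A : Set ℂ) (a₁ a₂ w x : ℂ) : ℝ :=
  ind A x * ind A (x + a₁ * w) * ind A (x + a₂ * w)

lemma ind_of_mem {A : Set ℂ} {x : ℂ} (h : x ∈ A) : ind A x = 1 := by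
  simp [ind, h]

lemma ind_of_notMem {A : Set ℂ} {x : ℂ} (h : x ∉ A) : ind A x = 0 := by
  simp [ind, h]

lemma ind_nonneg (A : Set ℂ) (x : ℂ) : 0 ≤ ind A x := by
  by_cases h : x ∈ A
  · rw [ind_of_mem h]; norm_num
  · rw [ind_of_notMem h]

lemma ind_le_one (A : Set ℂ) (x : ℂ) : ind A x ≤ 1 := by
  by_cases h : x ∈ A
  · rw [ind_of_mem h]
  · rw [ind_of_notMem h]; norm_num

lemma ind_meas {A : Set ℂ} (hA : MeasurableSet A) : Measurable (ind A) :=
  measurable_const.indicator hA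

lemma ind_int {A : Set ℂ} (hA : MeasurableSet A) (hf : volume A ≠ ⊤) :
    Integrable (ind A) := by
  have h : Integrable (A.indicator (fun _ => (1 : ℝ))) :=
    (integrable_indicator_iff hA).2 (integrableOn_const hf)
  exact h

lemma integral_ind {A : Set ℂ} (hA : MeasurableSet A) : ∫ x, ind A x = volume.real A := by
  have h : ∫ x, A.indicator (fun _ => (1 : ℝ)) x = volume.real A := by
    rw [integral_indicator hA]; simp
  exact h

lemma tri_nonneg (A : Set ℂ) (a₁ a₂ w x : ℂ) : 0 ≤ tri A a₁ a₂ w x :=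
  mul_nonneg (mul_nonneg (ind_nonneg _ _) (ind_nonneg _ _)) (ind_nonneg _ _)

lemma tri_le (A : Set ℂ) (a₁ a₂ w x : ℂ) : tri A a₁ a₂ w x ≤ ind A x := by
  have h1 : ind A (x + a₁ * w) * ind A (x + a₂ * w) ≤ 1 :=
    mul_le_one₀ (ind_le_one _ _) (ind_nonneg _ _) (ind_le_one _ _)
  unfold tri
  rw [mul_assoc]
  calc _ ≤ ind A x * 1 := mul_le_mul_of_nonneg_left h1 (ind_nonneg _ _)
    _ = _ := mul_one _

lemma tri_meas {A : Set ℂ} (hA : MeasurableSet A) (a₁ a₂ : ℂ) {β : Type*} [MeasurableSpace β]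
    {f g : β → ℂ} (hf : Measurable f) (hg : Measurable g) :
    Measurable (fun b => tri A a₁ a₂ (f b) (g b)) := by
  unfold tri
  have hi := ind_meas hA
  exact ((hi.comp hg).mul (hi.comp (hg.add (hf.const_mul a₁)))).mul
    (hi.comp (hg.add (hf.const_mul a₂)))

lemma tri_int {A : Set ℂ} (hA : MeasurableSet A) (hf : volume A ≠ ⊤) (a₁ a₂ w : ℂ) :
    Integrable (tri A a₁ a₂ w) := by
  refine (ind_int hA hf).mono' (tri_meas hA a₁ a₂ measurable_const measurable_id).aestronglyMeasurable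
    (Filter.Eventually.of_forall fun x => ?_)
  rw [Real.norm_of_nonneg (tri_nonneg _ _ _ _ _)]
  exact tri_le _ _ _ _ _

/-- The corner form at the displacement `w`. -/
noncomputable def J (A : Set ℂ) (a₁ a₂ w : ℂ) : ℝ := ∫ x : ℂ, tri A a₁ a₂ w x

lemma corner_exists {n : ℕ} {ε : ℝ} (hε : 0 < ε) (hn : cornersTheoremBound (ε / 9) ≤ n)
    (B : Finset (ℕ × ℕ)) (hB : B ⊆ Finset.range n ×ˢ Finset.range n)
    (hc : ε * (n : ℝ) ^ 2 ≤ B.card) :
    ∃ i j i' j' : ℕ, ∃ d : ℤ, d ≠ 0 ∧ -(n : ℤ) < d ∧ d < n ∧ (i, j) ∈ B ∧ (i', j) ∈ B ∧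
      (i, j') ∈ B ∧ (i' : ℤ) = i + d ∧ (j' : ℤ) = j + d := by
  have h := corners_theorem_nat hε hn B hB hc
  unfold IsCornerFree at h
  push Not at h
  obtain ⟨x₁, y₁, x₂, y₂, hc, hne⟩ := h
  have h1 := hc.fst_fst_mem
  have h2 := hc.fst_snd_mem
  have h3 := hc.snd_fst_mem
  have h4 := hc.add_eq_add
  have m1 := hB h1
  have m3 := hB h3
  simp only [Finset.mem_product, Finset.mem_range] at m1 m3
  refine ⟨x₁, y₁, x₂, y₂, (x₂ : ℤ) - x₁, ?_, ?_, ?_, h1, h3, h2, by ring, ?_⟩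
  · intro h0
    apply hne
    omega
  · omega
  · omega
  · omega

/-- The grid points. -/
noncomputable def P (a₁ a₂ w : ℂ) (q : ℕ × ℕ) : ℂ := ((q.1 : ℂ) * a₁ + (q.2 : ℂ) * a₂) * w

/-- The nonzero differences. -/
noncomputable def D (n : ℕ) : Finset ℤ := (Finset.Ioo (-(n : ℤ)) n).erase 0

lemma D_card (n : ℕ) : ((D n).card : ℝ) ≤ 2 * n := by
  have h1 : (D n).card ≤ (Finset.Ioo (-(n : ℤ)) n).card := Finset.card_erase_le
  have h2 : (Finset.Ioo (-(n : ℤ)) n).card ≤ 2 * n := by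
    rw [Int.card_Ioo]; omega
  exact_mod_cast h1.trans h2

lemma P_norm {a₁ a₂ w : ℂ} {n : ℕ} {q : ℕ × ℕ} (hq : q ∈ Finset.range n ×ˢ Finset.range n) :
    ‖P a₁ a₂ w q‖ ≤ n * (‖a₁‖ + ‖a₂‖) * ‖w‖ := by
  simp only [Finset.mem_product, Finset.mem_range] at hq
  unfold P
  rw [norm_mul]
  refine mul_le_mul_of_nonneg_right ?_ (norm_nonneg _)
  have h1 : (q.1 : ℝ) ≤ n := by exact_mod_cast hq.1.le
  have h2 : (q.2 : ℝ) ≤ n := by exact_mod_cast hq.2.le
  calc ‖(q.1 : ℂ) * a₁ + (q.2 : ℂ) * a₂‖ ≤ ‖(q.1 : ℂ) * a₁‖ + ‖(q.2 : ℂ) * a₂‖ := norm_add_le _ _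
    _ = q.1 * ‖a₁‖ + q.2 * ‖a₂‖ := by simp
    _ ≤ n * ‖a₁‖ + n * ‖a₂‖ := by gcongr
    _ = _ := by ring

lemma norm_le_of_bx {T : ℝ} {x : ℂ} (h : x ∈ Pool.Agent.H67.Pl.bx T) : ‖x‖ ≤ 2 * T := by
  have h1 := Complex.norm_le_abs_re_add_abs_im x
  have h2 : |x.re| ≤ T ∧ |x.im| ≤ T := h
  linarith [h2.1, h2.2]

lemma pointwise {n : ℕ} {ε : ℝ} (hε : 0 < ε) (hn : cornersTheoremBound (ε / 9) ≤ n)
    (A : Set ℂ) (T : ℝ) (hA : A ⊆ Pool.Agent.H67.Pl.bx T) (a₁ a₂ w : ℂ)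
    (hw : n * (‖a₁‖ + ‖a₂‖) * ‖w‖ ≤ T) (x : ℂ) :
    ∑ q ∈ Finset.range n ×ˢ Finset.range n, ind A (x + P a₁ a₂ w q) ≤
      (n : ℝ) ^ 2 * (∑ q ∈ Finset.range n ×ˢ Finset.range n, ∑ d ∈ D n,
        tri A a₁ a₂ ((d : ℂ) * w) (x + P a₁ a₂ w q)) +
        ε * (n : ℝ) ^ 2 * ind (Metric.closedBall 0 (3 * T)) x := by
  classical
  set Q := Finset.range n ×ˢ Finset.range n with hQ
  set B := Q.filter (fun q => x + P a₁ a₂ w q ∈ A) with hBdef
  have hBQ : B ⊆ Q := Finset.filter_subset _ _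
  have hcnt : ∑ q ∈ Q, ind A (x + P a₁ a₂ w q) = (B.card : ℝ) := by
    rw [hBdef, Finset.card_filter]
    push_cast
    refine Finset.sum_congr rfl fun q _ => ?_
    by_cases h : x + P a₁ a₂ w q ∈ A
    · rw [ind_of_mem h, if_pos h]
    · rw [ind_of_notMem h, if_neg h]
  have hcor0 : 0 ≤ ∑ q ∈ Q, ∑ d ∈ D n, tri A a₁ a₂ ((d : ℂ) * w) (x + P a₁ a₂ w q) :=
    Finset.sum_nonneg fun q _ => Finset.sum_nonneg fun d _ => tri_nonneg _ _ _ _ _
  have hn2 : (0 : ℝ) ≤ (n : ℝ) ^ 2 := by positivity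
  have hI0 := ind_nonneg (Metric.closedBall 0 (3 * T)) x
  rw [hcnt]
  by_cases hc : ε * (n : ℝ) ^ 2 ≤ B.card
  · obtain ⟨i, j, i', j', d, hd0, hd1, hd2, m1, m2, m3, e1, e2⟩ := corner_exists hε hn B hBQ hc
    have hterm : 1 ≤ tri A a₁ a₂ ((d : ℂ) * w) (x + P a₁ a₂ w (i, j)) := by
      have q1 := (Finset.mem_filter.1 m1).2
      have q2 := (Finset.mem_filter.1 m2).2
      have q3 := (Finset.mem_filter.1 m3).2
      have r2 : x + P a₁ a₂ w (i, j) + a₁ * ((d : ℂ) * w) = x + P a₁ a₂ w (i', j) := by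
        have : (i' : ℂ) = i + d := by exact_mod_cast congrArg (fun z : ℤ => (z : ℂ)) e1
        simp only [P, this]; ring
      have r3 : x + P a₁ a₂ w (i, j) + a₂ * ((d : ℂ) * w) = x + P a₁ a₂ w (i, j') := by
        have : (j' : ℂ) = j + d := by exact_mod_cast congrArg (fun z : ℤ => (z : ℂ)) e2
        simp only [P, this]; ring
      unfold tri
      rw [r2, r3, ind_of_mem q1, ind_of_mem q2, ind_of_mem q3]
      norm_num
    have hdD : d ∈ D n := by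
      unfold D
      rw [Finset.mem_erase, Finset.mem_Ioo]
      exact ⟨hd0, hd1, hd2⟩
    have hcor1 : 1 ≤ ∑ q ∈ Q, ∑ d ∈ D n, tri A a₁ a₂ ((d : ℂ) * w) (x + P a₁ a₂ w q) := by
      calc (1 : ℝ) ≤ tri A a₁ a₂ ((d : ℂ) * w) (x + P a₁ a₂ w (i, j)) := hterm
        _ ≤ ∑ d ∈ D n, tri A a₁ a₂ ((d : ℂ) * w) (x + P a₁ a₂ w (i, j)) :=
          Finset.single_le_sum (f := fun d : ℤ => tri A a₁ a₂ ((d : ℂ) * w) (x + P a₁ a₂ w (i, j)))
            (fun d _ => tri_nonneg _ _ _ _ _) hdD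
        _ ≤ _ := Finset.single_le_sum
            (f := fun q => ∑ d ∈ D n, tri A a₁ a₂ ((d : ℂ) * w) (x + P a₁ a₂ w q))
            (fun q _ => Finset.sum_nonneg fun d _ => tri_nonneg _ _ _ _ _) (hBQ m1)
    have hle : (B.card : ℝ) ≤ (n : ℝ) ^ 2 := by
      have h1 : B.card ≤ Q.card := Finset.card_le_card hBQ
      have h2 : Q.card = n * n := by rw [hQ, Finset.card_product, Finset.card_range]
      have h3 : (B.card : ℝ) ≤ ((n * n : ℕ) : ℝ) := by exact_mod_cast h2 ▸ h1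
      push_cast at h3
      nlinarith
    have h5 : (n : ℝ) ^ 2 * 1 ≤ (n : ℝ) ^ 2 *
        (∑ q ∈ Q, ∑ d ∈ D n, tri A a₁ a₂ ((d : ℂ) * w) (x + P a₁ a₂ w q)) :=
      mul_le_mul_of_nonneg_left hcor1 hn2
    have h6 : 0 ≤ ε * (n : ℝ) ^ 2 * ind (Metric.closedBall 0 (3 * T)) x := by positivity
    linarith
  · push Not at hc
    rcases Finset.eq_empty_or_nonempty B with h0 | ⟨q, hq⟩
    · rw [h0]
      simp only [Finset.card_empty, Nat.cast_zero]
      positivity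
    · have hx : x ∈ Metric.closedBall (0 : ℂ) (3 * T) := by
        have hqA := (Finset.mem_filter.1 hq).2
        have hqQ := (Finset.mem_filter.1 hq).1
        have h1 := norm_le_of_bx (hA hqA)
        have h2 := (P_norm (a₁ := a₁) (a₂ := a₂) (w := w) hqQ).trans hw
        rw [mem_closedBall_zero_iff]
        calc ‖x‖ = ‖(x + P a₁ a₂ w q) - P a₁ a₂ w q‖ := by congr 1; ring
          _ ≤ ‖x + P a₁ a₂ w q‖ + ‖P a₁ a₂ w q‖ := norm_sub_le _ _
          _ ≤ 2 * T + T := add_le_add h1 h2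
          _ = 3 * T := by ring
      rw [ind_of_mem hx]
      have : 0 ≤ (n : ℝ) ^ 2 *
        (∑ q ∈ Q, ∑ d ∈ D n, tri A a₁ a₂ ((d : ℂ) * w) (x + P a₁ a₂ w q)) := by positivity
      linarith

lemma volA_ne_top {A : Set ℂ} {T : ℝ} (hA : A ⊆ Pool.Agent.H67.Pl.bx T) : volume A ≠ ⊤ := by
  have h : A ⊆ Metric.closedBall (0 : ℂ) (2 * T) := fun x hx => by
    rw [mem_closedBall_zero_iff]; exact norm_le_of_bx (hA hx)
  exact ne_top_of_le_ne_top measure_closedBall_lt_top.ne (measure_mono h)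

lemma sum_J {n : ℕ} {δ : ℝ} (hδ : 0 < δ) (hn : cornersTheoremBound (δ / 72 / 9) ≤ n)
    (hn1 : 1 ≤ n) (A : Set ℂ) (hAm : MeasurableSet A) (T : ℝ) (hT : 0 < T)
    (hA : A ⊆ Pool.Agent.H67.Pl.bx T) (a₁ a₂ w : ℂ)
    (hw : n * (‖a₁‖ + ‖a₂‖) * ‖w‖ ≤ T) (hvol : δ * T ^ 2 ≤ volume.real A) :
    δ * T ^ 2 / (2 * (n : ℝ) ^ 2) ≤ ∑ d ∈ D n, J A a₁ a₂ ((d : ℂ) * w) := by
  have hfin := volA_ne_top hA
  have hε : 0 < δ / 72 := by positivity
  set Q := Finset.range n ×ˢ Finset.range n with hQ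
  have hi1 : ∀ q ∈ Q, Integrable (fun x => ind A (x + P a₁ a₂ w q)) := fun q _ =>
    (ind_int hAm hfin).comp_add_right (P a₁ a₂ w q)
  have hi2 : ∀ q ∈ Q, ∀ d ∈ D n,
      Integrable (fun x => tri A a₁ a₂ ((d : ℂ) * w) (x + P a₁ a₂ w q)) := fun q _ d _ =>
    (tri_int hAm hfin a₁ a₂ ((d : ℂ) * w)).comp_add_right (P a₁ a₂ w q)
  have hi3 : Integrable (ind (Metric.closedBall (0 : ℂ) (3 * T))) :=
    ind_int measurableSet_closedBall measure_closedBall_lt_top.ne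
  have hmain := integral_mono (μ := volume)
    (f := fun x => ∑ q ∈ Q, ind A (x + P a₁ a₂ w q))
    (g := fun x => (n : ℝ) ^ 2 * (∑ q ∈ Q, ∑ d ∈ D n,
        tri A a₁ a₂ ((d : ℂ) * w) (x + P a₁ a₂ w q)) +
        δ / 72 * (n : ℝ) ^ 2 * ind (Metric.closedBall 0 (3 * T)) x)
    (integrable_finsetSum _ hi1)
    (((integrable_finsetSum _ fun q hq => integrable_finsetSum _ (hi2 q hq)).const_mul _).add
      (hi3.const_mul _))
    (fun x => pointwise hε hn A T hA a₁ a₂ w hw x)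
  rw [integral_finsetSum _ hi1, integral_add
    ((integrable_finsetSum _ fun q hq => integrable_finsetSum _ (hi2 q hq)).const_mul _)
    (hi3.const_mul _), integral_const_mul, integral_const_mul,
    integral_finsetSum _ (fun q hq => integrable_finsetSum _ (hi2 q hq)),
    integral_ind measurableSet_closedBall] at hmain
  have e1 : ∑ q ∈ Q, ∫ x, ind A (x + P a₁ a₂ w q) = (n : ℝ) ^ 2 * volume.real A := by
    have : ∀ q ∈ Q, ∫ x, ind A (x + P a₁ a₂ w q) = volume.real A := fun q _ => by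
      rw [integral_add_right_eq_self (ind A) (P a₁ a₂ w q), integral_ind hAm]
    rw [Finset.sum_congr rfl this, Finset.sum_const, hQ, Finset.card_product, Finset.card_range,
      nsmul_eq_mul]
    push_cast; ring
  have e2 : ∑ q ∈ Q, ∫ x, ∑ d ∈ D n, tri A a₁ a₂ ((d : ℂ) * w) (x + P a₁ a₂ w q) =
      (n : ℝ) ^ 2 * ∑ d ∈ D n, J A a₁ a₂ ((d : ℂ) * w) := by
    have : ∀ q ∈ Q, ∫ x, ∑ d ∈ D n, tri A a₁ a₂ ((d : ℂ) * w) (x + P a₁ a₂ w q) =
        ∑ d ∈ D n, J A a₁ a₂ ((d : ℂ) * w) := fun q hq => by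
      rw [integral_finsetSum _ (hi2 q hq)]
      refine Finset.sum_congr rfl fun d _ => ?_
      exact integral_add_right_eq_self (tri A a₁ a₂ ((d : ℂ) * w)) (P a₁ a₂ w q)
    rw [Finset.sum_congr rfl this, Finset.sum_const, hQ, Finset.card_product, Finset.card_range,
      nsmul_eq_mul]
    push_cast; ring
  rw [e1, e2] at hmain
  have hball : volume.real (Metric.closedBall (0 : ℂ) (3 * T)) ≤ 36 * T ^ 2 := by
    rw [Measure.real, Complex.volume_closedBall]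
    rw [ENNReal.toReal_mul, ENNReal.toReal_pow, ENNReal.toReal_ofReal (by positivity)]
    have hpi : ((NNReal.pi : ENNReal)).toReal = Real.pi := rfl
    rw [hpi]
    nlinarith [Real.pi_le_four, sq_nonneg T]
  set Z := ∑ d ∈ D n, J A a₁ a₂ ((d : ℂ) * w) with hZ
  have hnpos : (0 : ℝ) < (n : ℝ) ^ 2 := by
    have : (0 : ℝ) < n := by exact_mod_cast hn1
    positivity
  have h7 : (n : ℝ) ^ 2 * (δ * T ^ 2) ≤
      (n : ℝ) ^ 2 * ((n : ℝ) ^ 2 * Z) + δ / 72 * (n : ℝ) ^ 2 * (36 * T ^ 2) := by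
    have a1 := mul_le_mul_of_nonneg_left hvol hnpos.le
    have a2 := mul_le_mul_of_nonneg_left hball (by positivity : 0 ≤ δ / 72 * (n : ℝ) ^ 2)
    linarith
  have h8 : (n : ℝ) ^ 2 * (δ * T ^ 2 / 2) ≤ (n : ℝ) ^ 2 * ((n : ℝ) ^ 2 * Z) := by nlinarith
  have h9 : δ * T ^ 2 / 2 ≤ (n : ℝ) ^ 2 * Z := le_of_mul_le_mul_left h8 hnpos
  rw [div_le_iff₀ (by positivity)]
  linarith

/-- The annulus. -/
def S : Set ℂ := {v : ℂ | 1 ≤ ‖v‖ ∧ ‖v‖ ≤ 2}

lemma S_meas : MeasurableSet S :=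
  (measurableSet_le measurable_const measurable_norm).inter
    (measurableSet_le measurable_norm measurable_const)

lemma S_finite : volume S ≠ ⊤ := by
  have h : S ⊆ Metric.closedBall (0 : ℂ) 2 := fun x hx => by
    rw [mem_closedBall_zero_iff]; exact hx.2
  exact ne_top_of_le_ne_top measure_closedBall_lt_top.ne (measure_mono h)

instance : IsFiniteMeasure (volume.restrict S) := ⟨by
  rw [Measure.restrict_apply_univ]; exact lt_of_le_of_ne le_top S_finite⟩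

lemma S_pos : 0 < volume.real S := by
  have h : Metric.ball (3 / 2 : ℂ) (1 / 2) ⊆ S := by
    intro x hx
    rw [Metric.mem_ball, dist_eq_norm] at hx
    have h1 : ‖(3 / 2 : ℂ)‖ = 3 / 2 := by
      rw [norm_div]; simp
    constructor
    · have := norm_sub_norm_le (3 / 2 : ℂ) x
      rw [norm_sub_rev] at this
      linarith
    · have := norm_sub_norm_le x (3 / 2 : ℂ)
      linarith
  have h2 : 0 < volume (Metric.ball (3 / 2 : ℂ) (1 / 2)) :=
    Metric.measure_ball_pos _ _ (by norm_num)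
  exact ENNReal.toReal_pos (h2.trans_le (measure_mono h)).ne' S_finite

/-- The averaged corner form. -/
noncomputable def I (A : Set ℂ) (a₁ a₂ : ℂ) (s : ℝ) : ℝ := ∫ v in S, J A a₁ a₂ ((s : ℂ) * v)

lemma J_meas {A : Set ℂ} (hA : MeasurableSet A) (a₁ a₂ : ℂ) : Measurable (J A a₁ a₂) := by
  have h : Measurable (fun z : ℂ × ℂ => tri A a₁ a₂ z.1 z.2) :=
    tri_meas hA a₁ a₂ measurable_fst measurable_snd
  exact (h.stronglyMeasurable.integral_prod_right (ν := volume)).measurable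

lemma J_nonneg (A : Set ℂ) (a₁ a₂ w : ℂ) : 0 ≤ J A a₁ a₂ w :=
  integral_nonneg fun x => tri_nonneg _ _ _ _ _

lemma J_le {A : Set ℂ} (hA : MeasurableSet A) (hf : volume A ≠ ⊤) (a₁ a₂ w : ℂ) :
    J A a₁ a₂ w ≤ volume.real A := by
  rw [← integral_ind hA]
  exact integral_mono (tri_int hA hf a₁ a₂ w) (ind_int hA hf) (fun x => tri_le _ _ _ _ _)

lemma J_int {A : Set ℂ} (hA : MeasurableSet A) (hf : volume A ≠ ⊤) (a₁ a₂ : ℂ) (s : ℂ) :
    IntegrableOn (fun v => J A a₁ a₂ (s * v)) S := by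
  refine (integrable_const (volume.real A)).mono'
    ((J_meas hA a₁ a₂).comp (measurable_const_mul s)).aestronglyMeasurable
    (Filter.Eventually.of_forall fun x => ?_)
  rw [Real.norm_of_nonneg (J_nonneg _ _ _ _)]
  exact J_le hA hf _ _ _

lemma I_neg (A : Set ℂ) (a₁ a₂ : ℂ) (s : ℝ) : I A a₁ a₂ (-s) = I A a₁ a₂ s := by
  unfold I
  rw [← integral_indicator S_meas, ← integral_indicator S_meas,
    ← integral_neg_eq_self (S.indicator fun v => J A a₁ a₂ ((s : ℂ) * v))]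
  congr 1
  funext v
  have hS : (-v ∈ S) ↔ v ∈ S := by simp [S]
  by_cases hv : v ∈ S
  · rw [Set.indicator_of_mem hv, Set.indicator_of_mem (hS.2 hv)]
    congr 1
    push_cast; ring
  · rw [Set.indicator_of_notMem hv, Set.indicator_of_notMem (fun h => hv (hS.1 h))]

lemma I_eq {A : Set ℂ} (hA : MeasurableSet A) (hf : volume A ≠ ⊤) (a₁ a₂ : ℂ) (s : ℝ) :
    ∫ x : ℂ, ∫ v in S, tri A a₁ a₂ ((s : ℂ) * v) x = I A a₁ a₂ s := by
  unfold I J
  have hint : Integrable (Function.uncurry fun x v : ℂ => tri A a₁ a₂ ((s : ℂ) * v) x)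
      (volume.prod (volume.restrict S)) := by
    have hm : Measurable (Function.uncurry fun x v : ℂ => tri A a₁ a₂ ((s : ℂ) * v) x) :=
      tri_meas hA a₁ a₂ (measurable_snd.const_mul (s : ℂ)) measurable_fst
    refine ((ind_int hA hf).comp_fst (volume.restrict S)).mono' hm.aestronglyMeasurable
      (Filter.Eventually.of_forall fun z => ?_)
    simp only [Function.uncurry]
    rw [Real.norm_of_nonneg (tri_nonneg _ _ _ _ _)]
    exact tri_le _ _ _ _ _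
  exact integral_integral_swap hint

end Pool.Agent.H63.Corn

namespace Pool.Agent.H67.Pl

open Pool.Agent.H63.Corn in
theorem corners_lower (a₁ a₂ : ℂ) (δ : ℝ) (hδ : 0 < δ) :
    ∃ (N : ℕ) (c K : ℝ), 1 ≤ N ∧ 0 < c ∧ 1 ≤ K ∧ ∀ (A : Set ℂ) (T l : ℝ), MeasurableSet A →
      A ⊆ bx T → 0 < l → l * K ≤ T → δ * T ^ 2 ≤ volume.real A →
      ∃ t : ℕ, 1 ≤ t ∧ t ≤ N ∧ c * T ^ 2 ≤ ∫ x : ℂ, ∫ v in {v : ℂ | 1 ≤ ‖v‖ ∧ ‖v‖ ≤ 2},
        A.indicator (fun _ => (1 : ℝ)) x *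
          A.indicator (fun _ => (1 : ℝ)) (x + (t * l : ℝ) * a₁ * v) *
          A.indicator (fun _ => (1 : ℝ)) (x + (t * l : ℝ) * a₂ * v) := by
  set n : ℕ := cornersTheoremBound (δ / 72 / 9) + 1 with hn
  have hn1 : 1 ≤ n := by omega
  have hnb : cornersTheoremBound (δ / 72 / 9) ≤ n := by omega
  have hnR : (0 : ℝ) < n := by exact_mod_cast hn1
  have hSp := S_pos
  set c : ℝ := volume.real S * δ / (8 * (n : ℝ) ^ 3) with hc
  have hcpos : 0 < c := by positivity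
  refine ⟨n, c, 1 + 2 * (n * (‖a₁‖ + ‖a₂‖)), hn1, hcpos, ?_, ?_⟩
  · have : 0 ≤ 2 * (n * (‖a₁‖ + ‖a₂‖)) := by positivity
    linarith
  intro A T l hAm hA hl hK hvol
  have hfin := volA_ne_top hA
  have hT : 0 < T := by
    have : 0 ≤ l * (2 * (n * (‖a₁‖ + ‖a₂‖))) := by positivity
    nlinarith
  have hsum : ∀ v ∈ S, δ * T ^ 2 / (2 * (n : ℝ) ^ 2) ≤
      ∑ d ∈ D n, J A a₁ a₂ (((d : ℝ) * l : ℝ) * v) := by
    intro v hv
    have hw : n * (‖a₁‖ + ‖a₂‖) * ‖(l : ℂ) * v‖ ≤ T := by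
      rw [norm_mul, Complex.norm_real, Real.norm_of_nonneg hl.le]
      have h2 : ‖v‖ ≤ 2 := hv.2
      have h3 : 0 ≤ n * (‖a₁‖ + ‖a₂‖) * l := by positivity
      have h4 : n * (‖a₁‖ + ‖a₂‖) * (l * ‖v‖) ≤ n * (‖a₁‖ + ‖a₂‖) * l * 2 := by
        rw [← mul_assoc]
        exact mul_le_mul_of_nonneg_left h2 h3
      nlinarith
    have := sum_J hδ hnb hn1 A hAm T hT hA a₁ a₂ ((l : ℂ) * v) hw hvol
    refine this.trans_eq (Finset.sum_congr rfl fun d _ => ?_)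
    congr 1
    push_cast; ring
  have hI : volume.real S * (δ * T ^ 2 / (2 * (n : ℝ) ^ 2)) ≤
      ∑ d ∈ D n, I A a₁ a₂ ((d : ℝ) * l) := by
    have h1 : ∫ v in S, (δ * T ^ 2 / (2 * (n : ℝ) ^ 2)) ≤
        ∫ v in S, ∑ d ∈ D n, J A a₁ a₂ (((d : ℝ) * l : ℝ) * v) :=
      setIntegral_mono_on (integrableOn_const S_finite)
        (integrable_finsetSum _ fun d _ => J_int hAm hfin a₁ a₂ _) S_meas hsum
    rw [setIntegral_const, smul_eq_mul,
      integral_finsetSum _ (fun d _ => J_int hAm hfin a₁ a₂ _)] at h1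
    exact h1
  obtain ⟨d, hd, hdI⟩ : ∃ d ∈ D n, c * T ^ 2 ≤ I A a₁ a₂ ((d : ℝ) * l) := by
    by_contra! hcon
    have h1 : ∑ d ∈ D n, I A a₁ a₂ ((d : ℝ) * l) ≤ ∑ d ∈ D n, c * T ^ 2 :=
      Finset.sum_le_sum fun d hd => (hcon d hd).le
    rw [Finset.sum_const, nsmul_eq_mul] at h1
    have h2 : ((D n).card : ℝ) * (c * T ^ 2) ≤ 2 * n * (c * T ^ 2) :=
      mul_le_mul_of_nonneg_right (D_card n) (by positivity)
    have h3 : 2 * n * (c * T ^ 2) = volume.real S * (δ * T ^ 2 / (2 * (n : ℝ) ^ 2)) / 2 := by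
      rw [hc]; field_simp; ring
    have h4 : 0 < volume.real S * (δ * T ^ 2 / (2 * (n : ℝ) ^ 2)) := by positivity
    linarith
  have hd' : d ≠ 0 ∧ -(n : ℤ) < d ∧ d < n := by
    unfold D at hd
    rw [Finset.mem_erase, Finset.mem_Ioo] at hd
    exact hd
  refine ⟨d.natAbs, by omega, by omega, ?_⟩
  have key : I A a₁ a₂ ((d.natAbs : ℝ) * l) = I A a₁ a₂ ((d : ℝ) * l) := by
    rcases le_or_gt 0 d with h | h
    · have : ((d.natAbs : ℕ) : ℝ) = (d : ℝ) := by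
        rw [Nat.cast_natAbs, abs_of_nonneg h]
      rw [this]
    · have : ((d.natAbs : ℕ) : ℝ) = -(d : ℝ) := by
        rw [Nat.cast_natAbs, abs_of_neg h, Int.cast_neg]
      rw [this, neg_mul, I_neg]
  rw [← key, ← I_eq hAm hfin a₁ a₂] at hdI
  refine hdI.trans_eq ?_
  unfold tri ind
  refine integral_congr_ae (Filter.Eventually.of_forall fun x => ?_)
  refine integral_congr_ae (Filter.Eventually.of_forall fun v => ?_)
  simp only
  congr 2
  · congr 2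
    ring
  · congr 1
    ring

end Pool.Agent.H67.Pl
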