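import Pool.Agent.H26.Pl.FldDefs
import Pool.Agent.H69.Pl.Osc

/-!
# The arc lemma
-/

open MeasureTheory
open scoped ComplexConjugate

namespace Pool.Agent.H67.Pl

theorem arc (C₂ : ℕ) : ∃ C : ℕ, ∀ (D η s φ₀ : ℝ) (χ : ℂ), 2 ≤ D → 0 < η → η ≤ 1 / 2 → 0 < s →
    s ≤ 1 → η * D ^ C ≤ s → s ^ 2 * D ^ C ≤ η → s / D ^ C₂ ≤ ‖cJ η s χ φ₀‖ →
    ∀ φ, φ₀ ≤ φ → φ ≤ φ₀ + s → |ip χ (Complex.I * cu φ)| ≤ D ^ C / s ∧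
      1 / (D ^ C * η) ≤ |ip χ (cu φ)| ∧ |ip χ (cu φ)| ≤ D ^ C / η := by
  obtain ⟨C, hC⟩ := Osc69.osc_arc C₂
  refine ⟨C, ?_⟩
  intro D η s φ₀ χ hD hη hη2 hs hs1 h1 h2 hbig φ hφ1 hφ2
  have hDC : 0 < D ^ C := by positivity
  have e : cJ η s χ φ₀ = ∫ φ in φ₀..(φ₀ + s), ∫ ρ in (0 : ℝ)..η, (qk η ρ : ℂ) *
      Complex.exp ((ip χ (((1 + ρ : ℝ) : ℂ) * cu φ) : ℝ) * Complex.I) := by
    rw [Osc69.osc_swap hη χ φ₀ (φ₀ + s) (by linarith), cJ]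
    refine intervalIntegral.integral_congr fun ρ _ => ?_
    show _ = _
    congr 1
    refine intervalIntegral.integral_congr fun φ _ => ?_
    show Complex.exp _ = _
    rw [Osc69.ip_ofReal_mul]
  rw [e] at hbig
  exact hC D η s φ₀ χ hD hη hs (by rw [le_div_iff₀ hDC]; exact h2)
    (by rw [le_div_iff₀ hDC]; linarith) hbig φ hφ1 hφ2

end Pool.Agent.H67.Pl
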