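import Pool.Agent.H26.Pl.FldDefs
import Pool.Agent.H97.Pl.FldBad

/-!
# The bad pairs of the module Fields
-/

open MeasureTheory
open scoped ComplexConjugate

namespace Pool.Agent.H67.Pl

/-- The one-dimensional estimate in an interval of length `l`. -/
theorem fbSt_vol2 {s ε c q l : ℝ} (hs : 0 < s) (hε : 0 ≤ ε) (hl : 0 ≤ l) :
    volume (fbSt s ε c ∩ Set.Ico q (q + l)) ≤ ENNReal.ofReal (((l + 2 * ε) / s + 1) * (2 * ε)) := by
  set a : ℤ := ⌈(q - c - ε) / s⌉ with ha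
  set b : ℤ := ⌊(q + l - c + ε) / s⌋ with hb
  have hsub : fbSt s ε c ∩ Set.Ico q (q + l)
      ⊆ ⋃ k ∈ Finset.Icc a b, Set.Icc (c + k * s - ε) (c + k * s + ε) := by
    rintro t ⟨ht, h1, h2⟩
    rw [fbSt, Set.mem_iUnion] at ht
    obtain ⟨k, hk1, hk2⟩ := ht
    simp only [Set.mem_iUnion]
    refine ⟨k, ?_, hk1, hk2⟩
    rw [Finset.mem_Icc]
    constructor
    · rw [ha, Int.ceil_le, div_le_iff₀ hs]; linarith
    · rw [hb, Int.le_floor, le_div_iff₀ hs]; linarith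
  have hcard : ((Finset.Icc a b).card : ℝ) ≤ (l + 2 * ε) / s + 1 := by
    rw [Int.card_Icc]
    have h1 : (q - c - ε) / s ≤ a := Int.le_ceil _
    have h2 : (b : ℝ) ≤ (q + l - c + ε) / s := Int.floor_le _
    have h3 : ((b + 1 - a : ℤ) : ℝ) ≤ (l + 2 * ε) / s + 1 := by
      push_cast
      have h4 : (q + l - c + ε) / s - (q - c - ε) / s = (l + 2 * ε) / s := by
        field_simp; ring
      linarith
    have h0 : (0 : ℝ) ≤ (l + 2 * ε) / s + 1 := by positivity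
    rcases le_total 0 (b + 1 - a) with h | h
    · have : (((b + 1 - a).toNat : ℕ) : ℝ) = ((b + 1 - a : ℤ) : ℝ) := by
        have := Int.toNat_of_nonneg h
        exact_mod_cast this
      rw [this]; exact h3
    · rw [Int.toNat_of_nonpos h]; simpa using h0
  calc volume (fbSt s ε c ∩ Set.Ico q (q + l))
      ≤ volume (⋃ k ∈ Finset.Icc a b, Set.Icc (c + k * s - ε) (c + k * s + ε)) :=
        measure_mono hsub
    _ ≤ ∑ k ∈ Finset.Icc a b, volume (Set.Icc (c + k * s - ε) (c + k * s + ε)) :=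
        measure_biUnion_finset_le _ _
    _ = ∑ k ∈ Finset.Icc a b, ENNReal.ofReal (2 * ε) := by
        refine Finset.sum_congr rfl fun k _ => ?_
        rw [Real.volume_Icc]; congr 1; ring
    _ = ENNReal.ofReal ((Finset.Icc a b).card * (2 * ε)) := by
        rw [Finset.sum_const, nsmul_eq_mul,
          ENNReal.ofReal_mul (p := ((Finset.Icc a b).card : ℝ)) (by positivity),
          ENNReal.ofReal_natCast]
    _ ≤ ENNReal.ofReal (((l + 2 * ε) / s + 1) * (2 * ε)) := by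
        refine ENNReal.ofReal_le_ofReal (mul_le_mul_of_nonneg_right hcard (by positivity))

/-- The bad set in a square of side `l`. -/
theorem fbBS_vol2 {p : ℂ} {s R ε l : ℝ} (hs : 0 < s) (hR : 0 ≤ R) (hε : 0 < ε) (hl : 0 ≤ l)
    (q : ℂ) :
    volume (fbBS p s R ε ∩ sq q l)
      ≤ ENNReal.ofReal (2 * (l * (((l + 2 * ε) / s + 1) * (2 * ε)))
        + 4 * Real.pi * (R + ε) * ε) := by
  have hsub : fbBS p s R ε ∩ sq q l
      ⊆ ({y : ℂ | y.re ∈ fbSt s ε p.re ∩ Set.Ico q.re (q.re + l) ∧ y.im ∈ Set.Ico q.im (q.im + l)} ∪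
        {y : ℂ | y.re ∈ Set.Ico q.re (q.re + l) ∧ y.im ∈ fbSt s ε p.im ∩ Set.Ico q.im (q.im + l)}) ∪
        {y : ℂ | |‖y‖ - R| ≤ ε} := by
    rintro y ⟨(h | h) | h, h1, h2, h3, h4⟩
    · exact Or.inl (Or.inl ⟨⟨h, h1, h2⟩, h3, h4⟩)
    · exact Or.inl (Or.inr ⟨⟨h1, h2⟩, h, h3, h4⟩)
    · exact Or.inr h
  refine (measure_mono hsub).trans ((measure_union_le _ _).trans ?_)
  refine (add_le_add (measure_union_le _ _) (fb_annulus hR hε)).trans ?_
  rw [fb_reprod _ _ ((fbSt_meas _ _ _).inter measurableSet_Ico) measurableSet_Ico,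
    fb_reprod _ _ measurableSet_Ico ((fbSt_meas _ _ _).inter measurableSet_Ico)]
  have v1 : ∀ t : ℝ, volume (Set.Ico t (t + l)) = ENNReal.ofReal l := by
    intro t; rw [Real.volume_Ico]; congr 1; ring
  rw [v1, v1]
  refine (add_le_add (add_le_add (mul_le_mul_left (fbSt_vol2 hs hε.le hl) _)
    (mul_le_mul_right (fbSt_vol2 hs hε.le hl) _)) le_rfl).trans ?_
  rw [← ENNReal.ofReal_mul (by positivity), ← ENNReal.ofReal_mul hl,
    ← ENNReal.ofReal_add (by positivity) (by positivity),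
    ← ENNReal.ofReal_add (by positivity) (by positivity)]
  refine ENNReal.ofReal_le_ofReal (le_of_eq ?_)
  ring

/-- The bad pairs (without restriction of `x` and `φ`). -/
def fbBad2 (a p : ℂ) (s R ε : ℝ) : Set (ℂ × ℝ) := {z | z.1 + a * cu z.2 ∈ fbBS p s R ε}

theorem fbBad2_meas (a p : ℂ) (s R ε : ℝ) : MeasurableSet (fbBad2 a p s R ε) := by
  have hm : Measurable (fun z : ℂ × ℝ => z.1 + a * cu z.2) :=
    (continuous_fst.add (continuous_const.mul (cu_cont.comp continuous_snd))).measurable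
  exact hm (fbBS_meas p s R ε)

theorem fbBad2_vol {a p : ℂ} {s R ε l : ℝ} (hs : 0 < s) (hR : 0 ≤ R) (hε : 0 < ε) (hl : 0 ≤ l)
    (q : ℂ) :
    volume (fbBad2 a p s R ε ∩ (sq q l ×ˢ Set.Ico 0 (2 * Real.pi)))
      ≤ ENNReal.ofReal (2 * Real.pi * (2 * (l * (((l + 2 * ε) / s + 1) * (2 * ε)))
        + 4 * Real.pi * (R + ε) * ε)) := by
  have hM : MeasurableSet (fbBad2 a p s R ε ∩ (sq q l ×ˢ Set.Ico 0 (2 * Real.pi))) :=
    (fbBad2_meas a p s R ε).inter ((sq_meas q l).prod measurableSet_Ico)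
  rw [Measure.volume_eq_prod, Measure.prod_apply_symm hM]
  have h1 : ∀ φ : ℝ, volume ((fun x : ℂ => (x, φ)) ⁻¹'
      (fbBad2 a p s R ε ∩ (sq q l ×ˢ Set.Ico 0 (2 * Real.pi))))
      ≤ (Set.Ico (0 : ℝ) (2 * Real.pi)).indicator
        (fun _ => ENNReal.ofReal (2 * (l * (((l + 2 * ε) / s + 1) * (2 * ε)))
        + 4 * Real.pi * (R + ε) * ε)) φ := by
    intro φ
    by_cases hφ : φ ∈ Set.Ico (0 : ℝ) (2 * Real.pi)
    · rw [Set.indicator_of_mem hφ]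
      have h2 : (fun x : ℂ => (x, φ)) ⁻¹'
          (fbBad2 a p s R ε ∩ (sq q l ×ˢ Set.Ico 0 (2 * Real.pi)))
          ⊆ (fun x : ℂ => x + a * cu φ) ⁻¹' (fbBS p s R ε ∩ sq (q + a * cu φ) l) := by
        rintro x ⟨k7, ⟨k1, k2, k3, k4⟩, k5, k6⟩
        refine ⟨k7, ?_, ?_, ?_, ?_⟩ <;> simp only [Complex.add_re, Complex.add_im] <;>
          simp only at k1 k2 k3 k4 <;> linarith
      refine (measure_mono h2).trans ?_
      rw [measure_preimage_add_right]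
      exact fbBS_vol2 hs hR hε hl _
    · rw [Set.indicator_of_notMem hφ]
      have h2 : (fun x : ℂ => (x, φ)) ⁻¹'
          (fbBad2 a p s R ε ∩ (sq q l ×ˢ Set.Ico 0 (2 * Real.pi))) = ∅ := by
        ext x
        simp only [Set.mem_preimage, Set.mem_empty_iff_false, iff_false]
        rintro ⟨_, _, k5⟩
        exact hφ k5
      rw [h2, measure_empty]
  refine (lintegral_mono h1).trans ?_
  rw [lintegral_indicator measurableSet_Ico, setLIntegral_const, Real.volume_Ico,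
    ENNReal.ofReal_mul (p := 2 * Real.pi) (by positivity), mul_comm]
  simp

theorem fb_bound {m s' s R L : ℝ} (hm : 0 < m) (hm1 : m ≤ 1) (hs' : m ≤ s') (hs : 0 < s)
    (hs1 : s ≤ 1) (hR : 0 ≤ R) (hL : 0 < L) :
    2 * Real.pi * (2 * (3 * (((3 + 2 * (L * s)) / s' + 1) * (2 * (L * s))))
        + 4 * Real.pi * (R + L * s) * (L * s))
      ≤ (2 * Real.pi * (12 * (4 + 2 * L) * L + 4 * Real.pi * (R + L) * L)) * s / m := by
  have h1 : (3 + 2 * (L * s)) / s' + 1 ≤ (4 + 2 * L) / m := by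
    have h2 : (3 + 2 * (L * s)) / s' ≤ (3 + 2 * L) / m := by
      have : L * s ≤ L := mul_le_of_le_one_right hL.le hs1
      gcongr
    have h3 : (1 : ℝ) ≤ 1 / m := by rw [le_div_iff₀ hm]; linarith
    have h4 : (4 + 2 * L) / m = (3 + 2 * L) / m + 1 / m := by ring
    linarith
  have h5 : 4 * Real.pi * (R + L * s) * (L * s) ≤ 4 * Real.pi * (R + L) * L * s / m := by
    have h6 : L * s ≤ L := mul_le_of_le_one_right hL.le hs1
    have h7 : 4 * Real.pi * (R + L * s) * (L * s) ≤ 4 * Real.pi * (R + L) * L * s := by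
      have : 4 * Real.pi * (R + L * s) * (L * s) ≤ 4 * Real.pi * (R + L) * (L * s) := by
        gcongr
      linarith
    refine h7.trans ?_
    rw [le_div_iff₀ hm]
    exact mul_le_of_le_one_right (by positivity) hm1
  have h8 : 2 * (3 * (((3 + 2 * (L * s)) / s' + 1) * (2 * (L * s))))
      ≤ 12 * (4 + 2 * L) * L * s / m := by
    calc 2 * (3 * (((3 + 2 * (L * s)) / s' + 1) * (2 * (L * s))))
        ≤ 2 * (3 * (((4 + 2 * L) / m) * (2 * (L * s)))) := by gcongr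
      _ = 12 * (4 + 2 * L) * L * s / m := by ring
  calc 2 * Real.pi * (2 * (3 * (((3 + 2 * (L * s)) / s' + 1) * (2 * (L * s))))
        + 4 * Real.pi * (R + L * s) * (L * s))
      ≤ 2 * Real.pi * (12 * (4 + 2 * L) * L * s / m + 4 * Real.pi * (R + L) * L * s / m) := by
        gcongr
    _ = _ := by ring

theorem bad (a₁ a₂ : ℂ) (R : ℝ) (hR : 1 ≤ R) : ∃ K : ℝ, 0 < K ∧
    ∀ (m m₁ m₂ s η : ℝ) (p₁ p₂ : ℂ), 0 < m → m ≤ 1 → m ≤ m₁ → m ≤ m₂ → 0 < s → s ≤ 1 →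
      0 < η → η ≤ s →
      ∃ B : Set (ℂ × ℝ), MeasurableSet B ∧
        volume (B ∩ (sq (-1 - Complex.I) 3 ×ˢ Set.Ico 0 (2 * Real.pi))) ≤
          ENNReal.ofReal (K * s / m) ∧
        ∀ (x x' : ℂ) (φ φ' ρ : ℝ), (x, φ) ∉ B → ‖x' - x‖ ≤ 2 * s → |φ' - φ| ≤ s → 0 ≤ ρ →
          ρ ≤ η →
          cell m₁ (x' + a₁ * ((1 + ρ : ℝ) : ℂ) * cu φ' - p₁) = cell m₁ (x + a₁ * cu φ - p₁) ∧
          cell m₂ (x' + a₂ * ((1 + ρ : ℝ) : ℂ) * cu φ' - p₂) = cell m₂ (x + a₂ * cu φ - p₂) ∧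
          (‖x' + a₁ * ((1 + ρ : ℝ) : ℂ) * cu φ'‖ ≤ R ↔ ‖x + a₁ * cu φ‖ ≤ R) ∧
          (‖x' + a₂ * ((1 + ρ : ℝ) : ℂ) * cu φ'‖ ≤ R ↔ ‖x + a₂ * cu φ‖ ≤ R) := by
  have hR0 : (0 : ℝ) ≤ R := by linarith
  set L₁ : ℝ := 2 + 2 * ‖a₁‖ with hL₁
  set L₂ : ℝ := 2 + 2 * ‖a₂‖ with hL₂
  have hL₁0 : 0 < L₁ := by positivity
  have hL₂0 : 0 < L₂ := by positivity
  set K₁ : ℝ := 2 * Real.pi * (12 * (4 + 2 * L₁) * L₁ + 4 * Real.pi * (R + L₁) * L₁) with hK₁
  set K₂ : ℝ := 2 * Real.pi * (12 * (4 + 2 * L₂) * L₂ + 4 * Real.pi * (R + L₂) * L₂) with hK₂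
  refine ⟨K₁ + K₂, by positivity, ?_⟩
  intro m m₁ m₂ s η p₁ p₂ hm hm1 h1 h2 hs hs1 hη hηs
  refine ⟨fbBad2 a₁ p₁ m₁ R (L₁ * s) ∪ fbBad2 a₂ p₂ m₂ R (L₂ * s),
    (fbBad2_meas _ _ _ _ _).union (fbBad2_meas _ _ _ _ _), ?_, ?_⟩
  · rw [Set.union_inter_distrib_right]
    refine (measure_union_le _ _).trans ?_
    have e : (K₁ + K₂) * s / m = K₁ * s / m + K₂ * s / m := by ring
    rw [e, ENNReal.ofReal_add (by positivity) (by positivity)]
    refine add_le_add ?_ ?_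
    · refine (fbBad2_vol (hm.trans_le h1) hR0 (by positivity) (by norm_num) _).trans ?_
      exact ENNReal.ofReal_le_ofReal (fb_bound hm hm1 h1 hs hs1 hR0 hL₁0)
    · refine (fbBad2_vol (hm.trans_le h2) hR0 (by positivity) (by norm_num) _).trans ?_
      exact ENNReal.ofReal_le_ofReal (fb_bound hm hm1 h2 hs hs1 hR0 hL₂0)
  · intro x x' φ φ' ρ hB hx hφ hρ0 hρ
    rw [Set.mem_union, not_or] at hB
    have k : ∀ a : ℂ, ‖x' - x‖ + ‖a‖ * (|φ' - φ| + ρ) ≤ (2 + 2 * ‖a‖) * s := by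
      intro a
      have : ‖a‖ * (|φ' - φ| + ρ) ≤ ‖a‖ * (s + s) :=
        mul_le_mul_of_nonneg_left (by linarith) (norm_nonneg _)
      linarith
    have g1 := fb_good (hm.trans_le h1) (y := x + a₁ * cu φ)
      (y' := x' + a₁ * ((1 + ρ : ℝ) : ℂ) * cu φ') hB.1
      ((fb_pert a₁ x x' φ φ' ρ hρ0).trans (k a₁))
    have g2 := fb_good (hm.trans_le h2) (y := x + a₂ * cu φ)
      (y' := x' + a₂ * ((1 + ρ : ℝ) : ℂ) * cu φ') hB.2
      ((fb_pert a₂ x x' φ φ' ρ hρ0).trans (k a₂))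
    exact ⟨g1.1, g2.1, g1.2, g2.2⟩

end Pool.Agent.H67.Pl
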