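import Pool.Agent.H26.Pl.FldDefs
import Pool.Agent.H69.Pl.Osc

/-!
# Oscillatory integrals: the kernel and the squares
-/

open MeasureTheory
open scoped ComplexConjugate

namespace Pool.Agent.H67.Pl

theorem osc_q (η k : ℝ) (hη : 0 < η) :
    ‖∫ ρ in (0 : ℝ)..η, (qk η ρ : ℂ) * cu (k * ρ)‖ ≤ |k| * η ∧
    |k| * η * ‖∫ ρ in (0 : ℝ)..η, (qk η ρ : ℂ) * cu (k * ρ)‖ ≤ 4 := by
  refine ⟨Osc69.osc_q hη k, ?_⟩
  by_cases hk : k = 0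
  · subst hk
    rw [abs_zero, zero_mul, zero_mul]; norm_num
  · have h : ‖∫ ρ in (0 : ℝ)..η, (qk η ρ : ℂ) * cu (k * ρ)‖ ≤ 4 / (|k| * η) :=
      Osc69.osc_q' hη k hk
    have hk' : 0 < |k| := abs_pos.mpr hk
    rw [le_div_iff₀ (by positivity)] at h
    linarith

theorem osc_sq (s : ℝ) (hs : 0 < s) (p ζ : ℂ) :
    ‖∫ x in sq p s, cu (ip ζ x)‖ ≤ s ^ 2 ∧ ‖ζ‖ * ‖∫ x in sq p s, cu (ip ζ x)‖ ≤ 4 * s := by
  refine ⟨Osc69.osc_sq p ζ hs, ?_⟩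
  by_cases hζ : ζ = 0
  · subst hζ
    rw [norm_zero, zero_mul]; positivity
  · have h : ‖∫ x in sq p s, cu (ip ζ x)‖ ≤ 4 * s / ‖ζ‖ := Osc69.osc_sq' p ζ hs hζ
    have hn : 0 < ‖ζ‖ := norm_pos_iff.mpr hζ
    rw [le_div_iff₀ hn] at h
    linarith

end Pool.Agent.H67.Pl
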