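import Pool.Agent.H26.Pl.FldDefs
import Pool.Agent.H38.Pl.Select

/-!
# Fields: the selection
-/

open MeasureTheory
open scoped ComplexConjugate

namespace Pool.Agent.H67.Pl

theorem select : ∃ C : ℕ, ∀ (D s : ℝ) (J : Finset ℕ) (c : ℕ → ℝ) (ζ : ℕ → ℂ)
    (κ : ℕ → ℕ → ℝ), 2 ≤ D → 0 < s → s * (J.card : ℝ) ≤ 7 → (∀ j ∈ J, 0 ≤ c j ∧ c j ≤ s) →
    (∀ j ∈ J, ∀ j' ∈ J, 0 ≤ κ j j' ∧ κ j j' ≤ 1 ∧ κ j j' * ‖ζ j - ζ j'‖ * s ≤ 4) →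
    1 / D ≤ ∑ j ∈ J, ∑ j' ∈ J, c j * c j' * κ j j' →
    ∃ j' ∈ J, ∃ T ⊆ J, (∀ j ∈ T, s / D ^ C ≤ c j ∧ ‖ζ j - ζ j'‖ ≤ D ^ C / s) ∧
      1 / D ^ C ≤ s * (T.card : ℝ) := by
  classical
  obtain ⟨C, hC⟩ := Pool.Agent.H38.Pl.select 7 (by norm_num) 1
  refine ⟨C, ?_⟩
  intro D s J c ζ κ hD hs hcard hc hκ hsum
  have hnorm : ∀ j ∈ J, ‖((c j : ℝ) : ℂ)‖ = c j := fun j hj => by
    rw [Complex.norm_real, Real.norm_eq_abs, abs_of_nonneg (hc j hj).1]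
  obtain ⟨j', hj', -, hT⟩ := hC C le_rfl ℕ J D s (fun j => ((c j : ℝ) : ℂ)) ζ κ hD hs
    (by rw [le_div_iff₀ hs]; linarith)
    (fun j hj => by rw [hnorm j hj]; linarith [(hc j hj).2])
    (fun i hi j hj => by
      obtain ⟨h1, h2, h3⟩ := hκ i hi j hj
      refine ⟨h1, h2, ?_⟩
      calc κ i j * (s * ‖ζ i - ζ j‖) = κ i j * ‖ζ i - ζ j‖ * s := by ring
        _ ≤ 4 := h3)
    (by
      rw [pow_one]
      refine hsum.trans (le_of_eq ?_)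
      refine Finset.sum_congr rfl fun i hi => Finset.sum_congr rfl fun j hj => ?_
      rw [hnorm i hi, hnorm j hj])
  refine ⟨j', hj', J.filter fun i => s / D ^ C ≤ ‖((c i : ℝ) : ℂ)‖ ∧
    ‖ζ i - ζ j'‖ ≤ D ^ C / s, Finset.filter_subset _ _, ?_, ?_⟩
  · intro j hj
    have h1 := Finset.mem_filter.1 hj
    rw [hnorm j h1.1] at h1
    exact h1.2
  · have hD0 : 0 < D ^ C := by positivity
    calc 1 / D ^ C = s * (1 / (D ^ C * s)) := by field_simp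
      _ ≤ _ := mul_le_mul_of_nonneg_left hT hs.le

end Pool.Agent.H67.Pl
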