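import Pool.Agent.H26.Pl.FldDefs

/-!
# Fields: the dual function as a sum over arcs
-/

open MeasureTheory
open scoped ComplexConjugate

namespace Pool.Agent.H67.Pl

theorem ftq_cu_cont : Continuous cu := by
  unfold cu
  fun_prop

theorem ftq_qk_meas (η : ℝ) : Measurable (qk η) := by
  unfold qk
  exact Measurable.ite measurableSet_Iio measurable_const measurable_const

theorem ftq_qk_le (η ρ : ℝ) (hη : 0 < η) : ‖((qk η ρ : ℝ) : ℂ)‖ ≤ 1 / η := by
  rw [Complex.norm_real, Real.norm_eq_abs]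
  unfold qk
  split_ifs
  · rw [abs_neg, abs_of_pos (by positivity)]
  · rw [abs_of_pos (by positivity)]

/-- The product of the two functions along the circle. -/
noncomputable def ftqG (a₁ a₂ : ℂ) (F₁ F₂ : ℂ → ℂ) (x : ℂ) (ρ φ : ℝ) : ℂ :=
  F₁ (x + a₁ * ((1 + ρ : ℝ) : ℂ) * cu φ) * F₂ (x + a₂ * ((1 + ρ : ℝ) : ℂ) * cu φ)

theorem ftqG_meas (a₁ a₂ : ℂ) {F₁ F₂ : ℂ → ℂ} (h₁ : Measurable F₁) (h₂ : Measurable F₂) :
    Measurable fun p : ℂ × ℝ × ℝ => ftqG a₁ a₂ F₁ F₂ p.1 p.2.1 p.2.2 := by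
  unfold ftqG
  have hc := ftq_cu_cont
  apply Measurable.mul
  · exact h₁.comp (Continuous.measurable (by fun_prop))
  · exact h₂.comp (Continuous.measurable (by fun_prop))

theorem ftqG_le (a₁ a₂ : ℂ) {F₁ F₂ : ℂ → ℂ} (h₁ : ∀ x, ‖F₁ x‖ ≤ 1) (h₂ : ∀ x, ‖F₂ x‖ ≤ 1)
    (x : ℂ) (ρ φ : ℝ) : ‖ftqG a₁ a₂ F₁ F₂ x ρ φ‖ ≤ 1 := by
  unfold ftqG
  rw [norm_mul]
  exact mul_le_one₀ (h₁ _) (norm_nonneg _) (h₂ _)

theorem ftq_inner_meas (a₁ a₂ : ℂ) {F₁ F₂ : ℂ → ℂ} (h₁ : Measurable F₁) (h₂ : Measurable F₂)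
    (a b : ℝ) : Measurable fun p : ℂ × ℝ => ∫ φ in a..b, ftqG a₁ a₂ F₁ F₂ p.1 p.2 φ := by
  have h : ∀ c d : ℝ, Measurable fun p : ℂ × ℝ =>
      ∫ φ in Set.Ioc c d, ftqG a₁ a₂ F₁ F₂ p.1 p.2 φ := by
    intro c d
    have hm : StronglyMeasurable fun q : (ℂ × ℝ) × ℝ => ftqG a₁ a₂ F₁ F₂ q.1.1 q.1.2 q.2 := by
      refine Measurable.stronglyMeasurable ?_
      exact (ftqG_meas a₁ a₂ h₁ h₂).comp
        (measurable_fst.fst.prodMk (measurable_fst.snd.prodMk measurable_snd))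
    exact (hm.integral_prod_right' (ν := volume.restrict (Set.Ioc c d))).measurable
  exact (h a b).sub (h b a)

theorem Aj_meas (a₁ a₂ : ℂ) (R η s : ℝ) (hη : 0 < η) (hs : 0 < s) (f₁ f₂ : ℂ → ℂ)
    (h₁ : Bd R f₁) (h₂ : Bd R f₂) (j : ℕ) : Measurable (Aj a₁ a₂ η s f₁ f₂ j) ∧
      ∀ x, ‖Aj a₁ a₂ η s f₁ f₂ j x‖ ≤ s := by
  constructor
  · have h : ∀ c d : ℝ, Measurable fun x : ℂ => ∫ ρ in Set.Ioc c d, (qk η ρ : ℂ) *
        ∫ φ in ((j : ℝ) * s)..((j : ℝ) * s + s), ftqG a₁ a₂ f₁ f₂ x ρ φ := by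
      intro c d
      have hm : StronglyMeasurable fun q : ℂ × ℝ => (qk η q.2 : ℂ) *
          ∫ φ in ((j : ℝ) * s)..((j : ℝ) * s + s), ftqG a₁ a₂ f₁ f₂ q.1 q.2 φ := by
        refine Measurable.stronglyMeasurable ?_
        exact (Complex.measurable_ofReal.comp ((ftq_qk_meas η).comp measurable_snd)).mul
          (ftq_inner_meas a₁ a₂ h₁.meas h₂.meas _ _)
      exact (hm.integral_prod_right' (ν := volume.restrict (Set.Ioc c d))).measurable
    exact (h 0 η).sub (h η 0)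
  · intro x
    have h := intervalIntegral.norm_integral_le_of_norm_le_const (a := (0:ℝ)) (b := η)
      (C := s / η) (f := fun ρ => (qk η ρ : ℂ) * ∫ φ in ((j : ℝ) * s)..((j : ℝ) * s + s),
        ftqG a₁ a₂ f₁ f₂ x ρ φ) (by
        intro ρ _
        rw [norm_mul]
        have h3 : ‖∫ φ in ((j : ℝ) * s)..((j : ℝ) * s + s), ftqG a₁ a₂ f₁ f₂ x ρ φ‖ ≤ 1 * |((j : ℝ) * s + s) - (j : ℝ) * s| :=
          intervalIntegral.norm_integral_le_of_norm_le_const
            (fun φ _ => ftqG_le a₁ a₂ h₁.le_one h₂.le_one x ρ φ)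
        rw [add_sub_cancel_left, abs_of_pos hs, one_mul] at h3
        calc _ ≤ (1 / η) * s := mul_le_mul (ftq_qk_le η ρ hη) h3 (norm_nonneg _) (by positivity)
          _ = s / η := by ring)
    rw [sub_zero, abs_of_pos hη] at h
    calc ‖Aj a₁ a₂ η s f₁ f₂ j x‖ ≤ s / η * η := h
      _ = s := by field_simp

theorem ftq_ii (a₁ a₂ : ℂ) {F₁ F₂ : ℂ → ℂ} {R : ℝ} (h₁ : Bd R F₁) (h₂ : Bd R F₂) (x : ℂ)
    (ρ a b : ℝ) : IntervalIntegrable (fun φ => ftqG a₁ a₂ F₁ F₂ x ρ φ) volume a b := by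
  have hm : Measurable fun φ : ℝ => ftqG a₁ a₂ F₁ F₂ x ρ φ :=
    (ftqG_meas a₁ a₂ h₁.meas h₂.meas).comp
      (measurable_const.prodMk (measurable_const.prodMk measurable_id))
  have hc : IntervalIntegrable (fun _ : ℝ => (1 : ℝ)) volume a b := intervalIntegrable_const
  exact hc.mono_fun hm.aestronglyMeasurable (Filter.Eventually.of_forall fun φ => by
    simpa using ftqG_le a₁ a₂ h₁.le_one h₂.le_one x ρ φ)

theorem ftq_sum (a₁ a₂ : ℂ) (R η s : ℝ) (n : ℕ) (hη : 0 < η) (hs : 0 < s)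
    (hn : (n : ℝ) * s = 2 * Real.pi) (f₁ f₂ : ℂ → ℂ) (h₁ : Bd R f₁)
    (h₂ : Bd R f₂) (x : ℂ) : ∑ j ∈ Finset.range n, Aj a₁ a₂ η s f₁ f₂ j x =
      ∫ ρ in (0 : ℝ)..η, (qk η ρ : ℂ) * ∫ φ in (0 : ℝ)..(2 * Real.pi),
        ftqG a₁ a₂ f₁ f₂ x ρ φ := by
  have hin : ∀ ρ : ℝ, ∫ φ in (0 : ℝ)..(2 * Real.pi), ftqG a₁ a₂ f₁ f₂ x ρ φ =
      ∑ j ∈ Finset.range n, ∫ φ in ((j : ℝ) * s)..((j : ℝ) * s + s),
        ftqG a₁ a₂ f₁ f₂ x ρ φ := by
    intro ρ
    have h := intervalIntegral.sum_integral_adjacent_intervals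
      (f := fun φ => ftqG a₁ a₂ f₁ f₂ x ρ φ) (μ := volume) (a := fun k : ℕ => (k : ℝ) * s)
      (n := n) (fun k _ => ftq_ii a₁ a₂ h₁ h₂ x ρ _ _)
    simp only [Nat.cast_zero, zero_mul, hn] at h
    rw [← h]
    refine Finset.sum_congr rfl fun j _ => ?_
    rw [show ((j + 1 : ℕ) : ℝ) * s = (j : ℝ) * s + s by push_cast; ring]
  simp only [hin, Finset.mul_sum]
  rw [intervalIntegral.integral_finsetSum]
  · rfl
  intro j _
  have hm : Measurable fun ρ : ℝ => (qk η ρ : ℂ) *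
      ∫ φ in ((j : ℝ) * s)..((j : ℝ) * s + s), ftqG a₁ a₂ f₁ f₂ x ρ φ :=
    (Complex.measurable_ofReal.comp (ftq_qk_meas η)).mul
      ((ftq_inner_meas a₁ a₂ h₁.meas h₂.meas _ _).comp
        (measurable_const.prodMk measurable_id))
  have hc : IntervalIntegrable (fun _ : ℝ => s / η) volume 0 η := intervalIntegrable_const
  refine hc.mono_fun hm.aestronglyMeasurable (Filter.Eventually.of_forall fun ρ => ?_)
  have h3 : ‖∫ φ in ((j : ℝ) * s)..((j : ℝ) * s + s), ftqG a₁ a₂ f₁ f₂ x ρ φ‖ ≤ 1 * |((j : ℝ) * s + s) - (j : ℝ) * s| :=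
    intervalIntegral.norm_integral_le_of_norm_le_const
      (fun φ _ => ftqG_le a₁ a₂ h₁.le_one h₂.le_one x ρ φ)
  rw [add_sub_cancel_left, abs_of_pos hs, one_mul] at h3
  simp only
  rw [norm_mul, Real.norm_of_nonneg (by positivity)]
  calc _ ≤ (1 / η) * s := mul_le_mul (ftq_qk_le η ρ hη) h3 (norm_nonneg _) (by positivity)
    _ = s / η := by ring

theorem tq_arcs (a₁ a₂ : ℂ) (R η s : ℝ) (n : ℕ) (hη : 0 < η) (hs : 0 < s)
    (hn : (n : ℝ) * s = 2 * Real.pi) (f₀ f₁ f₂ : ℂ → ℂ) (h₀ : Bd R f₀) (h₁ : Bd R f₁)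
    (h₂ : Bd R f₂) : Tq a₁ a₂ η f₀ f₁ f₂ =
      ∫ x : ℂ, f₀ x * ∑ j ∈ Finset.range n, Aj a₁ a₂ η s f₁ f₂ j x := by
  set μ : Measure ℝ := volume.restrict (Set.Ioc 0 η) with hμ
  set ν : Measure ℝ := volume.restrict (Set.Ioc 0 (2 * Real.pi)) with hν
  have hpi : (0 : ℝ) ≤ 2 * Real.pi := by positivity
  have hL : Tq a₁ a₂ η f₀ f₁ f₂ = ∫ ρ, ((qk η ρ : ℂ) * ∫ φ, (∫ x : ℂ,
      f₀ x * ftqG a₁ a₂ f₁ f₂ x ρ φ) ∂ν) ∂μ := by
    unfold Tq cform
    rw [intervalIntegral.integral_of_le hη.le]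
    refine integral_congr_ae (Filter.Eventually.of_forall fun ρ => ?_)
    simp only
    rw [intervalIntegral.integral_of_le hpi]
    congr 1
    refine integral_congr_ae (Filter.Eventually.of_forall fun φ => ?_)
    refine integral_congr_ae (Filter.Eventually.of_forall fun x => ?_)
    simp only [ftqG, mul_assoc]
  have hR : ∫ x : ℂ, f₀ x * ∑ j ∈ Finset.range n, Aj a₁ a₂ η s f₁ f₂ j x
      = ∫ x : ℂ, f₀ x * ∫ ρ, ((qk η ρ : ℂ) * ∫ φ, ftqG a₁ a₂ f₁ f₂ x ρ φ ∂ν) ∂μ := by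
    refine integral_congr_ae (Filter.Eventually.of_forall fun x => ?_)
    simp only
    rw [ftq_sum a₁ a₂ R η s n hη hs hn f₁ f₂ h₁ h₂ x, intervalIntegral.integral_of_le hη.le]
    congr 1
    refine integral_congr_ae (Filter.Eventually.of_forall fun ρ => ?_)
    simp only
    rw [intervalIntegral.integral_of_le hpi]
  rw [hL, hR]
  -- the big function
  set K : ℂ → ℝ × ℝ → ℂ := fun x p => f₀ x * ((qk η p.1 : ℂ) * ftqG a₁ a₂ f₁ f₂ x p.1 p.2)
    with hK
  have hKm : Measurable (Function.uncurry K) := by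
    apply (h₀.meas.comp measurable_fst).mul
    apply (Complex.measurable_ofReal.comp ((ftq_qk_meas η).comp measurable_snd.fst)).mul
    exact ftqG_meas a₁ a₂ h₁.meas h₂.meas
  have hKle : ∀ x p, ‖K x p‖ ≤ (Metric.closedBall (0:ℂ) R).indicator (fun _ => (1:ℝ)) x
      * (1 / η) := by
    intro x p
    by_cases hx : x ∈ Metric.closedBall (0:ℂ) R
    · rw [Set.indicator_of_mem hx, one_mul]
      simp only [hK]
      rw [norm_mul, norm_mul]
      calc _ ≤ 1 * ((1 / η) * 1) := by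
            apply mul_le_mul (h₀.le_one x) _ (by positivity) (by norm_num)
            exact mul_le_mul (ftq_qk_le η _ hη) (ftqG_le a₁ a₂ h₁.le_one h₂.le_one _ _ _)
              (norm_nonneg _) (by positivity)
        _ = _ := by ring
    · rw [Set.indicator_of_notMem hx, zero_mul]
      have : R < ‖x‖ := by simpa using hx
      simp only [hK]
      rw [h₀.supp x this, zero_mul, norm_zero]
  have hKint : Integrable (Function.uncurry K) ((volume : Measure ℂ).prod (μ.prod ν)) := by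
    have hb : Integrable (fun z : ℂ × ℝ × ℝ =>
        (Metric.closedBall (0:ℂ) R).indicator (fun _ => (1:ℝ)) z.1 * (1 / η))
        ((volume : Measure ℂ).prod (μ.prod ν)) := by
      have h1 : Integrable ((Metric.closedBall (0:ℂ) R).indicator (fun _ => (1:ℝ)))
          (volume : Measure ℂ) := by
        rw [integrable_indicator_iff Metric.isClosed_closedBall.measurableSet]
        exact integrableOn_const (by
          exact (isCompact_closedBall (0:ℂ) R).measure_lt_top.ne)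
      exact h1.mul_prod (integrable_const (1 / η))
    exact hb.mono' hKm.aestronglyMeasurable (Filter.Eventually.of_forall fun z => hKle z.1 z.2)
  have hswap := integral_integral_swap (f := K) (μ := (volume : Measure ℂ)) (ν := μ.prod ν) hKint
  have hRR : ∫ x : ℂ, f₀ x * ∫ ρ, ((qk η ρ : ℂ) * ∫ φ, ftqG a₁ a₂ f₁ f₂ x ρ φ ∂ν) ∂μ
      = ∫ x, ∫ p, K x p ∂(μ.prod ν) := by
    refine integral_congr_ae (Filter.Eventually.of_forall fun x => ?_)
    simp only
    have hint : Integrable (fun p : ℝ × ℝ => K x p) (μ.prod ν) := by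
      refine (integrable_const (1 / η)).mono' ?_ (Filter.Eventually.of_forall fun p => ?_)
      · exact (hKm.comp (measurable_const.prodMk measurable_id)).aestronglyMeasurable
      · refine (hKle x p).trans ?_
        have : (Metric.closedBall (0:ℂ) R).indicator (fun _ => (1:ℝ)) x ≤ 1 :=
          Set.indicator_le_self' (fun _ _ => zero_le_one) x
        calc _ ≤ 1 * (1 / η) := mul_le_mul_of_nonneg_right this (by positivity)
          _ = 1 / η := one_mul _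
    rw [integral_prod _ hint]
    simp only [hK]
    rw [← integral_const_mul]
    refine integral_congr_ae (Filter.Eventually.of_forall fun ρ => ?_)
    simp only
    rw [← integral_const_mul, ← integral_const_mul]
  have hLL : ∫ ρ, ((qk η ρ : ℂ) * ∫ φ, (∫ x : ℂ, f₀ x * ftqG a₁ a₂ f₁ f₂ x ρ φ) ∂ν) ∂μ
      = ∫ p, (∫ x : ℂ, K x p) ∂(μ.prod ν) := by
    have hint : Integrable (fun p : ℝ × ℝ => ∫ x : ℂ, K x p) (μ.prod ν) :=
      hKint.integral_prod_right
    rw [integral_prod _ hint]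
    refine integral_congr_ae (Filter.Eventually.of_forall fun ρ => ?_)
    simp only
    rw [← integral_const_mul]
    refine integral_congr_ae (Filter.Eventually.of_forall fun φ => ?_)
    simp only
    rw [← integral_const_mul]
    refine integral_congr_ae (Filter.Eventually.of_forall fun x => ?_)
    simp only [hK]
    ring
  rw [hRR, hLL, hswap]

end Pool.Agent.H67.Pl
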