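import Pool.Agent.H26.Pl.FldBox
import Pool.Agent.H67.Pl.FldArc
import Pool.Agent.H67.Pl.FldOsc
import Pool.Agent.H67.Pl.FldBad
import Pool.Agent.H67.Pl.FldSelect
import Pool.Agent.H67.Pl.FldTq

/-!
# From two cellwise plane waves to force fields
-/

open MeasureTheory
open scoped ComplexConjugate

namespace Pool.Agent.H67.Pl

namespace Fld26

open Classical in
/-- The good arcs of a cell. -/
noncomputable def JJ (s : ℝ) (n : ℕ) (B : Set (ℂ × ℝ)) (k : ℤ × ℤ) : Finset ℕ :=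
  (Finset.range n).filter (fun j => ∃ z ∈ box s (k, j), z ∉ B)

theorem JJ_sub (s : ℝ) (n : ℕ) (B : Set (ℂ × ℝ)) (k : ℤ × ℤ) : JJ s n B k ⊆ Finset.range n := by
  classical
  unfold JJ
  exact Finset.filter_subset _ _

theorem mem_JJ (s : ℝ) (n : ℕ) (B : Set (ℂ × ℝ)) (k : ℤ × ℤ) (j : ℕ) :
    j ∈ JJ s n B k ↔ j < n ∧ ∃ z ∈ box s (k, j), z ∉ B := by
  classical
  unfold JJ
  rw [Finset.mem_filter, Finset.mem_range]

/-- The bad boxes have small total measure. -/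
theorem bad_count {s : ℝ} (hs : 0 < s) (hs1 : s ≤ 1) (n : ℕ) (hn : (n : ℝ) * s = 2 * Real.pi)
    (B : Set (ℂ × ℝ)) (b : ℝ) (hb : 0 ≤ b)
    (hB : volume (B ∩ (sq (-1 - Complex.I) 3 ×ˢ Set.Ico 0 (2 * Real.pi))) ≤ ENNReal.ofReal b) :
    ∑ k ∈ KK s, s ^ 3 * ((Finset.range n \ JJ s n B k).card : ℝ) ≤ b := by
  classical
  set P : Finset ((ℤ × ℤ) × ℕ) := ((KK s) ×ˢ Finset.range n).filter
    (fun i => i.2 ∈ Finset.range n \ JJ s n B i.1) with hP
  have hcard : P.card = ∑ k ∈ KK s, (Finset.range n \ JJ s n B k).card :=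
    card_pairs (KK s) n (fun k => Finset.range n \ JJ s n B k)
      (fun k _ => Finset.sdiff_subset)
  have hsub : (⋃ i ∈ P, box s i) ⊆
      B ∩ (sq (-1 - Complex.I) 3 ×ˢ Set.Ico 0 (2 * Real.pi)) := by
    intro z hz
    simp only [Set.mem_iUnion] at hz
    obtain ⟨i, hi, hz⟩ := hz
    rw [hP, Finset.mem_filter, Finset.mem_product, Finset.mem_sdiff, mem_JJ,
      Finset.mem_range] at hi
    obtain ⟨⟨hk, hj⟩, -, hnot⟩ := hi
    have hzB : z ∈ B := by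
      by_contra h
      exact hnot ⟨hj, z, hz, h⟩
    refine ⟨hzB, KK_sub hs hs1 hk hz.1, ?_, ?_⟩
    · exact le_trans (by positivity) hz.2.1
    · refine lt_of_lt_of_le hz.2.2 ?_
      rw [← hn]
      have : (i.2 : ℝ) + 1 ≤ n := by exact_mod_cast hj
      nlinarith
  have h1 := (volume_biUnion_box hs P).symm.le.trans ((measure_mono hsub).trans hB)
  rw [ENNReal.ofReal_le_ofReal_iff hb, hcard] at h1
  push_cast at h1
  rw [Finset.sum_mul] at h1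
  refine le_trans (le_of_eq ?_) h1
  refine Finset.sum_congr rfl (fun k _ => ?_)
  ring

/-- The part of the bad arcs in the integral over a cell. -/
theorem cell_split {s : ℝ} (hs : 0 < s) (n : ℕ) (J : Finset ℕ) (hJ : J ⊆ Finset.range n)
    (p : ℂ) (f : ℂ → ℂ) (hf : Measurable f) (hf1 : ∀ x, ‖f x‖ ≤ 1) (A : ℕ → ℂ → ℂ)
    (hA : ∀ j, Measurable (A j)) (hA1 : ∀ j x, ‖A j x‖ ≤ s) :
    ‖∫ x in sq p s, f x * ∑ j ∈ Finset.range n, A j x‖ ≤
      ‖∫ x in sq p s, f x * ∑ j ∈ J, A j x‖ + s ^ 3 * ((Finset.range n \ J).card : ℝ) := by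
  have hfin : volume (sq p s) ≠ ⊤ := by
    rw [volume_sq p hs.le]; exact ENNReal.ofReal_ne_top
  have hb : ∀ (T : Finset ℕ) (x : ℂ), ‖f x * ∑ j ∈ T, A j x‖ ≤ (T.card : ℝ) * s := by
    intro T x
    rw [norm_mul]
    have h1 : ‖∑ j ∈ T, A j x‖ ≤ (T.card : ℝ) * s := by
      refine (norm_sum_le _ _).trans ?_
      refine (Finset.sum_le_sum (fun j _ => hA1 j x)).trans ?_
      rw [Finset.sum_const, nsmul_eq_mul]
    have := hf1 x
    nlinarith [norm_nonneg (f x), norm_nonneg (∑ j ∈ T, A j x)]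
  have hi : ∀ T : Finset ℕ, IntegrableOn (fun x => f x * ∑ j ∈ T, A j x) (sq p s) := by
    intro T
    refine Measure.integrableOn_of_bounded (M := (T.card : ℝ) * s) hfin
      (hf.mul (Finset.measurable_sum T (fun j _ => hA j))).aestronglyMeasurable
      (Filter.Eventually.of_forall (fun x => hb T x))
  have e : ∀ x, f x * ∑ j ∈ Finset.range n, A j x =
      f x * ∑ j ∈ J, A j x + f x * ∑ j ∈ Finset.range n \ J, A j x := by
    intro x
    rw [← mul_add, ← Finset.sum_sdiff hJ, add_comm]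
  simp only [e]
  rw [integral_add (hi J) (hi _)]
  refine (norm_add_le _ _).trans ?_
  have h2 : ‖∫ x in sq p s, f x * ∑ j ∈ Finset.range n \ J, A j x‖ ≤
      ((Finset.range n \ J).card : ℝ) * s * volume.real (sq p s) := by
    refine norm_setIntegral_le_of_norm_le_const hfin.lt_top (fun x _ => hb _ x)
  rw [real_sq p hs.le] at h2
  have : ((Finset.range n \ J).card : ℝ) * s * s ^ 2 =
      s ^ 3 * ((Finset.range n \ J).card : ℝ) := by ring
  rw [this] at h2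
  linarith

end Fld26

open Fld26 in
theorem fields (a₁ a₂ : ℂ) (R : ℝ) (hR : 1 ≤ R) :
    ∃ C : ℕ, ∀ (D η m m₁ m₂ : ℝ) (f₀ : ℂ → ℂ) (p₁ p₂ : ℂ) (ξ₁ α₁ ξ₂ α₂ : ℤ × ℤ → ℂ),
      2 ≤ D → 0 < η → η ≤ 1 / 2 → 0 < m → m ≤ m₁ → m ≤ m₂ → m ^ 2 ≤ η → η * D ^ C ≤ m →
      Bd R f₀ → (∀ x, x ∉ sq 0 1 → f₀ x = 0) →
      (∀ k, ‖α₁ k‖ ≤ 1) → (∀ k, ‖α₂ k‖ ≤ 1) →
      1 / D ≤ ‖Tq a₁ a₂ η f₀ (bind R (pw p₁ m₁ ξ₁ α₁)) (bind R (pw p₂ m₂ ξ₂ α₂))‖ →
      ∃ (u₀ u₁ u₂ : ℂ → ℂ) (G : Set (ℂ × ℝ)), Measurable u₀ ∧ Measurable u₁ ∧ Measurable u₂ ∧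
        MeasurableSet G ∧ 1 / D ^ C ≤ volume.real G ∧
        ∀ z ∈ G, z.1 ∈ sq (-1 - Complex.I) 3 ∧ 0 ≤ z.2 ∧ z.2 < 2 * Real.pi ∧
          ‖u₀ z.1 + u₁ (z.1 + a₁ * cu z.2) + u₂ (z.1 + a₂ * cu z.2)‖ ≤ D ^ C * η / m ∧
          |(Zf a₁ a₂ u₁ u₂ z.1 z.2).im| ≤ D ^ C * η / m ∧
          1 / D ^ C ≤ |(Zf a₁ a₂ u₁ u₂ z.1 z.2).re| ∧ |(Zf a₁ a₂ u₁ u₂ z.1 z.2).re| ≤ D ^ C := by
  classical
  obtain ⟨K, hK, hbad⟩ := bad a₁ a₂ R hR
  obtain ⟨Cs, hsel⟩ := select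
  obtain ⟨Ca, harc⟩ := arc (13 * Cs)
  obtain ⟨NK, hNK⟩ := pow_unbounded_of_one_lt (2 * K) (by norm_num : (1 : ℝ) < 2)
  set C₁ : ℕ := Ca + NK + 1 with hC₁
  refine ⟨13 * Cs + C₁ + Ca + 6, ?_⟩
  intro D η m m₁ m₂ f₀ p₁ p₂ ξ₁ α₁ ξ₂ α₂ hD hη hη1 hm hm₁ hm₂ hm2 hηm hf₀ hsupp hα₁ hα₂ hT
  have hD0 : 0 < D := by linarith
  have hD1 : 1 ≤ D := by linarith
  have hm1 : m ≤ 1 := by nlinarith
  obtain ⟨n, s, hs, hn, hs_le, hs_ge⟩ := exists_arcs D m C₁ hD hm hm1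
  have hDC₁ : 1 ≤ D ^ C₁ := one_le_pow₀ hD1
  have hs1 : s ≤ 1 := hs_le.trans (by rw [div_le_iff₀ (by positivity)]; nlinarith)
  have hpi := Real.pi_gt_three
  have hpi4 : 2 * Real.pi ≤ 7 := by linarith [Real.pi_lt_d2]
  -- eta and s
  have hηs : η * D ^ (Ca) ≤ s := by
    refine le_trans ?_ hs_ge
    rw [le_div_iff₀ (by positivity)]
    calc η * D ^ Ca * (2 * D ^ C₁) ≤ η * D ^ Ca * (D * D ^ C₁) := by gcongr
      _ = η * D ^ (C₁ + Ca + 1) := by ring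
      _ ≤ η * D ^ (13 * Cs + C₁ + Ca + 6) :=
        mul_le_mul_of_nonneg_left (pow_le_pow_right₀ hD1 (by omega)) hη.le
      _ ≤ m := hηm
  have hηs' : η ≤ s := by
    refine le_trans ?_ hηs
    have : 1 ≤ D ^ Ca := one_le_pow₀ hD1
    nlinarith
  have hs2 : s ^ 2 * D ^ Ca ≤ η := by
    have h1 : s * D ^ C₁ ≤ m := by
      rw [le_div_iff₀ (by positivity)] at hs_le
      exact hs_le
    have h2 : D ^ Ca ≤ (D ^ C₁) ^ 2 := by
      rw [← pow_mul]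
      exact pow_le_pow_right₀ hD1 (by omega)
    calc s ^ 2 * D ^ Ca ≤ s ^ 2 * (D ^ C₁) ^ 2 := by gcongr
      _ = (s * D ^ C₁) ^ 2 := by ring
      _ ≤ m ^ 2 := pow_le_pow_left₀ (by positivity) h1 2
      _ ≤ η := hm2
  obtain ⟨B, hBm, hBv, hB⟩ := hbad m m₁ m₂ s η p₁ p₂ hm hm1 hm₁ hm₂ hs hs1 hη hηs'
  set F₁ := bind R (pw p₁ m₁ ξ₁ α₁) with hF₁
  set F₂ := bind R (pw p₂ m₂ ξ₂ α₂) with hF₂
  have hBd₁ : Bd R F₁ := bd_pw R p₁ m₁ ξ₁ α₁ hα₁
  have hBd₂ : Bd R F₂ := bd_pw R p₂ m₂ ξ₂ α₂ hα₂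
  have hAm := fun j => (Aj_meas a₁ a₂ R η s hη hs F₁ F₂ hBd₁ hBd₂ j).1
  have hA1 := fun j => (Aj_meas a₁ a₂ R η s hη hs F₁ F₂ hBd₁ hBd₂ j).2
  -- data of the good boxes
  have hdata : ∀ (k : ℤ × ℤ) (j : ℕ), ∃ (κ₁ κ₂ : ℤ × ℤ) (γ : ℂ), ‖γ‖ ≤ 1 ∧
      (j ∈ JJ s n B k →
        (∀ x ∈ sq (kp s k) s, Aj a₁ a₂ η s F₁ F₂ j x =
          γ * cJ η s (conj a₁ * ξ₁ κ₁ + conj a₂ * ξ₂ κ₂) ((j : ℝ) * s) *
            cu (ip (ξ₁ κ₁ + ξ₂ κ₂) x)) ∧
        (∀ z ∈ box s (k, j), cell m₁ (z.1 + a₁ * cu z.2 - p₁) = κ₁ ∧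
          cell m₂ (z.1 + a₂ * cu z.2 - p₂) = κ₂)) := by
    intro k j
    by_cases hj : j ∈ JJ s n B k
    · obtain ⟨-, z₀, hz₀, hz₀B⟩ := (mem_JJ s n B k j).mp hj
      have hbase : ∀ x ∈ sq (kp s k) s, ∀ φ, (j : ℝ) * s ≤ φ → φ ≤ (j : ℝ) * s + s →
          ∀ ρ, 0 ≤ ρ → ρ ≤ η →
          cell m₁ (x + a₁ * ((1 + ρ : ℝ) : ℂ) * cu φ - p₁) =
            cell m₁ (z₀.1 + a₁ * cu z₀.2 - p₁) ∧
          cell m₂ (x + a₂ * ((1 + ρ : ℝ) : ℂ) * cu φ - p₂) =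
            cell m₂ (z₀.1 + a₂ * cu z₀.2 - p₂) ∧
          (‖x + a₁ * ((1 + ρ : ℝ) : ℂ) * cu φ‖ ≤ R ↔ ‖z₀.1 + a₁ * cu z₀.2‖ ≤ R) ∧
          (‖x + a₂ * ((1 + ρ : ℝ) : ℂ) * cu φ‖ ≤ R ↔ ‖z₀.1 + a₂ * cu z₀.2‖ ≤ R) := by
        intro x hx φ h1 h2 ρ h3 h4
        have h5 := hz₀.2.1
        have h6 := hz₀.2.2
        refine hB z₀.1 x z₀.2 φ ρ hz₀B (norm_sub_le_of_mem_sq hx hz₀.1) ?_ h3 h4
        rw [abs_le]
        constructor <;> linarith
      obtain ⟨γ, hγ, hform⟩ := good_formula a₁ a₂ R η s hη hs p₁ p₂ m₁ m₂ ξ₁ α₁ ξ₂ α₂ hα₁ hα₂ j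
        (sq (kp s k) s) _ _ _ _ hbase
      refine ⟨_, _, γ, hγ, fun _ => ⟨hform, ?_⟩⟩
      intro z hz
      have h := hbase z.1 hz.1 z.2 hz.2.1 hz.2.2.le 0 le_rfl hη.le
      rw [add_zero, Complex.ofReal_one, mul_one, mul_one] at h
      exact ⟨h.1, h.2.1⟩
    · exact ⟨0, 0, 0, by simp, fun h => absurd h hj⟩
  choose κ₁ κ₂ γ hγ hgood using hdata
  set ζ : ℤ × ℤ → ℕ → ℂ := fun k j => ξ₁ (κ₁ k j) + ξ₂ (κ₂ k j) with hζ
  set χ : ℤ × ℤ → ℕ → ℂ := fun k j => conj a₁ * ξ₁ (κ₁ k j) + conj a₂ * ξ₂ (κ₂ k j) with hχ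
  set g : ℤ × ℤ → ℕ → ℂ := fun k j => γ k j * cJ η s (χ k j) ((j : ℝ) * s) with hg
  have hg1 : ∀ k j, ‖g k j‖ ≤ s := by
    intro k j
    rw [hg, norm_mul]
    have h1 := hγ k j
    have h2 := norm_cJ_le hη hs (χ k j) ((j : ℝ) * s)
    nlinarith [norm_nonneg (γ k j), norm_nonneg (cJ η s (χ k j) ((j : ℝ) * s))]
  have hg2 : ∀ k j, ‖g k j‖ ≤ ‖cJ η s (χ k j) ((j : ℝ) * s)‖ := by
    intro k j
    rw [hg, norm_mul]
    have h1 := hγ k j
    nlinarith [norm_nonneg (γ k j), norm_nonneg (cJ η s (χ k j) ((j : ℝ) * s))]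
  set Y : ℤ × ℤ → ℝ := fun k =>
    ‖∫ x in sq (kp s k) s, f₀ x * ∑ j ∈ JJ s n B k, Aj a₁ a₂ η s F₁ F₂ j x‖ with hY
  -- the total
  have hY0 : ∀ k, 0 ≤ Y k := fun k => norm_nonneg _
  have hfm := hf₀.meas
  have hf1 := hf₀.le_one
  have htot : 1 / (2 * D) ≤ ∑ k ∈ KK s, Y k := by
    have h1 := tq_arcs a₁ a₂ R η s n hη hs hn f₀ F₁ F₂ hf₀ hBd₁ hBd₂
    have hFi : Integrable (fun x => f₀ x * ∑ j ∈ Finset.range n, Aj a₁ a₂ η s F₁ F₂ j x) := by
      have hon : IntegrableOn (fun x => f₀ x * ∑ j ∈ Finset.range n, Aj a₁ a₂ η s F₁ F₂ j x)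
          (sq 0 1) := by
        refine Measure.integrableOn_of_bounded (M := (n : ℝ) * s)
          (by rw [volume_sq 0 zero_le_one]; exact ENNReal.ofReal_ne_top)
          (hfm.mul (Finset.measurable_sum _ (fun j _ => hAm j))).aestronglyMeasurable
          (Filter.Eventually.of_forall (fun x => ?_))
        rw [norm_mul]
        have h1 : ‖∑ j ∈ Finset.range n, Aj a₁ a₂ η s F₁ F₂ j x‖ ≤ (n : ℝ) * s := by
          refine (norm_sum_le _ _).trans ?_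
          refine (Finset.sum_le_sum (fun j _ => hA1 j x)).trans ?_
          rw [Finset.sum_const, nsmul_eq_mul, Finset.card_range]
        have := hf1 x
        nlinarith [norm_nonneg (f₀ x),
          norm_nonneg (∑ j ∈ Finset.range n, Aj a₁ a₂ η s F₁ F₂ j x)]
      refine (integrableOn_iff_integrable_of_support_subset ?_).mp hon
      intro x hx
      by_contra h
      exact hx (by simp only [hsupp x h, zero_mul])
    rw [integral_cells hs _ hFi (fun x hx => by rw [hsupp x hx, zero_mul])] at h1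
    rw [h1] at hT
    have h2 : ‖∑ k ∈ KK s, ∫ x in sq (kp s k) s,
        f₀ x * ∑ j ∈ Finset.range n, Aj a₁ a₂ η s F₁ F₂ j x‖ ≤
        ∑ k ∈ KK s, (Y k + s ^ 3 * ((Finset.range n \ JJ s n B k).card : ℝ)) := by
      refine (norm_sum_le _ _).trans (Finset.sum_le_sum (fun k _ => ?_))
      exact cell_split hs n (JJ s n B k) (JJ_sub s n B k) (kp s k) f₀ hfm hf1
        (fun j => Aj a₁ a₂ η s F₁ F₂ j) hAm hA1
    rw [Finset.sum_add_distrib] at h2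
    have h3 := bad_count hs hs1 n hn B (K * s / m) (by positivity) hBv
    have h4 : K * s / m ≤ 1 / (2 * D) := by
      have h5 : s * D ^ C₁ ≤ m := by
        rw [le_div_iff₀ (by positivity)] at hs_le
        exact hs_le
      have h6 : 2 * K * D ≤ D ^ C₁ := by
        calc 2 * K * D ≤ 2 ^ NK * D := by gcongr
          _ ≤ D ^ NK * D := by gcongr
          _ = D ^ (NK + 1) := by ring
          _ ≤ D ^ C₁ := pow_le_pow_right₀ hD1 (by omega)
      rw [div_le_div_iff₀ hm (by positivity)]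
      calc K * s * (2 * D) = s * (2 * K * D) := by ring
        _ ≤ s * D ^ C₁ := by gcongr
        _ ≤ 1 * m := by linarith
    have h7 : 1 / D = 1 / (2 * D) + 1 / (2 * D) := by field_simp; norm_num
    linarith
  -- the expansion
  set I : ℤ × ℤ → ℕ → ℕ → ℝ := fun k j j' =>
    ‖∫ x in sq (kp s k) s, cu (ip (ζ k j - ζ k j') x)‖ / s ^ 2 with hI
  have hI0 : ∀ k j j', 0 ≤ I k j j' := fun k j j' => by positivity
  have hI1 : ∀ k j j', I k j j' ≤ 1 := by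
    intro k j j'
    rw [hI]
    simp only
    rw [div_le_one (by positivity)]
    exact (osc_sq s hs (kp s k) _).1
  have hI2 : ∀ k j j', I k j j' * ‖ζ k j - ζ k j'‖ * s ≤ 4 := by
    intro k j j'
    have h := (osc_sq s hs (kp s k) (ζ k j - ζ k j')).2
    rw [hI]
    simp only
    rw [div_mul_eq_mul_div, div_mul_eq_mul_div, div_le_iff₀ (by positivity)]
    nlinarith
  have hYX : ∀ k, Y k ^ 2 ≤ s ^ 4 *
      ∑ j ∈ JJ s n B k, ∑ j' ∈ JJ s n B k, ‖g k j‖ * ‖g k j'‖ * I k j j' := by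
    intro k
    have e : ∫ x in sq (kp s k) s, f₀ x * ∑ j ∈ JJ s n B k, Aj a₁ a₂ η s F₁ F₂ j x =
        ∫ x in sq (kp s k) s, f₀ x * ∑ j ∈ JJ s n B k, g k j * cu (ip (ζ k j) x) := by
      refine setIntegral_congr_fun (measurableSet_sq _ _) (fun x hx => ?_)
      congr 1
      refine Finset.sum_congr rfl (fun j hj => ?_)
      exact (hgood k j hj).1 x hx
    have e2 : Y k = ‖∫ x in sq (kp s k) s, f₀ x * ∑ j ∈ JJ s n B k,
        g k j * cu (ip (ζ k j) x)‖ := by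
      rw [← e]
    rw [e2]
    refine (cell_est (kp s k) hs (JJ s n B k) (g k) (ζ k) f₀ hf1).trans (le_of_eq ?_)
    have hs0 : s ≠ 0 := hs.ne'
    rw [Finset.mul_sum, Finset.mul_sum]
    refine Finset.sum_congr rfl (fun j _ => ?_)
    rw [Finset.mul_sum, Finset.mul_sum]
    refine Finset.sum_congr rfl (fun j' _ => ?_)
    rw [hI]
    simp only
    field_simp
  have hcardJ : ∀ k, s * ((JJ s n B k).card : ℝ) ≤ 7 := by
    intro k
    have h1 : ((JJ s n B k).card : ℝ) ≤ n := by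
      have := Finset.card_le_card (JJ_sub s n B k)
      rw [Finset.card_range] at this
      exact_mod_cast this
    calc s * ((JJ s n B k).card : ℝ) ≤ s * n := by gcongr
      _ = 2 * Real.pi := by rw [mul_comm, hn]
      _ ≤ 7 := hpi4
  have hY7 : ∀ k, Y k ≤ 7 * s ^ 2 := by
    intro k
    have h1 : ∑ j ∈ JJ s n B k, ∑ j' ∈ JJ s n B k, ‖g k j‖ * ‖g k j'‖ * I k j j' ≤ 7 * 7 := by
      have h2 : ∀ j ∈ JJ s n B k, ∑ j' ∈ JJ s n B k, ‖g k j‖ * ‖g k j'‖ * I k j j' ≤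
          ((JJ s n B k).card : ℝ) * (s * s) := by
        intro j _
        rw [← nsmul_eq_mul]
        refine Finset.sum_le_card_nsmul _ _ _ (fun j' _ => ?_)
        have h3 : ‖g k j‖ * ‖g k j'‖ ≤ s * s :=
          mul_le_mul (hg1 k j) (hg1 k j') (norm_nonneg _) hs.le
        have h4 := hI1 k j j'
        have h5 := hI0 k j j'
        have h6 : 0 ≤ ‖g k j‖ * ‖g k j'‖ := by positivity
        nlinarith
      have h3 : ∑ j ∈ JJ s n B k, ∑ j' ∈ JJ s n B k, ‖g k j‖ * ‖g k j'‖ * I k j j' ≤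
          ((JJ s n B k).card : ℝ) * (((JJ s n B k).card : ℝ) * (s * s)) := by
        rw [← nsmul_eq_mul (a := ((JJ s n B k).card : ℝ) * (s * s))]
        exact Finset.sum_le_card_nsmul _ _ _ h2
      refine h3.trans ?_
      have h4 := hcardJ k
      have h5 : 0 ≤ s * ((JJ s n B k).card : ℝ) := by positivity
      nlinarith
    have h2 := hYX k
    have h3 : Y k ^ 2 ≤ (7 * s ^ 2) ^ 2 := by
      refine h2.trans ?_
      have : 0 < s ^ 4 := by positivity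
      nlinarith
    exact abs_le_of_sq_le_sq' h3 (by positivity) |>.2
  -- the rich cells
  set K' : Finset (ℤ × ℤ) := (KK s).filter (fun k => s ^ 2 / (36 * D) ≤ Y k) with hK'
  have hrich : 1 / (28 * D) ≤ (K'.card : ℝ) * s ^ 2 := by
    have h1 : ∑ k ∈ KK s, Y k ≤ ∑ k ∈ KK s, (if s ^ 2 / (36 * D) ≤ Y k then 7 * s ^ 2 else 0) +
        ∑ k ∈ KK s, s ^ 2 / (36 * D) := by
      rw [← Finset.sum_add_distrib]
      refine Finset.sum_le_sum (fun k _ => ?_)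
      split_ifs with h
      · have := hY7 k
        have : 0 ≤ s ^ 2 / (36 * D) := by positivity
        linarith
      · push Not at h
        linarith
    rw [← Finset.sum_filter, Finset.sum_const, Finset.sum_const, nsmul_eq_mul, nsmul_eq_mul] at h1
    have h2 := KK_card hs hs1
    have h3 : ((KK s).card : ℝ) * (s ^ 2 / (36 * D)) ≤ 4 / (36 * D) := by
      rw [← mul_div_assoc]
      gcongr
    have h4 : 1 / (2 * D) - 4 / (36 * D) ≤ (K'.card : ℝ) * (7 * s ^ 2) := by linarith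
    have h5 : 1 / (28 * D) * 7 ≤ 1 / (2 * D) - 4 / (36 * D) := by
      have : 1 / (2 * D) - 4 / (36 * D) - 1 / (28 * D) * 7 = (1 / D) * (5 / 36) := by
        field_simp
        norm_num
      have h6 : 0 ≤ (1 / D) * (5 / 36 : ℝ) := by positivity
      linarith
    nlinarith
  -- selection
  have hselk : ∀ k, ∃ (j' : ℕ) (T : Finset ℕ), k ∈ K' → T ⊆ JJ s n B k ∧
      (∀ j ∈ T, s / D ^ (13 * Cs) ≤ ‖g k j‖ ∧ ‖ζ k j - ζ k j'‖ ≤ D ^ (13 * Cs) / s) ∧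
      1 / D ^ (13 * Cs) ≤ s * (T.card : ℝ) := by
    intro k
    by_cases hk : k ∈ K'
    · have hk2 : s ^ 2 / (36 * D) ≤ Y k := (Finset.mem_filter.mp hk).2
      have hX : 1 / D ^ 13 ≤ ∑ j ∈ JJ s n B k, ∑ j' ∈ JJ s n B k, ‖g k j‖ * ‖g k j'‖ * I k j j' := by
        have h1 : (s ^ 2 / (36 * D)) ^ 2 ≤ s ^ 4 *
            ∑ j ∈ JJ s n B k, ∑ j' ∈ JJ s n B k, ‖g k j‖ * ‖g k j'‖ * I k j j' :=
          (pow_le_pow_left₀ (by positivity) hk2 2).trans (hYX k)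
        have h2 : (s ^ 2 / (36 * D)) ^ 2 = s ^ 4 * (1 / (36 * D) ^ 2) := by
          field_simp
        rw [h2] at h1
        have h3 := le_of_mul_le_mul_left h1 (by positivity : (0 : ℝ) < s ^ 4)
        refine le_trans ?_ h3
        refine one_div_le_one_div_of_le (by positivity) ?_
        calc (36 * D) ^ 2 = 1296 * D ^ 2 := by ring
          _ ≤ 2 ^ 11 * D ^ 2 := by gcongr; norm_num
          _ ≤ D ^ 11 * D ^ 2 := by gcongr
          _ = D ^ 13 := by ring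
      obtain ⟨j', -, T, hT1, hT2, hT3⟩ := hsel (D ^ 13) s (JJ s n B k) (fun j => ‖g k j‖) (ζ k)
        (I k) (le_trans hD (le_self_pow₀ hD1 (by norm_num))) hs (hcardJ k)
        (fun j _ => ⟨norm_nonneg _, hg1 k j⟩)
        (fun j _ j' _ => ⟨hI0 k j j', hI1 k j j', hI2 k j j'⟩) hX
      rw [← pow_mul] at hT3
      refine ⟨j', T, fun _ => ⟨hT1, fun j hj => ?_, hT3⟩⟩
      have := hT2 j hj
      rw [← pow_mul] at this
      exact this
    · exact ⟨0, ∅, fun h => absurd h hk⟩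
  choose jj T hTT using hselk
  -- the fields
  set U : ℤ × ℤ → ℂ := fun k => -((η : ℂ) * ζ k (jj k)) with hU
  set P : Finset ((ℤ × ℤ) × ℕ) := (K' ×ˢ Finset.range n).filter (fun i => i.2 ∈ T i.1) with hP
  have hcardP : P.card = ∑ k ∈ K', (T k).card :=
    card_pairs K' n T (fun k hk => (hTT k hk).1.trans (JJ_sub s n B k))
  refine ⟨fun x => U (cell s x), fun y => (η : ℂ) * ξ₁ (cell m₁ (y - p₁)),
    fun y => (η : ℂ) * ξ₂ (cell m₂ (y - p₂)), ⋃ i ∈ P, box s i, ?_, ?_, ?_, ?_, ?_, ?_⟩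
  · exact (measurable_of_countable U).comp (measurable_cell s)
  · exact (measurable_comp_cell m₁ p₁ ξ₁).const_mul _
  · exact (measurable_comp_cell m₂ p₂ ξ₂).const_mul _
  · exact Finset.measurableSet_biUnion _ (fun i _ => measurableSet_box s i)
  · rw [Measure.real, volume_biUnion_box hs P, ENNReal.toReal_ofReal (by positivity), hcardP]
    push_cast
    have h1 : (K'.card : ℝ) * (1 / D ^ (13 * Cs) * s ^ 2) ≤
        (∑ k ∈ K', ((T k).card : ℝ)) * s ^ 3 := by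
      rw [Finset.sum_mul, ← nsmul_eq_mul, ]
      refine Finset.card_nsmul_le_sum _ _ _ (fun k hk => ?_)
      have h2 := (hTT k hk).2.2
      calc 1 / D ^ (13 * Cs) * s ^ 2 ≤ (s * ((T k).card : ℝ)) * s ^ 2 := by gcongr
        _ = ((T k).card : ℝ) * s ^ 3 := by ring
    refine le_trans ?_ h1
    have h2 : (K'.card : ℝ) * (1 / D ^ (13 * Cs) * s ^ 2) =
        ((K'.card : ℝ) * s ^ 2) * (1 / D ^ (13 * Cs)) := by ring
    rw [h2]
    calc 1 / D ^ (13 * Cs + C₁ + Ca + 6) ≤ 1 / D ^ (13 * Cs + 6) := by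
          refine one_div_le_one_div_of_le (by positivity) ?_
          exact pow_le_pow_right₀ hD1 (by omega)
      _ = 1 / (D ^ 5 * D) * (1 / D ^ (13 * Cs)) := by
          rw [one_div_mul_one_div]
          congr 1
          ring
      _ ≤ 1 / (28 * D) * (1 / D ^ (13 * Cs)) := by
          have h28 : (28 : ℝ) ≤ D ^ 5 := by
            calc (28 : ℝ) ≤ 2 ^ 5 := by norm_num
              _ ≤ D ^ 5 := by gcongr
          gcongr
      _ ≤ _ := by gcongr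
  · intro z hz
    simp only [Set.mem_iUnion] at hz
    obtain ⟨i, hi, hz⟩ := hz
    rw [hP, Finset.mem_filter, Finset.mem_product, Finset.mem_range] at hi
    obtain ⟨⟨hk, hjn⟩, hjT⟩ := hi
    obtain ⟨k, j⟩ := i
    simp only at hk hjn hjT
    obtain ⟨hT1, hT2, -⟩ := hTT k hk
    have hjJ := hT1 hjT
    obtain ⟨hgs, hζs⟩ := hT2 j hjT
    obtain ⟨hc1, hc2⟩ := (hgood k j hjJ).2 z hz
    have hkK : k ∈ KK s := (Finset.mem_filter.mp hk).1
    have hcell : cell s z.1 = k := (mem_sq_iff hs z.1 k).mp hz.1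
    have hz2 := hz.2
    simp only [Set.mem_Ico] at hz2
    have hφ := harc D η s ((j : ℝ) * s) (χ k j) hD hη hη1 hs hs1 hηs hs2
      (hgs.trans (hg2 k j)) z.2 hz2.1 hz2.2.le
    obtain ⟨hφ1, hφ2, hφ3⟩ := hφ
    have hsinv : ∀ E : ℕ, D ^ E / s ≤ D ^ (E + C₁ + 1) / m := by
      intro E
      rw [div_le_div_iff₀ hs hm]
      have h1 : m ≤ s * (2 * D ^ C₁) := by
        rw [div_le_iff₀ (by positivity)] at hs_ge
        exact hs_ge
      calc D ^ E * m ≤ D ^ E * (s * (2 * D ^ C₁)) := by gcongr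
        _ ≤ D ^ E * (s * (D * D ^ C₁)) := by gcongr
        _ = D ^ (E + C₁ + 1) * s := by ring
    have hmono : ∀ E F : ℕ, E ≤ F → D ^ E * η / m ≤ D ^ F * η / m := fun E F h =>
      div_le_div_of_nonneg_right (mul_le_mul_of_nonneg_right (pow_le_pow_right₀ hD1 h) hη.le) hm.le
    have hZ : Zf a₁ a₂ (fun y => (η : ℂ) * ξ₁ (cell m₁ (y - p₁)))
        (fun y => (η : ℂ) * ξ₂ (cell m₂ (y - p₂))) z.1 z.2 = (η : ℂ) * (cu z.2 * conj (χ k j)) := by
      unfold Zf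
      simp only
      rw [hc1, hc2, hχ]
      simp only [map_mul, map_add, Complex.conj_conj, Complex.conj_ofReal]
      ring
    have hre : (Zf a₁ a₂ (fun y => (η : ℂ) * ξ₁ (cell m₁ (y - p₁)))
        (fun y => (η : ℂ) * ξ₂ (cell m₂ (y - p₂))) z.1 z.2).re = η * ip (χ k j) (cu z.2) := by
      rw [hZ, Complex.re_ofReal_mul, Complex.mul_re, Complex.conj_re, Complex.conj_im]
      unfold ip
      ring
    have him : (Zf a₁ a₂ (fun y => (η : ℂ) * ξ₁ (cell m₁ (y - p₁)))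
        (fun y => (η : ℂ) * ξ₂ (cell m₂ (y - p₂))) z.1 z.2).im =
        -(η * ip (χ k j) (Complex.I * cu z.2)) := by
      rw [hZ, Complex.im_ofReal_mul, Complex.mul_im, Complex.conj_re, Complex.conj_im]
      unfold ip
      rw [Complex.mul_re, Complex.mul_im, Complex.I_re, Complex.I_im]
      ring
    refine ⟨KK_sub hs hs1 hkK hz.1, le_trans (by positivity) hz2.1, ?_, ?_, ?_, ?_, ?_⟩
    · refine lt_of_lt_of_le hz2.2 ?_
      rw [← hn]
      have : (j : ℝ) + 1 ≤ n := by exact_mod_cast hjn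
      nlinarith
    · simp only
      rw [hcell, hc1, hc2, hU]
      simp only
      have e : -((η : ℂ) * ζ k (jj k)) + (η : ℂ) * ξ₁ (κ₁ k j) + (η : ℂ) * ξ₂ (κ₂ k j) =
          (η : ℂ) * (ζ k j - ζ k (jj k)) := by
        rw [hζ]
        simp only
        ring
      rw [e, norm_mul, Complex.norm_real, Real.norm_eq_abs, abs_of_pos hη]
      calc η * ‖ζ k j - ζ k (jj k)‖ ≤ η * (D ^ (13 * Cs) / s) := by gcongr
        _ ≤ η * (D ^ (13 * Cs + C₁ + 1) / m) := mul_le_mul_of_nonneg_left (hsinv _) hη.le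
        _ = D ^ (13 * Cs + C₁ + 1) * η / m := by ring
        _ ≤ D ^ (13 * Cs + C₁ + Ca + 6) * η / m := hmono _ _ (by omega)
    · rw [him, abs_neg, abs_mul, abs_of_pos hη]
      calc η * |ip (χ k j) (Complex.I * cu z.2)| ≤ η * (D ^ Ca / s) := by gcongr
        _ ≤ η * (D ^ (Ca + C₁ + 1) / m) := mul_le_mul_of_nonneg_left (hsinv _) hη.le
        _ = D ^ (Ca + C₁ + 1) * η / m := by ring
        _ ≤ D ^ (13 * Cs + C₁ + Ca + 6) * η / m := hmono _ _ (by omega)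
    · rw [hre, abs_mul, abs_of_pos hη]
      calc 1 / D ^ (13 * Cs + C₁ + Ca + 6) ≤ 1 / D ^ Ca := by
            refine one_div_le_one_div_of_le (by positivity) ?_
            exact pow_le_pow_right₀ hD1 (by omega)
        _ = η * (1 / (D ^ Ca * η)) := by field_simp
        _ ≤ η * |ip (χ k j) (cu z.2)| := by gcongr
    · rw [hre, abs_mul, abs_of_pos hη]
      calc η * |ip (χ k j) (cu z.2)| ≤ η * (D ^ Ca / η) := by gcongr
        _ = D ^ Ca := by field_simp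
        _ ≤ D ^ (13 * Cs + C₁ + Ca + 6) := pow_le_pow_right₀ hD1 (by omega)

end Pool.Agent.H67.Pl
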