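import Pool.Agent.H16.Kn.Kernels

/-!
# Kernels at comparable scales
-/

open MeasureTheory

namespace Pool.Agent.H67.Pl

theorem kernels (a₁ a₂ : ℂ) (h1 : a₁ ≠ 0) (h2 : a₂ ≠ 0) (h12 : a₁ ≠ a₂) (n : ℕ)
    (q : Fin n → ℂ → ℝ) (hq : ∀ i, Measurable (q i)) (B R : ℝ) (hB : ∀ i v, |q i v| ≤ B)
    (hR : ∀ i v, R < ‖v‖ → q i v = 0) (h0 : ∀ i, ∫ v, q i v = 0) (ε : ℝ) (hε : 0 < ε) :
    ∃ (κ : ℝ) (J : ℕ), 0 < κ ∧ ∀ (l : ℕ → ℝ) (f : ℂ → ℝ) (V : ℝ), (∀ j, 0 < l j) →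
      (∀ j, l j ≤ κ * l (j + 1)) → Measurable f → (∀ x, 0 ≤ f x ∧ f x ≤ 1) → Integrable f →
      0 < V → ∫ x, f x ≤ V →
      ∃ j < J, ∀ i, |∫ x : ℂ, ∫ v : ℂ, q i v * (f x * f (x + (l j : ℂ) * a₁ * v) *
        f (x + (l j : ℂ) * a₂ * v))| ≤ ε * V :=
  Pool.Agent.H16.Kn.kernels a₁ a₂ h1 h2 h12 n q hq B R hB hR h0 ε hε

end Pool.Agent.H67.Pl
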