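import Pool.Agent.H67.Pl.Basic
import Pool.Agent.H42.Pl.Core

/-!
# The second step of the local inverse theorem
-/

open MeasureTheory
open scoped ComplexConjugate

namespace Pool.Agent.H67.Pl

open Pool.Agent.H42.Pl

theorem inv_b (σ : ℂ) (him : σ.im ≠ 0) (hre : σ.re ≠ 0) (R : ℝ) (hR : 1 ≤ R) (C₀ C₀' : ℕ) :
    ∃ C C₁ : ℕ, 1 ≤ C ∧ ∀ (D m t₁ t₂ : ℝ) (f : ℂ → ℂ), 2 ≤ D → 0 < m → m ≤ 1 → Bd R f →
      2 / D ^ C₀ ≤ |t₁| → |t₁| ≤ D ^ C₀ → 2 / D ^ C₀ ≤ |t₂| → |t₂| ≤ D ^ C₀ →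
      0 < t₁ * t₂ → 2 / D ^ C₀ ≤ |t₁ - t₂| →
      1 / D ^ C₀' ≤ ‖((m ^ 2 : ℝ) : ℂ) * ∫ τ in t₁..(t₁ + 1 / D ^ C₀),
        ∫ τ' in t₂..(t₂ + 1 / D ^ C₀),
          ∫ d : ℂ, ((nu σ m d τ * nu σ m d τ' : ℝ) : ℂ) * ∫ x : ℂ, conj (f (x + gk σ τ * d)) *
            conj (f (x + (1 - gk σ τ) * d)) * f (x + gk σ τ' * d) *
            f (x + (1 - gk σ τ') * d)‖ →
      m ^ 2 / D ^ C ≤ ∫ α in Metric.ball (0 : ℂ) (D ^ C * m), ∫ p : ℂ,
        ‖Sq (m / D ^ C₁) (Fp f α) p‖ ^ 2 := by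
  obtain ⟨n₀, hn₀⟩ : ∃ n : ℕ, R + ‖σ‖ + 1 / |σ.im| + 1 / |σ.re| ≤ 2 ^ n := by
    obtain ⟨n, hn⟩ := pow_unbounded_of_one_lt (R + ‖σ‖ + 1 / |σ.im| + 1 / |σ.re|)
      (by norm_num : (1 : ℝ) < 2)
    exact ⟨n, hn.le⟩
  have pim : 0 < |σ.im| := abs_pos.2 him
  have pre : 0 < |σ.re| := abs_pos.2 hre
  have qim : 0 < 1 / |σ.im| := by positivity
  have qre : 0 < 1 / |σ.re| := by positivity
  have nσ := norm_nonneg σ
  set q := n₀ + C₀ + C₀' + 4 with hq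
  refine ⟨121 * q, 220 * q, by omega, ?_⟩
  intro D m t₁ t₂ f hD hm hm1 hf h1 h2 h3 h4 _ h6 H
  have hD0 : 0 < D := by linarith
  have hD1 : 1 ≤ D := by linarith
  set Q := D ^ q with hQ
  have hle : ∀ k : ℕ, k ≤ q → D ^ k ≤ Q := fun k hk => pow_le_pow_right₀ hD1 hk
  have hn : (2 : ℝ) ^ n₀ ≤ Q :=
    (pow_le_pow_left₀ (by norm_num) hD n₀).trans (hle n₀ (by omega))
  have h16 : 16 ≤ Q := by
    have e : (16 : ℝ) = 2 ^ 4 := by norm_num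
    rw [e]
    exact (pow_le_pow_left₀ (by norm_num) hD 4).trans (hle 4 (by omega))
  have hQ0 : 0 < Q := by linarith
  have P : Par σ Q := by
    refine ⟨h16, ?_, ?_, by linarith⟩
    · rw [div_le_iff₀ hQ0]
      have : 1 / |σ.im| ≤ Q := by linarith
      rw [div_le_iff₀ pim] at this
      linarith
    · rw [div_le_iff₀ hQ0]
      have : 1 / |σ.re| ≤ Q := by linarith
      rw [div_le_iff₀ pre] at this
      linarith
  set ℓ := 1 / D ^ C₀ with hℓ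
  have hℓ0 : 0 < ℓ := by positivity
  have hDC : 1 ≤ D ^ C₀ := one_le_pow₀ hD1
  have hℓ1 : ℓ ≤ 1 := by
    rw [hℓ, div_le_one (by positivity)]; exact hDC
  have hℓQ : 1 / Q ≤ ℓ := one_div_le_one_div_of_le (by positivity) (hle C₀ (by omega))
  have e2 : 2 / D ^ C₀ = 2 * ℓ := by rw [hℓ]; ring
  rw [e2] at h1 h3 h6
  have hbd : D ^ C₀ + 1 ≤ Q := by
    have := hle (C₀ + 1) (by omega)
    rw [pow_succ] at this
    nlinarith
  have a1 := abs_le.1 h2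
  have a2 := abs_le.1 h4
  have hS : ∀ s ∈ Set.Icc t₂ (t₂ + ℓ), Sep Q t₁ ℓ s := by
    intro s hs
    refine ⟨?_, ?_, hℓ0, hℓ1, by linarith, ?_⟩
    · rcases le_abs.1 h6 with h | h
      · left; linarith [hs.2]
      · right; linarith [hs.1]
    · rw [abs_le]; constructor <;> linarith [hs.1, hs.2]
    · rw [abs_le]; constructor <;> linarith
  have h2Q : 2 / Q = 2 * (1 / Q) := by ring
  have hSum : ∀ s ∈ Set.Icc t₂ (t₂ + ℓ), ∀ u ∈ Set.Icc t₂ (t₂ + ℓ), 2 / Q ≤ |s + u| := by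
    intro s hs u hu
    rw [h2Q]
    rcases le_abs.1 h3 with h | h
    · exact le_trans (by linarith [hs.1, hu.1]) (le_abs_self _)
    · exact le_trans (by linarith [hs.2, hu.2]) (neg_le_abs _)
  have hH : 1 / Q ≤ 1 / D ^ C₀' := one_div_le_one_div_of_le (by positivity) (hle C₀' (by omega))
  have key := core P hm hm1 f hf (by linarith) hℓ0 hℓ1 hS hSum (hH.trans H)
  have p1 : D ^ (121 * q) = Q ^ 121 := by rw [hQ, ← pow_mul, mul_comm]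
  have p2 : D ^ (220 * q) = Q ^ 220 := by rw [hQ, ← pow_mul, mul_comm]
  rw [p1, p2]
  refine key.trans ?_
  refine sq_mono (m / Q ^ 220) (by positivity) hf _ _ ?_
  apply mul_le_mul_of_nonneg_right _ hm.le
  exact P.pow_le (by norm_num)

end Pool.Agent.H67.Pl
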