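import Pool.Agent.H67.Pl.Planch

/-!
# From box averages of pair functions to cellwise plane waves
-/

open MeasureTheory
open scoped ComplexConjugate ENNReal

namespace Pool.Agent.H67.Pl

namespace InvC69

/-- The lattice point `w k`. -/
noncomputable def lpt (w : ℝ) (k : ℤ × ℤ) : ℂ := ⟨w * k.1, w * k.2⟩

theorem mem_sq_iff_cell {w : ℝ} (hw : 0 < w) (p x : ℂ) (k : ℤ × ℤ) :
    x ∈ sq (p + lpt w k) w ↔ cell w (x - p) = k := by
  obtain ⟨k1, k2⟩ := k
  simp only [sq, Set.mem_ofPred_eq, cell, lpt, Complex.add_re, Complex.add_im, Complex.sub_re,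
    Complex.sub_im, Prod.mk.injEq, Int.floor_eq_iff, le_div_iff₀ hw, div_lt_iff₀ hw]
  constructor
  · rintro ⟨h1, h2, h3, h4⟩
    refine ⟨⟨?_, ?_⟩, ?_, ?_⟩ <;> nlinarith
  · rintro ⟨⟨h1, h2⟩, h3, h4⟩
    refine ⟨?_, ?_, ?_, ?_⟩ <;> nlinarith

theorem measurableSet_sq' (p : ℂ) (r : ℝ) : MeasurableSet (sq p r) := by
  have h1 : Measurable (fun x : ℂ => x.re) := Complex.measurable_re
  have h2 : Measurable (fun x : ℂ => x.im) := Complex.measurable_im
  have : sq p r = {x : ℂ | p.re ≤ x.re} ∩ {x : ℂ | x.re < p.re + r} ∩ {x : ℂ | p.im ≤ x.im} ∩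
      {x : ℂ | x.im < p.im + r} := by
    ext x; simp only [sq, Set.mem_ofPred_eq, Set.mem_inter_iff]; tauto
  rw [this]
  exact (((measurableSet_le measurable_const h1).inter (measurableSet_lt h1 measurable_const)).inter
    (measurableSet_le measurable_const h2)).inter (measurableSet_lt h2 measurable_const)

theorem volume_sq (p : ℂ) {r : ℝ} (hr : 0 ≤ r) : volume (sq p r) = ENNReal.ofReal (r ^ 2) := by
  have h : sq p r = Complex.measurableEquivRealProd ⁻¹'
      (Set.Ico p.re (p.re + r) ×ˢ Set.Ico p.im (p.im + r)) := by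
    ext x
    simp only [sq, Set.mem_ofPred_eq, Set.mem_preimage, Complex.measurableEquivRealProd_apply,
      Set.mem_prod, Set.mem_Ico]
    tauto
  rw [h, Complex.volume_preserving_equiv_real_prod.measure_preimage_equiv, Measure.volume_eq_prod,
    Measure.prod_prod, Real.volume_Ico, Real.volume_Ico, ← ENNReal.ofReal_mul (by linarith)]
  congr 1; ring

theorem lintegral_grid {w : ℝ} (hw : 0 < w) (F : ℂ → ℝ≥0∞) :
    ∫⁻ p, F p = ∑' k : ℤ × ℤ, ∫⁻ p in sq 0 w, F (p + lpt w k) := by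
  have h1 : (⋃ k : ℤ × ℤ, sq (0 + lpt w k) w) = Set.univ := by
    rw [Set.eq_univ_iff_forall]
    intro x
    rw [Set.mem_iUnion]
    exact ⟨cell w (x - 0), (mem_sq_iff_cell hw 0 x _).mpr rfl⟩
  have h2 : Pairwise (Function.onFun Disjoint fun k : ℤ × ℤ => sq (0 + lpt w k) w) := by
    intro k l hkl
    rw [Function.onFun, Set.disjoint_left]
    intro x hx hx'
    rw [mem_sq_iff_cell hw] at hx hx'
    exact hkl (hx.symm.trans hx')
  rw [← setLIntegral_univ, ← h1, lintegral_iUnion (fun k => measurableSet_sq' _ _) h2]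
  congr 1; ext k
  rw [← lintegral_indicator (measurableSet_sq' _ _), ← lintegral_indicator (measurableSet_sq' _ _),
    ← lintegral_add_right_eq_self _ (lpt w k)]
  congr 1; ext p
  have : p + lpt w k ∈ sq (0 + lpt w k) w ↔ p ∈ sq 0 w := by
    simp only [sq, Set.mem_ofPred_eq, Complex.add_re, Complex.add_im, Complex.zero_re,
      Complex.zero_im]
    constructor
    · rintro ⟨h1, h2, h3, h4⟩
      refine ⟨?_, ?_, ?_, ?_⟩ <;> linarith
    · rintro ⟨h1, h2, h3, h4⟩
      refine ⟨?_, ?_, ?_, ?_⟩ <;> linarith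
  by_cases hp : p ∈ sq 0 w
  · rw [Set.indicator_of_mem hp, Set.indicator_of_mem (this.mpr hp)]
  · rw [Set.indicator_of_notMem hp, Set.indicator_of_notMem (fun h => hp (this.mp h))]

/-- The local Fourier integral of `f` on a square. -/
noncomputable def lf (f : ℂ → ℂ) (w : ℝ) (p ξ : ℂ) : ℂ :=
  ∫ y in sq p w, f y * Complex.exp (-((ip ξ y : ℝ) : ℂ) * Complex.I)

theorem norm_exp_ip (ξ y : ℂ) : ‖Complex.exp (-((ip ξ y : ℝ) : ℂ) * Complex.I)‖ = 1 := by
  rw [← Complex.ofReal_neg, Complex.norm_exp_ofReal_mul_I]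

theorem lf_le {R : ℝ} {f : ℂ → ℂ} (hf : Bd R f) {w : ℝ} (hw : 0 ≤ w) (p ξ : ℂ) :
    ‖lf f w p ξ‖ ≤ w ^ 2 := by
  have h := norm_setIntegral_le_of_norm_le_const (μ := (volume : Measure ℂ)) (s := sq p w)
    (f := fun y => f y * Complex.exp (-((ip ξ y : ℝ) : ℂ) * Complex.I)) (C := 1)
    (by rw [volume_sq p hw]; exact ENNReal.ofReal_lt_top)
    (fun y _ => by rw [norm_mul, norm_exp_ip, mul_one]; exact hf.le_one y)
  rw [one_mul, Measure.real, volume_sq p hw, ENNReal.toReal_ofReal (by positivity)] at h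
  exact h

theorem continuous_ip (ξ : ℂ) : Continuous (fun y : ℂ => ip ξ y) := by
  unfold ip
  fun_prop

theorem lf_integrable {R : ℝ} {f : ℂ → ℂ} (hf : Bd R f) (ξ : ℂ) :
    Integrable (fun y => f y * Complex.exp (-((ip ξ y : ℝ) : ℂ) * Complex.I)) := by
  refine Integrable.mono' hf.integrable69.norm ?_ ?_
  · refine (hf.meas.mul ?_).aestronglyMeasurable
    exact (Complex.continuous_exp.comp ((Complex.continuous_ofReal.comp
      (continuous_ip ξ)).neg.mul continuous_const)).measurable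
  · filter_upwards with y
    rw [norm_mul, norm_exp_ip, mul_one]

/-- the supremum of the local Fourier integrals -/
noncomputable def sf (f : ℂ → ℂ) (w : ℝ) (p : ℂ) : ℝ := ⨆ ξ, ‖lf f w p ξ‖

theorem lf_le_sf {R : ℝ} {f : ℂ → ℂ} (hf : Bd R f) {w : ℝ} (hw : 0 ≤ w) (p ξ : ℂ) :
    ‖lf f w p ξ‖ ≤ sf f w p :=
  le_ciSup (f := fun ξ => ‖lf f w p ξ‖) ⟨w ^ 2, by rintro _ ⟨ξ, rfl⟩; exact lf_le hf hw p ξ⟩ ξ

theorem sf_nonneg {R : ℝ} {f : ℂ → ℂ} (hf : Bd R f) {w : ℝ} (hw : 0 ≤ w) (p : ℂ) :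
    0 ≤ sf f w p := (norm_nonneg _).trans (lf_le_sf hf hw p 0)

theorem sf_le {R : ℝ} {f : ℂ → ℂ} (hf : Bd R f) {w : ℝ} (hw : 0 ≤ w) (p : ℂ) :
    sf f w p ≤ w ^ 2 := ciSup_le fun ξ => lf_le hf hw p ξ

/-- the correlation with a cellwise plane wave with finitely many nonzero amplitudes -/
theorem corr_pw {R : ℝ} {f : ℂ → ℂ} (hf : Bd R f) {w : ℝ} (hw : 0 < w) (p : ℂ)
    (K : Finset (ℤ × ℤ)) (ξ a : ℤ × ℤ → ℂ) (ha : ∀ k ∉ K, a k = 0) :
    ∫ x : ℂ, f x * pw p w (fun k => -ξ k) a x = ∑ k ∈ K, a k * lf f w (p + lpt w k) (ξ k) := by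
  have h1 : ∀ x : ℂ, f x * pw p w (fun k => -ξ k) a x = ∑ k ∈ K, (sq (p + lpt w k) w).indicator
      (fun y => a k * (f y * Complex.exp (-((ip (ξ k) y : ℝ) : ℂ) * Complex.I))) x := by
    intro x
    have hpw : f x * pw p w (fun k => -ξ k) a x = a (cell w (x - p)) * (f x *
        Complex.exp (-((ip (ξ (cell w (x - p))) x : ℝ) : ℂ) * Complex.I)) := by
      have : ip (-ξ (cell w (x - p))) x = -ip (ξ (cell w (x - p))) x := by
        simp only [ip, Complex.neg_re, Complex.neg_im]; ring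
      simp only [pw]
      rw [this]
      push_cast
      ring
    rw [hpw]
    by_cases hk : cell w (x - p) ∈ K
    · rw [Finset.sum_eq_single_of_mem _ hk]
      · rw [Set.indicator_of_mem ((mem_sq_iff_cell hw p x _).mpr rfl)]
      · intro k _ hne
        rw [Set.indicator_of_notMem]
        intro h
        exact hne ((mem_sq_iff_cell hw p x k).mp h).symm
    · rw [ha _ hk, zero_mul]
      symm
      apply Finset.sum_eq_zero
      intro k hkK
      rw [Set.indicator_of_notMem]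
      intro h
      rw [mem_sq_iff_cell hw] at h
      exact hk (h ▸ hkK)
  simp_rw [h1]
  rw [integral_finsetSum]
  · refine Finset.sum_congr rfl fun k _ => ?_
    rw [integral_indicator (measurableSet_sq' _ _), integral_const_mul]
    rfl
  · intro k _
    exact ((lf_integrable hf (ξ k)).const_mul (a k)).indicator (measurableSet_sq' _ _)

theorem sum_sf_le {R : ℝ} {f : ℂ → ℂ} (hf : Bd R f) {w : ℝ} (hw : 0 < w) (p : ℂ) {ε : ℝ}
    (h : ∀ (ξ a : ℤ × ℤ → ℂ), (∀ k, ‖a k‖ ≤ 1) → ‖∫ x : ℂ, f x * pw p w ξ a x‖ ≤ ε)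
    (K : Finset (ℤ × ℤ)) : ∑ k ∈ K, sf f w (p + lpt w k) ≤ ε := by
  have key : ∀ ξ : ℤ × ℤ → ℂ, ∑ k ∈ K, ‖lf f w (p + lpt w k) (ξ k)‖ ≤ ε := by
    intro ξ
    let z : ℤ × ℤ → ℂ := fun k => lf f w (p + lpt w k) (ξ k)
    let a : ℤ × ℤ → ℂ := fun k => if k ∈ K then conj (z k) / ‖z k‖ else 0
    have ha1 : ∀ k, ‖a k‖ ≤ 1 := by
      intro k
      by_cases hk : k ∈ K
      · simp only [a, if_pos hk, norm_div, Complex.norm_conj, Complex.norm_real, norm_norm]
        exact div_self_le_one _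
      · simp [a, if_neg hk]
    have ha2 : ∀ k ∉ K, a k = 0 := fun k hk => by simp [a, hk]
    have h1 := h (fun k => -ξ k) a ha1
    rw [corr_pw hf hw p K ξ a ha2] at h1
    have h2 : ∑ k ∈ K, a k * lf f w (p + lpt w k) (ξ k) =
        ((∑ k ∈ K, ‖lf f w (p + lpt w k) (ξ k)‖ : ℝ) : ℂ) := by
      rw [Complex.ofReal_sum]
      refine Finset.sum_congr rfl fun k hk => ?_
      simp only [a, if_pos hk]
      show conj (z k) / ‖z k‖ * z k = ((‖z k‖ : ℝ) : ℂ)
      by_cases hz : z k = 0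
      · simp [hz]
      · have hz' : ((‖z k‖ : ℝ) : ℂ) ≠ 0 := by simpa using hz
        field_simp
        rw [mul_comm, Complex.mul_conj, Complex.normSq_eq_norm_sq]
        push_cast; ring
    rw [h2, Complex.norm_real, Real.norm_of_nonneg (by positivity)] at h1
    exact h1
  refine le_of_forall_pos_le_add fun δ hδ => ?_
  have hc : ∀ k : ℤ × ℤ, ∃ ξ, sf f w (p + lpt w k) - δ / (K.card + 1) <
      ‖lf f w (p + lpt w k) ξ‖ := by
    intro k
    exact exists_lt_of_lt_ciSup (f := fun ξ => ‖lf f w (p + lpt w k) ξ‖)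
      (sub_lt_self _ (by positivity))
  choose ξ hξ using hc
  have h3 : ∑ k ∈ K, sf f w (p + lpt w k) ≤
      ∑ k ∈ K, (‖lf f w (p + lpt w k) (ξ k)‖ + δ / (K.card + 1)) :=
    Finset.sum_le_sum fun k _ => by linarith [hξ k]
  rw [Finset.sum_add_distrib, Finset.sum_const, nsmul_eq_mul] at h3
  have h4 : (K.card : ℝ) * (δ / (K.card + 1)) ≤ δ := by
    rw [← mul_div_assoc, div_le_iff₀ (by positivity)]
    nlinarith
  linarith [key ξ]

theorem bdInd {R : ℝ} {f : ℂ → ℂ} (hf : Bd R f) {S : Set ℂ} (hS : MeasurableSet S) :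
    Bd R (S.indicator f) where
  meas := hf.meas.indicator hS
  le_one x := by
    by_cases h : x ∈ S
    · rw [Set.indicator_of_mem h]; exact hf.le_one x
    · rw [Set.indicator_of_notMem h, norm_zero]; exact zero_le_one
  supp x hx := by
    by_cases h : x ∈ S
    · rw [Set.indicator_of_mem h]; exact hf.supp x hx
    · rw [Set.indicator_of_notMem h]

theorem Sq_measurable {f : ℂ → ℂ} (hf : Measurable f) (w : ℝ) :
    Measurable (fun z : ℂ × ℂ => Sq w (Fp f z.1) z.2) := by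
  unfold Sq Fp
  refine Measurable.const_mul ?_ _
  refine StronglyMeasurable.measurable ?_
  refine StronglyMeasurable.integral_prod_right (f := fun (z : ℂ × ℂ) (y : ℂ) =>
    f (z.2 + y) * conj (f (z.2 + y + z.1))) ?_
  refine Measurable.stronglyMeasurable ?_
  refine (hf.comp (by fun_prop)).mul ?_
  exact Complex.continuous_conj.measurable.comp (hf.comp (by fun_prop))

/-- bound for one square -/
theorem sq_bound {R : ℝ} {f : ℂ → ℂ} (hf : Bd R f) {D m w : ℝ} (hD : 2 ≤ D) (hw : 0 < w)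
    (hwm : w ≤ m) (p : ℂ) :
    ∫⁻ α in Metric.ball (0 : ℂ) (D * m), ‖Sq w (Fp f α) p‖ₑ ^ 2 ≤
      ENNReal.ofReal (4 * Real.pi * D ^ 2 * m ^ 2 * (sf f w p / w ^ 2)) := by
  have hm : 0 < m := lt_of_lt_of_le hw hwm
  let g : ℂ → ℂ := (sq p w).indicator f
  let h : ℂ → ℂ := (Metric.closedBall p (D * m + 2 * w)).indicator f
  have hg : Bd R g := bdInd hf (measurableSet_sq' _ _)
  have hh : Bd R h := bdInd hf Metric.isClosed_closedBall.measurableSet
  have hs : ∀ ξ : ℂ, ‖∫ y : ℂ, g y * Complex.exp (-((ip ξ y : ℝ) : ℂ) * Complex.I)‖ ≤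
      sf f w p := by
    intro ξ
    have : ∫ y : ℂ, g y * Complex.exp (-((ip ξ y : ℝ) : ℂ) * Complex.I) = lf f w p ξ := by
      rw [lf, ← integral_indicator (measurableSet_sq' _ _)]
      congr 1; ext y
      by_cases hy : y ∈ sq p w
      · simp only [g, Set.indicator_of_mem hy]
      · simp only [g, Set.indicator_of_notMem hy, zero_mul]
    rw [this]
    exact lf_le_sf hf hw.le p ξ
  obtain ⟨hi, hle⟩ := cross_l2 R g h hg hh _ hs
  have hSq : ∀ α ∈ Metric.ball (0 : ℂ) (D * m), Sq w (Fp f α) p =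
      ((1 / w ^ 2 : ℝ) : ℂ) * ∫ y : ℂ, g y * conj (h (y + α)) := by
    intro α hα
    rw [Sq]
    congr 1
    rw [← integral_indicator (measurableSet_sq' _ _),
      ← integral_add_left_eq_self (fun y => g y * conj (h (y + α))) p]
    congr 1; ext y
    have hmem : p + y ∈ sq p w ↔ y ∈ sq 0 w := by
      simp only [sq, Set.mem_ofPred_eq, Complex.add_re, Complex.add_im, Complex.zero_re,
        Complex.zero_im]
      constructor
      · rintro ⟨h1, h2, h3, h4⟩
        refine ⟨?_, ?_, ?_, ?_⟩ <;> linarith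
      · rintro ⟨h1, h2, h3, h4⟩
        refine ⟨?_, ?_, ?_, ?_⟩ <;> linarith
    by_cases hy : y ∈ sq 0 w
    · have hy' := hmem.mpr hy
      have hb : p + y + α ∈ Metric.closedBall p (D * m + 2 * w) := by
        rw [Metric.mem_closedBall, dist_eq_norm]
        have h1 : ‖y‖ ≤ 2 * w := by
          obtain ⟨h1, h2, h3, h4⟩ := hy
          simp only [Complex.zero_re, Complex.zero_im, zero_add] at h1 h2 h3 h4
          have := Complex.norm_le_abs_re_add_abs_im y
          rw [abs_of_nonneg h1, abs_of_nonneg h3] at this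
          linarith
        have h2 : ‖α‖ < D * m := by simpa using hα
        have h3 : p + y + α - p = y + α := by ring
        rw [h3]
        calc ‖y + α‖ ≤ ‖y‖ + ‖α‖ := norm_add_le _ _
          _ ≤ D * m + 2 * w := by linarith
      rw [Set.indicator_of_mem hy]
      simp only [g, h, Set.indicator_of_mem hy', Set.indicator_of_mem hb, Fp]
    · rw [Set.indicator_of_notMem hy]
      simp only [g, Set.indicator_of_notMem (fun h => hy (hmem.mp h)), zero_mul]
  have hh2 : ∫ y : ℂ, ‖h y‖ ^ 2 ≤ 4 * Real.pi * D ^ 2 * m ^ 2 := by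
    have h1 : ∀ y, ‖h y‖ ^ 2 = (Metric.closedBall p (D * m + 2 * w)).indicator
        (fun y => ‖f y‖ ^ 2) y := by
      intro y
      by_cases hy : y ∈ Metric.closedBall p (D * m + 2 * w)
      · simp only [h, Set.indicator_of_mem hy]
      · simp only [h, Set.indicator_of_notMem hy, norm_zero]; norm_num
    simp_rw [h1]
    rw [integral_indicator Metric.isClosed_closedBall.measurableSet]
    have hr : 0 ≤ D * m + 2 * w := by positivity
    have hv : volume (Metric.closedBall p (D * m + 2 * w)) =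
        ENNReal.ofReal (Real.pi * (D * m + 2 * w) ^ 2) := by
      rw [Complex.volume_closedBall, mul_comm, ENNReal.ofReal_mul Real.pi_pos.le,
        ENNReal.ofReal_pow hr, ← NNReal.coe_real_pi, ENNReal.ofReal_coe_nnreal]
    have h2 : ‖∫ y in Metric.closedBall p (D * m + 2 * w), ‖f y‖ ^ 2‖ ≤
        1 * volume.real (Metric.closedBall p (D * m + 2 * w)) := by
      refine norm_setIntegral_le_of_norm_le_const (by rw [hv]; exact ENNReal.ofReal_lt_top) ?_
      intro y _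
      rw [Real.norm_of_nonneg (by positivity)]
      exact pow_le_one₀ (norm_nonneg _) (hf.le_one y)
    rw [Measure.real, hv, ENNReal.toReal_ofReal (by positivity), one_mul] at h2
    refine (Real.le_norm_self _).trans (h2.trans ?_)
    have h3 : D * m + 2 * w ≤ 2 * (D * m) := by nlinarith
    calc Real.pi * (D * m + 2 * w) ^ 2 ≤ Real.pi * (2 * (D * m)) ^ 2 := by gcongr
      _ = 4 * Real.pi * D ^ 2 * m ^ 2 := by ring
  calc ∫⁻ α in Metric.ball (0 : ℂ) (D * m), ‖Sq w (Fp f α) p‖ₑ ^ 2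
      = ∫⁻ α in Metric.ball (0 : ℂ) (D * m), ENNReal.ofReal ((1 / w ^ 2) ^ 2 *
          ‖∫ y : ℂ, g y * conj (h (y + α))‖ ^ 2) := by
        refine setLIntegral_congr_fun Metric.isOpen_ball.measurableSet ?_
        intro α hα
        show ‖Sq w (Fp f α) p‖ₑ ^ 2 = _
        rw [hSq α hα, ← ofReal_norm, norm_mul, Complex.norm_real,
          Real.norm_of_nonneg (by positivity), ← ENNReal.ofReal_pow (by positivity), mul_pow]
    _ ≤ ∫⁻ α, ENNReal.ofReal ((1 / w ^ 2) ^ 2 *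
          ‖∫ y : ℂ, g y * conj (h (y + α))‖ ^ 2) := setLIntegral_le_lintegral _ _
    _ = ENNReal.ofReal (∫ α, (1 / w ^ 2) ^ 2 * ‖∫ y : ℂ, g y * conj (h (y + α))‖ ^ 2) := by
        rw [ofReal_integral_eq_lintegral_ofReal (hi.const_mul _)]
        filter_upwards with α
        positivity
    _ ≤ ENNReal.ofReal (4 * Real.pi * D ^ 2 * m ^ 2 * (sf f w p / w ^ 2)) := by
        apply ENNReal.ofReal_le_ofReal
        rw [integral_const_mul]
        have hs0 := sf_nonneg hf hw.le p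
        have hs1 := sf_le hf hw.le p
        calc (1 / w ^ 2) ^ 2 * ∫ α, ‖∫ y : ℂ, g y * conj (h (y + α))‖ ^ 2
            ≤ (1 / w ^ 2) ^ 2 * (sf f w p ^ 2 * (4 * Real.pi * D ^ 2 * m ^ 2)) := by
              refine mul_le_mul_of_nonneg_left (hle.trans ?_) (by positivity)
              gcongr
          _ = 4 * Real.pi * D ^ 2 * m ^ 2 * (sf f w p / w ^ 2 * (sf f w p / w ^ 2)) := by
              field_simp
          _ ≤ 4 * Real.pi * D ^ 2 * m ^ 2 * (sf f w p / w ^ 2 * 1) := by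
              gcongr
              rw [div_le_one (by positivity)]
              exact hs1
          _ = _ := by rw [mul_one]

end InvC69

open InvC69 in
theorem inv_c (R : ℝ) (hR : 1 ≤ R) :
    ∃ C : ℕ, ∀ (D m w : ℝ) (f : ℂ → ℂ), 2 ≤ D → 0 < w → w ≤ m → m ≤ 1 → Bd R f →
      m ^ 2 / D ≤ ∫ α in Metric.ball (0 : ℂ) (D * m), ∫ p : ℂ, ‖Sq w (Fp f α) p‖ ^ 2 →
      ∃ (p : ℂ) (ξ a : ℤ × ℤ → ℂ), (∀ k, ‖a k‖ ≤ 1) ∧
        1 / D ^ C ≤ ‖∫ x : ℂ, f x * pw p w ξ a x‖ := by
  refine ⟨8, ?_⟩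
  intro D m w f hD hw hwm hm1 hf hmain
  by_contra hcon
  push Not at hcon
  have hm : 0 < m := lt_of_lt_of_le hw hwm
  have hD0 : 0 < D := by linarith
  set ε : ℝ := 1 / D ^ 8 with hε
  have hε0 : 0 < ε := by positivity
  have hsum : ∀ (p : ℂ) (K : Finset (ℤ × ℤ)), ∑ k ∈ K, sf f w (p + lpt w k) ≤ ε :=
    fun p K => sum_sf_le hf hw p (fun ξ a ha => (hcon p ξ a ha).le) K
  -- the function of `p`
  have hmeas : Measurable (fun z : ℂ × ℂ => ‖Sq w (Fp f z.1) z.2‖ₑ ^ 2) :=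
    (Sq_measurable hf.meas w).enorm.pow_const 2
  set Ψ : ℂ → ℝ≥0∞ := fun p => ∫⁻ α in Metric.ball (0 : ℂ) (D * m), ‖Sq w (Fp f α) p‖ₑ ^ 2
    with hΨ
  have hΨm : Measurable Ψ := by
    have h := hmeas.comp measurable_swap
    exact Measurable.lintegral_prod_right' (f := fun z : ℂ × ℂ => ‖Sq w (Fp f z.2) z.1‖ₑ ^ 2) h
  have h1 : ENNReal.ofReal (m ^ 2 / D) ≤ ∫⁻ p, Ψ p := by
    calc ENNReal.ofReal (m ^ 2 / D)
        ≤ ENNReal.ofReal (∫ α in Metric.ball (0 : ℂ) (D * m), ∫ p : ℂ, ‖Sq w (Fp f α) p‖ ^ 2) :=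
          ENNReal.ofReal_le_ofReal hmain
      _ ≤ ‖∫ α in Metric.ball (0 : ℂ) (D * m), ∫ p : ℂ, ‖Sq w (Fp f α) p‖ ^ 2‖ₑ := by
          rw [← ofReal_norm]
          exact ENNReal.ofReal_le_ofReal (Real.le_norm_self _)
      _ ≤ ∫⁻ α in Metric.ball (0 : ℂ) (D * m), ‖∫ p : ℂ, ‖Sq w (Fp f α) p‖ ^ 2‖ₑ :=
          enorm_integral_le_lintegral_enorm _
      _ ≤ ∫⁻ α in Metric.ball (0 : ℂ) (D * m), ∫⁻ p : ℂ, ‖Sq w (Fp f α) p‖ₑ ^ 2 := by
          refine lintegral_mono fun α => ?_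
          refine (enorm_integral_le_lintegral_enorm _).trans (le_of_eq ?_)
          refine lintegral_congr fun p => ?_
          rw [enorm_pow, enorm_norm]
      _ = ∫⁻ p, Ψ p := by
          rw [lintegral_lintegral_swap]
          exact hmeas.aemeasurable
  have h2 : ∀ p : ℂ, ∑' k : ℤ × ℤ, Ψ (p + lpt w k) ≤
      ENNReal.ofReal (4 * Real.pi * D ^ 2 * m ^ 2 * (ε / w ^ 2)) := by
    intro p
    rw [ENNReal.tsum_eq_iSup_sum]
    refine iSup_le fun K => ?_
    calc ∑ k ∈ K, Ψ (p + lpt w k)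
        ≤ ∑ k ∈ K, ENNReal.ofReal (4 * Real.pi * D ^ 2 * m ^ 2 *
            (sf f w (p + lpt w k) / w ^ 2)) :=
          Finset.sum_le_sum fun k _ => sq_bound hf hD hw hwm _
      _ = ENNReal.ofReal (∑ k ∈ K, 4 * Real.pi * D ^ 2 * m ^ 2 *
            (sf f w (p + lpt w k) / w ^ 2)) := by
          rw [ENNReal.ofReal_sum_of_nonneg]
          intro k _
          have := sf_nonneg hf hw.le (p + lpt w k)
          positivity
      _ ≤ ENNReal.ofReal (4 * Real.pi * D ^ 2 * m ^ 2 * (ε / w ^ 2)) := by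
          apply ENNReal.ofReal_le_ofReal
          rw [← Finset.mul_sum, ← Finset.sum_div]
          have := hsum p K
          gcongr
  have h3 : ∫⁻ p, Ψ p ≤ ENNReal.ofReal (4 * Real.pi * D ^ 2 * m ^ 2 * ε) := by
    rw [lintegral_grid hw, ← lintegral_tsum (f := fun (k : ℤ × ℤ) (p : ℂ) => Ψ (p + lpt w k))
      (fun k => (hΨm.comp (measurable_add_const _)).aemeasurable)]
    calc ∫⁻ p in sq 0 w, ∑' k : ℤ × ℤ, Ψ (p + lpt w k)
        ≤ ∫⁻ p in sq 0 w, ENNReal.ofReal (4 * Real.pi * D ^ 2 * m ^ 2 * (ε / w ^ 2)) :=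
          lintegral_mono fun p => h2 p
      _ = ENNReal.ofReal (4 * Real.pi * D ^ 2 * m ^ 2 * (ε / w ^ 2)) * volume (sq 0 w) := by
          rw [setLIntegral_const]
      _ = ENNReal.ofReal (4 * Real.pi * D ^ 2 * m ^ 2 * ε) := by
          rw [volume_sq 0 hw.le, ← ENNReal.ofReal_mul (by positivity)]
          congr 1
          field_simp
  have h4 := h1.trans h3
  rw [ENNReal.ofReal_le_ofReal_iff (by positivity)] at h4
  have h5 : 4 * Real.pi * D ^ 2 * m ^ 2 * ε = m ^ 2 / D * (4 * Real.pi / D ^ 5) := by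
    rw [hε]; field_simp
  have h6 : 4 * Real.pi / D ^ 5 < 1 := by
    rw [div_lt_one (by positivity)]
    have : (2 : ℝ) ^ 5 ≤ D ^ 5 := by gcongr
    have := Real.pi_lt_d2
    norm_num at *
    linarith
  have h7 : m ^ 2 / D * (4 * Real.pi / D ^ 5) < m ^ 2 / D * 1 := by
    apply mul_lt_mul_of_pos_left h6; positivity
  linarith

end Pool.Agent.H67.Pl
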