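import Pool.Agent.H67.Pl.InvA
import Pool.Agent.H67.Pl.InvB
import Pool.Agent.H67.Pl.InvC

/-!
# The local inverse theorem
-/

open MeasureTheory
open scoped ComplexConjugate

namespace Pool.Agent.H67.Pl

/-- The local inverse theorem. -/
theorem local_inverse (σ : ℂ) (him : σ.im ≠ 0) (hre : σ.re ≠ 0) (R : ℝ) (hR : 1 ≤ R) :
    ∃ C C₁ : ℕ, ∀ (D m : ℝ) (f : ℂ → ℂ), 2 ≤ D → 0 < m → m ≤ 1 → Bd R f →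
      1 / D ≤ ‖Lam σ m f‖ →
      ∃ (p : ℂ) (ξ a : ℤ × ℤ → ℂ), (∀ k, ‖a k‖ ≤ 1) ∧
        1 / D ^ C ≤ ‖∫ x : ℂ, f x * pw p (m / D ^ C₁) ξ a x‖ := by
  obtain ⟨Ca, hA⟩ := inv_a σ him R hR
  obtain ⟨Cb, C₁, hCb, hB⟩ := inv_b σ him hre R hR Ca (3 * Ca)
  obtain ⟨Cc, hC⟩ := inv_c R hR
  refine ⟨Cb * Cc, C₁, ?_⟩
  intro D m f hD hm hm1 hf hL
  have hD1 : 1 ≤ D := by linarith
  obtain ⟨t₁, t₂, h1, h2, h3, h4, h5, h6, h7⟩ := hA D m f hD hm hm1 hf hL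
  have h8 := hB D m t₁ t₂ f hD hm hm1 hf h1 h2 h3 h4 h5 h6 h7
  have h9 : (2 : ℝ) ≤ D ^ Cb := by
    calc (2 : ℝ) ≤ D ^ 1 := by simpa using hD
      _ ≤ D ^ Cb := pow_le_pow_right₀ hD1 hCb
  have hDC : 1 ≤ D ^ C₁ := one_le_pow₀ hD1
  obtain ⟨p, ξ, a, ha, h10⟩ := hC (D ^ Cb) m (m / D ^ C₁) f h9 (by positivity)
    (div_le_self hm.le hDC) hm1 hf h8
  refine ⟨p, ξ, a, ha, ?_⟩
  rw [pow_mul]
  exact h10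

end Pool.Agent.H67.Pl
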