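import Pool.Agent.H67.Pl.Basic

/-!
# The flat estimate
-/

open MeasureTheory
open scoped ComplexConjugate

namespace Pool.Agent.H67.Pl

/-- Bounded measurable functions with bounded support are integrable. -/
theorem fl_integ {E : Type*} [NormedAddCommGroup E] [MeasureSpace E] [OpensMeasurableSpace E]
    [ProperSpace E] [IsFiniteMeasureOnCompacts (volume : Measure E)] {F : E → ℂ}
    (hm : Measurable F) (C K : ℝ) (hb : ∀ z, ‖F z‖ ≤ C) (hs : ∀ z, K < ‖z‖ → F z = 0) :
    Integrable F := by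
  have h1 : IntegrableOn F (Metric.closedBall (0 : E) K) := by
    refine Measure.integrableOn_of_bounded (M := C) ?_ hm.aestronglyMeasurable ?_
    · exact (isCompact_closedBall (0 : E) K).measure_lt_top.ne
    · exact Filter.Eventually.of_forall hb
  refine (integrableOn_iff_integrable_of_support_subset ?_).1 h1
  intro z hz
  rw [Metric.mem_closedBall, dist_zero_right]
  by_contra hcon
  exact hz (hs z (not_le.1 hcon))

/-- The Cauchy-Schwarz inequality with a function bounded by one on a set of finite measure. -/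
theorem fl_cs {α : Type*} [MeasurableSpace α] (μ : Measure α) (S : Set α) (hS : MeasurableSet S)
    (hfin : μ S ≠ ⊤) (W : ℝ) (hW0 : 0 < W) (hW : μ.real S ≤ W) (G F : α → ℂ)
    (hG : ∀ a, ‖G a‖ ≤ 1) (hG0 : ∀ a, a ∉ S → G a = 0) (hF : Integrable F μ)
    (hF2 : Integrable (fun a => ‖F a‖ ^ 2) μ) :
    ‖∫ a, G a * F a ∂μ‖ ^ 2 ≤ W * ∫ a, ‖F a‖ ^ 2 ∂μ := by
  have h1 : ‖∫ a, G a * F a ∂μ‖ ≤ ∫ a in S, ‖F a‖ ∂μ := by
    refine (norm_integral_le_integral_norm _).trans ?_
    rw [← integral_indicator hS]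
    refine integral_mono_of_nonneg (Filter.Eventually.of_forall fun a => norm_nonneg _)
      (hF.norm.indicator hS) (Filter.Eventually.of_forall fun a => ?_)
    by_cases ha : a ∈ S
    · simp only [Set.indicator_of_mem ha, norm_mul]
      nlinarith [hG a, norm_nonneg (F a), norm_nonneg (G a)]
    · simp [Set.indicator_of_notMem ha, hG0 a ha]
  set I1 : ℝ := ∫ a in S, ‖F a‖ ∂μ with hI1
  set I2 : ℝ := ∫ a, ‖F a‖ ^ 2 ∂μ with hI2
  have h2 : ∀ c : ℝ, 0 ≤ I2 - 2 * c * I1 + c ^ 2 * W := by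
    intro c
    have e1 : (0 : ℝ) ≤ ∫ a in S, (‖F a‖ - c) ^ 2 ∂μ :=
      integral_nonneg fun a => sq_nonneg _
    have e2 : ∫ a in S, (‖F a‖ - c) ^ 2 ∂μ
        = (∫ a in S, ‖F a‖ ^ 2 ∂μ) - 2 * c * I1 + c ^ 2 * μ.real S := by
      have i1 : Integrable (fun a => ‖F a‖ ^ 2) (μ.restrict S) := hF2.integrableOn
      have i2 : Integrable (fun a => 2 * c * ‖F a‖) (μ.restrict S) :=
        Integrable.const_mul hF.norm.integrableOn _
      have i3 : Integrable (fun _ : α => c ^ 2) (μ.restrict S) := integrableOn_const hfin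
      have : (fun a => (‖F a‖ - c) ^ 2) = fun a => (‖F a‖ ^ 2 - 2 * c * ‖F a‖) + c ^ 2 := by
        funext a; ring
      rw [this, integral_add (f := fun a => ‖F a‖ ^ 2 - 2 * c * ‖F a‖) (g := fun _ => c ^ 2)
        (i1.sub i2) i3, integral_sub i1 i2, integral_const_mul]
      simp [hI1, Measure.real]
      ring
    have e3 : ∫ a in S, ‖F a‖ ^ 2 ∂μ ≤ I2 :=
      setIntegral_le_integral hF2 (Filter.Eventually.of_forall fun a => by positivity)
    nlinarith [sq_nonneg c]
  have h3 : 0 ≤ I1 := integral_nonneg fun a => norm_nonneg _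
  have h4 : I1 ^ 2 ≤ W * I2 := by
    have := h2 (I1 / W)
    have h5 : I2 - 2 * (I1 / W) * I1 + (I1 / W) ^ 2 * W = I2 - I1 ^ 2 / W := by
      field_simp; ring
    rw [h5, sub_nonneg, div_le_iff₀ hW0] at this
    linarith
  calc ‖∫ a, G a * F a ∂μ‖ ^ 2 ≤ I1 ^ 2 := by gcongr
    _ ≤ W * I2 := h4

/-- The expansion of the square of a one-parameter average. -/
theorem fl_gram (w : ℝ → ℂ → ℂ) (hm : Measurable (fun p : ℂ × ℝ => w p.2 p.1)) (T K : ℝ)
    (hb : ∀ t x, ‖w t x‖ ≤ 1) (ht : ∀ t x, T < |t| → w t x = 0)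
    (hx : ∀ t x, K < ‖x‖ → w t x = 0) :
    ∫ x : ℂ, (∫ t : ℝ, w t x) * conj (∫ t : ℝ, w t x)
      = ∫ s : ℝ, ∫ t : ℝ, ∫ x : ℂ, w t x * conj (w (t + s) x) := by
  set F : ℂ × ℝ × ℝ → ℂ := fun z => w z.2.1 z.1 * conj (w (z.2.1 + z.2.2) z.1) with hF
  have hFm : Measurable F := by
    have m1 : Measurable (fun z : ℂ × ℝ × ℝ => w z.2.1 z.1) :=
      hm.comp (g := fun p : ℂ × ℝ => w p.2 p.1) (f := fun z : ℂ × ℝ × ℝ => (z.1, z.2.1))
        (by fun_prop)
    have m2 : Measurable (fun z : ℂ × ℝ × ℝ => w (z.2.1 + z.2.2) z.1) :=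
      hm.comp (g := fun p : ℂ × ℝ => w p.2 p.1)
        (f := fun z : ℂ × ℝ × ℝ => (z.1, z.2.1 + z.2.2)) (by fun_prop)
    exact m1.mul (Complex.continuous_conj.measurable.comp m2)
  have hF1 : ∀ z, ‖F z‖ ≤ 1 := by
    intro z
    simp only [hF, norm_mul, RCLike.norm_conj]
    exact mul_le_one₀ (hb _ _) (norm_nonneg _) (hb _ _)
  have hFs : ∀ z, max K (2 * T) < ‖z‖ → F z = 0 := by
    intro z hz
    by_contra hne
    obtain ⟨h1, h2⟩ := mul_ne_zero_iff.1 hne
    have h2' : w (z.2.1 + z.2.2) z.1 ≠ 0 := by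
      intro h0; apply h2; rw [h0, map_zero]
    have a1 : ‖z.1‖ ≤ K := by
      by_contra hc; exact h1 (hx _ _ (not_le.1 hc))
    have a2 : |z.2.1| ≤ T := by
      by_contra hc; exact h1 (ht _ _ (not_le.1 hc))
    have a3 : |z.2.1 + z.2.2| ≤ T := by
      by_contra hc; exact h2' (ht _ _ (not_le.1 hc))
    have a4 : ‖z‖ ≤ max K (2 * T) := by
      have h0 : 0 ≤ T := (abs_nonneg _).trans a2
      rw [Prod.norm_def, Prod.norm_def, Real.norm_eq_abs, Real.norm_eq_abs]
      refine max_le (a1.trans (le_max_left _ _)) (le_trans (max_le ?_ ?_) (le_max_right _ _))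
      · linarith
      · rw [abs_le] at a2 a3 ⊢
        constructor <;> linarith
    exact absurd a4 (not_le.2 hz)
  have hI : Integrable F := fl_integ hFm 1 _ hF1 hFs
  have hIx : ∀ x : ℂ, Integrable (fun p : ℝ × ℝ => F (x, p)) := by
    intro x
    refine fl_integ (hFm.comp (measurable_prodMk_left)) 1 (max K (2 * T)) (fun p => hF1 _) ?_
    intro p hp
    refine hFs _ (hp.trans_le ?_)
    rw [Prod.norm_def]
    exact le_max_right _ _
  have e1 : ∀ x : ℂ, (∫ t : ℝ, w t x) * conj (∫ t : ℝ, w t x) = ∫ p : ℝ × ℝ, F (x, p) := by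
    intro x
    rw [Measure.volume_eq_prod, integral_prod _ (hIx x), ← integral_mul_const]
    refine integral_congr_ae (Filter.Eventually.of_forall fun t => ?_)
    simp only [hF]
    rw [integral_const_mul]
    congr 1
    rw [← integral_conj]
    exact (integral_add_left_eq_self (fun t' => conj (w t' x)) t).symm
  rw [integral_congr_ae (Filter.Eventually.of_forall e1)]
  rw [integral_integral_swap (f := fun (x : ℂ) (p : ℝ × ℝ) => F (x, p)) hI]
  rw [Measure.volume_eq_prod, integral_prod _ (hI.integral_prod_right)]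
  rw [integral_integral_swap hI.integral_prod_right]

/-- The indicator of `(0, M]`. -/
noncomputable def flChi (M t : ℝ) : ℂ := if 0 < t ∧ t ≤ M then 1 else 0

theorem flChi_meas (M : ℝ) : Measurable (flChi M) :=
  Measurable.ite (measurableSet_Ioc (a := (0 : ℝ)) (b := M)) measurable_const measurable_const

theorem flChi_norm (M t : ℝ) : ‖flChi M t‖ ≤ 1 := by
  unfold flChi; split_ifs <;> simp

theorem flChi_conj (M t : ℝ) : conj (flChi M t) = flChi M t := by
  unfold flChi; split_ifs <;> simp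

theorem flChi_ne {M t : ℝ} (h : flChi M t ≠ 0) : 0 < t ∧ t ≤ M := by
  by_contra hc; exact h (if_neg hc)

theorem flChi_prod (M s r : ℝ) :
    ∫ t : ℝ, flChi M t * flChi M (t + s) * (flChi M (t + r) * flChi M (t + r + s))
      = ((max 0 (M - |s| - |r|) : ℝ) : ℂ) := by
  have key : ∀ t : ℝ, flChi M t * flChi M (t + s) * (flChi M (t + r) * flChi M (t + r + s))
      = (Set.Ioc (max 0 (-s) + max 0 (-r)) (M - max 0 s - max 0 r)).indicator
          (fun _ => (1 : ℂ)) t := by
    intro t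
    by_cases h : t ∈ Set.Ioc (max 0 (-s) + max 0 (-r)) (M - max 0 s - max 0 r)
    · rw [Set.indicator_of_mem h]
      obtain ⟨h1, h2⟩ := h
      have b1 := le_max_left 0 s
      have b2 := le_max_right 0 s
      have b3 := le_max_left 0 r
      have b4 := le_max_right 0 r
      have b5 := le_max_left 0 (-s)
      have b6 := le_max_right 0 (-s)
      have b7 := le_max_left 0 (-r)
      have b8 := le_max_right 0 (-r)
      unfold flChi
      rw [if_pos ⟨by linarith, by linarith⟩, if_pos ⟨by linarith, by linarith⟩,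
        if_pos ⟨by linarith, by linarith⟩, if_pos ⟨by linarith, by linarith⟩]
      norm_num
    · rw [Set.indicator_of_notMem h]
      by_contra hne
      obtain ⟨h12, h34⟩ := mul_ne_zero_iff.1 hne
      obtain ⟨h1, h2⟩ := mul_ne_zero_iff.1 h12
      obtain ⟨h3, h4⟩ := mul_ne_zero_iff.1 h34
      have c1 := flChi_ne h1
      have c2 := flChi_ne h2
      have c3 := flChi_ne h3
      have c4 := flChi_ne h4
      apply h
      constructor
      · rcases le_total 0 s with hs | hs <;> rcases le_total 0 r with hr | hr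
        · rw [max_eq_left (by linarith), max_eq_left (by linarith)]; linarith
        · rw [max_eq_left (by linarith), max_eq_right (by linarith)]; linarith
        · rw [max_eq_right (by linarith), max_eq_left (by linarith)]; linarith
        · rw [max_eq_right (by linarith), max_eq_right (by linarith)]; linarith
      · rcases le_total 0 s with hs | hs <;> rcases le_total 0 r with hr | hr
        · rw [max_eq_right hs, max_eq_right hr]; linarith
        · rw [max_eq_right hs, max_eq_left hr]; linarith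
        · rw [max_eq_left hs, max_eq_right hr]; linarith
        · rw [max_eq_left hs, max_eq_left hr]; linarith
  simp_rw [key]
  rw [integral_indicator measurableSet_Ioc, setIntegral_const, Measure.real, Real.volume_Ioc]
  have e1 : M - max 0 s - max 0 r - (max 0 (-s) + max 0 (-r)) = M - |s| - |r| := by
    have f : ∀ u : ℝ, max 0 u + max 0 (-u) = |u| := by
      intro u
      rcases le_total 0 u with hu | hu
      · rw [max_eq_right hu, max_eq_left (by linarith), abs_of_nonneg hu]; ring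
      · rw [max_eq_left hu, max_eq_right (by linarith), abs_of_nonpos hu]; ring
    linarith [f s, f r]
  rw [e1, ENNReal.toReal_ofReal', max_comm]
  simp

/-- The function `D_s(x) = g(x) conj g(x + s b)`. -/
noncomputable def flD (g : ℂ → ℂ) (b : ℂ) (s : ℝ) (x : ℂ) : ℂ := g x * conj (g (x + s * b))

/-- The integrand of the inner average. -/
noncomputable def flV (g : ℂ → ℂ) (b c : ℂ) (M s t : ℝ) (x : ℂ) : ℂ :=
  flChi M t * flChi M (t + s) * flD g b s (x + t * c)

/-- The inner average. -/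
noncomputable def flE (g : ℂ → ℂ) (b c : ℂ) (M s : ℝ) (x : ℂ) : ℂ :=
  ∫ t : ℝ, flV g b c M s t x

/-- The correlation which occurs in the box form. -/
noncomputable def flPhi (g : ℂ → ℂ) (b c : ℂ) (s r : ℝ) : ℂ :=
  ∫ x : ℂ, g x * conj (g (x + s * b)) * conj (g (x + r * c)) * g (x + s * b + r * c)

section
variable {R : ℝ} {g : ℂ → ℂ}

theorem flD_norm (hg : Bd R g) (b : ℂ) (s : ℝ) (x : ℂ) : ‖flD g b s x‖ ≤ 1 := by
  unfold flD
  rw [norm_mul, RCLike.norm_conj]
  exact mul_le_one₀ (hg.le_one _) (norm_nonneg _) (hg.le_one _)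

theorem flD_meas (hg : Bd R g) (b : ℂ) : Measurable (fun p : ℝ × ℂ => flD g b p.1 p.2) := by
  unfold flD
  exact (hg.meas.comp measurable_snd).mul (Complex.continuous_conj.measurable.comp
    (hg.meas.comp (by fun_prop)))

theorem flV_norm (hg : Bd R g) (b c : ℂ) (M s t : ℝ) (x : ℂ) : ‖flV g b c M s t x‖ ≤ 1 := by
  unfold flV
  rw [norm_mul, norm_mul]
  exact mul_le_one₀ (mul_le_one₀ (flChi_norm _ _) (norm_nonneg _) (flChi_norm _ _))
    (norm_nonneg _) (flD_norm hg _ _ _)

theorem flV_ne (hg : Bd R g) {b c : ℂ} {M s t : ℝ} {x : ℂ} (h : flV g b c M s t x ≠ 0) :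
    (0 < t ∧ t ≤ M) ∧ (0 < t + s ∧ t + s ≤ M) ∧ ‖x‖ ≤ R + M * ‖c‖ := by
  obtain ⟨h12, h3⟩ := mul_ne_zero_iff.1 h
  obtain ⟨h1, h2⟩ := mul_ne_zero_iff.1 h12
  obtain ⟨h4, h5⟩ := mul_ne_zero_iff.1 h3
  have c1 := flChi_ne h1
  have c2 := flChi_ne h2
  refine ⟨c1, c2, ?_⟩
  have h6 : ‖x + t * c‖ ≤ R := by
    by_contra hc; exact h4 (hg.supp _ (not_le.1 hc))
  have h7 : ‖(t : ℂ) * c‖ ≤ M * ‖c‖ := by
    rw [norm_mul, Complex.norm_real, Real.norm_eq_abs, abs_of_pos c1.1]
    exact mul_le_mul_of_nonneg_right c1.2 (norm_nonneg _)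
  calc ‖x‖ = ‖(x + t * c) - t * c‖ := by congr 1; ring
    _ ≤ ‖x + t * c‖ + ‖(t : ℂ) * c‖ := norm_sub_le _ _
    _ ≤ _ := add_le_add h6 h7

theorem flV_meas (hg : Bd R g) (b c : ℂ) (M : ℝ) :
    Measurable (fun p : (ℝ × ℂ) × ℝ => flV g b c M p.1.1 p.2 p.1.2) := by
  unfold flV
  refine (((flChi_meas M).comp measurable_snd).mul ((flChi_meas M).comp (by fun_prop))).mul ?_
  exact (flD_meas hg b).comp (f := fun p : (ℝ × ℂ) × ℝ => (p.1.1, p.1.2 + p.2 * c))
    (by fun_prop)

theorem flE_meas (hg : Bd R g) (b c : ℂ) (M : ℝ) :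
    Measurable (fun p : ℝ × ℂ => flE g b c M p.1 p.2) :=
  ((flV_meas hg b c M).stronglyMeasurable.integral_prod_right').measurable

theorem flE_zero (hg : Bd R g) {b c : ℂ} {M s : ℝ} {x : ℂ} (h : M < |s| ∨ R + M * ‖c‖ < ‖x‖) :
    flE g b c M s x = 0 := by
  unfold flE
  refine integral_eq_zero_of_ae (Filter.Eventually.of_forall fun t => ?_)
  by_contra hne
  obtain ⟨h1, h2, h3⟩ := flV_ne hg hne
  rcases h with h | h
  · rw [lt_abs] at h
    rcases h with h | h <;> linarith
  · linarith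

theorem flE_norm (hg : Bd R g) (b c : ℂ) {M : ℝ} (hM : 0 < M) (s : ℝ) (x : ℂ) :
    ‖flE g b c M s x‖ ≤ M := by
  have h1 : ‖flE g b c M s x‖ ≤ ∫ t : ℝ, (Set.Ioc (0 : ℝ) M).indicator (fun _ => (1 : ℝ)) t := by
    refine norm_integral_le_of_norm_le ?_ (Filter.Eventually.of_forall fun t => ?_)
    · exact (integrable_indicator_iff measurableSet_Ioc).2 (integrableOn_const (by simp))
    · by_cases ht : t ∈ Set.Ioc (0 : ℝ) M
      · rw [Set.indicator_of_mem ht]; exact flV_norm hg _ _ _ _ _ _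
      · rw [Set.indicator_of_notMem ht]
        have : flV g b c M s t x = 0 := by
          by_contra hne
          exact ht (flV_ne hg hne).1
        rw [this, norm_zero]
  refine h1.trans ?_
  rw [integral_indicator measurableSet_Ioc, setIntegral_const, Measure.real, Real.volume_Ioc,
    ENNReal.toReal_ofReal (by linarith)]
  simp

theorem flE_integ (hg : Bd R g) (b c : ℂ) {M : ℝ} (hM : 0 < M) :
    Integrable (fun p : ℝ × ℂ => flE g b c M p.1 p.2) := by
  refine fl_integ (flE_meas hg b c M) M (max M (R + M * ‖c‖)) (fun p => flE_norm hg b c hM _ _) ?_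
  intro p hp
  by_contra hne
  have h1 : |p.1| ≤ M := by
    by_contra hc; exact hne (flE_zero hg (Or.inl (not_le.1 hc)))
  have h2 : ‖p.2‖ ≤ R + M * ‖c‖ := by
    by_contra hc; exact hne (flE_zero hg (Or.inr (not_le.1 hc)))
  rw [Prod.norm_def, Real.norm_eq_abs] at hp
  exact absurd (max_le_max h1 h2) (not_le.2 hp)

/-- The square of the inner average. -/
theorem flE_sq (hg : Bd R g) (b c : ℂ) {M : ℝ} (hM : 0 < M) (s : ℝ) :
    ((∫ x : ℂ, ‖flE g b c M s x‖ ^ 2 : ℝ) : ℂ)
      = ∫ r : ℝ, ((max 0 (M - |s| - |r|) : ℝ) : ℂ) * flPhi g b c s r := by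
  have h1 : ((∫ x : ℂ, ‖flE g b c M s x‖ ^ 2 : ℝ) : ℂ)
      = ∫ x : ℂ, (∫ t : ℝ, flV g b c M s t x) * conj (∫ t : ℝ, flV g b c M s t x) := by
    rw [← integral_complex_ofReal]
    refine integral_congr_ae (Filter.Eventually.of_forall fun x => ?_)
    change ((‖flE g b c M s x‖ ^ 2 : ℝ) : ℂ) = flE g b c M s x * conj (flE g b c M s x)
    rw [Complex.mul_conj, Complex.normSq_eq_norm_sq]
  rw [h1, fl_gram (fun t x => flV g b c M s t x) ?_ M (R + M * ‖c‖)
    (fun t x => flV_norm hg _ _ _ _ _ _) ?_ ?_]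
  · refine integral_congr_ae (Filter.Eventually.of_forall fun r => ?_)
    simp only
    have h2 : ∀ t : ℝ, ∫ x : ℂ, flV g b c M s t x * conj (flV g b c M s (t + r) x)
        = flChi M t * flChi M (t + s) * (flChi M (t + r) * flChi M (t + r + s))
          * flPhi g b c s r := by
      intro t
      unfold flPhi
      rw [← integral_const_mul, ← integral_sub_right_eq_self _ ((t : ℂ) * c)]
      refine integral_congr_ae (Filter.Eventually.of_forall fun x => ?_)
      simp only [flV, flD, map_mul, flChi_conj, Complex.conj_conj]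
      have a1 : x - ↑t * c + ↑t * c = x := by ring
      have a2 : x - ↑t * c + ↑(t + r) * c = x + r * c := by push_cast; ring
      have a3 : x + r * c + s * b = x + s * b + r * c := by ring
      rw [a1, a2, a3]
      ring
    simp_rw [h2]
    rw [integral_mul_const, flChi_prod]
  · exact (flV_meas hg b c M).comp (f := fun p : ℂ × ℝ => ((s, p.1), p.2)) (by fun_prop)
  · intro t x h
    by_contra hne
    obtain ⟨h1, h2, h3⟩ := flV_ne hg hne
    rw [lt_abs] at h
    rcases h with h | h <;> linarith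
  · intro t x h
    by_contra hne
    obtain ⟨h1, h2, h3⟩ := flV_ne hg hne
    linarith

/-- The box form as an integral of squares. -/
theorem fl_box (hg : Bd R g) (b c : ℂ) {M : ℝ} (hM : 0 < M) :
    boxf b c M g = ((1 / M ^ 3 * ∫ s : ℝ, ∫ x : ℂ, ‖flE g b c M s x‖ ^ 2 : ℝ) : ℂ) := by
  rw [Complex.ofReal_mul, ← integral_complex_ofReal]
  simp_rw [flE_sq hg b c hM]
  rw [← integral_const_mul]
  unfold boxf
  refine integral_congr_ae (Filter.Eventually.of_forall fun s => ?_)
  simp only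
  rw [← integral_const_mul]
  refine integral_congr_ae (Filter.Eventually.of_forall fun r => ?_)
  simp only [flPhi, Wt]
  push_cast
  ring

theorem fl_vol (R : ℝ) (hR : 0 < R) :
    volume.real (Metric.closedBall (0 : ℂ) R) = Real.pi * R ^ 2 := by
  rw [Measure.real, Complex.volume_closedBall, ENNReal.toReal_mul, ENNReal.toReal_pow,
    ENNReal.toReal_ofReal hR.le]
  simp [mul_comm]

theorem fl_prod_eq (g₁ g₂ : ℂ → ℂ) (b₁ b₂ : ℂ) (M s t : ℝ) (x : ℂ) :
    (flChi M t * (g₁ (x - t * b₂ + t * b₁) * g₂ (x - t * b₂ + t * b₂)))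
      * conj (flChi M (t + s) * (g₁ (x - t * b₂ + (t + s : ℝ) * b₁)
        * g₂ (x - t * b₂ + (t + s : ℝ) * b₂)))
      = flD g₂ b₂ s x * flV g₁ b₁ (b₁ - b₂) M s t x := by
  simp only [flV, flD, map_mul, flChi_conj]
  have a1 : x - ↑t * b₂ + ↑t * b₂ = x := by ring
  have a2 : x - ↑t * b₂ + ↑t * b₁ = x + t * (b₁ - b₂) := by ring
  have a3 : x - ↑t * b₂ + ↑(t + s) * b₁ = x + t * (b₁ - b₂) + s * b₁ := by push_cast; ring
  have a4 : x - ↑t * b₂ + ↑(t + s) * b₂ = x + s * b₂ := by push_cast; ring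
  rw [a1, a2, a3, a4]
  ring

end

theorem flat (R : ℝ) (hR : 0 < R) (g₀ g₁ g₂ : ℂ → ℂ) (h₀ : Bd R g₀) (h₁ : Bd R g₁) (h₂ : Bd R g₂)
    (b₁ b₂ : ℂ) (M : ℝ) (hM : 0 < M) :
    (boxf b₁ (b₁ - b₂) M g₁).im = 0 ∧ 0 ≤ (boxf b₁ (b₁ - b₂) M g₁).re ∧
    ‖((1 / M : ℝ) : ℂ) * ∫ t in (0 : ℝ)..M, ∫ x : ℂ, g₀ x * g₁ (x + t * b₁) * g₂ (x + t * b₂)‖ ^ 4
      ≤ 2 * (Real.pi * R ^ 2) ^ 3 * (boxf b₁ (b₁ - b₂) M g₁).re := by
  set c : ℂ := b₁ - b₂ with hc
  set V : ℝ := Real.pi * R ^ 2 with hV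
  have hV0 : 0 < V := by positivity
  set J : ℝ := ∫ s : ℝ, ∫ x : ℂ, ‖flE g₁ b₁ c M s x‖ ^ 2 with hJ
  have hJ0 : 0 ≤ J := integral_nonneg fun s => integral_nonneg fun x => by positivity
  rw [fl_box h₁ b₁ c hM, Complex.ofReal_im, Complex.ofReal_re, ← hJ]
  refine ⟨rfl, by positivity, ?_⟩
  -- the function `w`
  set w : ℝ → ℂ → ℂ := fun t x => flChi M t * (g₁ (x + t * b₁) * g₂ (x + t * b₂)) with hw
  have hwm : Measurable (fun p : ℂ × ℝ => w p.2 p.1) := by
    refine ((flChi_meas M).comp measurable_snd).mul ?_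
    exact (h₁.meas.comp (by fun_prop)).mul (h₂.meas.comp (by fun_prop))
  have hwb : ∀ t x, ‖w t x‖ ≤ 1 := by
    intro t x
    simp only [hw, norm_mul]
    exact mul_le_one₀ (flChi_norm _ _) (by positivity)
      (mul_le_one₀ (h₁.le_one _) (norm_nonneg _) (h₂.le_one _))
  have hwne : ∀ t x, w t x ≠ 0 → (0 < t ∧ t ≤ M) ∧ ‖x‖ ≤ R + M * ‖b₁‖ := by
    intro t x hne
    obtain ⟨k1, k2⟩ := mul_ne_zero_iff.1 hne
    obtain ⟨k3, k4⟩ := mul_ne_zero_iff.1 k2
    have c1 := flChi_ne k1
    refine ⟨c1, ?_⟩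
    have h6 : ‖x + t * b₁‖ ≤ R := by
      by_contra hcc; exact k3 (h₁.supp _ (not_le.1 hcc))
    have h7 : ‖(t : ℂ) * b₁‖ ≤ M * ‖b₁‖ := by
      rw [norm_mul, Complex.norm_real, Real.norm_eq_abs, abs_of_pos c1.1]
      exact mul_le_mul_of_nonneg_right c1.2 (norm_nonneg _)
    calc ‖x‖ = ‖(x + t * b₁) - t * b₁‖ := by congr 1; ring
      _ ≤ ‖x + t * b₁‖ + ‖(t : ℂ) * b₁‖ := norm_sub_le _ _
      _ ≤ _ := add_le_add h6 h7
  have hwt : ∀ t x, M < |t| → w t x = 0 := by
    intro t x h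
    by_contra hne
    obtain ⟨⟨k1, k2⟩, _⟩ := hwne t x hne
    rw [abs_of_pos k1] at h; linarith
  have hwx : ∀ t x, R + M * ‖b₁‖ < ‖x‖ → w t x = 0 := by
    intro t x h
    by_contra hne
    linarith [(hwne t x hne).2]
  set P : ℂ → ℂ := fun x => ∫ t : ℝ, w t x with hP
  have hwI : Integrable (fun p : ℂ × ℝ => w p.2 p.1) := by
    refine fl_integ hwm 1 (max (R + M * ‖b₁‖) M) (fun p => hwb _ _) ?_
    intro p hp
    by_contra hne
    have k1 : ‖p.1‖ ≤ R + M * ‖b₁‖ := by
      by_contra hcc; exact hne (hwx _ _ (not_le.1 hcc))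
    have k2 : |p.2| ≤ M := by
      by_contra hcc; exact hne (hwt _ _ (not_le.1 hcc))
    rw [Prod.norm_def, Real.norm_eq_abs] at hp
    exact absurd (max_le_max k1 k2) (not_le.2 hp)
  have hPI : Integrable P := hwI.integral_prod_left
  have hPm : Measurable P := (hwm.stronglyMeasurable.integral_prod_right').measurable
  have hPb : ∀ x, ‖P x‖ ≤ M := by
    intro x
    have k1 : ‖P x‖ ≤ ∫ t : ℝ, (Set.Ioc (0 : ℝ) M).indicator (fun _ => (1 : ℝ)) t := by
      refine norm_integral_le_of_norm_le ?_ (Filter.Eventually.of_forall fun t => ?_)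
      · exact (integrable_indicator_iff measurableSet_Ioc).2 (integrableOn_const (by simp))
      · by_cases ht : t ∈ Set.Ioc (0 : ℝ) M
        · rw [Set.indicator_of_mem ht]; exact hwb _ _
        · rw [Set.indicator_of_notMem ht]
          have : w t x = 0 := by
            by_contra hne
            exact ht (hwne _ _ hne).1
          rw [this, norm_zero]
    refine k1.trans ?_
    rw [integral_indicator measurableSet_Ioc, setIntegral_const, Measure.real, Real.volume_Ioc,
      ENNReal.toReal_ofReal (by linarith)]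
    simp
  have hPx : ∀ x, R + M * ‖b₁‖ < ‖x‖ → P x = 0 := by
    intro x h
    simp only [hP]
    rw [integral_congr_ae (Filter.Eventually.of_forall fun t => hwx t x h)]
    simp
  have hP2 : Integrable (fun x => ‖P x‖ ^ 2) := by
    have := fl_integ (F := fun x => P x * conj (P x))
      (hPm.mul (Complex.continuous_conj.measurable.comp hPm)) (M * M) (R + M * ‖b₁‖)
      (fun x => by
        rw [norm_mul, RCLike.norm_conj]
        exact mul_le_mul (hPb x) (hPb x) (norm_nonneg _) hM.le)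
      (fun x h => by rw [hPx x h, zero_mul])
    refine (this.norm).congr (Filter.Eventually.of_forall fun x => ?_)
    simp only [norm_mul, RCLike.norm_conj]
    ring
  -- the first step
  have s1 : (∫ t in (0 : ℝ)..M, ∫ x : ℂ, g₀ x * g₁ (x + t * b₁) * g₂ (x + t * b₂))
      = ∫ x : ℂ, g₀ x * P x := by
    have e1 : (∫ t in (0 : ℝ)..M, ∫ x : ℂ, g₀ x * g₁ (x + t * b₁) * g₂ (x + t * b₂))
        = ∫ t : ℝ, ∫ x : ℂ, g₀ x * w t x := by
      rw [intervalIntegral.integral_of_le hM.le, ← integral_indicator measurableSet_Ioc]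
      refine integral_congr_ae (Filter.Eventually.of_forall fun t => ?_)
      simp only
      by_cases ht : t ∈ Set.Ioc (0 : ℝ) M
      · rw [Set.indicator_of_mem ht]
        refine integral_congr_ae (Filter.Eventually.of_forall fun x => ?_)
        have : flChi M t = 1 := if_pos ht
        simp only [hw, this]
        ring
      · rw [Set.indicator_of_notMem ht]
        have : flChi M t = 0 := if_neg ht
        simp [hw, this]
    rw [e1]
    have hI : Integrable (fun p : ℝ × ℂ => g₀ p.2 * w p.1 p.2) := by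
      refine fl_integ ((h₀.meas.comp measurable_snd).mul
        (hwm.comp (f := fun p : ℝ × ℂ => (p.2, p.1)) (by fun_prop))) 1 (max M (R + M * ‖b₁‖))
        (fun p => ?_) ?_
      · rw [norm_mul]
        exact mul_le_one₀ (h₀.le_one _) (norm_nonneg _) (hwb _ _)
      · intro p hp
        by_contra hne
        have hne' := (mul_ne_zero_iff.1 hne).2
        have k1 : ‖p.2‖ ≤ R + M * ‖b₁‖ := by
          by_contra hcc; exact hne' (hwx _ _ (not_le.1 hcc))
        have k2 : |p.1| ≤ M := by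
          by_contra hcc; exact hne' (hwt _ _ (not_le.1 hcc))
        rw [Prod.norm_def, Real.norm_eq_abs] at hp
        exact absurd (max_le_max k2 k1) (not_le.2 hp)
    rw [integral_integral_swap (f := fun (t : ℝ) (x : ℂ) => g₀ x * w t x) hI]
    refine integral_congr_ae (Filter.Eventually.of_forall fun x => ?_)
    simp only [hP]
    rw [integral_const_mul]
  have s2 : ‖∫ x : ℂ, g₀ x * P x‖ ^ 2 ≤ V * ∫ x : ℂ, ‖P x‖ ^ 2 := by
    refine fl_cs volume (Metric.closedBall (0 : ℂ) R) Metric.isClosed_closedBall.measurableSet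
      (isCompact_closedBall (0 : ℂ) R).measure_lt_top.ne V hV0 (fl_vol R hR).le g₀ P h₀.le_one
      ?_ hPI hP2
    intro x hx
    rw [Metric.mem_closedBall, dist_zero_right, not_le] at hx
    exact h₀.supp x hx
  -- the second step
  have hE2 : Integrable (fun p : ℝ × ℂ => ‖flE g₁ b₁ c M p.1 p.2‖ ^ 2) := by
    have hEm := flE_meas h₁ b₁ c M
    have := fl_integ (F := fun p : ℝ × ℂ => flE g₁ b₁ c M p.1 p.2 * conj (flE g₁ b₁ c M p.1 p.2))
      (hEm.mul (Complex.continuous_conj.measurable.comp hEm)) (M * M) (max M (R + M * ‖c‖))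
      (fun x => by
        rw [norm_mul, RCLike.norm_conj]
        exact mul_le_mul (flE_norm h₁ _ _ hM _ _) (flE_norm h₁ _ _ hM _ _) (norm_nonneg _) hM.le)
      (fun p hp => by
        by_contra hne
        have hne' := (mul_ne_zero_iff.1 hne).1
        have k1 : |p.1| ≤ M := by
          by_contra hcc; exact hne' (flE_zero h₁ (Or.inl (not_le.1 hcc)))
        have k2 : ‖p.2‖ ≤ R + M * ‖c‖ := by
          by_contra hcc; exact hne' (flE_zero h₁ (Or.inr (not_le.1 hcc)))
        rw [Prod.norm_def, Real.norm_eq_abs] at hp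
        exact absurd (max_le_max k1 k2) (not_le.2 hp))
    refine (this.norm).congr (Filter.Eventually.of_forall fun x => ?_)
    simp only [norm_mul, RCLike.norm_conj]
    ring
  have hGE : Integrable (fun p : ℝ × ℂ => (if |p.1| ≤ M then flD g₂ b₂ p.1 p.2 else 0)
      * flE g₁ b₁ c M p.1 p.2) := by
    have hEm := flE_meas h₁ b₁ c M
    have hDm : Measurable (fun p : ℝ × ℂ => if |p.1| ≤ M then flD g₂ b₂ p.1 p.2 else 0) :=
      Measurable.ite (measurableSet_le (by fun_prop) measurable_const) (flD_meas h₂ b₂)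
        measurable_const
    refine fl_integ (hDm.mul hEm) (1 * M) (max M (R + M * ‖c‖)) (fun p => ?_) (fun p hp => ?_)
    · rw [norm_mul]
      refine mul_le_mul ?_ (flE_norm h₁ _ _ hM _ _) (norm_nonneg _) zero_le_one
      split_ifs
      · exact flD_norm h₂ _ _ _
      · simp
    · by_contra hne
      have hne' := (mul_ne_zero_iff.1 hne).2
      have k1 : |p.1| ≤ M := by
        by_contra hcc; exact hne' (flE_zero h₁ (Or.inl (not_le.1 hcc)))
      have k2 : ‖p.2‖ ≤ R + M * ‖c‖ := by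
        by_contra hcc; exact hne' (flE_zero h₁ (Or.inr (not_le.1 hcc)))
      rw [Prod.norm_def, Real.norm_eq_abs] at hp
      exact absurd (max_le_max k1 k2) (not_le.2 hp)
  have s3 : ((∫ x : ℂ, ‖P x‖ ^ 2 : ℝ) : ℂ)
      = ∫ p : ℝ × ℂ, (if |p.1| ≤ M then flD g₂ b₂ p.1 p.2 else 0)
          * flE g₁ b₁ c M p.1 p.2 := by
    have e1 : ((∫ x : ℂ, ‖P x‖ ^ 2 : ℝ) : ℂ)
        = ∫ x : ℂ, (∫ t : ℝ, w t x) * conj (∫ t : ℝ, w t x) := by
      rw [← integral_complex_ofReal]
      refine integral_congr_ae (Filter.Eventually.of_forall fun x => ?_)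
      change ((‖P x‖ ^ 2 : ℝ) : ℂ) = P x * conj (P x)
      rw [Complex.mul_conj, Complex.normSq_eq_norm_sq]
    rw [e1, fl_gram w hwm M (R + M * ‖b₁‖) hwb hwt hwx]
    rw [Measure.volume_eq_prod, integral_prod _ hGE]
    refine integral_congr_ae (Filter.Eventually.of_forall fun s => ?_)
    simp only
    have e2 : ∀ t : ℝ, ∫ x : ℂ, w t x * conj (w (t + s) x)
        = ∫ x : ℂ, flD g₂ b₂ s x * flV g₁ b₁ c M s t x := by
      intro t
      rw [← integral_sub_right_eq_self _ ((t : ℂ) * b₂)]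
      refine integral_congr_ae (Filter.Eventually.of_forall fun x => ?_)
      simp only [hw]
      exact fl_prod_eq g₁ g₂ b₁ b₂ M s t x
    simp_rw [e2]
    have hI : Integrable (fun p : ℝ × ℂ => flD g₂ b₂ s p.2 * flV g₁ b₁ c M s p.1 p.2) := by
      refine fl_integ (((flD_meas h₂ b₂).comp (f := fun p : ℝ × ℂ => (s, p.2)) (by fun_prop)).mul
        ((flV_meas h₁ b₁ c M).comp (f := fun p : ℝ × ℂ => ((s, p.2), p.1)) (by fun_prop))) 1
        (max M (R + M * ‖c‖)) (fun p => ?_) ?_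
      · rw [norm_mul]
        exact mul_le_one₀ (flD_norm h₂ _ _ _) (norm_nonneg _) (flV_norm h₁ _ _ _ _ _ _)
      · intro p hp
        by_contra hne
        obtain ⟨k1, k2, k3⟩ := flV_ne h₁ (mul_ne_zero_iff.1 hne).2
        rw [Prod.norm_def, Real.norm_eq_abs, abs_of_pos k1.1] at hp
        exact absurd (max_le_max k1.2 k3) (not_le.2 hp)
    rw [integral_integral_swap (f := fun (t : ℝ) (x : ℂ) => flD g₂ b₂ s x * flV g₁ b₁ c M s t x) hI]
    refine integral_congr_ae (Filter.Eventually.of_forall fun x => ?_)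
    simp only
    rw [integral_const_mul]
    by_cases hs : |s| ≤ M
    · rw [if_pos hs]; rfl
    · rw [if_neg hs, zero_mul]
      have := flE_zero h₁ (b := b₁) (c := c) (x := x) (Or.inl (not_le.1 hs))
      unfold flE at this
      rw [this, mul_zero]
  have s4 : ‖∫ p : ℝ × ℂ, (if |p.1| ≤ M then flD g₂ b₂ p.1 p.2 else 0)
      * flE g₁ b₁ c M p.1 p.2‖ ^ 2 ≤ (2 * M * V) * J := by
    have e1 : J = ∫ p : ℝ × ℂ, ‖flE g₁ b₁ c M p.1 p.2‖ ^ 2 := by
      rw [Measure.volume_eq_prod, integral_prod _ hE2]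
    rw [e1]
    refine fl_cs volume (Set.Icc (-M) M ×ˢ Metric.closedBall (0 : ℂ) R)
      (measurableSet_Icc.prod Metric.isClosed_closedBall.measurableSet) ?_ (2 * M * V)
      (by positivity) ?_ _ _ ?_ ?_ (flE_integ h₁ b₁ c hM) hE2
    · exact ((isCompact_Icc.prod (isCompact_closedBall (0 : ℂ) R)).measure_lt_top).ne
    · rw [Measure.volume_eq_prod, Measure.real, Measure.prod_prod, ENNReal.toReal_mul]
      have v1 : (volume (Set.Icc (-M) M)).toReal = 2 * M := by
        rw [Real.volume_Icc, ENNReal.toReal_ofReal (by linarith)]; ring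
      have v2 : (volume (Metric.closedBall (0 : ℂ) R)).toReal = V := fl_vol R hR
      rw [v1, v2]
    · intro p
      split_ifs
      · exact flD_norm h₂ _ _ _
      · simp
    · intro p hp
      by_cases k : |p.1| ≤ M
      · rw [if_pos k]
        by_contra hne
        apply hp
        refine ⟨⟨(abs_le.1 k).1, (abs_le.1 k).2⟩, ?_⟩
        rw [Metric.mem_closedBall, dist_zero_right]
        by_contra hcc
        apply hne
        unfold flD
        rw [h₂.supp _ (not_le.1 hcc), zero_mul]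
      · rw [if_neg k]
  have s5 : (∫ x : ℂ, ‖P x‖ ^ 2) ^ 2 ≤ (2 * M * V) * J := by
    rw [← s3, Complex.norm_real, Real.norm_eq_abs, sq_abs] at s4
    exact s4
  have s6 : ‖∫ x : ℂ, g₀ x * P x‖ ^ 4 ≤ V ^ 2 * ((2 * M * V) * J) := by
    have k0 : 0 ≤ ∫ x : ℂ, ‖P x‖ ^ 2 := integral_nonneg fun x => by positivity
    calc ‖∫ x : ℂ, g₀ x * P x‖ ^ 4 = (‖∫ x : ℂ, g₀ x * P x‖ ^ 2) ^ 2 := by ring
      _ ≤ (V * ∫ x : ℂ, ‖P x‖ ^ 2) ^ 2 := by gcongr
      _ = V ^ 2 * (∫ x : ℂ, ‖P x‖ ^ 2) ^ 2 := by ring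
      _ ≤ _ := by gcongr
  rw [s1, norm_mul, mul_pow, Complex.norm_real, Real.norm_eq_abs, abs_of_pos (by positivity)]
  calc (1 / M) ^ 4 * ‖∫ x : ℂ, g₀ x * P x‖ ^ 4
      ≤ (1 / M) ^ 4 * (V ^ 2 * ((2 * M * V) * J)) := by gcongr
    _ = 2 * V ^ 3 * (1 / M ^ 3 * J) := by
        field_simp

end Pool.Agent.H67.Pl
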