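import Pool.Agent.H67.Pl.Basic

open MeasureTheory Set
open scoped ComplexConjugate

namespace Pool.Agent.H67.Pl

namespace WindowAux

/-- the radius after a tangential shift -/
noncomputable def rad (b ρ : ℝ) : ℝ := Real.sqrt ((1 + ρ) ^ 2 + b ^ 2)

lemma rad_sq (b ρ : ℝ) : rad b ρ ^ 2 = (1 + ρ) ^ 2 + b ^ 2 :=
  Real.sq_sqrt (by positivity)

lemma rad_ge {b ρ : ℝ} (_hρ : 0 ≤ ρ) : 1 + ρ ≤ rad b ρ := by
  unfold rad
  apply Real.le_sqrt_of_sq_le
  nlinarith [sq_nonneg b]

lemma rad_le {b ρ : ℝ} (hρ : 0 ≤ ρ) : rad b ρ - (1 + ρ) ≤ b ^ 2 / 2 := by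
  have h1 := rad_ge (b := b) hρ
  have h2 := rad_sq b ρ
  nlinarith [sq_nonneg b]

lemma hasDerivAt_rad {b ρ : ℝ} (hρ : 0 ≤ ρ) :
    HasDerivAt (rad b) ((1 + ρ) / rad b ρ) ρ := by
  have h1 : HasDerivAt (fun ρ : ℝ => (1 + ρ) ^ 2 + b ^ 2) (2 * (1 + ρ)) ρ := by
    have h0 : HasDerivAt (fun ρ : ℝ => 1 + ρ) 1 ρ := (hasDerivAt_id ρ).const_add 1
    have h3 : HasDerivAt (fun ρ : ℝ => (1 + ρ) ^ 2 + b ^ 2)
        ((2 : ℕ) * (1 + ρ) ^ (2 - 1) * 1) ρ := (h0.pow 2).add_const (b ^ 2)
    convert h3 using 1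
    simp
  have h2 : (1 + ρ) ^ 2 + b ^ 2 ≠ 0 := by positivity
  have h3 : HasDerivAt (fun ρ : ℝ => Real.sqrt ((1 + ρ) ^ 2 + b ^ 2))
      (2 * (1 + ρ) / (2 * Real.sqrt ((1 + ρ) ^ 2 + b ^ 2))) ρ := h1.sqrt h2
  rw [mul_div_mul_left _ _ (two_ne_zero)] at h3
  exact h3

lemma strictMonoOn_rad (b : ℝ) : StrictMonoOn (rad b) (Ici 0) := by
  intro x hx y hy hxy
  unfold rad
  apply Real.sqrt_lt_sqrt (by positivity)
  have : (0:ℝ) ≤ x := hx
  nlinarith

lemma continuous_rad (b : ℝ) : Continuous (rad b) := by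
  unfold rad
  fun_prop

lemma image_rad (b c d : ℝ) (hc : 0 ≤ c) (hcd : c ≤ d) :
    rad b '' Icc c d = Icc (rad b c) (rad b d) := by
  apply Subset.antisymm
  · rintro _ ⟨x, hx, rfl⟩
    exact ⟨(strictMonoOn_rad b).monotoneOn hc (hc.trans hx.1) hx.1,
      (strictMonoOn_rad b).monotoneOn (hc.trans hx.1) (hc.trans hcd) hx.2⟩
  · exact intermediate_value_Icc hcd (continuous_rad b).continuousOn

lemma half (S : ℝ → ℂ) (hS : Measurable S) (B : ℝ) (hB : ∀ t, ‖S t‖ ≤ B) (b c d : ℝ)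
    (hc : 0 ≤ c) (hcd : c ≤ d) :
    ‖(∫ ρ in c..d, S (rad b ρ)) - ∫ ρ in c..d, S (1 + ρ)‖ ≤
      B * b ^ 2 / 2 * (d - c) + B * b ^ 2 := by
  have hB0 : 0 ≤ B := (norm_nonneg _).trans (hB 0)
  have hint : ∀ (g : ℝ → ℂ) (a a' : ℝ), Measurable g → (∀ t, ‖g t‖ ≤ B) →
      IntervalIntegrable g volume a a' := by
    intro g a a' hg hgB
    refine (intervalIntegrable_const (c := B)).mono_fun hg.aestronglyMeasurable ?_
    refine Filter.Eventually.of_forall fun t => ?_
    rw [Real.norm_of_nonneg hB0]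
    exact hgB t
  have hcr := (continuous_rad b)
  -- the change of variables
  have hcv : ∫ t in (rad b c)..(rad b d), S t =
      ∫ ρ in c..d, ((((1 + ρ) / rad b ρ : ℝ)) : ℂ) * S (rad b ρ) := by
    have hrr : rad b c ≤ rad b d :=
      (strictMonoOn_rad b).monotoneOn hc (hc.trans hcd) hcd
    rw [intervalIntegral.integral_of_le hrr, intervalIntegral.integral_of_le hcd,
      ← integral_Icc_eq_integral_Ioc, ← integral_Icc_eq_integral_Ioc, ← image_rad b c d hc hcd]
    rw [integral_image_eq_integral_abs_deriv_smul measurableSet_Icc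
      (f' := fun ρ => (1 + ρ) / rad b ρ)
      (fun x hx => (hasDerivAt_rad (hc.trans hx.1)).hasDerivWithinAt)
      ((strictMonoOn_rad b).injOn.mono fun x hx => hc.trans hx.1)]
    apply setIntegral_congr_fun measurableSet_Icc
    intro x hx
    have hx0 : 0 ≤ x := hc.trans hx.1
    have h1 : 0 ≤ (1 + x) / rad b x :=
      div_nonneg (by linarith) ((by linarith : (0:ℝ) ≤ 1 + x).trans (rad_ge hx0))
    simp only [abs_of_nonneg h1, Complex.real_smul]
  have e1 : (∫ ρ in c..d, S (rad b ρ)) - ∫ ρ in c..d, S (1 + ρ) =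
      (∫ ρ in c..d, ((1 - (1 + ρ) / rad b ρ : ℝ) : ℂ) * S (rad b ρ)) +
        ((∫ t in (1 + d)..(rad b d), S t) - ∫ t in (1 + c)..(rad b c), S t) := by
    have h1 : (∫ ρ in c..d, S (1 + ρ)) = ∫ t in (1 + c)..(1 + d), S t := by
      rw [intervalIntegral.integral_comp_add_left (fun t => S t) 1]
    have h2 : (∫ t in (1 + d)..(rad b d), S t) - ∫ t in (1 + c)..(rad b c), S t =
        (∫ t in (rad b c)..(rad b d), S t) - ∫ t in (1 + c)..(1 + d), S t := by
      have i1 := intervalIntegral.integral_add_adjacent_intervals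
        (hint S (1 + c) (1 + d) hS hB) (hint S (1 + d) (rad b d) hS hB)
      have i2 := intervalIntegral.integral_add_adjacent_intervals
        (hint S (1 + c) (rad b c) hS hB) (hint S (rad b c) (rad b d) hS hB)
      have : (∫ t in (1 + d)..(rad b d), S t) = (∫ t in (1 + c)..(rad b d), S t) -
        ∫ t in (1 + c)..(1 + d), S t := by rw [← i1]; ring
      rw [this, ← i2]
      ring
    rw [h1, h2, hcv]
    have h3 : (∫ ρ in c..d, ((1 - (1 + ρ) / rad b ρ : ℝ) : ℂ) * S (rad b ρ)) =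
        (∫ ρ in c..d, S (rad b ρ)) -
          ∫ ρ in c..d, ((((1 + ρ) / rad b ρ : ℝ)) : ℂ) * S (rad b ρ) := by
      rw [← intervalIntegral.integral_sub]
      · apply intervalIntegral.integral_congr
        intro ρ _
        push_cast
        ring
      · exact hint _ _ _ (hS.comp hcr.measurable) (fun t => hB _)
      · refine (intervalIntegrable_const (c := B)).mono_fun ?_ ?_
        · apply Measurable.aestronglyMeasurable
          apply Measurable.mul
          · apply Complex.measurable_ofReal.comp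
            exact (measurable_const.add measurable_id).div hcr.measurable
          · exact hS.comp hcr.measurable
        · rw [Filter.EventuallyLE, ae_restrict_iff' measurableSet_uIoc]
          refine Filter.Eventually.of_forall fun x hx => ?_
          rw [uIoc_of_le hcd] at hx
          have hx0 : 0 ≤ x := hc.trans hx.1.le
          have hr := rad_ge (b := b) hx0
          rw [norm_mul, Complex.norm_real, Real.norm_of_nonneg hB0,
            Real.norm_of_nonneg (div_nonneg (by linarith) (by linarith))]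
          calc (1 + x) / rad b x * ‖S (rad b x)‖ ≤ 1 * B :=
                mul_le_mul (by rw [div_le_one (by linarith)]; exact hr) (hB _) (norm_nonneg _)
                  zero_le_one
            _ = B := one_mul B
    rw [h3]
    ring
  rw [e1]
  have k1 : ‖∫ ρ in c..d, ((1 - (1 + ρ) / rad b ρ : ℝ) : ℂ) * S (rad b ρ)‖ ≤
      B * b ^ 2 / 2 * |d - c| := by
    apply intervalIntegral.norm_integral_le_of_norm_le_const
    intro x hx
    rw [uIoc_of_le hcd] at hx
    have hx0 : 0 ≤ x := hc.trans hx.1.le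
    have hr := rad_ge (b := b) hx0
    have hr1 : 1 ≤ rad b x := by linarith
    have hr0 : 0 < rad b x := by linarith
    rw [norm_mul, Complex.norm_real, Real.norm_eq_abs]
    have h1 : 1 - (1 + x) / rad b x = (rad b x - (1 + x)) / rad b x := by
      field_simp
    have h2 : |1 - (1 + x) / rad b x| ≤ b ^ 2 / 2 := by
      rw [h1, abs_of_nonneg (div_nonneg (by linarith) hr0.le)]
      calc (rad b x - (1 + x)) / rad b x ≤ rad b x - (1 + x) :=
            div_le_self (by linarith) hr1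
        _ ≤ b ^ 2 / 2 := rad_le hx0
    calc |1 - (1 + x) / rad b x| * ‖S (rad b x)‖ ≤ b ^ 2 / 2 * B :=
          mul_le_mul h2 (hB _) (norm_nonneg _) (by positivity)
      _ = B * b ^ 2 / 2 := by ring
  have k2 : ∀ x, 0 ≤ x → ‖∫ t in (1 + x)..(rad b x), S t‖ ≤ B * (b ^ 2 / 2) := by
    intro x hx
    have h := intervalIntegral.norm_integral_le_of_norm_le_const (f := S) (a := 1 + x)
      (b := rad b x) (C := B) (fun t _ => hB t)
    refine h.trans ?_
    apply mul_le_mul_of_nonneg_left _ hB0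
    rw [abs_of_nonneg (by linarith [rad_ge (b := b) hx])]
    exact rad_le hx
  calc _ ≤ ‖∫ ρ in c..d, ((1 - (1 + ρ) / rad b ρ : ℝ) : ℂ) * S (rad b ρ)‖ +
        (‖∫ t in (1 + d)..(rad b d), S t‖ + ‖∫ t in (1 + c)..(rad b c), S t‖) :=
        (norm_add_le _ _).trans (add_le_add le_rfl (norm_sub_le _ _))
    _ ≤ B * b ^ 2 / 2 * |d - c| + (B * (b ^ 2 / 2) + B * (b ^ 2 / 2)) :=
        add_le_add k1 (add_le_add (k2 d (hc.trans hcd)) (k2 c hc))
    _ = B * b ^ 2 / 2 * (d - c) + B * b ^ 2 := by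
        rw [abs_of_nonneg (by linarith)]
        ring

end WindowAux

set_option linter.unusedVariables false in
open WindowAux in
theorem window (S : ℝ → ℂ) (hS : Measurable S) (B : ℝ) (hB : ∀ t, ‖S t‖ ≤ B) (η b : ℝ)
    (hη : 0 < η) (hη1 : η ≤ 1 / 2) (hb : |b| ≤ 1 / 2) :
    ‖(∫ ρ in (0 : ℝ)..η, (qk η ρ : ℂ) * S (Real.sqrt ((1 + ρ) ^ 2 + b ^ 2))) -
      ∫ ρ in (0 : ℝ)..η, (qk η ρ : ℂ) * S (1 + ρ)‖ ≤ 10 * B * b ^ 2 / η := by
  have hB0 : 0 ≤ B := (norm_nonneg _).trans (hB 0)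
  have hint : ∀ (g : ℝ → ℂ) (a a' : ℝ), Measurable g → (∀ t, ‖g t‖ ≤ B) →
      IntervalIntegrable g volume a a' := by
    intro g a a' hg hgB
    refine (intervalIntegrable_const (c := B)).mono_fun hg.aestronglyMeasurable ?_
    refine Filter.Eventually.of_forall fun t => ?_
    rw [Real.norm_of_nonneg hB0]
    exact hgB t
  have split : ∀ g : ℝ → ℂ, Measurable g → (∀ t, ‖g t‖ ≤ B) →
      ∫ ρ in (0 : ℝ)..η, (qk η ρ : ℂ) * g ρ =
        ((1 / η : ℝ) : ℂ) * ((∫ ρ in (η / 2)..η, g ρ) - ∫ ρ in (0:ℝ)..(η / 2), g ρ) := by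
    intro g hg hgB
    have a1 : ∀ᵐ x ∂(volume : Measure ℝ), x ≠ η / 2 := by
      rw [ae_iff]
      simp
    have h1 : ∀ᵐ x ∂(volume : Measure ℝ), x ∈ uIoc 0 (η / 2) →
        (qk η x : ℂ) * g x = ((-(1 / η) : ℝ) : ℂ) * g x := by
      filter_upwards [a1] with x hx hx2
      rw [uIoc_of_le (by linarith)] at hx2
      unfold qk
      rw [if_pos (lt_of_le_of_ne hx2.2 hx)]
    have h2 : ∀ᵐ x ∂(volume : Measure ℝ), x ∈ uIoc (η / 2) η →
        (qk η x : ℂ) * g x = ((1 / η : ℝ) : ℂ) * g x := by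
      filter_upwards with x hx2
      rw [uIoc_of_le (by linarith)] at hx2
      unfold qk
      rw [if_neg (not_lt.mpr hx2.1.le)]
    have i1 : IntervalIntegrable (fun x => (qk η x : ℂ) * g x) volume 0 (η / 2) := by
      refine ((hint g 0 (η / 2) hg hgB).const_mul ((-(1 / η) : ℝ) : ℂ)).congr_ae ?_
      rw [Filter.EventuallyEq, ae_restrict_iff' measurableSet_uIoc]
      filter_upwards [h1] with x hx hx2
      exact (hx hx2).symm
    have i2 : IntervalIntegrable (fun x => (qk η x : ℂ) * g x) volume (η / 2) η := by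
      refine ((hint g (η / 2) η hg hgB).const_mul ((1 / η : ℝ) : ℂ)).congr_ae ?_
      rw [Filter.EventuallyEq, ae_restrict_iff' measurableSet_uIoc]
      filter_upwards [h2] with x hx hx2
      exact (hx hx2).symm
    rw [← intervalIntegral.integral_add_adjacent_intervals i1 i2,
      intervalIntegral.integral_congr_ae h1, intervalIntegral.integral_congr_ae h2,
      intervalIntegral.integral_const_mul, intervalIntegral.integral_const_mul]
    push_cast
    ring
  have m1 : Measurable fun ρ => S (Real.sqrt ((1 + ρ) ^ 2 + b ^ 2)) :=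
    hS.comp (continuous_rad b).measurable
  have m2 : Measurable fun ρ => S (1 + ρ) := hS.comp (measurable_const.add measurable_id)
  rw [split _ m1 (fun t => hB _), split _ m2 (fun t => hB _)]
  have A1 := half S hS B hB b 0 (η / 2) le_rfl (by linarith)
  have A2 := half S hS B hB b (η / 2) η (by linarith) (by linarith)
  unfold rad at A1 A2
  rw [← mul_sub, norm_mul, Complex.norm_real, Real.norm_of_nonneg (by positivity)]
  have e : ∀ x y z w : ℂ, x - y - (z - w) = (x - z) - (y - w) := by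
    intros
    ring
  rw [e]
  have h3 : ‖((∫ ρ in (η / 2)..η, S (Real.sqrt ((1 + ρ) ^ 2 + b ^ 2))) -
      ∫ ρ in (η / 2)..η, S (1 + ρ)) - ((∫ ρ in (0:ℝ)..(η / 2),
        S (Real.sqrt ((1 + ρ) ^ 2 + b ^ 2))) - ∫ ρ in (0:ℝ)..(η / 2), S (1 + ρ))‖ ≤
      10 * B * b ^ 2 := by
    refine (norm_sub_le _ _).trans ?_
    refine (add_le_add A2 A1).trans ?_
    have : 0 ≤ B * b ^ 2 := by positivity
    nlinarith
  calc _ ≤ 1 / η * (10 * B * b ^ 2) := mul_le_mul_of_nonneg_left h3 (by positivity)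
    _ = 10 * B * b ^ 2 / η := by ring

end Pool.Agent.H67.Pl
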