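import Pool.Agent.H67.Pl.Basic
import Pool.Agent.H67.Pl.Flat
import Pool.Agent.H67.Pl.Window

/-!
# The difference of the triangle forms is controlled by the box forms
-/

open MeasureTheory
open scoped ComplexConjugate

namespace Pool.Agent.H67.Pl

namespace TqBox

theorem continuous_cu : Continuous cu := by unfold cu; fun_prop

theorem norm_cu (φ : ℝ) : ‖cu φ‖ = 1 := by
  unfold cu
  exact Complex.norm_exp_ofReal_mul_I φ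

theorem swap2 (F : ℝ → ℝ → ℂ) (hF : Measurable (Function.uncurry F)) (B : ℝ)
    (hB : ∀ x y, ‖F x y‖ ≤ B) (a b c d : ℝ) (hab : a ≤ b) (hcd : c ≤ d) :
    ∫ x in a..b, ∫ y in c..d, F x y = ∫ y in c..d, ∫ x in a..b, F x y := by
  simp only [intervalIntegral.integral_of_le hab, intervalIntegral.integral_of_le hcd]
  apply integral_integral_swap
  exact Integrable.of_bound hF.aestronglyMeasurable B (Filter.Eventually.of_forall fun p => hB p.1 p.2)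

theorem bd_shift {R R' : ℝ} {f : ℂ → ℂ} (hf : Bd R f) (v : ℂ) (hR : R + ‖v‖ ≤ R') :
    Bd R' (fun x => f (x + v)) where
  meas := hf.meas.comp (by fun_prop)
  le_one := fun x => hf.le_one _
  supp := fun x hx => hf.supp _ (by
    have : ‖x‖ ≤ ‖x + v‖ + ‖v‖ := by
      calc ‖x‖ = ‖(x + v) - v‖ := by ring_nf
        _ ≤ _ := norm_sub_le _ _
    linarith)

theorem boxf_shift (b c : ℂ) (M : ℝ) (g : ℂ → ℂ) (v : ℂ) :
    boxf b c M (fun x => g (x + v)) = boxf b c M g := by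
  unfold boxf
  congr 1; ext s; congr 1; ext r; congr 1
  rw [← integral_add_right_eq_self (fun x => g x * conj (g (x + s * b)) * conj (g (x + r * c)) *
    g (x + s * b + r * c)) v]
  congr 1; ext x
  have e1 : x + s * b + v = x + v + s * b := by ring
  have e2 : x + r * c + v = x + v + r * c := by ring
  have e3 : x + s * b + r * c + v = x + v + s * b + r * c := by ring
  beta_reduce
  rw [e1, e2, e3]

/-- The volume of the ball. -/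
noncomputable def V (R : ℝ) : ℝ := volume.real (Metric.closedBall (0 : ℂ) R)

theorem V_nonneg (R : ℝ) : 0 ≤ V R := measureReal_nonneg

theorem norm_int_le (R : ℝ) (G : ℂ → ℂ) (h1 : ∀ x, ‖G x‖ ≤ 1) (h0 : ∀ x, R < ‖x‖ → G x = 0) :
    ‖∫ x, G x‖ ≤ V R := by
  have h : ∫ x, G x = ∫ x in Metric.closedBall (0 : ℂ) R, G x := by
    rw [setIntegral_eq_integral_of_forall_compl_eq_zero]
    intro x hx
    apply h0
    simpa using hx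
  rw [h]
  have := norm_setIntegral_le_of_norm_le_const (μ := volume) (s := Metric.closedBall (0 : ℂ) R)
    (C := 1) (f := G) measure_closedBall_lt_top (fun x _ => h1 x)
  simpa [V] using this

theorem norm_int_le' (M C : ℝ) (hM : 0 ≤ M) (F : ℝ → ℂ) (h1 : ∀ x, ‖F x‖ ≤ C)
    (h0 : ∀ x, M < |x| → F x = 0) : ‖∫ x, F x‖ ≤ C * (2 * M) := by
  have h : ∫ x, F x = ∫ x in Set.Icc (-M) M, F x := by
    rw [setIntegral_eq_integral_of_forall_compl_eq_zero]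
    intro x hx
    apply h0
    by_contra h
    push Not at h
    exact hx (abs_le.mp h)
  rw [h]
  have := norm_setIntegral_le_of_norm_le_const (μ := volume) (s := Set.Icc (-M) M)
    (C := C) (f := F) (by simp) (fun x _ => h1 x)
  have e : volume.real (Set.Icc (-M) M) = 2 * M := by
    rw [Real.volume_real_Icc_of_le (by linarith)]
    ring
  rwa [e] at this

theorem Wt_nonneg (M s r : ℝ) (hM : 0 < M) : 0 ≤ Wt M s r := by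
  unfold Wt
  positivity

theorem Wt_le (M s r : ℝ) (hM : 0 < M) : Wt M s r ≤ 1 / M ^ 2 := by
  unfold Wt
  rw [div_le_div_iff₀ (by positivity) (by positivity)]
  have h : max 0 (M - |s| - |r|) ≤ M := max_le hM.le (by
    have := abs_nonneg s
    have := abs_nonneg r
    linarith)
  calc max 0 (M - |s| - |r|) * M ^ 2 ≤ M * M ^ 2 := by gcongr
    _ = 1 * M ^ 3 := by ring

theorem Wt_zero_left (M s r : ℝ) (h : M < |s|) : Wt M s r = 0 := by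
  unfold Wt
  rw [max_eq_left (by have := abs_nonneg r; linarith), zero_div]

theorem Wt_zero_right (M s r : ℝ) (h : M < |r|) : Wt M s r = 0 := by
  unfold Wt
  rw [max_eq_left (by have := abs_nonneg s; linarith), zero_div]

theorem boxf_bound (b c : ℂ) (R M : ℝ) (hM : 0 < M) (g : ℂ → ℂ) (hg : Bd R g) :
    ‖boxf b c M g‖ ≤ 1 / M ^ 2 * V R * (2 * M) * (2 * M) := by
  unfold boxf
  have hQ : ∀ s r : ℝ, ‖∫ x : ℂ, g x * conj (g (x + s * b)) * conj (g (x + r * c)) *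
      g (x + s * b + r * c)‖ ≤ V R := by
    intro s r
    apply norm_int_le
    · intro x
      simp only [norm_mul, RCLike.norm_conj]
      have h1 := hg.le_one x
      have h2 := hg.le_one (x + s * b)
      have h3 := hg.le_one (x + r * c)
      have h4 := hg.le_one (x + s * b + r * c)
      calc ‖g x‖ * ‖g (x + s * b)‖ * ‖g (x + r * c)‖ * ‖g (x + s * b + r * c)‖
          ≤ 1 * 1 * 1 * 1 := by gcongr
        _ = 1 := by norm_num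
    · intro x hx
      rw [hg.supp x hx]
      simp
  apply norm_int_le' _ _ hM.le
  · intro s
    apply norm_int_le' _ _ hM.le
    · intro r
      rw [norm_mul, Complex.norm_real, Real.norm_of_nonneg (Wt_nonneg M s r hM)]
      gcongr
      · exact Wt_le M s r hM
      · exact hQ s r
    · intro r hr
      rw [Wt_zero_right M s r hr]
      simp
  · intro s hs
    have : ∀ r : ℝ, Wt M s r = 0 := fun r => Wt_zero_left M s r hs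
    simp [this]

theorem boxf_meas (a c : ℂ) (M : ℝ) (g : ℂ → ℂ) (hg : Measurable g) :
    Measurable fun φ : ℝ => boxf (a * (Complex.I * cu φ)) (c * (Complex.I * cu φ)) M g := by
  unfold boxf
  have hcu := continuous_cu.measurable
  have hW : Measurable fun p : ℝ × ℝ => Wt M p.1 p.2 := by
    unfold Wt
    fun_prop
  have h : StronglyMeasurable (fun p : ((ℝ × ℝ) × ℝ) × ℂ =>
      g p.2 * conj (g (p.2 + p.1.1.2 * (a * (Complex.I * cu p.1.1.1)))) *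
        conj (g (p.2 + p.1.2 * (c * (Complex.I * cu p.1.1.1)))) *
        g (p.2 + p.1.1.2 * (a * (Complex.I * cu p.1.1.1)) +
          p.1.2 * (c * (Complex.I * cu p.1.1.1)))) := by
    apply Measurable.stronglyMeasurable
    have hconj : Measurable (fun z : ℂ => conj z) := Complex.continuous_conj.measurable
    have hc : Measurable (fun p : ((ℝ × ℝ) × ℝ) × ℂ => cu p.1.1.1) :=
      hcu.comp (measurable_fst.comp (measurable_fst.comp measurable_fst))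
    have m1 : Measurable (fun p : ((ℝ × ℝ) × ℝ) × ℂ => g p.2) := hg.comp measurable_snd
    have n2 : Measurable (fun p : ((ℝ × ℝ) × ℝ) × ℂ =>
      p.2 + p.1.1.2 * (a * (Complex.I * cu p.1.1.1))) := by fun_prop
    have m2 : Measurable (fun p : ((ℝ × ℝ) × ℝ) × ℂ =>
      conj (g (p.2 + p.1.1.2 * (a * (Complex.I * cu p.1.1.1))))) :=
      hconj.comp (hg.comp n2)
    have n3 : Measurable (fun p : ((ℝ × ℝ) × ℝ) × ℂ =>
      p.2 + p.1.2 * (c * (Complex.I * cu p.1.1.1))) := by fun_prop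
    have m3 : Measurable (fun p : ((ℝ × ℝ) × ℝ) × ℂ =>
      conj (g (p.2 + p.1.2 * (c * (Complex.I * cu p.1.1.1))))) :=
      hconj.comp (hg.comp n3)
    have n4 : Measurable (fun p : ((ℝ × ℝ) × ℝ) × ℂ =>
      p.2 + p.1.1.2 * (a * (Complex.I * cu p.1.1.1)) +
          p.1.2 * (c * (Complex.I * cu p.1.1.1))) := by fun_prop
    have m4 : Measurable (fun p : ((ℝ × ℝ) × ℝ) × ℂ =>
      g (p.2 + p.1.1.2 * (a * (Complex.I * cu p.1.1.1)) +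
          p.1.2 * (c * (Complex.I * cu p.1.1.1)))) := hg.comp n4
    exact ((m1.mul m2).mul m3).mul m4
  have h1 := h.integral_prod_right' (ν := volume)
  have h2 : StronglyMeasurable (fun p : (ℝ × ℝ) × ℝ => (Wt M p.1.2 p.2 : ℂ)) := by
    apply Measurable.stronglyMeasurable
    have n : Measurable (fun p : (ℝ × ℝ) × ℝ => (p.1.2, p.2)) := by fun_prop
    have : Measurable (fun p : (ℝ × ℝ) × ℝ => Wt M p.1.2 p.2) := hW.comp n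
    exact Complex.measurable_ofReal.comp this
  have h3 := (h2.mul h1).integral_prod_right' (ν := volume)
  have h4 := h3.integral_prod_right' (ν := volume)
  exact h4.measurable

/-- The inner integral. -/
noncomputable def Hx (a₁ a₂ : ℂ) (f₀ f₁ f₂ : ℂ → ℂ) (z : ℂ) (φ : ℝ) : ℂ :=
  ∫ x : ℂ, f₀ x * f₁ (x + a₁ * z * cu φ) * f₂ (x + a₂ * z * cu φ)

theorem Hx_meas (a₁ a₂ : ℂ) (f₀ f₁ f₂ : ℂ → ℂ) (h₀ : Measurable f₀) (h₁ : Measurable f₁)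
    (h₂ : Measurable f₂) : Measurable fun p : ℂ × ℝ => Hx a₁ a₂ f₀ f₁ f₂ p.1 p.2 := by
  unfold Hx
  have hcu := continuous_cu.measurable
  have h : StronglyMeasurable (fun p : (ℂ × ℝ) × ℂ =>
      f₀ p.2 * f₁ (p.2 + a₁ * p.1.1 * cu p.1.2) * f₂ (p.2 + a₂ * p.1.1 * cu p.1.2)) := by
    apply Measurable.stronglyMeasurable
    have hc : Measurable (fun p : (ℂ × ℝ) × ℂ => cu p.1.2) :=
      hcu.comp (measurable_snd.comp measurable_fst)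
    have m0 : Measurable (fun p : (ℂ × ℝ) × ℂ => f₀ p.2) := h₀.comp measurable_snd
    have n1 : Measurable (fun p : (ℂ × ℝ) × ℂ => p.2 + a₁ * p.1.1 * cu p.1.2) := by fun_prop
    have n2 : Measurable (fun p : (ℂ × ℝ) × ℂ => p.2 + a₂ * p.1.1 * cu p.1.2) := by fun_prop
    have m1 : Measurable (fun p : (ℂ × ℝ) × ℂ => f₁ (p.2 + a₁ * p.1.1 * cu p.1.2)) :=
      h₁.comp n1
    have m2 : Measurable (fun p : (ℂ × ℝ) × ℂ => f₂ (p.2 + a₂ * p.1.1 * cu p.1.2)) :=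
      h₂.comp n2
    exact (m0.mul m1).mul m2
  exact (h.integral_prod_right' (ν := volume)).measurable

theorem Hx_bound (a₁ a₂ : ℂ) (f₀ f₁ f₂ : ℂ → ℂ) (R : ℝ) (h₀ : Bd R f₀) (h₁ : Bd R f₁)
    (h₂ : Bd R f₂) (z : ℂ) (φ : ℝ) : ‖Hx a₁ a₂ f₀ f₁ f₂ z φ‖ ≤ V R := by
  unfold Hx
  apply norm_int_le
  · intro x
    simp only [norm_mul]
    have i1 := h₀.le_one x
    have i2 := h₁.le_one (x + a₁ * z * cu φ)
    have i3 := h₂.le_one (x + a₂ * z * cu φ)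
    calc ‖f₀ x‖ * ‖f₁ (x + a₁ * z * cu φ)‖ * ‖f₂ (x + a₂ * z * cu φ)‖ ≤ 1 * 1 * 1 := by gcongr
      _ = 1 := by norm_num
  · intro x hx
    rw [h₀.supp x hx]
    simp

/-- The power mean inequality. -/
theorem mean4 (a β : ℝ → ℝ) (L c : ℝ) (hL : 0 < L) (ha : IntervalIntegrable a volume 0 L)
    (hβ : IntervalIntegrable β volume 0 L) (h : ∀ φ, a φ ^ 4 ≤ c * β φ) :
    (∫ φ in (0 : ℝ)..L, a φ) ^ 4 ≤ L ^ 3 * (c * ∫ φ in (0 : ℝ)..L, β φ) := by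
  set I := ∫ φ in (0 : ℝ)..L, a φ with hI
  have key : ∀ l : ℝ, 4 * l ^ 3 * I - 3 * l ^ 4 * L ≤ c * ∫ φ in (0 : ℝ)..L, β φ := by
    intro l
    have h1 : ∫ φ in (0 : ℝ)..L, (4 * l ^ 3 * a φ - 3 * l ^ 4) ≤ ∫ φ in (0 : ℝ)..L, c * β φ := by
      apply intervalIntegral.integral_mono_on hL.le
      · exact (ha.const_mul _).sub (by simp)
      · exact hβ.const_mul _
      · intro x _
        refine le_trans ?_ (h x)
        nlinarith [sq_nonneg (a x ^ 2 - l ^ 2), sq_nonneg (a x * l - l ^ 2), sq_nonneg (a x - l),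
          mul_nonneg (sq_nonneg (a x - l)) (sq_nonneg (a x + l)),
          mul_nonneg (sq_nonneg (a x - l)) (sq_nonneg l)]
    have h2 : ∫ φ in (0 : ℝ)..L, c * β φ = c * ∫ φ in (0 : ℝ)..L, β φ :=
      intervalIntegral.integral_const_mul _ _
    have h3 : ∫ φ in (0 : ℝ)..L, 4 * l ^ 3 * a φ = 4 * l ^ 3 * I :=
      intervalIntegral.integral_const_mul _ _
    have h4 : ∫ φ in (0 : ℝ)..L, 3 * l ^ 4 = L * (3 * l ^ 4) := by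
      rw [intervalIntegral.integral_const]
      simp
    rw [intervalIntegral.integral_sub (ha.const_mul _) (by simp), h2, h3, h4] at h1
    linarith
  have := key (I / L)
  have e : 4 * (I / L) ^ 3 * I - 3 * (I / L) ^ 4 * L = I ^ 4 / L ^ 3 := by
    field_simp
    ring
  rw [e, div_le_iff₀ (by positivity)] at this
  linarith

theorem ii_of_bdd {E : Type*} [NormedAddCommGroup E] [NormedSpace ℝ E] (F : ℝ → E)
    (hF : StronglyMeasurable F) (B : ℝ) (hB : ∀ x, ‖F x‖ ≤ B) (a b : ℝ) :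
    IntervalIntegrable F volume a b := by
  constructor
  · exact Integrable.of_bound hF.aestronglyMeasurable B (Filter.Eventually.of_forall hB)
  · exact Integrable.of_bound hF.aestronglyMeasurable B (Filter.Eventually.of_forall hB)

theorem meas_ii {α : Type*} [MeasurableSpace α] (F : α → ℝ → ℂ)
    (hF : Measurable fun p : α × ℝ => F p.1 p.2) (a b : ℝ) (hab : a ≤ b) :
    Measurable fun x : α => ∫ y in a..b, F x y := by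
  simp only [intervalIntegral.integral_of_le hab]
  exact (hF.stronglyMeasurable.integral_prod_right' (ν := volume.restrict (Set.Ioc a b))).measurable

theorem norm_ii_le (F : ℝ → ℂ) (B : ℝ) (a b : ℝ) (hab : a ≤ b)
    (hB : ∀ x ∈ Set.Ioc a b, ‖F x‖ ≤ B) : ‖∫ x in a..b, F x‖ ≤ B * (b - a) := by
  have := intervalIntegral.norm_integral_le_of_norm_le_const (a := a) (b := b) (C := B) (f := F)
    (by rwa [Set.uIoc_of_le hab])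
  rwa [abs_of_nonneg (by linarith)] at this

theorem qk_norm (η ρ : ℝ) (hη : 0 < η) : ‖(qk η ρ : ℂ)‖ = 1 / η := by
  rw [Complex.norm_real]
  unfold qk
  split_ifs
  · rw [norm_neg, Real.norm_of_nonneg (by positivity)]
  · rw [Real.norm_of_nonneg (by positivity)]

theorem qk_meas (η : ℝ) : Measurable (qk η) := by
  unfold qk
  exact Measurable.ite (measurableSet_lt measurable_id measurable_const) measurable_const
    measurable_const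

theorem cform_eq (a₁ a₂ : ℂ) (f₀ f₁ f₂ : ℂ → ℂ) (z : ℂ) :
    cform a₁ a₂ f₀ f₁ f₂ z = ∫ φ in (0 : ℝ)..(2 * Real.pi), Hx a₁ a₂ f₀ f₁ f₂ z φ := rfl

theorem cform_meas' (a₁ a₂ : ℂ) (R : ℝ) (f₀ f₁ f₂ : ℂ → ℂ) (h₀ : Bd R f₀) (h₁ : Bd R f₁)
    (h₂ : Bd R f₂) : Measurable (cform a₁ a₂ f₀ f₁ f₂) :=
  meas_ii _ (Hx_meas a₁ a₂ f₀ f₁ f₂ h₀.meas h₁.meas h₂.meas) _ _ (by positivity)

theorem cform_bound' (a₁ a₂ : ℂ) (R : ℝ) (f₀ f₁ f₂ : ℂ → ℂ) (h₀ : Bd R f₀) (h₁ : Bd R f₁)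
    (h₂ : Bd R f₂) (z : ℂ) : ‖cform a₁ a₂ f₀ f₁ f₂ z‖ ≤ V R * (2 * Real.pi) := by
  have := norm_ii_le (Hx a₁ a₂ f₀ f₁ f₂ z) (V R) 0 (2 * Real.pi) (by positivity)
    (fun φ _ => Hx_bound a₁ a₂ f₀ f₁ f₂ R h₀ h₁ h₂ z φ)
  rwa [sub_zero] at this

/-- The integrand of the averaged form. -/
noncomputable def P (a₁ a₂ : ℂ) (η : ℝ) (f₀ f₁ f₂ : ℂ → ℂ) (b : ℝ) : ℂ :=
  ∫ ρ in (0 : ℝ)..η, (qk η ρ : ℂ) * cform a₁ a₂ f₀ f₁ f₂ (((1 + ρ : ℝ) : ℂ) + b * Complex.I)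

theorem PF_meas (a₁ a₂ : ℂ) (R η : ℝ) (f₀ f₁ f₂ : ℂ → ℂ) (h₀ : Bd R f₀)
    (h₁ : Bd R f₁) (h₂ : Bd R f₂) : Measurable fun p : ℝ × ℝ =>
      (qk η p.2 : ℂ) * cform a₁ a₂ f₀ f₁ f₂ (((1 + p.2 : ℝ) : ℂ) + p.1 * Complex.I) := by
  have m1 : Measurable fun p : ℝ × ℝ => (qk η p.2 : ℂ) :=
    Complex.measurable_ofReal.comp ((qk_meas η).comp measurable_snd)
  have m2 : Measurable fun p : ℝ × ℝ => ((1 + p.2 : ℝ) : ℂ) + p.1 * Complex.I := by fun_prop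
  exact m1.mul ((cform_meas' a₁ a₂ R f₀ f₁ f₂ h₀ h₁ h₂).comp m2)

theorem PF_bound (a₁ a₂ : ℂ) (R η : ℝ) (hη : 0 < η) (f₀ f₁ f₂ : ℂ → ℂ) (h₀ : Bd R f₀)
    (h₁ : Bd R f₁) (h₂ : Bd R f₂) (b ρ : ℝ) :
    ‖(qk η ρ : ℂ) * cform a₁ a₂ f₀ f₁ f₂ (((1 + ρ : ℝ) : ℂ) + b * Complex.I)‖ ≤
      1 / η * (V R * (2 * Real.pi)) := by
  rw [norm_mul, qk_norm η ρ hη]
  gcongr
  exact cform_bound' a₁ a₂ R f₀ f₁ f₂ h₀ h₁ h₂ _

theorem P_meas (a₁ a₂ : ℂ) (R η : ℝ) (hη : 0 < η) (f₀ f₁ f₂ : ℂ → ℂ) (h₀ : Bd R f₀)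
    (h₁ : Bd R f₁) (h₂ : Bd R f₂) : Measurable (P a₁ a₂ η f₀ f₁ f₂) :=
  meas_ii (fun (b : ℝ) (ρ : ℝ) =>
    (qk η ρ : ℂ) * cform a₁ a₂ f₀ f₁ f₂ (((1 + ρ : ℝ) : ℂ) + b * Complex.I))
    (PF_meas a₁ a₂ R η f₀ f₁ f₂ h₀ h₁ h₂) _ _ hη.le

theorem P_bound (a₁ a₂ : ℂ) (R η : ℝ) (hη : 0 < η) (f₀ f₁ f₂ : ℂ → ℂ) (h₀ : Bd R f₀)
    (h₁ : Bd R f₁) (h₂ : Bd R f₂) (b : ℝ) : ‖P a₁ a₂ η f₀ f₁ f₂ b‖ ≤
      1 / η * (V R * (2 * Real.pi)) * (η - 0) :=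
  norm_ii_le _ _ _ _ hη.le fun ρ _ => PF_bound a₁ a₂ R η hη f₀ f₁ f₂ h₀ h₁ h₂ b ρ

theorem cu_add (a b : ℝ) : cu (a + b) = cu a * cu b := by
  unfold cu
  rw [← Complex.exp_add]
  push_cast
  ring_nf

theorem cu_period : Function.Periodic cu (2 * Real.pi) := by
  intro x
  rw [cu_add]
  unfold cu
  push_cast
  rw [Complex.exp_two_pi_mul_I, mul_one]

theorem cform_rot (a₁ a₂ : ℂ) (f₀ f₁ f₂ : ℂ → ℂ) (z : ℂ) :
    cform a₁ a₂ f₀ f₁ f₂ z = cform a₁ a₂ f₀ f₁ f₂ (‖z‖ : ℂ) := by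
  have hz : z = (‖z‖ : ℂ) * cu z.arg := by
    unfold cu
    exact (Complex.norm_mul_exp_arg_mul_I z).symm
  have h1 : ∀ φ, Hx a₁ a₂ f₀ f₁ f₂ z φ = Hx a₁ a₂ f₀ f₁ f₂ (‖z‖ : ℂ) (φ + z.arg) := by
    intro φ
    unfold Hx
    congr 1
    ext x
    have e : ∀ a : ℂ, a * z * cu φ = a * (‖z‖ : ℂ) * cu (φ + z.arg) := by
      intro a
      rw [cu_add]
      conv_lhs => rw [hz]
      ring
    rw [e a₁, e a₂]
  have hp : Function.Periodic (Hx a₁ a₂ f₀ f₁ f₂ (‖z‖ : ℂ)) (2 * Real.pi) := by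
    intro φ
    unfold Hx
    rw [cu_period φ]
  rw [cform_eq, cform_eq]
  simp only [h1]
  rw [intervalIntegral.integral_comp_add_right (fun φ => Hx a₁ a₂ f₀ f₁ f₂ (‖z‖ : ℂ) φ) z.arg]
  have := hp.intervalIntegral_add_eq (0 + z.arg) 0
  rw [zero_add, zero_add] at this
  rw [zero_add, add_comm (2 * Real.pi) z.arg]
  exact this

/-- Averaging over the thickness. -/
theorem avg_window
    (a₁ a₂ : ℂ) (R M η : ℝ) (f₀ f₁ f₂ : ℂ → ℂ) (hM : 0 < M) (hM2 : M ≤ 1 / 2)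
    (hη : 0 < η) (hη2 : η ≤ 1 / 2) (h₀ : Bd R f₀) (h₁ : Bd R f₁) (h₂ : Bd R f₂) :
    ‖Tq a₁ a₂ η f₀ f₁ f₂ - ((1 / M : ℝ) : ℂ) * ∫ b in (0 : ℝ)..M, P a₁ a₂ η f₀ f₁ f₂ b‖ ≤
      10 * (V R * (2 * Real.pi)) * (M ^ 2 / η) := by
  set B := V R * (2 * Real.pi) with hB
  have hB0 : 0 ≤ B := mul_nonneg (V_nonneg R) (by positivity)
  have h1 : ∀ b ∈ Set.Ioc 0 M, ‖P a₁ a₂ η f₀ f₁ f₂ b - Tq a₁ a₂ η f₀ f₁ f₂‖ ≤
      10 * B * (M ^ 2 / η) := by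
    intro b hb
    have hb1 : |b| ≤ 1 / 2 := by
      rw [abs_of_pos hb.1]
      exact hb.2.trans hM2
    have hS : Measurable fun t : ℝ => cform a₁ a₂ f₀ f₁ f₂ (t : ℂ) :=
      (cform_meas' a₁ a₂ R f₀ f₁ f₂ h₀ h₁ h₂).comp Complex.measurable_ofReal
    have := window (fun t => cform a₁ a₂ f₀ f₁ f₂ (t : ℂ)) hS B
      (fun t => cform_bound' a₁ a₂ R f₀ f₁ f₂ h₀ h₁ h₂ _) η b hη hη2 hb1
    have e : ∀ ρ : ℝ, cform a₁ a₂ f₀ f₁ f₂ ((Real.sqrt ((1 + ρ) ^ 2 + b ^ 2) : ℝ) : ℂ) =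
        cform a₁ a₂ f₀ f₁ f₂ (((1 + ρ : ℝ) : ℂ) + b * Complex.I) := by
      intro ρ
      rw [cform_rot a₁ a₂ f₀ f₁ f₂ (((1 + ρ : ℝ) : ℂ) + b * Complex.I)]
      congr 2
      rw [Complex.norm_add_mul_I]
    simp only [e] at this
    refine le_trans this ?_
    have hbM : b ^ 2 ≤ M ^ 2 := by
      have := hb.1
      have := hb.2
      gcongr
    calc 10 * B * b ^ 2 / η ≤ 10 * B * M ^ 2 / η := by gcongr
      _ = 10 * B * (M ^ 2 / η) := by ring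
  have hPi : IntervalIntegrable (P a₁ a₂ η f₀ f₁ f₂) volume 0 M :=
    ii_of_bdd _ (P_meas a₁ a₂ R η hη f₀ f₁ f₂ h₀ h₁ h₂).stronglyMeasurable _
      (P_bound a₁ a₂ R η hη f₀ f₁ f₂ h₀ h₁ h₂) _ _
  have h2 := norm_ii_le _ _ 0 M hM.le h1
  rw [intervalIntegral.integral_sub hPi (by simp), intervalIntegral.integral_const] at h2
  have e : Tq a₁ a₂ η f₀ f₁ f₂ - ((1 / M : ℝ) : ℂ) * ∫ b in (0 : ℝ)..M, P a₁ a₂ η f₀ f₁ f₂ b =
      -(((1 / M : ℝ) : ℂ) * ((∫ b in (0 : ℝ)..M, P a₁ a₂ η f₀ f₁ f₂ b) -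
        (M - 0) • Tq a₁ a₂ η f₀ f₁ f₂)) := by
    have hM' : (M : ℂ) ≠ 0 := by exact_mod_cast hM.ne'
    rw [sub_zero, Complex.real_smul]
    push_cast
    field_simp
    ring
  rw [e, norm_neg, norm_mul, Complex.norm_real, Real.norm_of_nonneg (by positivity)]
  calc 1 / M * ‖(∫ b in (0 : ℝ)..M, P a₁ a₂ η f₀ f₁ f₂ b) - (M - 0) • Tq a₁ a₂ η f₀ f₁ f₂‖
      ≤ 1 / M * (10 * B * (M ^ 2 / η) * (M - 0)) := by gcongr
    _ = 10 * B * (M ^ 2 / η) := by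
      rw [sub_zero]
      field_simp

theorem Hx_meas1 (a₁ a₂ : ℂ) (R ρ : ℝ) (f₀ f₁ f₂ : ℂ → ℂ) (h₀ : Bd R f₀) (h₁ : Bd R f₁)
    (h₂ : Bd R f₂) : Measurable fun p : ℝ × ℝ =>
      Hx a₁ a₂ f₀ f₁ f₂ (((1 + ρ : ℝ) : ℂ) + (p.1 : ℂ) * Complex.I) p.2 := by
  have n : Measurable fun p : ℝ × ℝ => ((((1 + ρ : ℝ) : ℂ) + (p.1 : ℂ) * Complex.I : ℂ), p.2) := by
    fun_prop
  have h := Hx_meas a₁ a₂ f₀ f₁ f₂ h₀.meas h₁.meas h₂.meas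
  generalize Hx a₁ a₂ f₀ f₁ f₂ = H at h ⊢
  exact h.comp n

theorem Hx_meas2 (a₁ a₂ : ℂ) (R ρ : ℝ) (f₀ f₁ f₂ : ℂ → ℂ) (h₀ : Bd R f₀) (h₁ : Bd R f₁)
    (h₂ : Bd R f₂) : Measurable fun p : ℝ × ℝ =>
      Hx a₁ a₂ f₀ f₁ f₂ (((1 + ρ : ℝ) : ℂ) + (p.2 : ℂ) * Complex.I) p.1 := by
  have h := Hx_meas1 a₁ a₂ R ρ f₀ f₁ f₂ h₀ h₁ h₂
  generalize Hx a₁ a₂ f₀ f₁ f₂ = H at h ⊢
  exact h.comp measurable_swap

theorem fubini (a₁ a₂ : ℂ) (R M η : ℝ) (f₀ f₁ f₂ : ℂ → ℂ) (hM : 0 < M)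
    (hη : 0 < η) (h₀ : Bd R f₀) (h₁ : Bd R f₁) (h₂ : Bd R f₂) :
    ∫ b in (0 : ℝ)..M, P a₁ a₂ η f₀ f₁ f₂ b = ∫ ρ in (0 : ℝ)..η, (qk η ρ : ℂ) *
      ∫ φ in (0 : ℝ)..(2 * Real.pi), ∫ b in (0 : ℝ)..M,
        Hx a₁ a₂ f₀ f₁ f₂ (((1 + ρ : ℝ) : ℂ) + b * Complex.I) φ := by
  unfold P
  rw [swap2 (fun (b : ℝ) (ρ : ℝ) =>
    (qk η ρ : ℂ) * cform a₁ a₂ f₀ f₁ f₂ (((1 + ρ : ℝ) : ℂ) + b * Complex.I))
    (PF_meas a₁ a₂ R η f₀ f₁ f₂ h₀ h₁ h₂) _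
    (PF_bound a₁ a₂ R η hη f₀ f₁ f₂ h₀ h₁ h₂) _ _ _ _ hM.le hη.le]
  congr 1
  ext ρ
  rw [intervalIntegral.integral_const_mul]
  congr 1
  have m := Hx_meas1 a₁ a₂ R ρ f₀ f₁ f₂ h₀ h₁ h₂
  exact swap2 (fun (b : ℝ) (φ : ℝ) =>
      Hx a₁ a₂ f₀ f₁ f₂ (((1 + ρ : ℝ) : ℂ) + b * Complex.I) φ) m (V R) (fun b φ => Hx_bound a₁ a₂ f₀ f₁ f₂ R h₀ h₁ h₂ _ _) _ _ _ _ hM.le
    (by positivity)

theorem pointwise (a₁ a₂ : ℂ) (R R' M ρ φ : ℝ) (hR : 0 < R)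
    (hR' : R' = R + 2 * (‖a₁‖ + ‖a₂‖)) (f₀ f₁ f₂ : ℂ → ℂ) (hM : 0 < M)
    (hρ : 0 < ρ) (hρ2 : ρ ≤ 1 / 2) (h₀ : Bd R f₀) (h₁ : Bd R f₁) (h₂ : Bd R f₂) :
    ‖((1 / M : ℝ) : ℂ) * ∫ b in (0 : ℝ)..M,
        Hx a₁ a₂ f₀ f₁ f₂ (((1 + ρ : ℝ) : ℂ) + b * Complex.I) φ‖ ^ 4 ≤
      2 * (Real.pi * R' ^ 2) ^ 3 *
        (boxf (a₁ * (Complex.I * cu φ)) ((a₁ - a₂) * (Complex.I * cu φ)) M f₁).re := by
  have hR'0 : 0 < R' := by rw [hR']; positivity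
  have hv : ∀ a : ℂ, ‖a * ((1 + ρ : ℝ) : ℂ) * cu φ‖ ≤ 2 * ‖a‖ := by
    intro a
    rw [norm_mul, norm_mul, norm_cu, Complex.norm_real, Real.norm_of_nonneg (by linarith)]
    nlinarith [norm_nonneg a]
  have b0 : Bd R' f₀ := by
    have := bd_shift (R' := R') h₀ 0 (by rw [hR', norm_zero]; nlinarith [norm_nonneg a₁, norm_nonneg a₂])
    simpa using this
  have b1 : Bd R' (fun x => f₁ (x + a₁ * ((1 + ρ : ℝ) : ℂ) * cu φ)) :=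
    bd_shift h₁ _ (by rw [hR']; nlinarith [hv a₁, norm_nonneg a₂])
  have b2 : Bd R' (fun x => f₂ (x + a₂ * ((1 + ρ : ℝ) : ℂ) * cu φ)) :=
    bd_shift h₂ _ (by rw [hR']; nlinarith [hv a₂, norm_nonneg a₁])
  have := (flat R' hR'0 _ _ _ b0 b1 b2 (a₁ * (Complex.I * cu φ)) (a₂ * (Complex.I * cu φ)) M
    hM).2.2
  rw [boxf_shift] at this
  have e1 : a₁ * (Complex.I * cu φ) - a₂ * (Complex.I * cu φ) =
      (a₁ - a₂) * (Complex.I * cu φ) := by ring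
  rw [e1] at this
  convert this using 4
  congr 1
  ext b
  unfold Hx
  congr 1
  ext x
  congr 2
  · congr 1
    ring_nf
  · ring_nf

/-- The function `φ ↦ A(ρ, φ)`. -/
noncomputable def Aφ (a₁ a₂ : ℂ) (M ρ : ℝ) (f₀ f₁ f₂ : ℂ → ℂ) (φ : ℝ) : ℂ :=
  ((1 / M : ℝ) : ℂ) * ∫ b in (0 : ℝ)..M,
    Hx a₁ a₂ f₀ f₁ f₂ (((1 + ρ : ℝ) : ℂ) + b * Complex.I) φ

theorem Aφ_meas (a₁ a₂ : ℂ) (R M ρ : ℝ) (f₀ f₁ f₂ : ℂ → ℂ) (hM : 0 < M)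
    (h₀ : Bd R f₀) (h₁ : Bd R f₁) (h₂ : Bd R f₂) : Measurable (Aφ a₁ a₂ M ρ f₀ f₁ f₂) := by
  have := meas_ii (fun (φ : ℝ) (b : ℝ) =>
    Hx a₁ a₂ f₀ f₁ f₂ (((1 + ρ : ℝ) : ℂ) + b * Complex.I) φ)
    (Hx_meas2 a₁ a₂ R ρ f₀ f₁ f₂ h₀ h₁ h₂) 0 M hM.le
  exact this.const_mul _

theorem Aφ_bound (a₁ a₂ : ℂ) (R M ρ : ℝ) (f₀ f₁ f₂ : ℂ → ℂ) (hM : 0 < M)
    (h₀ : Bd R f₀) (h₁ : Bd R f₁) (h₂ : Bd R f₂) (φ : ℝ) :
    ‖Aφ a₁ a₂ M ρ f₀ f₁ f₂ φ‖ ≤ 1 / M * (V R * (M - 0)) := by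
  unfold Aφ
  rw [norm_mul, Complex.norm_real, Real.norm_of_nonneg (by positivity)]
  have := norm_ii_le (fun b : ℝ => Hx a₁ a₂ f₀ f₁ f₂ (((1 + ρ : ℝ) : ℂ) + b * Complex.I) φ)
    (V R) 0 M hM.le fun b _ => Hx_bound a₁ a₂ f₀ f₁ f₂ R h₀ h₁ h₂ _ _
  have hM0 : 0 ≤ 1 / M := by positivity
  exact mul_le_mul_of_nonneg_left this hM0

theorem inner_bound (a₁ a₂ : ℂ) (R R' M ρ c : ℝ) (hR : 0 < R)
    (hR' : R' = R + 2 * (‖a₁‖ + ‖a₂‖)) (hc : c = 2 * (Real.pi * R' ^ 2) ^ 3)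
    (f₀ f₁ f₂ : ℂ → ℂ) (hM : 0 < M)
    (hρ : 0 < ρ) (hρ2 : ρ ≤ 1 / 2) (h₀ : Bd R f₀) (h₁ : Bd R f₁) (h₂ : Bd R f₂)
    (hβi : IntervalIntegrable (fun φ : ℝ =>
      (boxf (a₁ * (Complex.I * cu φ)) ((a₁ - a₂) * (Complex.I * cu φ)) M f₁).re) volume 0
      (2 * Real.pi)) :
    ‖∫ φ in (0 : ℝ)..(2 * Real.pi), ((1 / M : ℝ) : ℂ) * ∫ b in (0 : ℝ)..M,
      Hx a₁ a₂ f₀ f₁ f₂ (((1 + ρ : ℝ) : ℂ) + b * Complex.I) φ‖ ≤
      Real.sqrt (Real.sqrt ((2 * Real.pi) ^ 3 * (c * ∫ φ in (0 : ℝ)..(2 * Real.pi),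
        (boxf (a₁ * (Complex.I * cu φ)) ((a₁ - a₂) * (Complex.I * cu φ)) M f₁).re))) := by
  have hAi : IntervalIntegrable (fun φ => ‖Aφ a₁ a₂ M ρ f₀ f₁ f₂ φ‖) volume 0 (2 * Real.pi) :=
    ii_of_bdd _ (Aφ_meas a₁ a₂ R M ρ f₀ f₁ f₂ hM h₀ h₁ h₂).norm.stronglyMeasurable _
      (fun φ => by
        rw [norm_norm]
        exact Aφ_bound a₁ a₂ R M ρ f₀ f₁ f₂ hM h₀ h₁ h₂ φ) _ _
  have h4 := mean4 (fun φ => ‖Aφ a₁ a₂ M ρ f₀ f₁ f₂ φ‖) (fun φ : ℝ =>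
      (boxf (a₁ * (Complex.I * cu φ)) ((a₁ - a₂) * (Complex.I * cu φ)) M f₁).re)
      (2 * Real.pi) c (by positivity) hAi hβi
    (fun φ => by
      rw [hc]
      exact pointwise a₁ a₂ R R' M ρ φ hR hR' f₀ f₁ f₂ hM hρ hρ2 h₀ h₁ h₂)
  have h5 : ‖∫ φ in (0 : ℝ)..(2 * Real.pi), Aφ a₁ a₂ M ρ f₀ f₁ f₂ φ‖ ≤
      ∫ φ in (0 : ℝ)..(2 * Real.pi), ‖Aφ a₁ a₂ M ρ f₀ f₁ f₂ φ‖ :=
    intervalIntegral.norm_integral_le_integral_norm (by positivity)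
  refine h5.trans ?_
  apply Real.le_sqrt_of_sq_le
  apply Real.le_sqrt_of_sq_le
  refine le_trans (le_of_eq ?_) h4
  ring

end TqBox

/-- The difference of the triangle forms is controlled by the box forms. -/
theorem tq_box (a₁ a₂ : ℂ) (R : ℝ) (hR : 0 < R) : ∃ K : ℝ, 0 < K ∧
    ∀ (M η : ℝ) (f₀ f₁ f₂ : ℂ → ℂ), 0 < M → M ≤ 1 / 2 → 0 < η → η ≤ 1 / 2 →
      Bd R f₀ → Bd R f₁ → Bd R f₂ →
      ‖Tq a₁ a₂ η f₀ f₁ f₂‖ ^ 4 ≤ K * ((∫ φ in (0 : ℝ)..(2 * Real.pi),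
        (boxf (a₁ * (Complex.I * cu φ)) ((a₁ - a₂) * (Complex.I * cu φ)) M f₁).re)
          + (M ^ 2 / η) ^ 4) := by
  set R' : ℝ := R + 2 * (‖a₁‖ + ‖a₂‖) with hR'
  have hR'0 : 0 < R' := by rw [hR']; positivity
  set B := TqBox.V R * (2 * Real.pi) with hB
  have hB0 : 0 ≤ B := mul_nonneg (TqBox.V_nonneg R) (by positivity)
  set c : ℝ := 2 * (Real.pi * R' ^ 2) ^ 3 with hc
  have hc0 : 0 < c := by rw [hc]; positivity
  refine ⟨8 * ((2 * Real.pi) ^ 3 * c) + 8 * (10 * B) ^ 4 + 1, by positivity, ?_⟩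
  intro M η f₀ f₁ f₂ hM hM2 hη hη2 h₀ h₁ h₂
  set β : ℝ → ℝ := fun φ =>
    (boxf (a₁ * (Complex.I * cu φ)) ((a₁ - a₂) * (Complex.I * cu φ)) M f₁).re with hβ
  have hβ0 : ∀ φ, 0 ≤ β φ := by
    intro φ
    have := (flat R hR _ _ _ h₀ h₁ h₂ (a₁ * (Complex.I * cu φ)) (a₂ * (Complex.I * cu φ)) M
      hM).2.1
    have e1 : a₁ * (Complex.I * cu φ) - a₂ * (Complex.I * cu φ) =
      (a₁ - a₂) * (Complex.I * cu φ) := by ring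
    rwa [e1] at this
  have hβi : IntervalIntegrable β volume 0 (2 * Real.pi) := by
    apply TqBox.ii_of_bdd _ _ (1 / M ^ 2 * TqBox.V R * (2 * M) * (2 * M))
    · intro φ
      exact (Complex.abs_re_le_norm _).trans (TqBox.boxf_bound _ _ R M hM f₁ h₁)
    · exact (Complex.measurable_re.comp
        (TqBox.boxf_meas a₁ (a₁ - a₂) M f₁ h₁.meas)).stronglyMeasurable
  have hI0 : 0 ≤ ∫ φ in (0 : ℝ)..(2 * Real.pi), β φ :=
    intervalIntegral.integral_nonneg (by positivity) fun φ _ => hβ0 φ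
  set Y : ℝ := (2 * Real.pi) ^ 3 * (c * ∫ φ in (0 : ℝ)..(2 * Real.pi), β φ) with hY
  have hY0 : 0 ≤ Y := by positivity
  set main : ℂ := ((1 / M : ℝ) : ℂ) * ∫ b in (0 : ℝ)..M, TqBox.P a₁ a₂ η f₀ f₁ f₂ b with hmain
  have h1 : ‖Tq a₁ a₂ η f₀ f₁ f₂ - main‖ ≤ 10 * B * (M ^ 2 / η) :=
    TqBox.avg_window a₁ a₂ R M η f₀ f₁ f₂ hM hM2 hη hη2 h₀ h₁ h₂
  have h2 : ‖main‖ ≤ Real.sqrt (Real.sqrt Y) := by
    rw [hmain, TqBox.fubini a₁ a₂ R M η f₀ f₁ f₂ hM hη h₀ h₁ h₂,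
      ← intervalIntegral.integral_const_mul]
    have : ∀ ρ ∈ Set.Ioc 0 η, ‖((1 / M : ℝ) : ℂ) * ((qk η ρ : ℂ) *
        ∫ φ in (0 : ℝ)..(2 * Real.pi), ∫ b in (0 : ℝ)..M,
          TqBox.Hx a₁ a₂ f₀ f₁ f₂ (((1 + ρ : ℝ) : ℂ) + b * Complex.I) φ)‖ ≤
        1 / η * Real.sqrt (Real.sqrt Y) := by
      intro ρ hρ
      have e : ((1 / M : ℝ) : ℂ) * ((qk η ρ : ℂ) *
        ∫ φ in (0 : ℝ)..(2 * Real.pi), ∫ b in (0 : ℝ)..M,
          TqBox.Hx a₁ a₂ f₀ f₁ f₂ (((1 + ρ : ℝ) : ℂ) + b * Complex.I) φ) = (qk η ρ : ℂ) *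
        ∫ φ in (0 : ℝ)..(2 * Real.pi), ((1 / M : ℝ) : ℂ) * ∫ b in (0 : ℝ)..M,
          TqBox.Hx a₁ a₂ f₀ f₁ f₂ (((1 + ρ : ℝ) : ℂ) + b * Complex.I) φ := by
        rw [intervalIntegral.integral_const_mul]
        ring
      rw [e, norm_mul, TqBox.qk_norm η ρ hη]
      have hη0 : 0 ≤ 1 / η := by positivity
      refine mul_le_mul_of_nonneg_left ?_ hη0
      exact TqBox.inner_bound a₁ a₂ R R' M ρ c hR hR' hc f₀ f₁ f₂ hM hρ.1 (hρ.2.trans hη2) h₀ h₁ h₂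
        hβi
    have h7 := TqBox.norm_ii_le _ _ 0 η hη.le this
    refine h7.trans (le_of_eq ?_)
    rw [sub_zero]
    field_simp
  have h3 : ‖main‖ ^ 4 ≤ Y := by
    calc ‖main‖ ^ 4 ≤ (Real.sqrt (Real.sqrt Y)) ^ 4 := by gcongr
      _ = ((Real.sqrt (Real.sqrt Y)) ^ 2) ^ 2 := by ring
      _ = Y := by rw [Real.sq_sqrt (Real.sqrt_nonneg _), Real.sq_sqrt hY0]
  have h4 : ‖Tq a₁ a₂ η f₀ f₁ f₂‖ ≤ ‖main‖ + 10 * B * (M ^ 2 / η) := by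
    calc ‖Tq a₁ a₂ η f₀ f₁ f₂‖ = ‖main + (Tq a₁ a₂ η f₀ f₁ f₂ - main)‖ := by
          congr 1
          ring
      _ ≤ ‖main‖ + ‖Tq a₁ a₂ η f₀ f₁ f₂ - main‖ := norm_add_le _ _
      _ ≤ _ := by linarith
  have h5 : ‖Tq a₁ a₂ η f₀ f₁ f₂‖ ^ 4 ≤ 8 * (‖main‖ ^ 4 + (10 * B * (M ^ 2 / η)) ^ 4) := by
    calc ‖Tq a₁ a₂ η f₀ f₁ f₂‖ ^ 4 ≤ (‖main‖ + 10 * B * (M ^ 2 / η)) ^ 4 := by gcongr
      _ ≤ 2 ^ (4 - 1) * (‖main‖ ^ 4 + (10 * B * (M ^ 2 / η)) ^ 4) :=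
        add_pow_le (norm_nonneg _) (by positivity) 4
      _ = _ := by norm_num
  refine h5.trans ?_
  have hp : 0 ≤ (M ^ 2 / η) ^ 4 := by positivity
  have hp2 : 0 ≤ (10 * B) ^ 4 := by positivity
  have hp3 : 0 ≤ (2 * Real.pi) ^ 3 * c := by positivity
  have e1 : (10 * B * (M ^ 2 / η)) ^ 4 = (10 * B) ^ 4 * (M ^ 2 / η) ^ 4 := by ring
  rw [e1]
  have e2 : Y = (2 * Real.pi) ^ 3 * c * ∫ φ in (0 : ℝ)..(2 * Real.pi), β φ := by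
    rw [hY]
    ring
  have h8 := mul_nonneg hp2 hI0
  have h9 := mul_nonneg hp3 hp
  nlinarith [h3, h8, h9, hI0, hp, e2]

end Pool.Agent.H67.Pl
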