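import Pool.Agent.H74.Pl.RepMain
import Pool.Agent.H67.Pl.TqBox
import Pool.Agent.H67.Pl.BoxLam
import Pool.Agent.H67.Pl.Inv

/-!
# Replacing one function by a cellwise plane wave
-/

open MeasureTheory
open scoped ComplexConjugate

namespace Pool.Agent.H67.Pl

/-- Replacing one function by a cellwise plane wave. -/
theorem replace_one (a₁ a₂ : ℂ) (ha : a₁ ≠ 0) (him : ((a₁ - a₂) / a₁).im ≠ 0)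
    (hre : ((a₁ - a₂) / a₁).re ≠ 0) (R : ℝ) (hR : 1 ≤ R) :
    ∃ (C C₁ : ℕ) (R' : ℝ), R ≤ R' ∧ ∀ (D M η : ℝ) (f₀ f₁ f₂ : ℂ → ℂ), 2 ≤ D → 0 < M →
      M * ‖a₁‖ ≤ 1 → M ≤ 1 / 2 → 0 < η → η ≤ 1 / 2 → M ^ 2 / η ≤ 1 / D ^ C →
      Bd R f₀ → Bd R f₁ → Bd R f₂ → 1 / D ≤ ‖Tq a₁ a₂ η f₀ f₁ f₂‖ →
      ∃ (p : ℂ) (ξ a : ℤ × ℤ → ℂ), (∀ k, ‖a k‖ ≤ 1) ∧
        1 / D ^ C ≤ ‖Tq a₁ a₂ η f₀ (bind R' (pw p (M * ‖a₁‖ / D ^ C₁) ξ a)) f₂‖ :=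
  replace_one_of (fun a₁ a₂ R hR => tq_box a₁ a₂ R hR)
    (fun a₁ a₂ ha R M hM f hf => box_lam a₁ a₂ ha R M hM f hf)
    (fun σ him hre R hR => local_inverse σ him hre R hR) a₁ a₂ ha him hre R hR

end Pool.Agent.H67.Pl
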