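import Pool.Agent.H67.Pl.Basic

/-!
# Rotation invariance and measurability of the triangle form
-/

open MeasureTheory
open scoped ComplexConjugate

namespace Pool.Agent.H67.Pl

namespace Rot69

theorem cu_add (φ ψ : ℝ) : cu (φ + ψ) = cu φ * cu ψ := by
  unfold cu
  rw [← Complex.exp_add]
  congr 1
  push_cast
  ring

theorem cu_two_pi (φ : ℝ) : cu (φ + 2 * Real.pi) = cu φ := by
  unfold cu
  push_cast
  rw [add_mul]
  exact Complex.exp_periodic _

theorem norm_mul_cu_arg (z : ℂ) : z = (‖z‖ : ℂ) * cu (Complex.arg z) := by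
  unfold cu
  exact (Complex.norm_mul_exp_arg_mul_I z).symm

theorem measurable_cu : Measurable cu := by
  unfold cu
  fun_prop

theorem vol_ball (R : ℝ) : volume.real (Metric.closedBall (0 : ℂ) R) ≤ Real.pi * R ^ 2 := by
  rcases lt_or_ge R 0 with h | h
  · rw [Metric.closedBall_eq_empty.2 h]
    simp only [measureReal_empty]
    positivity
  · rw [measureReal_def, Complex.volume_closedBall, ENNReal.toReal_mul, ENNReal.toReal_pow,
      ENNReal.toReal_ofReal h]
    simp only [ENNReal.coe_toReal, NNReal.coe_real_pi]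
    nlinarith

theorem inner_bound (a₁ a₂ : ℂ) (R : ℝ) (f₀ f₁ f₂ : ℂ → ℂ) (h₀ : Bd R f₀) (h₁ : Bd R f₁)
    (h₂ : Bd R f₂) :
    ‖∫ x : ℂ, f₀ x * f₁ (x + a₁) * f₂ (x + a₂)‖ ≤ Real.pi * R ^ 2 := by
  have hint : Integrable ((Metric.closedBall (0 : ℂ) R).indicator (fun _ => (1 : ℝ))) := by
    refine (integrable_indicator_iff Metric.isClosed_closedBall.measurableSet).2 ?_
    exact integrableOn_const (measure_closedBall_lt_top.ne)
  have h1 : ‖∫ x : ℂ, f₀ x * f₁ (x + a₁) * f₂ (x + a₂)‖ ≤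
      ∫ x : ℂ, (Metric.closedBall (0 : ℂ) R).indicator (fun _ => (1 : ℝ)) x := by
    refine norm_integral_le_of_norm_le hint (Filter.Eventually.of_forall fun x => ?_)
    by_cases hx : x ∈ Metric.closedBall (0 : ℂ) R
    · rw [Set.indicator_of_mem hx, norm_mul, norm_mul]
      have e0 := h₀.le_one x
      have e1 := h₁.le_one (x + a₁)
      have e2 := h₂.le_one (x + a₂)
      have n0 := norm_nonneg (f₀ x)
      have n1 := norm_nonneg (f₁ (x + a₁))
      have n2 := norm_nonneg (f₂ (x + a₂))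
      calc ‖f₀ x‖ * ‖f₁ (x + a₁)‖ * ‖f₂ (x + a₂)‖ ≤ 1 * 1 * 1 := by gcongr
        _ = 1 := by norm_num
    · have hx' : R < ‖x‖ := by
        rw [Metric.mem_closedBall, dist_zero_right, not_le] at hx
        exact hx
      rw [h₀.supp x hx', zero_mul, zero_mul, norm_zero, Set.indicator_of_notMem hx]
  refine h1.trans ?_
  rw [integral_indicator Metric.isClosed_closedBall.measurableSet]
  simp only [integral_const, smul_eq_mul, mul_one, measureReal_restrict_apply_univ]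
  exact vol_ball R

end Rot69

-- M2
theorem cform_norm (a₁ a₂ : ℂ) (f₀ f₁ f₂ : ℂ → ℂ) (z : ℂ) :
    cform a₁ a₂ f₀ f₁ f₂ z = cform a₁ a₂ f₀ f₁ f₂ (‖z‖ : ℂ) := by
  set H : ℝ → ℂ := fun φ => ∫ x : ℂ, f₀ x * f₁ (x + a₁ * (‖z‖ : ℂ) * cu φ) *
    f₂ (x + a₂ * (‖z‖ : ℂ) * cu φ) with hH
  have hper : Function.Periodic H (2 * Real.pi) := by
    intro φ
    simp only [hH, Rot69.cu_two_pi]
  have h1 : cform a₁ a₂ f₀ f₁ f₂ z = ∫ φ in (0 : ℝ)..(2 * Real.pi), H (φ + Complex.arg z) := by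
    unfold cform
    refine intervalIntegral.integral_congr fun φ _ => ?_
    simp only [hH]
    congr 1
    funext x
    have e1 : a₁ * z * cu φ = a₁ * (‖z‖ : ℂ) * cu (φ + Complex.arg z) := by
      rw [Rot69.cu_add]
      conv_lhs => rw [Rot69.norm_mul_cu_arg z]
      ring
    have e2 : a₂ * z * cu φ = a₂ * (‖z‖ : ℂ) * cu (φ + Complex.arg z) := by
      rw [Rot69.cu_add]
      conv_lhs => rw [Rot69.norm_mul_cu_arg z]
      ring
    rw [e1, e2]
  rw [h1, intervalIntegral.integral_comp_add_right, zero_add, add_comm (2 * Real.pi),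
    hper.intervalIntegral_add_eq (Complex.arg z) 0, zero_add]
  rfl

-- M2'
theorem cform_measurable (a₁ a₂ : ℂ) (R : ℝ) (f₀ f₁ f₂ : ℂ → ℂ) (h₀ : Bd R f₀) (h₁ : Bd R f₁)
    (h₂ : Bd R f₂) : Measurable (cform a₁ a₂ f₀ f₁ f₂) ∧
      ∀ z, ‖cform a₁ a₂ f₀ f₁ f₂ z‖ ≤ 2 * Real.pi * (Real.pi * R ^ 2) := by
  have hpi : (0 : ℝ) ≤ 2 * Real.pi := by positivity
  have hm0 := h₀.meas
  have hm1 := h₁.meas
  have hm2 := h₂.meas
  have hcu := Rot69.measurable_cu
  constructor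
  · have hA : StronglyMeasurable (fun w : ℂ × ℝ => ∫ x : ℂ, f₀ x * f₁ (x + a₁ * w.1 * cu w.2) *
        f₂ (x + a₂ * w.1 * cu w.2)) := by
      refine StronglyMeasurable.integral_prod_right (f := fun (w : ℂ × ℝ) (x : ℂ) =>
        f₀ x * f₁ (x + a₁ * w.1 * cu w.2) * f₂ (x + a₂ * w.1 * cu w.2)) ?_
      refine Measurable.stronglyMeasurable ?_
      simp only [Function.uncurry_def]
      fun_prop
    have hB : StronglyMeasurable (fun z : ℂ => ∫ φ in Set.Ioc (0 : ℝ) (2 * Real.pi),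
        ∫ x : ℂ, f₀ x * f₁ (x + a₁ * z * cu φ) * f₂ (x + a₂ * z * cu φ)) := by
      refine StronglyMeasurable.integral_prod_right (f := fun (z : ℂ) (φ : ℝ) =>
        ∫ x : ℂ, f₀ x * f₁ (x + a₁ * z * cu φ) * f₂ (x + a₂ * z * cu φ)) ?_
      exact hA
    have hC : cform a₁ a₂ f₀ f₁ f₂ = fun z : ℂ => ∫ φ in Set.Ioc (0 : ℝ) (2 * Real.pi),
        ∫ x : ℂ, f₀ x * f₁ (x + a₁ * z * cu φ) * f₂ (x + a₂ * z * cu φ) := by
      funext z
      unfold cform
      rw [intervalIntegral.integral_of_le hpi]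
    rw [hC]
    exact hB.measurable
  · intro z
    unfold cform
    refine (intervalIntegral.norm_integral_le_of_norm_le_const
      (C := Real.pi * R ^ 2) fun φ _ => ?_).trans ?_
    · exact Rot69.inner_bound (a₁ * z * cu φ) (a₂ * z * cu φ) R f₀ f₁ f₂ h₀ h₁ h₂
    · rw [sub_zero, abs_of_nonneg hpi]
      exact (mul_comm _ _).le

end Pool.Agent.H67.Pl
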