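import Pool.Agent.H67.Pl.SmoothCore
import Pool.Agent.H67.Pl.Replace
import Pool.Agent.H67.Pl.Fields
import Pool.Agent.H67.Pl.Rot

/-!
# The smoothing theorem
-/

open MeasureTheory
open scoped ComplexConjugate

namespace Pool.Agent.H67.Pl

/-- The smoothing theorem. -/
theorem smoothing (a₁ a₂ : ℂ) (h1 : a₁ ≠ 0) (h2 : a₂ ≠ 0) (him : ((a₁ - a₂) / a₁).im ≠ 0)
    (hre : ((a₁ - a₂) / a₁).re ≠ 0) (him' : ((a₂ - a₁) / a₂).im ≠ 0)
    (hre' : ((a₂ - a₁) / a₂).re ≠ 0) (hFR : FRx a₁ a₂) (R : ℝ) (hR : 1 ≤ R) :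
    ∃ C c : ℝ, 0 < C ∧ 0 < c ∧ ∀ (η : ℝ) (f₀ f₁ f₂ : ℂ → ℂ), 0 < η → η ≤ 1 / 2 →
      Bd R f₀ → (∀ x, x ∉ sq 0 1 → f₀ x = 0) → Bd R f₁ → Bd R f₂ →
      ‖Tq a₁ a₂ η f₀ f₁ f₂‖ ≤ C * η ^ c := by
  set R₀ : ℝ := max R (2 + 2 * ‖a₁‖ + 2 * ‖a₂‖) with hR₀
  obtain ⟨B, κ₀, hκ₀, H⟩ := smoothing_core a₁ a₂ h1 h2 hFR R₀ (hR.trans (le_max_left _ _))
    (le_max_right _ _) (fun R hR => replace_one a₁ a₂ h1 him hre R hR)
    (fun R hR => replace_one a₂ a₁ h2 him' hre' R hR) (fun R hR => fields a₁ a₂ R hR)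
  set K : ℝ := 2 * Real.pi * (Real.pi * R ^ 2) with hK
  have hK0 : 0 ≤ K := by positivity
  set c : ℝ := 1 / (16 * (B + 1)) with hc
  have hc0 : 0 < c := by positivity
  have hcB : c * B ≤ 1 / 16 := by
    rw [hc, div_mul_eq_mul_div, one_mul, div_le_div_iff₀ (by positivity) (by norm_num)]
    nlinarith
  -- the threshold
  obtain ⟨η₁, hη₁, hη₁1, hη₁a, hη₁b⟩ : ∃ η₁ : ℝ, 0 < η₁ ∧ η₁ ≤ 1 ∧ η₁ ^ c ≤ 1 / 2 ∧
      η₁ ^ ((1 : ℝ) / 16) ≤ κ₀ := by
    refine ⟨min 1 (min ((1 / 2) ^ (1 / c)) (κ₀ ^ (16 : ℝ))), ?_, min_le_left _ _, ?_, ?_⟩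
    · exact lt_min one_pos (lt_min (by positivity) (by positivity))
    · calc _ ≤ ((1 / 2 : ℝ) ^ (1 / c)) ^ c := by
            apply Real.rpow_le_rpow _ _ hc0.le
            · exact le_min zero_le_one (le_min (by positivity) (by positivity))
            · exact (min_le_right _ _).trans (min_le_left _ _)
        _ = 1 / 2 := by
            rw [← Real.rpow_mul (by norm_num), one_div_mul_cancel hc0.ne', Real.rpow_one]
    · calc _ ≤ (κ₀ ^ (16 : ℝ)) ^ ((1 : ℝ) / 16) := by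
            apply Real.rpow_le_rpow _ _ (by norm_num)
            · exact le_min zero_le_one (le_min (by positivity) (by positivity))
            · exact (min_le_right _ _).trans (min_le_right _ _)
        _ = κ₀ := by
            rw [← Real.rpow_mul hκ₀.le]
            norm_num
  refine ⟨max 1 (K / η₁ ^ c), c, lt_of_lt_of_le one_pos (le_max_left _ _), hc0, ?_⟩
  intro η f₀ f₁ f₂ hη hη1 b0 b0' b1 b2
  have hηc : 0 < η ^ c := Real.rpow_pos_of_pos hη _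
  rcases le_total η η₁ with hle | hge
  · have e1 : η ^ c ≤ 1 / 2 := (Real.rpow_le_rpow hη.le hle hc0.le).trans hη₁a
    have e2 : η ^ ((1 : ℝ) / 16) ≤ κ₀ :=
      (Real.rpow_le_rpow hη.le hle (by norm_num)).trans hη₁b
    have hD : 2 ≤ 1 / η ^ c := by
      rw [le_div_iff₀ hηc]
      linarith
    have e3 : (1 / η ^ c) ^ B * η ^ ((1 : ℝ) / 8) ≤ κ₀ := by
      refine le_trans ?_ e2
      rw [one_div, inv_pow, ← Real.rpow_natCast, ← Real.rpow_mul hη.le, ← Real.rpow_neg hη.le,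
        ← Real.rpow_add hη]
      apply Real.rpow_le_rpow_of_exponent_ge hη (by linarith)
      linarith
    have e4 := H (1 / η ^ c) η f₀ f₁ f₂ hD hη hη1 e3 (b0.mono (le_max_left _ _)) b0'
      (b1.mono (le_max_left _ _)) (b2.mono (le_max_left _ _))
    rw [one_div_one_div] at e4
    refine e4.trans ?_
    calc η ^ c = 1 * η ^ c := (one_mul _).symm
      _ ≤ max 1 (K / η₁ ^ c) * η ^ c := mul_le_mul_of_nonneg_right (le_max_left _ _) hηc.le
  · have e5 := norm_Tq_le a₁ a₂ η hη f₀ f₁ f₂ K (cform_measurable a₁ a₂ R f₀ f₁ f₂ b0 b1 b2).2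
    refine e5.trans ?_
    have hη₁c : 0 < η₁ ^ c := Real.rpow_pos_of_pos hη₁ _
    calc K = K / η₁ ^ c * η₁ ^ c := by field_simp
      _ ≤ K / η₁ ^ c * η ^ c := by
          apply mul_le_mul_of_nonneg_left _ (by positivity)
          exact Real.rpow_le_rpow hη₁.le hge hc0.le
      _ ≤ max 1 (K / η₁ ^ c) * η ^ c := mul_le_mul_of_nonneg_right (le_max_right _ _) hηc.le

end Pool.Agent.H67.Pl
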