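import Pool.Agent.H67.Pl.Basic

/-!
# Transference to bad scales
-/

open MeasureTheory Filter Topology
open scoped ComplexConjugate

namespace Pool.Agent.H22.Trans

open Pool.Agent.H67.Pl

/-- Continuity of translations in `L^1` at zero, continuous functions of compact support. -/
theorem transl_compact (h : ℂ → ℂ) (hc : Continuous h) (hs : HasCompactSupport h) :
    Tendsto (fun v : ℂ => ∫ y, ‖h (y + v) - h y‖) (𝓝 0) (𝓝 0) := by
  obtain ⟨M, hM⟩ := hs.exists_bound_of_continuous hc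
  obtain ⟨r, hr⟩ := hs.isCompact.isBounded.subset_closedBall (0 : ℂ)
  have hM0 : 0 ≤ M := (norm_nonneg _).trans (hM 0)
  have h0 : ∀ y : ℂ, r < ‖y‖ → h y = 0 := by
    intro y hy
    by_contra hne
    have := hr (subset_tsupport _ (Function.mem_support.mpr hne))
    rw [mem_closedBall_zero_iff] at this
    linarith
  have key : Tendsto (fun v : ℂ => ∫ y, ‖h (y + v) - h y‖) (𝓝 0)
      (𝓝 (∫ _ : ℂ, (0 : ℝ))) := by
    apply tendsto_integral_filter_of_dominated_convergence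
      ((Metric.closedBall (0 : ℂ) (r + 1)).indicator fun _ => 2 * M)
    · apply Eventually.of_forall
      intro v
      exact (((hc.comp (continuous_id.add continuous_const)).sub hc).norm).aestronglyMeasurable
    · have h1 : ∀ᶠ v : ℂ in 𝓝 0, ‖v‖ < 1 := by
        have := (continuous_norm (E := ℂ)).tendsto 0
        rw [norm_zero] at this
        exact this.eventually (gt_mem_nhds one_pos)
      filter_upwards [h1] with v hv
      apply Eventually.of_forall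
      intro y
      by_cases hy : y ∈ Metric.closedBall (0 : ℂ) (r + 1)
      · rw [Set.indicator_of_mem hy, norm_norm]
        calc ‖h (y + v) - h y‖ ≤ ‖h (y + v)‖ + ‖h y‖ := norm_sub_le _ _
          _ ≤ 2 * M := by linarith [hM y, hM (y + v)]
      · rw [Set.indicator_of_notMem hy]
        rw [mem_closedBall_zero_iff, not_le] at hy
        have b1 : h y = 0 := h0 y (by linarith)
        have b2 : h (y + v) = 0 := by
          apply h0
          have := norm_sub_le (y + v) v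
          rw [add_sub_cancel_right] at this
          linarith
        rw [b1, b2]
        simp
    · refine (integrable_indicator_iff measurableSet_closedBall).mpr ?_
      exact integrableOn_const (measure_closedBall_lt_top).ne
    · apply Eventually.of_forall
      intro y
      have h2 : Continuous (fun v : ℂ => ‖h (y + v) - h y‖) :=
        ((hc.comp (continuous_const.add continuous_id)).sub continuous_const).norm
      have h3 := h2.tendsto 0
      simpa using h3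
  simpa using key

/-- Continuity of translations in `L^1` at zero. -/
theorem transl_L1 (k : ℂ → ℂ) (hk : Integrable k) :
    Tendsto (fun v : ℂ => ∫ y, ‖k (y + v) - k y‖) (𝓝 0) (𝓝 0) := by
  rw [Metric.tendsto_nhds]
  intro ε hε
  obtain ⟨h, hs, hkh, hc, hi⟩ := hk.exists_hasCompactSupport_integral_sub_le
    (show 0 < ε / 4 by positivity)
  have h1 := transl_compact h hc hs
  rw [Metric.tendsto_nhds] at h1
  filter_upwards [h1 (ε / 4) (by positivity)] with v hv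
  rw [Real.dist_eq, sub_zero] at hv ⊢
  have n1 : 0 ≤ ∫ y, ‖k (y + v) - k y‖ := integral_nonneg fun y => norm_nonneg _
  have n2 : 0 ≤ ∫ y, ‖h (y + v) - h y‖ := integral_nonneg fun y => norm_nonneg _
  rw [abs_of_nonneg n1]
  rw [abs_of_nonneg n2] at hv
  have i1 : Integrable (fun y => ‖k y - h y‖) := (hk.sub hi).norm
  have i2 : Integrable (fun y => ‖k (y + v) - h (y + v)‖) :=
    ((hk.comp_add_right v).sub (hi.comp_add_right v)).norm
  have i3 : Integrable (fun y => ‖h (y + v) - h y‖) := ((hi.comp_add_right v).sub hi).norm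
  have e1 : ∫ y, ‖k (y + v) - h (y + v)‖ = ∫ y, ‖k y - h y‖ :=
    integral_add_right_eq_self (fun y => ‖k y - h y‖) v
  calc ∫ y, ‖k (y + v) - k y‖
      ≤ ∫ y, (‖k y - h y‖ + ‖k (y + v) - h (y + v)‖ + ‖h (y + v) - h y‖) := by
        apply integral_mono ((hk.comp_add_right v).sub hk).norm ((i1.add i2).add i3)
        intro y
        have : k (y + v) - k y = -(k y - h y) + (k (y + v) - h (y + v)) +
          (h (y + v) - h y) := by ring
        show ‖k (y + v) - k y‖ ≤ ‖k y - h y‖ + ‖k (y + v) - h (y + v)‖ + ‖h (y + v) - h y‖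
        rw [this]
        refine (norm_add₃_le).trans ?_
        rw [norm_neg]
    _ = (∫ y, ‖k y - h y‖) + (∫ y, ‖k (y + v) - h (y + v)‖) + ∫ y, ‖h (y + v) - h y‖ := by
        have j1 : ∫ y, (‖k y - h y‖ + ‖k (y + v) - h (y + v)‖ + ‖h (y + v) - h y‖) =
            (∫ y, (‖k y - h y‖ + ‖k (y + v) - h (y + v)‖)) + ∫ y, ‖h (y + v) - h y‖ :=
          integral_add (i1.add i2) i3
        rw [j1, integral_add i1 i2]
    _ < ε := by
        rw [e1]
        have : ∫ y, ‖k y - h y‖ ≤ ε / 4 := hkh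
        linarith

lemma bd_integrable {R : ℝ} {f : ℂ → ℂ} (hf : Bd R f) : Integrable f := by
  have h1 : Integrable ((Metric.closedBall (0 : ℂ) R).indicator (fun _ => (1 : ℝ))) :=
    (integrable_indicator_iff measurableSet_closedBall).mpr
      (integrableOn_const (measure_closedBall_lt_top).ne)
  refine h1.mono' hf.meas.aestronglyMeasurable (Eventually.of_forall fun x => ?_)
  by_cases hx : x ∈ Metric.closedBall (0 : ℂ) R
  · rw [Set.indicator_of_mem hx]; exact hf.le_one x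
  · rw [Set.indicator_of_notMem hx]
    rw [mem_closedBall_zero_iff, not_le] at hx
    rw [hf.supp x hx, norm_zero]

/-- The triple form. -/
noncomputable def G3 (a₁ a₂ : ℂ) (f₀ f₁ f₂ : ℂ → ℂ) (v : ℂ) : ℂ :=
  ∫ x : ℂ, f₀ x * f₁ (x + a₁ * v) * f₂ (x + a₂ * v)

lemma g3_integrable {R : ℝ} {f₀ f₁ f₂ : ℂ → ℂ} (h0 : Bd R f₀) (h1 : Bd R f₁) (h2 : Bd R f₂)
    (u w : ℂ) : Integrable (fun x => f₀ x * f₁ (x + u) * f₂ (x + w)) := by
  have hm1 : Measurable (fun x : ℂ => f₁ (x + u)) := h1.meas.comp (measurable_id.add_const u)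
  have hm2 : Measurable (fun x : ℂ => f₂ (x + w)) := h2.meas.comp (measurable_id.add_const w)
  refine (bd_integrable h0).norm.mono' ((h0.meas.mul hm1).mul hm2).aestronglyMeasurable
    (Eventually.of_forall fun x => ?_)
  rw [norm_mul, norm_mul]
  calc ‖f₀ x‖ * ‖f₁ (x + u)‖ * ‖f₂ (x + w)‖ ≤ ‖f₀ x‖ * 1 * 1 :=
        mul_le_mul (mul_le_mul_of_nonneg_left (h1.le_one _) (norm_nonneg _)) (h2.le_one _)
          (norm_nonneg _) (by positivity)
    _ = ‖f₀ x‖ := by ring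

lemma transl_at {R : ℝ} {f : ℂ → ℂ} (hf : Bd R f) (a v₀ : ℂ) :
    Tendsto (fun v : ℂ => ∫ x, ‖f (x + a * v) - f (x + a * v₀)‖) (𝓝 v₀) (𝓝 0) := by
  have h1 := transl_L1 f (bd_integrable hf)
  have h2 : Tendsto (fun v : ℂ => a * (v - v₀)) (𝓝 v₀) (𝓝 0) := by
    have h3 : Continuous (fun v : ℂ => a * (v - v₀)) :=
      continuous_const.mul (continuous_id.sub continuous_const)
    have h4 := h3.tendsto v₀
    simpa using h4
  have h5 := h1.comp h2
  refine h5.congr (fun v => ?_)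
  show ∫ y, ‖f (y + a * (v - v₀)) - f y‖ = _
  have h6 := integral_add_right_eq_self (fun y : ℂ => ‖f (y + a * (v - v₀)) - f y‖) (a * v₀)
    (μ := volume)
  rw [← h6]
  congr 1
  funext x
  congr 3
  ring

lemma g3_continuous {R : ℝ} {f₀ f₁ f₂ : ℂ → ℂ} (h0 : Bd R f₀) (h1 : Bd R f₁) (h2 : Bd R f₂)
    (a₁ a₂ : ℂ) : Continuous (G3 a₁ a₂ f₀ f₁ f₂) := by
  rw [continuous_iff_continuousAt]
  intro v₀
  rw [ContinuousAt, tendsto_iff_norm_sub_tendsto_zero]
  have h3 : Tendsto (fun v : ℂ => (∫ x, ‖f₁ (x + a₁ * v) - f₁ (x + a₁ * v₀)‖) +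
      ∫ x, ‖f₂ (x + a₂ * v) - f₂ (x + a₂ * v₀)‖) (𝓝 v₀) (𝓝 0) := by
    have := (transl_at h1 a₁ v₀).add (transl_at h2 a₂ v₀)
    rwa [add_zero] at this
  refine squeeze_zero (fun v => norm_nonneg _) (fun v => ?_) h3
  have i1 : Integrable (fun x => ‖f₁ (x + a₁ * v) - f₁ (x + a₁ * v₀)‖) :=
    (((bd_integrable h1).comp_add_right _).sub ((bd_integrable h1).comp_add_right _)).norm
  have i2 : Integrable (fun x => ‖f₂ (x + a₂ * v) - f₂ (x + a₂ * v₀)‖) :=
    (((bd_integrable h2).comp_add_right _).sub ((bd_integrable h2).comp_add_right _)).norm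
  unfold G3
  rw [← integral_sub (g3_integrable h0 h1 h2 _ _) (g3_integrable h0 h1 h2 _ _),
    ← integral_add i1 i2]
  refine (norm_integral_le_integral_norm _).trans ?_
  apply integral_mono ((g3_integrable h0 h1 h2 _ _).sub (g3_integrable h0 h1 h2 _ _)).norm
    (i1.add i2)
  intro x
  show ‖f₀ x * f₁ (x + a₁ * v) * f₂ (x + a₂ * v) - f₀ x * f₁ (x + a₁ * v₀) * f₂ (x + a₂ * v₀)‖ ≤
    ‖f₁ (x + a₁ * v) - f₁ (x + a₁ * v₀)‖ + ‖f₂ (x + a₂ * v) - f₂ (x + a₂ * v₀)‖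
  have e1 : f₀ x * f₁ (x + a₁ * v) * f₂ (x + a₂ * v) - f₀ x * f₁ (x + a₁ * v₀) *
      f₂ (x + a₂ * v₀) = f₀ x * f₂ (x + a₂ * v) * (f₁ (x + a₁ * v) - f₁ (x + a₁ * v₀)) +
      f₀ x * f₁ (x + a₁ * v₀) * (f₂ (x + a₂ * v) - f₂ (x + a₂ * v₀)) := by ring
  rw [e1]
  refine (norm_add_le _ _).trans ?_
  rw [norm_mul, norm_mul, norm_mul, norm_mul]
  have b1 : ‖f₀ x‖ * ‖f₂ (x + a₂ * v)‖ ≤ 1 :=
    mul_le_one₀ (h0.le_one _) (norm_nonneg _) (h2.le_one _)
  have b2 : ‖f₀ x‖ * ‖f₁ (x + a₁ * v₀)‖ ≤ 1 :=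
    mul_le_one₀ (h0.le_one _) (norm_nonneg _) (h1.le_one _)
  exact add_le_add (mul_le_of_le_one_left (norm_nonneg _) b1)
    (mul_le_of_le_one_left (norm_nonneg _) b2)

lemma cform_eq (a₁ a₂ : ℂ) (f₀ f₁ f₂ : ℂ → ℂ) (z : ℂ) :
    cform a₁ a₂ f₀ f₁ f₂ z = ∫ φ in (0 : ℝ)..(2 * Real.pi), G3 a₁ a₂ f₀ f₁ f₂ (z * cu φ) := by
  unfold cform G3
  simp only [mul_assoc]

lemma cu_continuous : Continuous cu := by
  unfold cu
  fun_prop

lemma cform_continuous {R : ℝ} {f₀ f₁ f₂ : ℂ → ℂ} (h0 : Bd R f₀) (h1 : Bd R f₁) (h2 : Bd R f₂)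
    (a₁ a₂ : ℂ) : Continuous (cform a₁ a₂ f₀ f₁ f₂) := by
  have h3 : cform a₁ a₂ f₀ f₁ f₂ = fun z => ∫ φ in (0 : ℝ)..(2 * Real.pi),
      G3 a₁ a₂ f₀ f₁ f₂ (z * cu φ) := by
    funext z
    exact cform_eq _ _ _ _ _ _
  rw [h3]
  apply intervalIntegral.continuous_parametric_intervalIntegral_of_continuous'
  exact (g3_continuous h0 h1 h2 a₁ a₂).comp
    (continuous_fst.mul (cu_continuous.comp continuous_snd))

/-- The average of `F` over `[0, h]`. -/
noncomputable def Av (F : ℝ → ℂ) (h : ℝ) : ℂ := (1 / h : ℂ) * ∫ ρ in (0 : ℝ)..h, F ρ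

lemma qk_int' {F : ℝ → ℂ} (hF : Continuous F) {η : ℝ} (hη : 0 < η) :
    IntervalIntegrable (fun ρ => (qk η ρ : ℂ) * F ρ) volume 0 η ∧
    ∫ ρ in (0 : ℝ)..η, (qk η ρ : ℂ) * F ρ = Av F η - Av F (η / 2) := by
  have a1 : ∀ᵐ ρ : ℝ, ρ ≠ η / 2 := by
    rw [ae_iff]
    simp
  have e1 : ∀ᵐ ρ : ℝ, ρ ∈ Set.uIoc 0 (η / 2) → (-(1 / η) : ℂ) * F ρ = (qk η ρ : ℂ) * F ρ := by
    filter_upwards [a1] with ρ hρ hm
    rw [Set.uIoc_of_le (by positivity)] at hm
    have h1 : ρ < η / 2 := lt_of_le_of_ne hm.2 hρ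
    unfold qk
    rw [if_pos h1]
    push_cast
    rfl
  have e2 : ∀ᵐ ρ : ℝ, ρ ∈ Set.uIoc (η / 2) η → (1 / η : ℂ) * F ρ = (qk η ρ : ℂ) * F ρ := by
    refine Eventually.of_forall fun ρ hm => ?_
    rw [Set.uIoc_of_le (by linarith)] at hm
    have h1 : ¬ ρ < η / 2 := not_lt.2 hm.1.le
    unfold qk
    rw [if_neg h1]
    push_cast
    rfl
  have i1 : IntervalIntegrable (fun ρ => (qk η ρ : ℂ) * F ρ) volume 0 (η / 2) := by
    have hc1 : Continuous (fun ρ => (-(1 / η) : ℂ) * F ρ) := continuous_const.mul hF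
    refine (hc1.intervalIntegrable 0 (η / 2) (μ := volume)).congr_ae ?_
    rw [EventuallyEq, ae_restrict_iff' measurableSet_uIoc]
    exact e1
  have i2 : IntervalIntegrable (fun ρ => (qk η ρ : ℂ) * F ρ) volume (η / 2) η := by
    have hc1 : Continuous (fun ρ => (1 / η : ℂ) * F ρ) := continuous_const.mul hF
    refine (hc1.intervalIntegrable (η / 2) η (μ := volume)).congr_ae ?_
    rw [EventuallyEq, ae_restrict_iff' measurableSet_uIoc]
    exact e2
  have hη' : (η : ℂ) ≠ 0 := by exact_mod_cast hη.ne'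
  refine ⟨i1.trans i2, ?_⟩
  rw [← intervalIntegral.integral_add_adjacent_intervals i1 i2,
    ← intervalIntegral.integral_congr_ae e1, ← intervalIntegral.integral_congr_ae e2,
    intervalIntegral.integral_const_mul, intervalIntegral.integral_const_mul]
  unfold Av
  rw [← intervalIntegral.integral_add_adjacent_intervals (hF.intervalIntegrable 0 (η / 2))
    (hF.intervalIntegrable (η / 2) η)]
  push_cast
  field_simp
  ring

lemma qk_int {F : ℝ → ℂ} (hF : Continuous F) {η : ℝ} (hη : 0 < η) :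
    ∫ ρ in (0 : ℝ)..η, (qk η ρ : ℂ) * F ρ = Av F η - Av F (η / 2) := (qk_int' hF hη).2

lemma av_telescope (F : ℝ → ℂ) (K c η : ℝ)
    (h : ∀ i : ℕ, ‖Av F (η / 2 ^ i) - Av F (η / 2 ^ i / 2)‖ ≤ K * (η / 2 ^ i) ^ c) (n : ℕ) :
    ‖Av F η‖ ≤ ‖Av F (η / 2 ^ n)‖ + ∑ i ∈ Finset.range n, K * (η / 2 ^ i) ^ c := by
  induction n with
  | zero => simp
  | succ n ih =>
    rw [Finset.sum_range_succ]
    have h1 : Av F (η / 2 ^ n) = (Av F (η / 2 ^ n) - Av F (η / 2 ^ n / 2)) +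
      Av F (η / 2 ^ (n + 1)) := by
      rw [pow_succ, div_div]; ring
    have h2 : ‖Av F (η / 2 ^ n)‖ ≤ K * (η / 2 ^ n) ^ c + ‖Av F (η / 2 ^ (n + 1))‖ := by
      rw [h1]
      exact (norm_add_le _ _).trans (add_le_add (h n) le_rfl)
    linarith

lemma av_tendsto {F : ℝ → ℂ} (hF : Continuous F) (h0 : F 0 = 0) {η : ℝ} (hη : 0 < η) :
    Tendsto (fun n : ℕ => Av F (η / 2 ^ n)) atTop (𝓝 0) := by
  have h1 : HasDerivAt (fun h => ∫ ρ in (0 : ℝ)..h, F ρ) (F 0) 0 :=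
    intervalIntegral.integral_hasDerivAt_right (hF.intervalIntegrable _ _)
      (hF.stronglyMeasurableAtFilter _ _) hF.continuousAt
  have h2 := h1.tendsto_slope_zero_right
  have h3 : Tendsto (fun n : ℕ => η / 2 ^ n) atTop (𝓝[>] 0) := by
    rw [tendsto_nhdsWithin_iff]
    constructor
    · have h4 : Tendsto (fun n : ℕ => η * (1 / 2) ^ n) atTop (𝓝 (η * 0)) :=
        (tendsto_pow_atTop_nhds_zero_of_lt_one (by norm_num) (by norm_num)).const_mul η
      rw [mul_zero] at h4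
      refine h4.congr (fun n => ?_)
      rw [one_div, inv_pow, div_eq_mul_inv]
    · exact Eventually.of_forall fun n => by
        rw [Set.mem_Ioi]; positivity
  have h4 := h2.comp h3
  rw [h0] at h4
  refine h4.congr (fun n => ?_)
  simp only [Function.comp_apply, zero_add, intervalIntegral.integral_same, sub_zero]
  unfold Av
  rw [Complex.real_smul]
  push_cast
  rw [one_div]

lemma av_bound {F : ℝ → ℂ} (hF : Continuous F) (h0 : F 0 = 0) {K c : ℝ} (hK : 0 ≤ K) (hc : 0 < c)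
    (h : ∀ η : ℝ, 0 < η → η ≤ 1 / 2 → ‖∫ ρ in (0 : ℝ)..η, (qk η ρ : ℂ) * F ρ‖ ≤ K * η ^ c)
    {η : ℝ} (hη : 0 < η) (hη2 : η ≤ 1 / 2) :
    ‖Av F η‖ ≤ K * (1 - (1 / 2 : ℝ) ^ c)⁻¹ * η ^ c := by
  have hb0 : (0 : ℝ) < (1 / 2 : ℝ) ^ c := Real.rpow_pos_of_pos (by norm_num) c
  have hb1 : (1 / 2 : ℝ) ^ c < 1 := Real.rpow_lt_one (by norm_num) (by norm_num) hc
  have h1 : ∀ n : ℕ, ‖Av F η‖ ≤ ‖Av F (η / 2 ^ n)‖ + K * (1 - (1 / 2 : ℝ) ^ c)⁻¹ * η ^ c := by
    intro n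
    refine (av_telescope F K c η ?_ n).trans ?_
    · intro i
      have hp : 0 < η / 2 ^ i := by positivity
      have hp2 : η / 2 ^ i ≤ 1 / 2 := by
        refine (div_le_self hη.le ?_).trans hη2
        exact one_le_pow₀ (by norm_num)
      have h2 := h (η / 2 ^ i) hp hp2
      rwa [qk_int hF hp] at h2
    · have h2 : ∀ i : ℕ, K * (η / 2 ^ i) ^ c = K * η ^ c * ((1 / 2 : ℝ) ^ c) ^ i := by
        intro i
        have h3 : η / 2 ^ i = η * (1 / 2) ^ i := by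
          rw [one_div, inv_pow, div_eq_mul_inv]
        rw [h3, Real.mul_rpow hη.le (by positivity), ← Real.rpow_natCast, ← Real.rpow_mul (by norm_num),
          mul_comm (i : ℝ) c, Real.rpow_mul (by norm_num), Real.rpow_natCast]
        ring
      rw [Finset.sum_congr rfl (fun i _ => h2 i), ← Finset.mul_sum]
      have h4 : ∑ i ∈ Finset.range n, ((1 / 2 : ℝ) ^ c) ^ i ≤ (1 - (1 / 2 : ℝ) ^ c)⁻¹ := by
        have h5 := (summable_geometric_of_lt_one hb0.le hb1).sum_le_tsum (Finset.range n)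
          (fun i _ => pow_nonneg hb0.le i)
        rwa [tsum_geometric_of_lt_one hb0.le hb1] at h5
      have h6 : K * η ^ c * ∑ i ∈ Finset.range n, ((1 / 2 : ℝ) ^ c) ^ i ≤
          K * η ^ c * (1 - (1 / 2 : ℝ) ^ c)⁻¹ :=
        mul_le_mul_of_nonneg_left h4 (mul_nonneg hK (Real.rpow_nonneg hη.le c))
      linarith
  have h2 := (av_tendsto hF h0 hη).norm
  rw [norm_zero] at h2
  have h3 := h2.add_const (K * (1 - (1 / 2 : ℝ) ^ c)⁻¹ * η ^ c)
  rw [zero_add] at h3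
  exact ge_of_tendsto' h3 h1

/-- The corner of a cell. -/
noncomputable def pt (p : ℤ × ℤ) : ℂ := ⟨(p.1 : ℝ), (p.2 : ℝ)⟩

lemma cell_iff (p : ℤ × ℤ) (x : ℂ) : cell 1 (x + pt p) = p ↔ x ∈ sq 0 1 := by
  unfold cell Pool.Agent.H67.Pl.sq pt
  rw [Prod.ext_iff]
  simp only [Complex.add_re, Complex.add_im, div_one, Int.floor_add_intCast, Set.mem_ofPred_eq,
    Complex.zero_re, Complex.zero_im, zero_add]
  constructor
  · rintro ⟨h1, h2⟩
    have h3 : ⌊x.re⌋ = 0 := by omega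
    have h4 : ⌊x.im⌋ = 0 := by omega
    rw [Int.floor_eq_zero_iff] at h3 h4
    exact ⟨h3.1, h3.2, h4.1, h4.2⟩
  · rintro ⟨h1, h2, h3, h4⟩
    have h5 : ⌊x.re⌋ = 0 := Int.floor_eq_zero_iff.2 ⟨h1, h2⟩
    have h6 : ⌊x.im⌋ = 0 := Int.floor_eq_zero_iff.2 ⟨h3, h4⟩
    rw [h5, h6]
    simp

open Classical in
/-- The part of `g` in the cell `p`, translated to the unit square. -/
noncomputable def F0 (g : ℂ → ℂ) (p : ℤ × ℤ) (x : ℂ) : ℂ := if x ∈ sq 0 1 then g (x + pt p) else 0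

/-- The translate of `g`, cut to the ball of radius `R`. -/
noncomputable def F1 (g : ℂ → ℂ) (R : ℝ) (p : ℤ × ℤ) (x : ℂ) : ℂ :=
  if ‖x‖ ≤ R then g (x + pt p) else 0

lemma sq_meas (p : ℂ) (r : ℝ) : MeasurableSet (sq p r) := by
  unfold Pool.Agent.H67.Pl.sq
  have h1 : Measurable (fun x : ℂ => x.re) := Complex.measurable_re
  have h2 : Measurable (fun x : ℂ => x.im) := Complex.measurable_im
  exact ((measurableSet_le measurable_const h1).inter ((measurableSet_lt h1 measurable_const).inter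
    ((measurableSet_le measurable_const h2).inter (measurableSet_lt h2 measurable_const))))

lemma sq_norm {x : ℂ} (hx : x ∈ sq 0 1) : ‖x‖ ≤ 2 := by
  obtain ⟨h1, h2, h3, h4⟩ := hx
  simp only [Complex.zero_re, Complex.zero_im, zero_add] at h1 h2 h3 h4
  refine (Complex.norm_le_abs_re_add_abs_im x).trans ?_
  rw [abs_of_nonneg h1, abs_of_nonneg h3]
  linarith

lemma F0_bd {g : ℂ → ℂ} (hm : Measurable g) (h1 : ∀ x, ‖g x‖ ≤ 1) {R : ℝ} (hR : 2 ≤ R)
    (p : ℤ × ℤ) : Bd R (F0 g p) := by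
  classical
  refine ⟨?_, ?_, ?_⟩
  · exact Measurable.ite (sq_meas 0 1) (hm.comp (measurable_id.add_const _)) measurable_const
  · intro x
    unfold F0
    split_ifs
    · exact h1 _
    · simp
  · intro x hx
    unfold F0
    rw [if_neg]
    intro h2
    have := sq_norm h2
    linarith

lemma F0_supp (g : ℂ → ℂ) (p : ℤ × ℤ) (x : ℂ) (hx : x ∉ sq 0 1) : F0 g p x = 0 := by
  classical
  unfold F0
  rw [if_neg hx]

lemma F1_bd {g : ℂ → ℂ} (hm : Measurable g) (h1 : ∀ x, ‖g x‖ ≤ 1) {R : ℝ}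
    (p : ℤ × ℤ) : Bd R (F1 g R p) := by
  refine ⟨?_, ?_, ?_⟩
  · exact Measurable.ite (measurableSet_le measurable_norm measurable_const)
      (hm.comp (measurable_id.add_const _)) measurable_const
  · intro x
    unfold F1
    split_ifs
    · exact h1 _
    · simp
  · intro x hx
    unfold F1
    rw [if_neg (not_le.2 hx)]

lemma g3_split {g : ℂ → ℂ} (P : Finset (ℤ × ℤ)) (hP : ∀ x, g x ≠ 0 → cell 1 x ∈ P) {R' : ℝ}
    (hg : Bd R' g) {a₁ a₂ : ℂ} {R : ℝ} (hR : 1 + ‖a₁‖ + ‖a₂‖ ≤ R / 4) (v : ℂ) (hv : ‖v‖ ≤ 3 / 2) :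
    G3 a₁ a₂ g g g v = ∑ p ∈ P, G3 a₁ a₂ (F0 g p) (F1 g R p) (F1 g R p) v := by
  classical
  have n1 := norm_nonneg a₁
  have n2 := norm_nonneg a₂
  have hi := g3_integrable hg hg hg (a₁ * v) (a₂ * v)
  have e1 : ∀ x, g x * g (x + a₁ * v) * g (x + a₂ * v) =
      ∑ p ∈ P, if cell 1 x = p then g x * g (x + a₁ * v) * g (x + a₂ * v) else 0 := by
    intro x
    rw [Finset.sum_ite_eq P (cell 1 x)]
    split_ifs with h
    · rfl
    · have h0 : g x = 0 := by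
        by_contra h0
        exact h (hP x h0)
      rw [h0]; ring
  have hcm : ∀ p : ℤ × ℤ, MeasurableSet {x : ℂ | cell 1 x = p} := by
    intro p
    have h2 : Measurable (cell 1) := by
      unfold cell
      exact (Int.measurable_floor.comp (Complex.measurable_re.div_const _)).prodMk
        (Int.measurable_floor.comp (Complex.measurable_im.div_const _))
    exact h2 (measurableSet_singleton p)
  have hip : ∀ p, Integrable (fun x => if cell 1 x = p then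
      g x * g (x + a₁ * v) * g (x + a₂ * v) else 0) := by
    intro p
    have h3 : (fun x => if cell 1 x = p then g x * g (x + a₁ * v) * g (x + a₂ * v) else 0) =
        {x : ℂ | cell 1 x = p}.indicator (fun x => g x * g (x + a₁ * v) * g (x + a₂ * v)) := by
      funext x
      simp only [Set.indicator, Set.mem_ofPred_eq]
    rw [h3]
    exact hi.indicator (hcm p)
  unfold G3
  have e2 : ∫ x, g x * g (x + a₁ * v) * g (x + a₂ * v) =
      ∫ x, ∑ p ∈ P, if cell 1 x = p then g x * g (x + a₁ * v) * g (x + a₂ * v) else 0 := by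
    congr 1
    funext x
    exact e1 x
  rw [e2, integral_finsetSum P (fun p _ => hip p)]
  refine Finset.sum_congr rfl (fun p _ => ?_)
  rw [← integral_add_right_eq_self (fun x => if cell 1 x = p then
      g x * g (x + a₁ * v) * g (x + a₂ * v) else 0) (pt p)]
  congr 1
  funext x
  by_cases hx : x ∈ sq 0 1
  · rw [if_pos ((cell_iff p x).2 hx)]
    have hx2 := sq_norm hx
    have hb1 : ‖x + a₁ * v‖ ≤ R := by
      refine (norm_add_le _ _).trans ?_
      rw [norm_mul]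
      have := mul_le_mul_of_nonneg_left hv n1
      linarith
    have hb2 : ‖x + a₂ * v‖ ≤ R := by
      refine (norm_add_le _ _).trans ?_
      rw [norm_mul]
      have := mul_le_mul_of_nonneg_left hv n2
      linarith
    unfold F0 F1
    rw [if_pos hx, if_pos hb1, if_pos hb2, add_right_comm x (pt p) (a₁ * v),
      add_right_comm x (pt p) (a₂ * v)]
  · rw [if_neg (fun h => hx ((cell_iff p x).1 h)), F0_supp g p x hx]
    ring

lemma scale_int (f : ℂ → ℂ) {l : ℝ} (hl : 0 < l) : ∫ x, f x = (l : ℂ) ^ 2 * ∫ x, f ((l : ℂ) * x) := by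
  have h1 := Measure.integral_comp_smul (volume : Measure ℂ) f l
  rw [Complex.finrank_real_complex, abs_of_nonneg (by positivity)] at h1
  have h2 : ∫ x, f ((l : ℂ) * x) = ∫ x, f (l • x) := by
    congr 1
  rw [h2, h1, Complex.real_smul]
  have h3 : (l : ℂ) ≠ 0 := by exact_mod_cast hl.ne'
  push_cast
  field_simp

lemma g3_scale (χ : ℂ → ℂ) {l : ℝ} (hl : 0 < l) (a₁ a₂ v : ℂ) :
    G3 ((l : ℂ) * a₁) ((l : ℂ) * a₂) χ χ χ v = (l : ℂ) ^ 2 *
      G3 a₁ a₂ (fun x => χ ((l : ℂ) * x)) (fun x => χ ((l : ℂ) * x)) (fun x => χ ((l : ℂ) * x)) v := by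
  unfold G3
  rw [scale_int _ hl]
  congr 2
  funext x
  have e1 : (l : ℂ) * x + (l : ℂ) * a₁ * v = (l : ℂ) * (x + a₁ * v) := by ring
  have e2 : (l : ℂ) * x + (l : ℂ) * a₂ * v = (l : ℂ) * (x + a₂ * v) := by ring
  rw [e1, e2]

/-- The complex indicator. -/
noncomputable def chi (A : Set ℂ) : ℂ → ℂ := A.indicator (fun _ => (1 : ℂ))

lemma chi_bd {A : Set ℂ} (hA : MeasurableSet A) {T : ℝ} (hT : A ⊆ bx T) : Bd (2 * T) (chi A) := by
  refine ⟨measurable_const.indicator hA, ?_, ?_⟩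
  · intro x
    unfold chi
    by_cases hx : x ∈ A
    · rw [Set.indicator_of_mem hx]; simp
    · rw [Set.indicator_of_notMem hx]; simp
  · intro x hx
    unfold chi
    rw [Set.indicator_of_notMem]
    intro h
    obtain ⟨h1, h2⟩ := hT h
    have h3 := Complex.norm_le_abs_re_add_abs_im x
    linarith

lemma cu_norm (φ : ℝ) : ‖cu φ‖ = 1 := by
  unfold cu
  exact Complex.norm_exp_ofReal_mul_I φ

/-- The number of cells. -/
lemma cells (u : ℝ) (hu : 1 ≤ u) : ∃ P : Finset (ℤ × ℤ), (P.card : ℝ) ≤ 25 * u ^ 2 ∧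
    ∀ x : ℂ, |x.re| ≤ u → |x.im| ≤ u → cell 1 x ∈ P := by
  obtain ⟨n, hn⟩ : ∃ n : ℤ, n = ⌊u⌋ + 1 := ⟨_, rfl⟩
  have h0 : 0 ≤ ⌊u⌋ := Int.floor_nonneg.2 (by linarith)
  have h1 : (⌊u⌋ : ℝ) ≤ u := Int.floor_le u
  have h2 : u < (⌊u⌋ : ℝ) + 1 := Int.lt_floor_add_one u
  have hnr : (n : ℝ) = (⌊u⌋ : ℝ) + 1 := by rw [hn]; push_cast; rfl
  refine ⟨Finset.Icc (-n) n ×ˢ Finset.Icc (-n) n, ?_, ?_⟩
  · rw [Finset.card_product, Int.card_Icc]
    have h3 : ((n + 1 - -n).toNat : ℝ) ≤ 5 * u := by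
      have h4 : (((n + 1 - -n).toNat : ℤ) : ℝ) = ((n + 1 - -n : ℤ) : ℝ) := by
        rw [Int.toNat_of_nonneg (by omega)]
      have h5 : ((n + 1 - -n).toNat : ℝ) = ((n + 1 - -n : ℤ) : ℝ) := by
        rw [← h4]; push_cast; rfl
      rw [h5]
      push_cast
      linarith
    have h6 : (0 : ℝ) ≤ ((n + 1 - -n).toNat : ℝ) := Nat.cast_nonneg _
    push_cast
    nlinarith
  · intro x hx hy
    rw [abs_le] at hx hy
    rw [Finset.mem_product, Finset.mem_Icc, Finset.mem_Icc]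
    unfold cell
    simp only [div_one]
    refine ⟨⟨?_, ?_⟩, ?_, ?_⟩
    · rw [Int.le_floor]; push_cast; linarith [hx.1]
    · have := Int.floor_le_floor hx.2
      omega
    · rw [Int.le_floor]; push_cast; linarith [hy.1]
    · have := Int.floor_le_floor hy.2
      omega

lemma main_bound (a₁ a₂ : ℂ) (R C c : ℝ) (hC : 0 < C)
    (hR : 1 + ‖a₁‖ + ‖a₂‖ ≤ R / 4)
    (hsm : ∀ (η : ℝ) (f₀ f₁ f₂ : ℂ → ℂ), 0 < η → η ≤ 1 / 2 →
      Bd R f₀ → (∀ x, x ∉ sq 0 1 → f₀ x = 0) → Bd R f₁ → Bd R f₂ →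
      ‖Tq a₁ a₂ η f₀ f₁ f₂‖ ≤ C * η ^ c) (A : Set ℂ) (T l η : ℝ) (hA : MeasurableSet A)
    (hAT : A ⊆ bx T) (hl : 0 < l) (hlT : l ≤ T) (hη : 0 < η) (hη2 : η ≤ 1 / 2) :
    ‖∫ ρ in (0 : ℝ)..η, (qk η ρ : ℂ) * cform ((l : ℂ) * a₁) ((l : ℂ) * a₂) (chi A) (chi A) (chi A)
      ((1 + ρ : ℝ) : ℂ)‖ ≤ 25 * T ^ 2 * C * η ^ c := by
  have hT : 0 < T := hl.trans_le hlT
  have hχ := chi_bd hA hAT
  obtain ⟨g, hg⟩ : ∃ g : ℂ → ℂ, g = fun x => chi A ((l : ℂ) * x) := ⟨_, rfl⟩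
  have hln : ‖(l : ℂ)‖ = l := by rw [Complex.norm_real, Real.norm_eq_abs, abs_of_pos hl]
  have hgb : Bd (2 * T / l) g := by
    rw [hg]
    refine ⟨hχ.meas.comp (measurable_const.mul measurable_id), fun x => hχ.le_one _, ?_⟩
    intro x hx
    apply hχ.supp
    rw [norm_mul, hln]
    rw [div_lt_iff₀ hl] at hx
    linarith
  obtain ⟨P, hPc, hP⟩ := cells (T / l) ((one_le_div hl).2 hlT)
  have hP' : ∀ x, g x ≠ 0 → cell 1 x ∈ P := by
    intro x hx
    have hm : (l : ℂ) * x ∈ A := by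
      by_contra h
      apply hx
      rw [hg]
      show chi A ((l : ℂ) * x) = 0
      unfold chi
      rw [Set.indicator_of_notMem h]
    obtain ⟨h1, h2⟩ := hAT hm
    rw [Complex.re_ofReal_mul, abs_mul, abs_of_pos hl] at h1
    rw [Complex.im_ofReal_mul, abs_mul, abs_of_pos hl] at h2
    apply hP
    · rw [le_div_iff₀ hl]; linarith
    · rw [le_div_iff₀ hl]; linarith
  have hn1 := norm_nonneg a₁
  have hn2 := norm_nonneg a₂
  have hR2 : 2 ≤ R := by linarith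
  have hb0 : ∀ p, Bd R (F0 g p) := fun p => F0_bd hgb.meas hgb.le_one hR2 p
  have hb1 : ∀ p, Bd R (F1 g R p) := fun p => F1_bd hgb.meas hgb.le_one p
  have hcf : ∀ ρ : ℝ, 0 ≤ ρ → ρ ≤ 1 / 2 → cform ((l : ℂ) * a₁) ((l : ℂ) * a₂) (chi A) (chi A)
      (chi A) ((1 + ρ : ℝ) : ℂ) = (l : ℂ) ^ 2 * ∑ p ∈ P, cform a₁ a₂ (F0 g p) (F1 g R p) (F1 g R p)
        ((1 + ρ : ℝ) : ℂ) := by
    intro ρ hρ0 hρ1
    rw [cform_eq]
    have e1 : ∀ φ : ℝ, G3 ((l : ℂ) * a₁) ((l : ℂ) * a₂) (chi A) (chi A) (chi A)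
        (((1 + ρ : ℝ) : ℂ) * cu φ) = (l : ℂ) ^ 2 * ∑ p ∈ P, G3 a₁ a₂ (F0 g p) (F1 g R p)
          (F1 g R p) (((1 + ρ : ℝ) : ℂ) * cu φ) := by
      intro φ
      rw [g3_scale _ hl, ← hg]
      congr 1
      apply g3_split P hP' hgb hR
      rw [norm_mul, cu_norm, mul_one, Complex.norm_real, Real.norm_eq_abs, abs_of_nonneg (by linarith)]
      linarith
    simp only [e1]
    rw [intervalIntegral.integral_const_mul, intervalIntegral.integral_finsetSum]
    · congr 1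
      exact Finset.sum_congr rfl (fun p _ => (cform_eq _ _ _ _ _ _).symm)
    · intro p _
      exact ((g3_continuous (hb0 p) (hb1 p) (hb1 p) a₁ a₂).comp
        (continuous_const.mul cu_continuous)).intervalIntegrable _ _
  have hcp : ∀ p, Continuous (fun ρ : ℝ => cform a₁ a₂ (F0 g p) (F1 g R p) (F1 g R p)
      ((1 + ρ : ℝ) : ℂ)) := by
    intro p
    exact (cform_continuous (hb0 p) (hb1 p) (hb1 p) a₁ a₂).comp
      (Complex.continuous_ofReal.comp (continuous_const.add continuous_id))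
  have hT2 : ∫ ρ in (0 : ℝ)..η, (qk η ρ : ℂ) * cform ((l : ℂ) * a₁) ((l : ℂ) * a₂) (chi A) (chi A)
      (chi A) ((1 + ρ : ℝ) : ℂ) = (l : ℂ) ^ 2 * ∑ p ∈ P, Tq a₁ a₂ η (F0 g p) (F1 g R p)
        (F1 g R p) := by
    have e2 : ∫ ρ in (0 : ℝ)..η, (qk η ρ : ℂ) * cform ((l : ℂ) * a₁) ((l : ℂ) * a₂) (chi A)
        (chi A) (chi A) ((1 + ρ : ℝ) : ℂ) = ∫ ρ in (0 : ℝ)..η, (l : ℂ) ^ 2 * ∑ p ∈ P,
          (qk η ρ : ℂ) * cform a₁ a₂ (F0 g p) (F1 g R p) (F1 g R p) ((1 + ρ : ℝ) : ℂ) := by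
      apply intervalIntegral.integral_congr
      intro ρ hρ
      rw [Set.uIcc_of_le hη.le] at hρ
      show (qk η ρ : ℂ) * cform ((l : ℂ) * a₁) ((l : ℂ) * a₂) (chi A) (chi A) (chi A)
        ((1 + ρ : ℝ) : ℂ) = (l : ℂ) ^ 2 * ∑ p ∈ P, (qk η ρ : ℂ) *
          cform a₁ a₂ (F0 g p) (F1 g R p) (F1 g R p) ((1 + ρ : ℝ) : ℂ)
      rw [hcf ρ hρ.1 (hρ.2.trans hη2), Finset.mul_sum, Finset.mul_sum, Finset.mul_sum]
      refine Finset.sum_congr rfl (fun p _ => ?_)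
      ring
    rw [e2, intervalIntegral.integral_const_mul, intervalIntegral.integral_finsetSum]
    · rfl
    · intro p _
      exact (qk_int' (hcp p) hη).1
  rw [hT2, norm_mul, norm_pow, hln]
  have hη' : 0 ≤ C * η ^ c := mul_nonneg hC.le (Real.rpow_nonneg hη.le c)
  calc l ^ 2 * ‖∑ p ∈ P, Tq a₁ a₂ η (F0 g p) (F1 g R p) (F1 g R p)‖
      ≤ l ^ 2 * ((P.card : ℝ) * (C * η ^ c)) := by
        apply mul_le_mul_of_nonneg_left _ (by positivity)
        refine (norm_sum_le _ _).trans ?_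
        refine (Finset.sum_le_card_nsmul P _ (C * η ^ c) (fun p _ => ?_)).trans ?_
        · exact hsm η _ _ _ hη hη2 (hb0 p) (fun x hx => F0_supp g p x hx) (hb1 p) (hb1 p)
        · rw [nsmul_eq_mul]
    _ ≤ l ^ 2 * (25 * (T / l) ^ 2 * (C * η ^ c)) := by
        apply mul_le_mul_of_nonneg_left _ (by positivity)
        exact mul_le_mul_of_nonneg_right hPc hη'
    _ = 25 * T ^ 2 * C * η ^ c := by
        field_simp

lemma cu_periodic (φ : ℝ) : cu (φ + 2 * Real.pi) = cu φ := by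
  unfold cu
  push_cast
  rw [add_mul, Complex.exp_add, Complex.exp_two_pi_mul_I, mul_one]

/-- Polar coordinates on an annulus. -/
lemma polar_ann {H : ℂ → ℝ} (hH : Continuous H) {η : ℝ} (hη : 0 < η) :
    ∫ v in {v : ℂ | 1 ≤ ‖v‖ ∧ ‖v‖ ≤ 1 + η}, H v =
      ∫ r in (1 : ℝ)..(1 + η), r * ∫ φ in (0 : ℝ)..(2 * Real.pi), H ((r : ℂ) * cu φ) := by
  have hK : Continuous (fun p : ℝ × ℝ => p.1 * H ((p.1 : ℂ) * cu p.2)) :=
    continuous_fst.mul (hH.comp ((Complex.continuous_ofReal.comp continuous_fst).mul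
      (cu_continuous.comp continuous_snd)))
  have hann : MeasurableSet {v : ℂ | 1 ≤ ‖v‖ ∧ ‖v‖ ≤ 1 + η} :=
    (measurableSet_le measurable_const measurable_norm).inter
      (measurableSet_le measurable_norm measurable_const)
  rw [← integral_indicator hann, ← Complex.integral_comp_polarCoord_symm]
  have hsymm : ∀ p : ℝ × ℝ, Complex.polarCoord.symm p = (p.1 : ℂ) * cu p.2 := by
    intro p
    rw [Complex.polarCoord_symm_apply]
    unfold cu
    rw [Complex.exp_mul_I]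
    push_cast
    rfl
  have e1 : ∫ p in polarCoord.target, p.1 • {v : ℂ | 1 ≤ ‖v‖ ∧ ‖v‖ ≤ 1 + η}.indicator H
      (Complex.polarCoord.symm p) = ∫ p in polarCoord.target,
        (Set.Icc (1 : ℝ) (1 + η) ×ˢ (Set.univ : Set ℝ)).indicator
          (fun p : ℝ × ℝ => p.1 * H ((p.1 : ℂ) * cu p.2)) p := by
    apply setIntegral_congr_fun polarCoord.open_target.measurableSet
    intro p hp
    rw [polarCoord_target] at hp
    have hp1 : 0 < p.1 := hp.1
    have hn : ‖(p.1 : ℂ) * cu p.2‖ = p.1 := by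
      rw [norm_mul, cu_norm, mul_one, Complex.norm_real, Real.norm_eq_abs, abs_of_pos hp1]
    show p.1 • {v : ℂ | 1 ≤ ‖v‖ ∧ ‖v‖ ≤ 1 + η}.indicator H (Complex.polarCoord.symm p) = _
    rw [hsymm]
    by_cases h : p.1 ∈ Set.Icc (1 : ℝ) (1 + η)
    · rw [Set.indicator_of_mem, Set.indicator_of_mem, smul_eq_mul]
      · exact ⟨h, Set.mem_univ _⟩
      · show 1 ≤ ‖(p.1 : ℂ) * cu p.2‖ ∧ ‖(p.1 : ℂ) * cu p.2‖ ≤ 1 + η
        rw [hn]; exact h
    · rw [Set.indicator_of_notMem, Set.indicator_of_notMem, smul_zero]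
      · intro h2; exact h h2.1
      · intro h2
        have h3 : 1 ≤ ‖(p.1 : ℂ) * cu p.2‖ ∧ ‖(p.1 : ℂ) * cu p.2‖ ≤ 1 + η := h2
        rw [hn] at h3; exact h h3
  rw [e1, integral_indicator (measurableSet_Icc.prod MeasurableSet.univ),
    Measure.restrict_restrict (measurableSet_Icc.prod MeasurableSet.univ)]
  have e2 : Set.Icc (1 : ℝ) (1 + η) ×ˢ (Set.univ : Set ℝ) ∩ polarCoord.target =
      Set.Icc (1 : ℝ) (1 + η) ×ˢ Set.Ioo (-Real.pi) Real.pi := by
    rw [polarCoord_target, Set.prod_inter_prod, Set.univ_inter]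
    congr 1
    ext x
    constructor
    · intro h; exact h.1
    · intro h; exact ⟨h, lt_of_lt_of_le one_pos h.1⟩
  have hi : IntegrableOn (fun p : ℝ × ℝ => p.1 * H ((p.1 : ℂ) * cu p.2))
      (Set.Icc (1 : ℝ) (1 + η) ×ˢ Set.Ioo (-Real.pi) Real.pi) := by
    apply (hK.continuousOn.integrableOn_compact
      ((isCompact_Icc (a := (1 : ℝ)) (b := 1 + η)).prod
        (isCompact_Icc (a := -Real.pi) (b := Real.pi)))).mono_set
    exact Set.prod_mono le_rfl Set.Ioo_subset_Icc_self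
  rw [e2]
  have e3 := setIntegral_prod (μ := (volume : Measure ℝ)) (ν := (volume : Measure ℝ))
    (fun p : ℝ × ℝ => p.1 * H ((p.1 : ℂ) * cu p.2)) hi
  rw [← Measure.volume_eq_prod] at e3
  rw [e3, integral_Icc_eq_integral_Ioc, ← intervalIntegral.integral_of_le (by linarith)]
  congr 1
  funext r
  rw [integral_const_mul]
  congr 1
  rw [← integral_Ioc_eq_integral_Ioo, ← intervalIntegral.integral_of_le (by linarith [Real.pi_pos])]
  have hper : Function.Periodic (fun φ : ℝ => H ((r : ℂ) * cu φ)) (2 * Real.pi) := by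
    intro φ
    show H ((r : ℂ) * cu (φ + 2 * Real.pi)) = H ((r : ℂ) * cu φ)
    rw [cu_periodic]
  have h4 := hper.intervalIntegral_add_eq (-Real.pi) 0
  rw [zero_add] at h4
  rw [← h4]
  congr 1
  ring

/-- The real indicator. -/
noncomputable def ir (A : Set ℂ) : ℂ → ℝ := A.indicator (fun _ => (1 : ℝ))

lemma ir_chi (A : Set ℂ) (x : ℂ) : ((ir A x : ℝ) : ℂ) = chi A x := by
  unfold ir chi
  by_cases hx : x ∈ A
  · rw [Set.indicator_of_mem hx, Set.indicator_of_mem hx]; simp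
  · rw [Set.indicator_of_notMem hx, Set.indicator_of_notMem hx]; simp

lemma ir_nonneg (A : Set ℂ) (x : ℂ) : 0 ≤ ir A x := by
  unfold ir
  exact Set.indicator_nonneg (fun _ _ => zero_le_one) x

lemma ir_le (A : Set ℂ) (x : ℂ) : ir A x ≤ 1 := by
  unfold ir
  exact Set.indicator_le_self' (fun _ _ => zero_le_one) x |>.trans le_rfl

/-- The real triple form. -/
noncomputable def Hr (A : Set ℂ) (b₁ b₂ v : ℂ) : ℝ :=
  ∫ x : ℂ, ir A x * ir A (x + b₁ * v) * ir A (x + b₂ * v)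

lemma Hr_g3 (A : Set ℂ) (b₁ b₂ v : ℂ) :
    ((Hr A b₁ b₂ v : ℝ) : ℂ) = G3 b₁ b₂ (chi A) (chi A) (chi A) v := by
  unfold Hr G3
  rw [← integral_complex_ofReal]
  congr 1
  funext x
  push_cast
  rw [ir_chi, ir_chi, ir_chi]

lemma Hr_nonneg (A : Set ℂ) (b₁ b₂ v : ℂ) : 0 ≤ Hr A b₁ b₂ v :=
  integral_nonneg fun _ => mul_nonneg (mul_nonneg (ir_nonneg _ _) (ir_nonneg _ _)) (ir_nonneg _ _)

lemma Hr_continuous {A : Set ℂ} (hA : MeasurableSet A) {T : ℝ} (hT : A ⊆ bx T) (b₁ b₂ : ℂ) :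
    Continuous (Hr A b₁ b₂) := by
  have h1 : Hr A b₁ b₂ = fun v => (G3 b₁ b₂ (chi A) (chi A) (chi A) v).re := by
    funext v
    rw [← Hr_g3, Complex.ofReal_re]
  rw [h1]
  exact Complex.continuous_re.comp
    (g3_continuous (chi_bd hA hT) (chi_bd hA hT) (chi_bd hA hT) b₁ b₂)

end Pool.Agent.H22.Trans

namespace Pool.Agent.H67.Pl

open Pool.Agent.H22.Trans

theorem transference (a₁ a₂ : ℂ) (R C c : ℝ) (hC : 0 < C) (hc : 0 < c)
    (hR : 1 + ‖a₁‖ + ‖a₂‖ ≤ R / 4)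
    (hsm : ∀ (η : ℝ) (f₀ f₁ f₂ : ℂ → ℂ), 0 < η → η ≤ 1 / 2 →
      Bd R f₀ → (∀ x, x ∉ sq 0 1 → f₀ x = 0) → Bd R f₁ → Bd R f₂ →
      ‖Tq a₁ a₂ η f₀ f₁ f₂‖ ≤ C * η ^ c) :
    ∃ C' : ℝ, 0 < C' ∧ ∀ (A : Set ℂ) (T l η : ℝ), MeasurableSet A → A ⊆ bx T → 0 < l → l ≤ T →
      0 < η → η ≤ 1 / 2 →
      (∀ (x : ℂ) (φ : ℝ), ¬ (x ∈ A ∧ x + l * a₁ * cu φ ∈ A ∧ x + l * a₂ * cu φ ∈ A)) →
      (1 / η) * (∫ x : ℂ, ∫ v in {v : ℂ | 1 ≤ ‖v‖ ∧ ‖v‖ ≤ 1 + η},
        A.indicator (fun _ => (1 : ℝ)) x *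
          A.indicator (fun _ => (1 : ℝ)) (x + (l : ℂ) * a₁ * v) *
          A.indicator (fun _ => (1 : ℝ)) (x + (l : ℂ) * a₂ * v)) ≤ C' * η ^ c * T ^ 2 := by
  have hb1 : (1 / 2 : ℝ) ^ c < 1 := Real.rpow_lt_one (by norm_num) (by norm_num) hc
  have hb2 : 0 < (1 - (1 / 2 : ℝ) ^ c)⁻¹ := inv_pos.2 (by linarith)
  refine ⟨3 / 2 * (25 * C * (1 - (1 / 2 : ℝ) ^ c)⁻¹), by positivity, ?_⟩
  intro A T l η hA hAT hl hlT hη hη2 hbad
  have hT : 0 < T := hl.trans_le hlT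
  have hχ := chi_bd hA hAT
  obtain ⟨F, hF⟩ : ∃ F : ℝ → ℂ, F = fun ρ : ℝ => cform ((l : ℂ) * a₁) ((l : ℂ) * a₂) (chi A)
    (chi A) (chi A) ((1 + ρ : ℝ) : ℂ) := ⟨_, rfl⟩
  have hFc : Continuous F := by
    rw [hF]
    exact (cform_continuous hχ hχ hχ _ _).comp
      (Complex.continuous_ofReal.comp (continuous_const.add continuous_id))
  have hF0 : F 0 = 0 := by
    rw [hF]
    show cform ((l : ℂ) * a₁) ((l : ℂ) * a₂) (chi A) (chi A) (chi A) ((1 + 0 : ℝ) : ℂ) = 0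
    unfold cform
    have e1 : ∀ (φ : ℝ) (x : ℂ), chi A x * chi A (x + (l : ℂ) * a₁ * ((1 + 0 : ℝ) : ℂ) * cu φ) *
        chi A (x + (l : ℂ) * a₂ * ((1 + 0 : ℝ) : ℂ) * cu φ) = 0 := by
      intro φ x
      rw [add_zero, Complex.ofReal_one, mul_one, mul_one]
      have h1 := hbad x φ
      unfold chi
      by_cases hx : x ∈ A
      · by_cases hx1 : x + l * a₁ * cu φ ∈ A
        · have hx2 : x + l * a₂ * cu φ ∉ A := fun h => h1 ⟨hx, hx1, h⟩
          rw [Set.indicator_of_notMem hx2, mul_zero]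
        · rw [Set.indicator_of_notMem hx1, mul_zero, zero_mul]
      · rw [Set.indicator_of_notMem hx, zero_mul, zero_mul]
    simp only [e1, integral_zero, intervalIntegral.integral_zero]
  have hK : (0 : ℝ) ≤ 25 * T ^ 2 * C := by positivity
  have hav := av_bound (c := c) hFc hF0 hK hc (fun η hη hη2 => by
    rw [hF]
    exact main_bound a₁ a₂ R C c hC hR hsm A T l η hA hAT hl hlT hη hη2) hη hη2
  -- the real form
  obtain ⟨H, hH⟩ : ∃ H : ℂ → ℝ, H = Hr A ((l : ℂ) * a₁) ((l : ℂ) * a₂) := ⟨_, rfl⟩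
  have hHc : Continuous H := by rw [hH]; exact Hr_continuous hA hAT _ _
  have hHn : ∀ v, 0 ≤ H v := by intro v; rw [hH]; exact Hr_nonneg _ _ _ _
  have hcc : Continuous (fun r : ℝ => ∫ φ in (0 : ℝ)..(2 * Real.pi), H ((r : ℂ) * cu φ)) := by
    apply intervalIntegral.continuous_parametric_intervalIntegral_of_continuous'
    exact hHc.comp ((Complex.continuous_ofReal.comp continuous_fst).mul
      (cu_continuous.comp continuous_snd))
  have hcn : ∀ r : ℝ, 0 ≤ ∫ φ in (0 : ℝ)..(2 * Real.pi), H ((r : ℂ) * cu φ) := by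
    intro r
    exact intervalIntegral.integral_nonneg (by positivity) (fun _ _ => hHn _)
  have hFH : ∀ ρ : ℝ, F ρ = ((∫ φ in (0 : ℝ)..(2 * Real.pi), H (((1 + ρ : ℝ) : ℂ) * cu φ) : ℝ) :
      ℂ) := by
    intro ρ
    rw [hF]
    show cform ((l : ℂ) * a₁) ((l : ℂ) * a₂) (chi A) (chi A) (chi A) ((1 + ρ : ℝ) : ℂ) = _
    rw [cform_eq, ← intervalIntegral.integral_ofReal]
    congr 1
    funext φ
    rw [hH, Hr_g3]
  -- Fubini
  have hswap : (∫ x : ℂ, ∫ v in {v : ℂ | 1 ≤ ‖v‖ ∧ ‖v‖ ≤ 1 + η},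
        A.indicator (fun _ => (1 : ℝ)) x *
          A.indicator (fun _ => (1 : ℝ)) (x + (l : ℂ) * a₁ * v) *
          A.indicator (fun _ => (1 : ℝ)) (x + (l : ℂ) * a₂ * v)) =
      ∫ v in {v : ℂ | 1 ≤ ‖v‖ ∧ ‖v‖ ≤ 1 + η}, H v := by
    rw [integral_integral_swap]
    · rw [hH]; rfl
    · have hfin : volume {v : ℂ | 1 ≤ ‖v‖ ∧ ‖v‖ ≤ 1 + η} ≠ ⊤ := by
        refine (lt_of_le_of_lt (measure_mono ?_)
          (measure_closedBall_lt_top (x := (0 : ℂ)) (r := 1 + η))).ne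
        intro v hv
        rw [mem_closedBall_zero_iff]
        exact hv.2
      have : IsFiniteMeasure (volume.restrict {v : ℂ | 1 ≤ ‖v‖ ∧ ‖v‖ ≤ 1 + η}) :=
        ⟨by rw [Measure.restrict_apply_univ]; exact lt_top_iff_ne_top.2 hfin⟩
      have hi1 : Integrable (ir A) := by
        have h1 : ir A = fun x => (chi A x).re := by
          funext x
          rw [← ir_chi, Complex.ofReal_re]
        rw [h1]
        exact (bd_integrable hχ).re
      have hi2 : Integrable (fun z : ℂ × ℂ => ir A z.1)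
          (volume.prod (volume.restrict {v : ℂ | 1 ≤ ‖v‖ ∧ ‖v‖ ≤ 1 + η})) := hi1.comp_fst _
      have him : Measurable (ir A) := measurable_const.indicator hA
      refine hi2.mono' ?_ (Eventually.of_forall ?_)
      · apply Measurable.aestronglyMeasurable
        have m1 : Measurable (fun z : ℂ × ℂ => ir A z.1) := him.comp measurable_fst
        have m2 : Measurable (fun z : ℂ × ℂ => ir A (z.1 + (l : ℂ) * a₁ * z.2)) :=
          him.comp (measurable_fst.add (measurable_const.mul measurable_snd))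
        have m3 : Measurable (fun z : ℂ × ℂ => ir A (z.1 + (l : ℂ) * a₂ * z.2)) :=
          him.comp (measurable_fst.add (measurable_const.mul measurable_snd))
        exact (m1.mul m2).mul m3
      · rintro ⟨x, v⟩
        show ‖ir A x * ir A (x + (l : ℂ) * a₁ * v) * ir A (x + (l : ℂ) * a₂ * v)‖ ≤ ir A x
        rw [Real.norm_eq_abs, abs_of_nonneg (mul_nonneg (mul_nonneg (ir_nonneg _ _)
          (ir_nonneg _ _)) (ir_nonneg _ _)), mul_assoc]
        exact mul_le_of_le_one_right (ir_nonneg _ _)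
          (mul_le_one₀ (ir_le _ _) (ir_nonneg _ _) (ir_le _ _))
  rw [hswap, polar_ann hHc hη]
  -- bound `r ≤ 1 + η`
  have h1 : ∫ r in (1 : ℝ)..(1 + η), r * ∫ φ in (0 : ℝ)..(2 * Real.pi), H ((r : ℂ) * cu φ) ≤
      ∫ r in (1 : ℝ)..(1 + η), (1 + η) * ∫ φ in (0 : ℝ)..(2 * Real.pi), H ((r : ℂ) * cu φ) := by
    apply intervalIntegral.integral_mono_on (by linarith)
      ((continuous_id.mul hcc).intervalIntegrable _ _)
      ((continuous_const.mul hcc).intervalIntegrable _ _)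
    intro r hr
    exact mul_le_mul_of_nonneg_right hr.2 (hcn r)
  rw [intervalIntegral.integral_const_mul] at h1
  have h2 : ∫ r in (1 : ℝ)..(1 + η), ∫ φ in (0 : ℝ)..(2 * Real.pi), H ((r : ℂ) * cu φ) =
      ∫ ρ in (0 : ℝ)..η, ∫ φ in (0 : ℝ)..(2 * Real.pi), H (((1 + ρ : ℝ) : ℂ) * cu φ) := by
    have h3 := intervalIntegral.integral_comp_add_left (a := (0 : ℝ)) (b := η)
      (fun r : ℝ => ∫ φ in (0 : ℝ)..(2 * Real.pi), H ((r : ℂ) * cu φ)) 1
    rw [add_zero] at h3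
    exact h3.symm
  have h4 : Av F η = (((1 / η) * ∫ ρ in (0 : ℝ)..η, ∫ φ in (0 : ℝ)..(2 * Real.pi),
      H (((1 + ρ : ℝ) : ℂ) * cu φ) : ℝ) : ℂ) := by
    unfold Av
    push_cast
    rw [← intervalIntegral.integral_ofReal]
    congr 2
    funext ρ
    rw [hFH]
    push_cast
    rfl
  have hn : 0 ≤ ∫ ρ in (0 : ℝ)..η, ∫ φ in (0 : ℝ)..(2 * Real.pi),
      H (((1 + ρ : ℝ) : ℂ) * cu φ) :=
    intervalIntegral.integral_nonneg hη.le (fun ρ _ => hcn (1 + ρ))
  rw [h4, Complex.norm_real, Real.norm_eq_abs, abs_of_nonneg (by positivity)] at hav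
  rw [h2] at h1
  have hηc : 0 ≤ η ^ c := Real.rpow_nonneg hη.le c
  calc (1 / η) * ∫ r in (1 : ℝ)..(1 + η), r * ∫ φ in (0 : ℝ)..(2 * Real.pi), H ((r : ℂ) * cu φ)
      ≤ (1 / η) * ((1 + η) * ∫ ρ in (0 : ℝ)..η, ∫ φ in (0 : ℝ)..(2 * Real.pi),
          H (((1 + ρ : ℝ) : ℂ) * cu φ)) := mul_le_mul_of_nonneg_left h1 (by positivity)
    _ = (1 + η) * ((1 / η) * ∫ ρ in (0 : ℝ)..η, ∫ φ in (0 : ℝ)..(2 * Real.pi),
          H (((1 + ρ : ℝ) : ℂ) * cu φ)) := by ring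
    _ ≤ (3 / 2) * (25 * T ^ 2 * C * (1 - (1 / 2 : ℝ) ^ c)⁻¹ * η ^ c) :=
        mul_le_mul (by linarith) hav (by positivity) (by norm_num)
    _ = 3 / 2 * (25 * C * (1 - (1 / 2 : ℝ) ^ c)⁻¹) * η ^ c * T ^ 2 := by ring

end Pool.Agent.H67.Pl
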