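import Pool.Agent.H67.Pl.PlaneOf
import Pool.Agent.H67.Pl.Smooth
import Pool.Agent.H67.Pl.Kernels
import Pool.Agent.H67.Pl.Corn
import Pool.Agent.H67.Pl.Trans

/-!
# Triangles in the plane: the theorem over the complex numbers
-/

open MeasureTheory
open scoped ComplexConjugate

namespace Pool.Agent.H67.Pl

theorem plane (a₁ a₂ : ℂ) (h1 : a₁ ≠ 0) (h2 : a₂ ≠ 0) (him : ((a₁ - a₂) / a₁).im ≠ 0)
    (hre : ((a₁ - a₂) / a₁).re ≠ 0) (him' : ((a₂ - a₁) / a₂).im ≠ 0)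
    (hre' : ((a₂ - a₁) / a₂).re ≠ 0) (hFR : FRx a₁ a₂) (A : Set ℂ) (hA : MeasurableSet A)
    (δ : ℝ) (hδ : 0 < δ) (hT : ∀ T₀ : ℝ, ∃ T, T₀ ≤ T ∧ δ * T ^ 2 ≤ volume.real (A ∩ bx T)) :
    ∃ l₀ : ℝ, 0 < l₀ ∧ ∀ l : ℝ, l₀ ≤ l → ∃ (x : ℂ) (φ : ℝ),
      x ∈ A ∧ x + l * a₁ * cu φ ∈ A ∧ x + l * a₂ * cu φ ∈ A :=
  plane_of a₁ a₂
    (fun R hR => smoothing a₁ a₂ h1 h2 him hre him' hre' hFR R hR)
    (fun n q hq B R hB hR h0 ε hε => kernels a₁ a₂ h1 h2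
      (by rintro rfl; simp at him) n q hq B R hB hR h0 ε hε)
    (fun δ hδ => corners_lower a₁ a₂ δ hδ)
    (fun R C c hC hc hR hsm => transference a₁ a₂ R C c hC hc hR hsm)
    A hA δ hδ hT

end Pool.Agent.H67.Pl
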