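import Pool.Agent.H67.Pl.FinalOf
import Pool.Agent.H67.Pl.Plane

/-!
# Triangles in the plane: the theorem
-/

open MeasureTheory Filter
open scoped ComplexConjugate

namespace Pool.Agent.H67.Pl

/-- Triangles in the Euclidean plane, from field rigidity. -/
theorem main2 (hFR : ∀ a₁ a₂ : ℂ, a₁ ≠ 0 → a₂ ≠ 0 → ((a₁ - a₂) / a₁).im ≠ 0 →
      ((a₁ - a₂) / a₁).re ≠ 0 → ((a₂ - a₁) / a₂).im ≠ 0 → ((a₂ - a₁) / a₂).re ≠ 0 → FRx a₁ a₂)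
    (P : Fin 3 → EuclideanSpace ℝ (Fin 2)) (hP : AffineIndependent ℝ P)
    (A : Set (EuclideanSpace ℝ (Fin 2))) (hA : NullMeasurableSet A volume)
    (hdens : 0 < Filter.limsup (fun T : ℝ =>
      (volume (A ∩ {x : EuclideanSpace ℝ (Fin 2) | ∀ i, |x i| ≤ T})).toReal /
        (volume {x : EuclideanSpace ℝ (Fin 2) | ∀ i, |x i| ≤ T}).toReal) Filter.atTop) :
    ∃ l₀ : ℝ, 0 < l₀ ∧ ∀ l : ℝ, l₀ ≤ l →
      ∃ (x : EuclideanSpace ℝ (Fin 2)) (O : EuclideanSpace ℝ (Fin 2) ≃ₗᵢ[ℝ]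
        EuclideanSpace ℝ (Fin 2)), ∀ i, x + O (l • P i) ∈ A := by
  refine main2_of ?_ P hP A hA hdens
  intro a₁ a₂ h1 h2 him hre him' hre' A hA δ hδ hT
  exact plane a₁ a₂ h1 h2 him hre him' hre' (hFR a₁ a₂ h1 h2 him hre him' hre') A hA δ hδ hT

end Pool.Agent.H67.Pl
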