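import Pool.Agent.H67.Pl.Basic

/-!
# From the complex plane to the Euclidean plane
-/

open MeasureTheory Filter
open scoped ComplexConjugate

namespace Pool.Agent.H67.Pl

/-- The identification of the complex plane with the Euclidean plane. -/
noncomputable def ee : ℂ ≃ₗᵢ[ℝ] EuclideanSpace ℝ (Fin 2) := Complex.orthonormalBasisOneI.repr

theorem ee_zero (z : ℂ) : ee z 0 = z.re := by
  simp [ee]

theorem ee_one (z : ℂ) : ee z 1 = z.im := by
  simp [ee]

theorem ee_box (T : ℝ) :
    ee ⁻¹' {x : EuclideanSpace ℝ (Fin 2) | ∀ i, |x i| ≤ T} = bx T := by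
  ext z
  simp only [Set.mem_preimage, Set.mem_ofPred_eq, bx, Fin.forall_fin_two]
  rw [ee_zero, ee_one]

theorem ee_volume (S : Set (EuclideanSpace ℝ (Fin 2))) (hS : MeasurableSet S) :
    volume (ee ⁻¹' S) = volume S :=
  (LinearIsometryEquiv.measurePreserving ee).measure_preimage hS.nullMeasurableSet

theorem volume_box2 (T : ℝ) (hT : 0 ≤ T) : volume.real (bx T) = 4 * T ^ 2 := by
  have h : bx T = Complex.measurableEquivRealProd ⁻¹' (Set.Icc (-T) T ×ˢ Set.Icc (-T) T) := by
    ext z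
    simp only [bx, abs_le, Complex.measurableEquivRealProd, Set.mem_ofPred_eq, Set.mem_preimage]
    simp
    tauto
  rw [Measure.real, h, Complex.volume_preserving_equiv_real_prod.measure_preimage_equiv,
    Measure.volume_eq_prod, Measure.prod_prod, Real.volume_Icc, ENNReal.toReal_mul,
    ENNReal.toReal_ofReal (by linarith)]
  ring

/-- The form in which the theorem over the complex numbers is used. -/
def PlaneS : Prop := ∀ a₁ a₂ : ℂ, a₁ ≠ 0 → a₂ ≠ 0 → ((a₁ - a₂) / a₁).im ≠ 0 →
  ((a₁ - a₂) / a₁).re ≠ 0 → ((a₂ - a₁) / a₂).im ≠ 0 → ((a₂ - a₁) / a₂).re ≠ 0 →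
  ∀ A : Set ℂ, MeasurableSet A → ∀ δ : ℝ, 0 < δ →
    (∀ T₀ : ℝ, ∃ T, T₀ ≤ T ∧ δ * T ^ 2 ≤ volume.real (A ∩ bx T)) →
    ∃ l₀ : ℝ, 0 < l₀ ∧ ∀ l : ℝ, l₀ ≤ l → ∃ (x : ℂ) (φ : ℝ),
      x ∈ A ∧ x + l * a₁ * cu φ ∈ A ∧ x + l * a₂ * cu φ ∈ A

theorem div_re_eq (z w : ℂ) : (z / w).re = ip z w / Complex.normSq w := by
  rw [Complex.div_re, ip]
  ring

theorem div_im_eq (z w : ℂ) : (z / w).im = (z.im * w.re - z.re * w.im) / Complex.normSq w := by
  rw [Complex.div_im]
  ring

/-- The conditions for a labelling. -/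
def Lab (b : Fin 3 → ℂ) (i j k : Fin 3) : Prop :=
  ip (b j - b k) (b j - b i) ≠ 0 ∧ ip (b k - b j) (b k - b i) ≠ 0

theorem lab_exists (b : Fin 3 → ℂ)
    (hb : (b 1 - b 0).im * (b 2 - b 0).re - (b 1 - b 0).re * (b 2 - b 0).im ≠ 0) :
    Lab b 0 1 2 ∨ Lab b 1 2 0 ∨ Lab b 2 0 1 := by
  have key : ∀ u v : ℂ, ip (u - v) u = 0 → ip (v - u) v = 0 → u = v := by
    intro u v h1 h2
    simp only [ip, Complex.sub_re, Complex.sub_im] at h1 h2
    have h3 : (u.re - v.re) ^ 2 + (u.im - v.im) ^ 2 = 0 := by nlinarith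
    have h4 : (u.re - v.re) ^ 2 = 0 := by nlinarith [sq_nonneg (u.re - v.re), sq_nonneg (u.im - v.im)]
    have h5 : (u.im - v.im) ^ 2 = 0 := by nlinarith [sq_nonneg (u.re - v.re), sq_nonneg (u.im - v.im)]
    apply Complex.ext
    · have := pow_eq_zero_iff (two_ne_zero) |>.1 h4
      linarith
    · have := pow_eq_zero_iff (two_ne_zero) |>.1 h5
      linarith
  have d01 : b 1 ≠ b 0 := by
    intro h
    rw [h] at hb
    simp at hb
  have d02 : b 2 ≠ b 0 := by
    intro h
    rw [h] at hb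
    simp at hb
  have d12 : b 1 ≠ b 2 := by
    intro h
    rw [h] at hb
    apply hb
    ring
  have e : ∀ i j k : Fin 3, b j ≠ b k → ip (b j - b k) (b j - b i) = 0 →
      ip (b k - b j) (b k - b i) = 0 → False := by
    intro i j k hjk h1 h2
    apply hjk
    have := key (b j - b i) (b k - b i) (by rw [← h1]; congr 1; ring)
      (by rw [← h2]; congr 1; ring)
    exact sub_left_inj.1 this
  by_contra hcon
  push Not at hcon
  obtain ⟨h1, h2, h3⟩ := hcon
  unfold Lab at h1 h2 h3
  rw [not_and_or, not_not, not_not] at h1 h2 h3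
  -- the angle at the vertex j is the form with third argument
  have sym : ∀ u v : ℂ, ip u v = ip v u := by
    intro u v
    unfold ip
    ring
  have a1 := e 0 1 2 d12
  have a2 := e 1 2 0 d02
  have a3 := e 2 0 1 d01.symm
  have s1 : ip (b 0 - b 2) (b 0 - b 1) = ip (b 0 - b 1) (b 0 - b 2) := sym _ _
  have s2 : ip (b 1 - b 2) (b 1 - b 0) = ip (b 1 - b 0) (b 1 - b 2) := sym _ _
  have s3 : ip (b 2 - b 1) (b 2 - b 0) = ip (b 2 - b 0) (b 2 - b 1) := sym _ _
  rw [s2, s3] at a1 h1
  rw [s1] at a2 h2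
  rcases h1 with h1 | h1 <;> rcases h2 with h2 | h2 <;> rcases h3 with h3 | h3 <;> tauto

theorem main2_of (hplane : PlaneS)
    (P : Fin 3 → EuclideanSpace ℝ (Fin 2)) (hP : AffineIndependent ℝ P)
    (A : Set (EuclideanSpace ℝ (Fin 2))) (hA : NullMeasurableSet A volume)
    (hdens : 0 < Filter.limsup (fun T : ℝ =>
      (volume (A ∩ {x : EuclideanSpace ℝ (Fin 2) | ∀ i, |x i| ≤ T})).toReal /
        (volume {x : EuclideanSpace ℝ (Fin 2) | ∀ i, |x i| ≤ T}).toReal) Filter.atTop) :
    ∃ l₀ : ℝ, 0 < l₀ ∧ ∀ l : ℝ, l₀ ≤ l →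
      ∃ (x : EuclideanSpace ℝ (Fin 2)) (O : EuclideanSpace ℝ (Fin 2) ≃ₗᵢ[ℝ]
        EuclideanSpace ℝ (Fin 2)), ∀ i, x + O (l • P i) ∈ A := by
  obtain ⟨B, hBA, hBm, hBe⟩ := hA.exists_measurable_subset_ae_eq
  set A' : Set ℂ := ee ⁻¹' B with hA'
  have hA'm : MeasurableSet A' := ee.continuous.measurable hBm
  have mbox : ∀ T : ℝ, MeasurableSet {x : EuclideanSpace ℝ (Fin 2) | ∀ i, |x i| ≤ T} := by
    intro T
    have h : {x : EuclideanSpace ℝ (Fin 2) | ∀ i, |x i| ≤ T} =
        ⋂ i : Fin 2, {x : EuclideanSpace ℝ (Fin 2) | |x i| ≤ T} := by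
      ext x
      simp
    rw [h]
    refine MeasurableSet.iInter fun i => ?_
    exact (isClosed_le (by fun_prop) continuous_const).measurableSet
  have hvol : ∀ T : ℝ, (volume (A ∩ {x : EuclideanSpace ℝ (Fin 2) | ∀ i, |x i| ≤ T})).toReal =
      volume.real (A' ∩ bx T) := by
    intro T
    have h1 : volume (A ∩ {x : EuclideanSpace ℝ (Fin 2) | ∀ i, |x i| ≤ T}) =
        volume (B ∩ {x : EuclideanSpace ℝ (Fin 2) | ∀ i, |x i| ≤ T}) :=
      measure_congr (hBe.symm.inter (ae_eq_refl _))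
    rw [h1, Measure.real, ← ee_box T, hA', ← Set.preimage_inter,
      ee_volume _ (hBm.inter (mbox T))]
  have hvol' : ∀ T : ℝ, 0 ≤ T →
      (volume {x : EuclideanSpace ℝ (Fin 2) | ∀ i, |x i| ≤ T}).toReal = 4 * T ^ 2 := by
    intro T hT
    rw [← volume_box2 T hT, Measure.real, ← ee_box T, ee_volume _ (mbox T)]
  -- the density
  obtain ⟨δ, hδ, hδ2⟩ := exists_between hdens
  have hfr : ∃ᶠ T : ℝ in atTop, δ < (volume (A ∩ {x : EuclideanSpace ℝ (Fin 2) |
      ∀ i, |x i| ≤ T})).toReal / (volume {x : EuclideanSpace ℝ (Fin 2) |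
      ∀ i, |x i| ≤ T}).toReal := by
    exact Filter.frequently_lt_of_lt_limsup
      (Filter.isCoboundedUnder_le_of_le atTop (x := 0) (fun T => by positivity)) hδ2
  have hT : ∀ T₀ : ℝ, ∃ T, T₀ ≤ T ∧ (4 * δ) * T ^ 2 ≤ volume.real (A' ∩ bx T) := by
    intro T₀
    obtain ⟨T, hT1, hT2⟩ := (hfr.and_eventually (eventually_ge_atTop (max T₀ 1))).exists
    refine ⟨T, (le_max_left _ _).trans hT2, ?_⟩
    have hTp : 0 < T := lt_of_lt_of_le one_pos ((le_max_right _ _).trans hT2)
    rw [hvol, hvol' T hTp.le, lt_div_iff₀ (by positivity)] at hT1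
    linarith
  -- the vertices
  set b : Fin 3 → ℂ := fun i => ee.symm (P i) with hb
  have hdet : (b 1 - b 0).im * (b 2 - b 0).re - (b 1 - b 0).re * (b 2 - b 0).im ≠ 0 := by
    intro h
    have hind := affineIndependent_iff.1 hP
    have hw : ∀ s t : ℝ, s • (b 1 - b 0) + t • (b 2 - b 0) = 0 → s = 0 ∧ t = 0 := by
      intro s t hst
      have h1 := hind Finset.univ ![-s - t, s, t] (by
        rw [Fin.sum_univ_three]
        simp only [Matrix.cons_val_zero, Matrix.cons_val_one, Matrix.cons_val_two,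
          Matrix.head_cons, Matrix.tail_cons]
        ring) (by
        rw [Fin.sum_univ_three]
        have h2 : ee (s • (b 1 - b 0) + t • (b 2 - b 0)) = 0 := by rw [hst, map_zero]
        have e1 : ∀ n, ee (b n) = P n := fun n => ee.apply_symm_apply (P n)
        rw [map_add, map_smul, map_smul, map_sub, map_sub, e1, e1, e1] at h2
        rw [← h2]
        simp only [Matrix.cons_val_zero, Matrix.cons_val_one, Matrix.cons_val_two,
          Matrix.head_cons, Matrix.tail_cons]
        module)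
      exact ⟨by simpa using h1 1 (Finset.mem_univ _), by simpa using h1 2 (Finset.mem_univ _)⟩
    have h3 := hw (b 2 - b 0).re (-(b 1 - b 0).re) (by
      apply Complex.ext
      · simp only [Complex.add_re, Complex.smul_re, smul_eq_mul, Complex.zero_re]
        ring
      · simp only [Complex.add_im, Complex.smul_im, smul_eq_mul, Complex.zero_im]
        linarith)
    have h4 := hw (b 2 - b 0).im (-(b 1 - b 0).im) (by
      apply Complex.ext
      · simp only [Complex.add_re, Complex.smul_re, smul_eq_mul, Complex.zero_re]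
        linarith
      · simp only [Complex.add_im, Complex.smul_im, smul_eq_mul, Complex.zero_im]
        ring)
    have h5 : b 1 - b 0 = 0 := by
      apply Complex.ext
      · have := h3.2
        rw [Complex.zero_re]
        linarith
      · have := h4.2
        rw [Complex.zero_im]
        linarith
    have h6 := hw 1 0 (by rw [h5]; simp)
    exact one_ne_zero h6.1
  -- the conclusion for one labelling
  have concl : ∀ i j k : Fin 3, (∀ m : Fin 3, m = i ∨ m = j ∨ m = k) → Lab b i j k →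
      (b j - b i).im * (b k - b i).re - (b j - b i).re * (b k - b i).im ≠ 0 →
      ∃ l₀ : ℝ, 0 < l₀ ∧ ∀ l : ℝ, l₀ ≤ l →
      ∃ (x : EuclideanSpace ℝ (Fin 2)) (O : EuclideanSpace ℝ (Fin 2) ≃ₗᵢ[ℝ]
        EuclideanSpace ℝ (Fin 2)), ∀ i, x + O (l • P i) ∈ A := by
    intro i j k hcov hLab hD
    have hj : b j - b i ≠ 0 := by
      intro h
      rw [h] at hD
      simp at hD
    have hk : b k - b i ≠ 0 := by
      intro h
      rw [h] at hD
      simp at hD
    have nj : Complex.normSq (b j - b i) ≠ 0 := (Complex.normSq_pos.2 hj).ne'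
    have nk : Complex.normSq (b k - b i) ≠ 0 := (Complex.normSq_pos.2 hk).ne'
    have ejk : (b j - b i) - (b k - b i) = b j - b k := by ring
    have ekj : (b k - b i) - (b j - b i) = b k - b j := by ring
    obtain ⟨l₀, hl₀, H⟩ := hplane (b j - b i) (b k - b i) hj hk
      (by
        rw [div_im_eq, ne_eq, div_eq_zero_iff, not_or]
        refine ⟨fun h => hD ?_, nj⟩
        simp only [Complex.sub_re, Complex.sub_im] at h ⊢
        linarith)
      (by
        rw [div_re_eq, ejk, ne_eq, div_eq_zero_iff, not_or]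
        exact ⟨hLab.1, nj⟩)
      (by
        rw [div_im_eq, ne_eq, div_eq_zero_iff, not_or]
        refine ⟨fun h => hD ?_, nk⟩
        simp only [Complex.sub_re, Complex.sub_im] at h ⊢
        linarith)
      (by
        rw [div_re_eq, ekj, ne_eq, div_eq_zero_iff, not_or]
        exact ⟨hLab.2, nk⟩) A' hA'm (4 * δ) (by linarith) hT
    refine ⟨l₀, hl₀, fun l hl => ?_⟩
    obtain ⟨x, φ, hx, hy, hz⟩ := H l hl
    set O : EuclideanSpace ℝ (Fin 2) ≃ₗᵢ[ℝ] EuclideanSpace ℝ (Fin 2) :=
      (ee.symm.trans (rotation (Circle.exp φ))).trans ee with hO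
    have hOe : ∀ v, O v = ee (cu φ * ee.symm v) := by
      intro v
      rw [hO]
      simp only [LinearIsometryEquiv.trans_apply, rotation_apply, Circle.coe_exp]
      rfl
    refine ⟨ee x - O (l • P i), O, ?_⟩
    have key : ∀ m : Fin 3, ee x - O (l • P i) + O (l • P m) =
        ee (x + l * (b m - b i) * cu φ) := by
      intro m
      rw [hOe, hOe, map_add]
      have : ee (l * (b m - b i) * cu φ) = ee (cu φ * ee.symm (l • P m)) -
          ee (cu φ * ee.symm (l • P i)) := by
        rw [← ee.map_sub (cu φ * ee.symm (l • P m))]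
        congr 1
        have e1 : ∀ n, ee.symm (l • P n) = l * b n := by
          intro n
          rw [map_smul, Complex.real_smul]
        rw [e1, e1]
        ring
      rw [this]
      abel
    intro m
    apply hBA
    rw [key m]
    rcases hcov m with rfl | rfl | rfl
    · rw [sub_self, mul_zero, zero_mul, add_zero]
      exact hx
    · exact hy
    · exact hz
  rcases lab_exists b hdet with h | h | h
  · exact concl 0 1 2 (by decide) h hdet
  · refine concl 1 2 0 (by decide) h (fun h' => hdet ?_)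
    simp only [Complex.sub_re, Complex.sub_im] at h' ⊢
    linarith
  · refine concl 2 0 1 (by decide) h (fun h' => hdet ?_)
    simp only [Complex.sub_re, Complex.sub_im] at h' ⊢
    linarith

end Pool.Agent.H67.Pl
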