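import Pool.Agent.H67.Pl.Basic
import Pool.Agent.H19.Pl.Ia4

/-!
# Module InvA
-/

open MeasureTheory Set
open scoped ComplexConjugate

namespace Pool.Agent.H67.Pl

open Pool.Agent.H19.Pl

lemma inva_arctan {x : ℝ} (hx : 0 < x) : Real.pi / 2 - Real.arctan x ≤ 1 / x := by
  rw [← Real.arctan_inv_of_pos hx, one_div]
  have h1 : 0 ≤ Real.arctan x⁻¹ := Real.arctan_nonneg.2 (by positivity)
  have h2 := Real.le_tan h1 (Real.arctan_lt_pi_div_two _)
  rwa [Real.tan_arctan] at h2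

/-- The tails. -/
lemma inva_tails {L : ℝ → ℂ} (hL : Measurable L) {M : ℝ} (hM : 0 ≤ M)
    (hb : ∀ τ, ‖L τ‖ ≤ M * (1 + τ ^ 2)⁻¹) {e T : ℝ} (he : 0 < e) (hT : 0 < T) :
    ‖∫ τ, L τ‖ ≤ ‖∫ τ in e..T, L τ‖ + ‖∫ τ in (-T)..(-e), L τ‖ + M * (2 * e + 2 * (1 / T)) := by
  have hg : Integrable fun τ : ℝ => M * (1 + τ ^ 2)⁻¹ := integrable_inv_one_add_sq.const_mul M
  have hi : Integrable L := hg.mono' hL.aestronglyMeasurable (Filter.Eventually.of_forall hb)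
  have hii : ∀ a b, IntervalIntegrable L volume a b := fun a b => hi.intervalIntegrable
  have h1 : ∫ τ, L τ = (∫ τ in Iic (-T), L τ) + ∫ τ in Ioi (-T), L τ :=
    (intervalIntegral.integral_Iic_add_Ioi hi.integrableOn hi.integrableOn).symm
  have h2 : ∫ τ in Ioi (-T), L τ = (∫ τ in (-T)..T, L τ) + ∫ τ in Ioi T, L τ :=
    (intervalIntegral.integral_interval_add_Ioi hi.integrableOn hi.integrableOn).symm
  have h3 : ∫ τ in (-T)..T, L τ =
      (∫ τ in (-T)..(-e), L τ) + (∫ τ in (-e)..e, L τ) + ∫ τ in e..T, L τ := by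
    rw [intervalIntegral.integral_add_adjacent_intervals (hii _ _) (hii _ _),
      intervalIntegral.integral_add_adjacent_intervals (hii _ _) (hii _ _)]
  have b1 : ‖∫ τ in (-e)..e, L τ‖ ≤ M * (2 * e) := by
    have := intervalIntegral.norm_integral_le_of_norm_le_const (a := -e) (b := e) (f := L)
      (C := M) fun τ _ => (hb τ).trans (by
        have : (1 + τ ^ 2)⁻¹ ≤ 1 := inv_le_one_of_one_le₀ (by nlinarith [sq_nonneg τ])
        nlinarith)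
    rw [sub_neg_eq_add, abs_of_pos (by linarith)] at this
    linarith
  have b2 : ‖∫ τ in Ioi T, L τ‖ ≤ M * (1 / T) := by
    calc ‖∫ τ in Ioi T, L τ‖ ≤ ∫ τ in Ioi T, M * (1 + τ ^ 2)⁻¹ :=
          norm_integral_le_of_norm_le hg.integrableOn (Filter.Eventually.of_forall hb)
      _ = M * (Real.pi / 2 - Real.arctan T) := by
          rw [integral_const_mul, integral_Ioi_inv_one_add_sq]
      _ ≤ M * (1 / T) := mul_le_mul_of_nonneg_left (inva_arctan hT) hM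
  have b3 : ‖∫ τ in Iic (-T), L τ‖ ≤ M * (1 / T) := by
    calc ‖∫ τ in Iic (-T), L τ‖ ≤ ∫ τ in Iic (-T), M * (1 + τ ^ 2)⁻¹ :=
          norm_integral_le_of_norm_le hg.integrableOn (Filter.Eventually.of_forall hb)
      _ = M * (Real.pi / 2 - Real.arctan T) := by
          rw [integral_const_mul, integral_Iic_inv_one_add_sq, Real.arctan_neg]
          ring
      _ ≤ M * (1 / T) := mul_le_mul_of_nonneg_left (inva_arctan hT) hM
  rw [h1, h2, h3]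
  have n1 := norm_add_le (∫ τ in Iic (-T), L τ) ((∫ τ in (-T)..(-e), L τ) +
    (∫ τ in (-e)..e, L τ) + (∫ τ in e..T, L τ) + ∫ τ in Ioi T, L τ)
  have n2 := norm_add_le ((∫ τ in (-T)..(-e), L τ) + (∫ τ in (-e)..e, L τ) + ∫ τ in e..T, L τ)
    (∫ τ in Ioi T, L τ)
  have n3 := norm_add_le ((∫ τ in (-T)..(-e), L τ) + ∫ τ in (-e)..e, L τ) (∫ τ in e..T, L τ)
  have n4 := norm_add_le (∫ τ in (-T)..(-e), L τ) (∫ τ in (-e)..e, L τ)
  linarith

/-- One side: a pair of separated intervals. -/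
lemma inva_side {σ : ℂ} (him : σ.im ≠ 0) {R : ℝ} (hR : 1 ≤ R) {D m : ℝ} {f : ℂ → ℂ}
    (hD : 2 ≤ D) (hm : 0 < m) (hm1 : m ≤ 1) (hf : Bd R f) (a b n : ℕ) (a0 : ℝ)
    (hb : 16 * (Real.pi ^ 2 * k1 σ ^ 2 * R2 σ R ^ 2) * (1 + 5 * kK σ R) < 2 ^ b)
    (hn : (n : ℝ) ≤ D ^ (a + (2 * a + 2 + b)))
    (hL : 1 / (4 * D) ≤ ‖∫ τ in a0..(a0 + n * (1 / D ^ (2 * a + 2 + b))), Lt σ m f τ‖) :
    ∃ i < n, ∃ l < n, (i + 3 ≤ l ∨ l + 3 ≤ i) ∧
      1 / D ^ (3 * (2 * a + 2 + b)) ≤ m ^ 2 *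
        ‖∫ τ in (a0 + i * (1 / D ^ (2 * a + 2 + b)))..(a0 + i * (1 / D ^ (2 * a + 2 + b)) +
            1 / D ^ (2 * a + 2 + b)),
          ∫ τ' in (a0 + l * (1 / D ^ (2 * a + 2 + b)))..(a0 + l * (1 / D ^ (2 * a + 2 + b)) +
            1 / D ^ (2 * a + 2 + b)), Kk σ m f τ τ'‖ := by
  have hD0 : 0 < D := by linarith
  set C := 2 * a + 2 + b with hC
  set l0 : ℝ := 1 / D ^ C with hl0
  have hl0p : 0 < l0 := by positivity
  set V : ℝ := Real.pi ^ 2 * k1 σ ^ 2 * R2 σ R ^ 2 with hV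
  have hV0 : 0 ≤ V := by positivity
  have hk0 := k0_pos him
  have hkK : 0 ≤ kK σ R := by rw [kK]; positivity
  by_contra hcon
  push Not at hcon
  have hab : a0 ≤ a0 + n * l0 := by
    have : 0 ≤ (n : ℝ) * l0 := by positivity
    linarith
  have h1 := tt_star (ν := (volume : Measure (ℂ × ℂ))) (Sk_meas σ m R) (Sk_ne σ m R)
    (J := Jk σ m f) (Jk_meas σ m hf.meas) (B := 1 / (k0 σ ^ 2 * m ^ 2)) (Jk_le him hm hf)
    (Jk_zero him hm1 hf) (u := uu f) (uu_meas hf.meas) (uu_le hf) hab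
  rw [Sk_real hm (R2_nonneg him hR)] at h1
  have h2 : (∫ τ in a0..(a0 + n * l0), ∫ y, uu f y * Jk σ m f τ y) =
      ∫ τ in a0..(a0 + n * l0), Lt σ m f τ := by
    congr 1
    funext τ
    exact (Lt_eq him hm hm1 hf τ).symm
  rw [h2] at h1
  have h3 := cells (K := Kk σ m f) (Kk_meas σ m hf.meas) (M := kK σ R / m ^ 2) (by positivity)
    (Kk_le him hm hm1 hR hf) a0 l0 hl0p n (θ := 1 / (m ^ 2 * D ^ (3 * C))) (by positivity)
    (fun i hi l hl hil => by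
      have h4 := hcon i hi l hl hil
      have h5 := (lt_div_iff₀' (by positivity : (0 : ℝ) < m ^ 2)).2 h4
      rw [div_div, mul_comm (D ^ (3 * C))] at h5
      exact h5.le)
  have h6 : ‖∫ τ in a0..(a0 + n * l0), Lt σ m f τ‖ ^ 2 ≤
      V * m ^ 2 * (n ^ 2 * (1 / (m ^ 2 * D ^ (3 * C))) + 5 * n * (kK σ R / m ^ 2 * l0 ^ 2)) :=
    h1.trans (mul_le_mul_of_nonneg_left h3 (by positivity))
  have h7 : (1 / (4 * D)) ^ 2 ≤ ‖∫ τ in a0..(a0 + n * l0), Lt σ m f τ‖ ^ 2 :=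
    pow_le_pow_left₀ (by positivity) hL 2
  have h8 : V * m ^ 2 * (n ^ 2 * (1 / (m ^ 2 * D ^ (3 * C))) + 5 * n * (kK σ R / m ^ 2 * l0 ^ 2)) =
      V * (n ^ 2 / (D ^ C) ^ 3 + 5 * kK σ R * (n * (1 / D ^ C) ^ 2)) := by
    rw [hl0, mul_comm 3 C, pow_mul]
    field_simp
  rw [h8] at h6
  set X := D ^ a with hX
  set Y := D ^ C with hY
  have hX1 : 1 ≤ X := one_le_pow₀ (by linarith)
  have hY0 : 0 < Y := by positivity
  have hXp : 0 < X := by positivity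
  have hn' : (n : ℝ) ≤ X * Y := by rw [pow_add] at hn; exact hn
  have hn0 : (0 : ℝ) ≤ n := Nat.cast_nonneg n
  have h9 : (n : ℝ) ^ 2 / Y ^ 3 ≤ X ^ 2 / Y := by
    rw [div_le_div_iff₀ (by positivity) hY0]
    have : (n : ℝ) ^ 2 ≤ (X * Y) ^ 2 := pow_le_pow_left₀ hn0 hn' 2
    nlinarith [mul_le_mul_of_nonneg_right this hY0.le]
  have h10 : (n : ℝ) * (1 / Y) ^ 2 ≤ X ^ 2 / Y := by
    have : (n : ℝ) * (1 / Y) ^ 2 = n / Y ^ 2 := by ring
    rw [this, div_le_div_iff₀ (by positivity) hY0]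
    have h11 : X * Y ≤ X ^ 2 * Y := by
      have : X ≤ X ^ 2 := by nlinarith
      exact mul_le_mul_of_nonneg_right this hY0.le
    nlinarith [mul_le_mul_of_nonneg_right (hn'.trans h11) hY0.le]
  have h12 : V * (n ^ 2 / Y ^ 3 + 5 * kK σ R * (n * (1 / Y) ^ 2)) ≤
      V * (1 + 5 * kK σ R) * (X ^ 2 / Y) := by
    have h13 : 5 * kK σ R * (n * (1 / Y) ^ 2) ≤ 5 * kK σ R * (X ^ 2 / Y) :=
      mul_le_mul_of_nonneg_left h10 (by positivity)
    calc V * (n ^ 2 / Y ^ 3 + 5 * kK σ R * (n * (1 / Y) ^ 2))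
        ≤ V * (X ^ 2 / Y + 5 * kK σ R * (X ^ 2 / Y)) :=
          mul_le_mul_of_nonneg_left (add_le_add h9 h13) hV0
      _ = V * (1 + 5 * kK σ R) * (X ^ 2 / Y) := by ring
  have h14 : (1 / (4 * D)) ^ 2 ≤ V * (1 + 5 * kK σ R) * (X ^ 2 / Y) := h7.trans (h6.trans h12)
  have hYe : Y = X ^ 2 * D ^ 2 * D ^ b := by
    rw [hY, hC, hX]
    ring
  have h15 : (2 : ℝ) ^ b ≤ D ^ b := pow_le_pow_left₀ (by norm_num) hD b
  have h16 : V * (1 + 5 * kK σ R) * (X ^ 2 / Y) = V * (1 + 5 * kK σ R) / (D ^ 2 * D ^ b) := by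
    rw [hYe]
    field_simp
  rw [h16, div_pow, one_pow, mul_pow, div_le_div_iff₀ (by positivity) (by positivity)] at h14
  have h17 : 16 * V * (1 + 5 * kK σ R) * D ^ 2 < D ^ 2 * D ^ b := by
    have : 16 * V * (1 + 5 * kK σ R) < D ^ b := lt_of_lt_of_le hb h15
    have h18 : 0 < D ^ 2 := by positivity
    nlinarith
  nlinarith

theorem inv_a (σ : ℂ) (him : σ.im ≠ 0) (R : ℝ) (hR : 1 ≤ R) :
    ∃ C : ℕ, ∀ (D m : ℝ) (f : ℂ → ℂ), 2 ≤ D → 0 < m → m ≤ 1 → Bd R f →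
      1 / D ≤ ‖Lam σ m f‖ →
      ∃ t₁ t₂ : ℝ, 2 / D ^ C ≤ |t₁| ∧ |t₁| ≤ D ^ C ∧ 2 / D ^ C ≤ |t₂| ∧ |t₂| ≤ D ^ C ∧
        0 < t₁ * t₂ ∧ 2 / D ^ C ≤ |t₁ - t₂| ∧
        1 / D ^ (3 * C) ≤ ‖((m ^ 2 : ℝ) : ℂ) * ∫ τ in t₁..(t₁ + 1 / D ^ C),
          ∫ τ' in t₂..(t₂ + 1 / D ^ C),
          ∫ d : ℂ, ((nu σ m d τ * nu σ m d τ' : ℝ) : ℂ) * ∫ x : ℂ, conj (f (x + gk σ τ * d)) *
            conj (f (x + (1 - gk σ τ) * d)) * f (x + gk σ τ' * d) *
            f (x + (1 - gk σ τ') * d)‖ := by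
  obtain ⟨a', ha'⟩ := pow_unbounded_of_one_lt (16 * M1 R) (one_lt_two : (1 : ℝ) < 2)
  obtain ⟨b, hb⟩ := pow_unbounded_of_one_lt
    (16 * (Real.pi ^ 2 * k1 σ ^ 2 * R2 σ R ^ 2) * (1 + 5 * kK σ R)) (one_lt_two : (1 : ℝ) < 2)
  set a := a' + 1 with ha
  set C := 2 * a + 2 + b with hC
  refine ⟨C, fun D m f hD hm hm1 hf hLam => ?_⟩
  have hD0 : 0 < D := by linarith
  have hM0 : 0 ≤ M1 R := by rw [M1]; positivity
  set l0 : ℝ := 1 / D ^ C with hl0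
  have hl0p : 0 < l0 := by positivity
  -- the end points
  set j0 : ℕ := ⌈D ^ (C - a)⌉₊ with hj0
  set j1 : ℕ := ⌊D ^ (C + a)⌋₊ with hj1
  have hCa : a + (C - a) = C := by omega
  have e0 : D ^ C = D ^ a * D ^ (C - a) := by rw [← pow_add, hCa]
  have hDa2 : 2 ≤ D ^ a := by
    calc (2 : ℝ) ≤ D := hD
      _ = D ^ 1 := (pow_one D).symm
      _ ≤ D ^ a := pow_le_pow_right₀ (by linarith) (by omega)
  have hDca2 : 2 ≤ D ^ (C - a) := by
    calc (2 : ℝ) ≤ D := hD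
      _ = D ^ 1 := (pow_one D).symm
      _ ≤ D ^ (C - a) := pow_le_pow_right₀ (by linarith) (by omega)
  have hj0a : D ^ (C - a) ≤ j0 := Nat.le_ceil _
  have hj0b : (j0 : ℝ) ≤ D ^ (C - a) + 1 := (Nat.ceil_lt_add_one (by positivity)).le
  have hj1a : (j1 : ℝ) ≤ D ^ (C + a) := Nat.floor_le (by positivity)
  have hj1b : D ^ (C + a) - 1 ≤ j1 := (Nat.sub_one_lt_floor _).le
  set e : ℝ := j0 * l0 with he
  set T : ℝ := j1 * l0 with hT
  have hDC : 0 < D ^ C := by positivity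
  have hDa : 0 < D ^ a := by positivity
  have he2 : e ≤ 2 / D ^ a := by
    rw [he, hl0, mul_one_div, div_le_div_iff₀ hDC hDa, e0]
    nlinarith
  have hT1 : T ≤ D ^ a := by
    rw [hT, hl0, mul_one_div, div_le_iff₀ hDC, ← pow_add, add_comm a C]
    exact hj1a
  have hT2 : D ^ a / 2 ≤ T := by
    rw [hT, hl0, mul_one_div, le_div_iff₀ hDC]
    have h1 : D ^ (C + a) = D ^ C * D ^ a := pow_add _ _ _
    rw [h1] at hj1b
    have h2 : 1 ≤ D ^ C := one_le_pow₀ (by linarith)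
    nlinarith
  have hj02 : (2 : ℝ) ≤ j0 := hDca2.trans hj0a
  have he0 : 0 < e := by rw [he]; positivity
  have hT0 : 0 < T := lt_of_lt_of_le (by positivity) hT2
  have heT : e ≤ T := by
    have h1 : 2 / D ^ a ≤ D ^ a / 2 := by
      rw [div_le_div_iff₀ hDa (by norm_num)]
      nlinarith
    linarith
  have hj01 : j0 ≤ j1 := by
    have : (j0 : ℝ) ≤ j1 := le_of_mul_le_mul_right heT hl0p
    exact_mod_cast this
  set n : ℕ := j1 - j0 with hn
  have hnr : (n : ℝ) = j1 - j0 := by rw [hn, Nat.cast_sub hj01]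
  have hn2 : (n : ℝ) ≤ D ^ (a + C) := by
    rw [hnr, add_comm a C]
    linarith
  -- the tails
  have htails := inva_tails (Lt_meas hf.meas σ m) hM0 (Lt_le σ hm (by linarith) hf) he0 hT0
  rw [← Lam_eq σ hm (by linarith) hf] at htails
  have ht : M1 R * (2 * e + 2 * (1 / T)) ≤ 1 / (2 * D) := by
    have h1 : 1 / T ≤ 2 / D ^ a := by
      rw [div_le_div_iff₀ hT0 hDa]
      linarith
    have h2 : M1 R * (2 * e + 2 * (1 / T)) ≤ M1 R * (8 / D ^ a) := by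
      apply mul_le_mul_of_nonneg_left _ hM0
      have : 8 / D ^ a = 2 * (2 / D ^ a) + 2 * (2 / D ^ a) := by ring
      linarith
    refine h2.trans ?_
    rw [mul_div_assoc', div_le_div_iff₀ hDa (by positivity)]
    have h3 : (2 : ℝ) ^ a' ≤ D ^ a' := pow_le_pow_left₀ (by norm_num) hD a'
    have h4 : D ^ a = D * D ^ a' := by rw [ha, pow_succ]; ring
    rw [h4]
    nlinarith
  have hDa_le : D ^ a ≤ D ^ C := pow_le_pow_right₀ (by linarith) (by omega)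
  have hsum : 1 / D = 1 / (4 * D) + 1 / (4 * D) + 1 / (2 * D) := by
    field_simp
    ring
  -- the conclusion from a pair of cells
  have key : ∀ a0 : ℝ, (∀ i < n, 2 * l0 ≤ |a0 + i * l0| ∧ |a0 + i * l0| ≤ D ^ C) →
      (∀ i < n, ∀ l < n, 0 < (a0 + i * l0) * (a0 + l * l0)) →
      1 / (4 * D) ≤ ‖∫ τ in a0..(a0 + n * l0), Lt σ m f τ‖ →
      ∃ t₁ t₂ : ℝ, 2 / D ^ C ≤ |t₁| ∧ |t₁| ≤ D ^ C ∧ 2 / D ^ C ≤ |t₂| ∧ |t₂| ≤ D ^ C ∧
        0 < t₁ * t₂ ∧ 2 / D ^ C ≤ |t₁ - t₂| ∧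
        1 / D ^ (3 * C) ≤ ‖((m ^ 2 : ℝ) : ℂ) * ∫ τ in t₁..(t₁ + 1 / D ^ C),
          ∫ τ' in t₂..(t₂ + 1 / D ^ C),
          ∫ d : ℂ, ((nu σ m d τ * nu σ m d τ' : ℝ) : ℂ) * ∫ x : ℂ, conj (f (x + gk σ τ * d)) *
            conj (f (x + (1 - gk σ τ) * d)) * f (x + gk σ τ' * d) *
            f (x + (1 - gk σ τ') * d)‖ := by
    intro a0 h1 h2 h3
    obtain ⟨i, hi, l, hl, hil, h4⟩ := inva_side him hR hD hm hm1 hf a b n a0 hb hn2 h3
    have h2l : 2 / D ^ C = 2 * l0 := by rw [hl0]; ring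
    refine ⟨a0 + i * l0, a0 + l * l0, ?_, (h1 i hi).2, ?_, (h1 l hl).2, h2 i hi l hl, ?_, ?_⟩
    · rw [h2l]; exact (h1 i hi).1
    · rw [h2l]; exact (h1 l hl).1
    · rw [h2l]
      have h5 : a0 + i * l0 - (a0 + l * l0) = ((i : ℝ) - l) * l0 := by ring
      rw [h5, abs_mul, abs_of_pos hl0p]
      apply mul_le_mul_of_nonneg_right _ hl0p.le
      rcases hil with h6 | h6
      · have h7 : (i : ℝ) + 3 ≤ l := by exact_mod_cast h6
        rw [abs_sub_comm, abs_of_pos (by linarith)]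
        linarith
      · have h7 : (l : ℝ) + 3 ≤ i := by exact_mod_cast h6
        rw [abs_of_pos (by linarith)]
        linarith
    · simp_rw [← Kk_eq him hm hm1 hf]
      rw [norm_mul, Complex.norm_real, Real.norm_of_nonneg (by positivity)]
      exact h4
  have hor : 1 / (4 * D) ≤ ‖∫ τ in e..T, Lt σ m f τ‖ ∨
      1 / (4 * D) ≤ ‖∫ τ in (-T)..(-e), Lt σ m f τ‖ := by
    by_contra hcon
    push Not at hcon
    linarith [hcon.1, hcon.2]
  have hlt : ∀ i < n, (i : ℝ) + 1 ≤ j1 - j0 := by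
    intro i hi
    rw [← hnr]
    exact_mod_cast hi
  rcases hor with hor | hor
  · refine key e ?_ ?_ ?_
    · intro i hi
      have h1 := hlt i hi
      have h0 : (0 : ℝ) ≤ i := Nat.cast_nonneg i
      have h2 : e + i * l0 = (j0 + i) * l0 := by rw [he]; ring
      have h3 : 0 < ((j0 : ℝ) + i) * l0 := by positivity
      rw [h2, abs_of_pos h3]
      constructor
      · exact mul_le_mul_of_nonneg_right (by linarith) hl0p.le
      · calc ((j0 : ℝ) + i) * l0 ≤ j1 * l0 := mul_le_mul_of_nonneg_right (by linarith) hl0p.le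
          _ ≤ D ^ a := hT1
          _ ≤ D ^ C := hDa_le
    · intro i _ l _
      have : (0 : ℝ) ≤ i := Nat.cast_nonneg i
      have : (0 : ℝ) ≤ l := Nat.cast_nonneg l
      positivity
    · have h1 : e + n * l0 = T := by rw [hnr, he, hT]; ring
      rw [h1]
      exact hor
  · refine key (-T) ?_ ?_ ?_
    · intro i hi
      have h1 := hlt i hi
      have h0 : (0 : ℝ) ≤ i := Nat.cast_nonneg i
      have h2 : -T + i * l0 = -((j1 - i) * l0) := by rw [hT]; ring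
      have h3 : 0 < ((j1 : ℝ) - i) * l0 := mul_pos (by linarith) hl0p
      rw [h2, abs_neg, abs_of_pos h3]
      constructor
      · exact mul_le_mul_of_nonneg_right (by linarith) hl0p.le
      · calc ((j1 : ℝ) - i) * l0 ≤ j1 * l0 := mul_le_mul_of_nonneg_right (by linarith) hl0p.le
          _ ≤ D ^ a := hT1
          _ ≤ D ^ C := hDa_le
    · intro i hi l hl
      have h1 := hlt i hi
      have h2 := hlt l hl
      have e1 : -T + i * l0 = -((j1 - i) * l0) := by rw [hT]; ring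
      have e2 : -T + l * l0 = -((j1 - l) * l0) := by rw [hT]; ring
      have h3 : 0 < ((j1 : ℝ) - i) * l0 := mul_pos (by linarith) hl0p
      have h4 : 0 < ((j1 : ℝ) - l) * l0 := mul_pos (by linarith) hl0p
      rw [e1, e2, neg_mul_neg]
      exact mul_pos h3 h4
    · have h1 : -T + n * l0 = -e := by rw [hnr, he, hT]; ring
      rw [h1]
      exact hor

end Pool.Agent.H67.Pl
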