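import Pool.Agent.H67.Pl.Basic
import Pool.Agent.H69.PT.U2

/-!
# Plancherel bound for cross correlations
-/

open MeasureTheory FourierTransform
open scoped ComplexConjugate

namespace Pool.Agent.H67.Pl

theorem Bd.integrable69 {R : ℝ} {f : ℂ → ℂ} (hf : Bd R f) : Integrable f := by
  have h1 : IntegrableOn f (Metric.closedBall 0 R) volume := by
    refine Measure.integrableOn_of_bounded (M := 1) ?_ hf.meas.aestronglyMeasurable ?_
    · exact (measure_closedBall_lt_top).ne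
    · filter_upwards with x; exact hf.le_one x
  rwa [integrableOn_iff_integrable_of_support_subset] at h1
  intro x hx
  rw [Metric.mem_closedBall, dist_zero_right]
  by_contra h
  exact hx (hf.supp x (not_le.mp h))

theorem fourier_eq_ip69 (g : ℂ → ℂ) (ξ : ℂ) :
    𝓕 g ξ = ∫ y : ℂ, g y * Complex.exp (-((ip (2 * Real.pi * ξ) y : ℝ) : ℂ) * Complex.I) := by
  rw [Real.fourier_eq']
  congr 1; ext y
  rw [smul_eq_mul, mul_comm]
  congr 2
  rw [Complex.inner]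
  simp only [ip, Complex.mul_re, Complex.conj_re, Complex.conj_im, Complex.re_ofNat,
    Complex.ofReal_re, Complex.im_ofNat, Complex.ofReal_im, Complex.mul_im]
  push_cast
  ring

/-- cross correlation bound, with square integrability -/
theorem cross_l2 (R : ℝ) (g h : ℂ → ℂ) (hg : Bd R g) (hh : Bd R h) (s : ℝ)
    (hs : ∀ ξ : ℂ, ‖∫ y : ℂ, g y * Complex.exp (-((ip ξ y : ℝ) : ℂ) * Complex.I)‖ ≤ s) :
    Integrable (fun α : ℂ => ‖∫ y : ℂ, g y * conj (h (y + α))‖ ^ 2) ∧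
    ∫ α : ℂ, ‖∫ y : ℂ, g y * conj (h (y + α))‖ ^ 2 ≤ s ^ 2 * ∫ y : ℂ, ‖h y‖ ^ 2 := by
  let v : ℂ → ℂ := fun y => conj (h (-y))
  have hv : Integrable v := by
    have h1 : Integrable (fun y => h (-y)) := hh.integrable69.comp_neg
    have h2 := (Complex.conjLIE.toContinuousLinearEquiv.toContinuousLinearMap.integrable_comp h1)
    simpa [v] using h2
  have hvM : ∀ x, ‖v x‖ ≤ 1 := fun x => by simpa [v] using hh.le_one (-x)
  have hC : ∀ ξ, ‖𝓕 g ξ‖ ≤ s := by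
    intro ξ
    rw [fourier_eq_ip69]
    exact hs _
  obtain ⟨hw, hle⟩ := PoolH69PT.conv_l2 hg.integrable69 hv hvM hC
  have e1 : (fun α : ℂ => ‖∫ y : ℂ, g y * conj (h (y + α))‖ ^ 2) =
      fun α : ℂ => ‖∫ x, g x * v (-α - x)‖ ^ 2 := by
    ext α
    congr 2
    refine integral_congr_ae ?_
    filter_upwards with x
    simp only [v]
    congr 3
    ring
  have hi := PoolH69PT.integrable_sq hw
  have e2 : ∫ x, ‖v x‖ ^ 2 = ∫ x, ‖h x‖ ^ 2 := by
    rw [← integral_neg_eq_self (fun x => ‖h x‖ ^ 2)]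
    congr 1; ext x
    simp [v]
  rw [e1]
  refine ⟨hi.comp_neg, ?_⟩
  rw [integral_neg_eq_self (fun α => ‖∫ x, g x * v (α - x)‖ ^ 2), ← e2]
  exact hle

theorem planch (R : ℝ) (g h : ℂ → ℂ) (hg : Bd R g) (hh : Bd R h) (s : ℝ)
    (hs : ∀ ξ : ℂ, ‖∫ y : ℂ, g y * Complex.exp (-((ip ξ y : ℝ) : ℂ) * Complex.I)‖ ≤ s) :
    ∫ α : ℂ, ‖∫ y : ℂ, g y * conj (h (y + α))‖ ^ 2 ≤ s ^ 2 * ∫ y : ℂ, ‖h y‖ ^ 2 :=
  (cross_l2 R g h hg hh s hs).2

end Pool.Agent.H67.Pl
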