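import Pool.Agent.H67.Pl.Basic

/-!
# Triangles in the plane: the final contradiction (from the four main inputs)
-/

open MeasureTheory
open scoped ComplexConjugate

namespace Pool.Agent.H67.Pl

/-- The closed annulus. -/
private def ann (r s : ℝ) : Set ℂ := {v : ℂ | r ≤ ‖v‖ ∧ ‖v‖ ≤ s}

private lemma ann_meas (r s : ℝ) : MeasurableSet (ann r s) := by
  have h1 : Measurable fun v : ℂ => ‖v‖ := measurable_norm
  exact (measurableSet_le measurable_const h1).inter (measurableSet_le h1 measurable_const)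

private lemma ann_sub (r s : ℝ) : ann r s ⊆ Metric.closedBall 0 s := by
  intro v hv
  simpa using hv.2

private lemma cb_lt_top (s : ℝ) : volume (Metric.closedBall (0 : ℂ) s) < ⊤ :=
  (isCompact_closedBall (0 : ℂ) s).measure_lt_top

private lemma ann_lt_top (r s : ℝ) : volume (ann r s) < ⊤ :=
  lt_of_le_of_lt (measure_mono (ann_sub r s)) (cb_lt_top s)

private lemma cb_vol (s : ℝ) (hs : 0 ≤ s) :
    volume.real (Metric.closedBall (0 : ℂ) s) = Real.pi * s ^ 2 := by
  rw [Measure.real, Complex.volume_closedBall]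
  simp [ENNReal.toReal_mul, ENNReal.toReal_ofReal hs]
  ring

private lemma ann_vol (r s : ℝ) (hr : 0 ≤ r) (hs : r ≤ s) :
    volume.real (ann r s) = Real.pi * (s ^ 2 - r ^ 2) := by
  have h : ann r s = Metric.closedBall (0 : ℂ) s \ Metric.ball (0 : ℂ) r := by
    ext v
    constructor
    · rintro ⟨h1, h2⟩
      exact ⟨by simpa using h2, by simpa using h1⟩
    · rintro ⟨h1, h2⟩
      exact ⟨by simpa using h2, by simpa using h1⟩
  have hsub : Metric.ball (0 : ℂ) r ⊆ Metric.closedBall (0 : ℂ) s :=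
    Metric.ball_subset_closedBall.trans (Metric.closedBall_subset_closedBall hs)
  rw [h, measureReal_sdiff hsub Metric.isOpen_ball.measurableSet (cb_lt_top s).ne]
  have e1 := cb_vol s (hr.trans hs)
  have e2 : volume.real (Metric.ball (0 : ℂ) r) = Real.pi * r ^ 2 := by
    rw [Measure.real, Complex.volume_ball]
    simp [ENNReal.toReal_mul, ENNReal.toReal_ofReal hr]
    ring
  rw [e1, e2]
  ring

/-- The form with the kernel `q`. -/
private noncomputable def IQ (a₁ a₂ L : ℂ) (f : ℂ → ℝ) (q : ℂ → ℝ) : ℝ :=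
  ∫ x : ℂ, ∫ v : ℂ, q v * (f x * f (x + L * a₁ * v) * f (x + L * a₂ * v))

private lemma int_prod (a₁ a₂ L : ℂ) (f : ℂ → ℝ) (hf : Measurable f)
    (h01 : ∀ x, 0 ≤ f x ∧ f x ≤ 1) (hfi : Integrable f) (q : ℂ → ℝ) (hq : Measurable q)
    (hqi : Integrable q) :
    Integrable (fun z : ℂ × ℂ => q z.2 * (f z.1 * f (z.1 + L * a₁ * z.2) *
      f (z.1 + L * a₂ * z.2))) (volume.prod volume) := by
  have h1 : Integrable (fun z : ℂ × ℂ => f z.1 * q z.2) (volume.prod volume) := hfi.mul_prod hqi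
  refine Integrable.mono h1 ?_ (Filter.Eventually.of_forall fun z => ?_)
  · apply Measurable.aestronglyMeasurable
    have e1 : Measurable fun z : ℂ × ℂ => z.1 + L * a₁ * z.2 :=
      measurable_fst.add (measurable_snd.const_mul _)
    have e2 : Measurable fun z : ℂ × ℂ => z.1 + L * a₂ * z.2 :=
      measurable_fst.add (measurable_snd.const_mul _)
    exact (hq.comp measurable_snd).mul
      (((hf.comp measurable_fst).mul (hf.comp e1)).mul (hf.comp e2))
  · have b0 := h01 z.1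
    have b1 := h01 (z.1 + L * a₁ * z.2)
    have b2 := h01 (z.1 + L * a₂ * z.2)
    rw [norm_mul, norm_mul (f z.1) (q z.2), mul_comm ‖f z.1‖]
    refine mul_le_mul_of_nonneg_left ?_ (norm_nonneg _)
    rw [norm_mul, norm_mul, Real.norm_of_nonneg b0.1, Real.norm_of_nonneg b1.1,
      Real.norm_of_nonneg b2.1]
    have : f z.1 * f (z.1 + L * a₁ * z.2) ≤ f z.1 := mul_le_of_le_one_right b0.1 b1.2
    exact (mul_le_of_le_one_right (mul_nonneg b0.1 b1.1) b2.2).trans this

private lemma IQ_sub (a₁ a₂ L : ℂ) (f : ℂ → ℝ) (hf : Measurable f)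
    (h01 : ∀ x, 0 ≤ f x ∧ f x ≤ 1) (hfi : Integrable f) (q q' : ℂ → ℝ) (hq : Measurable q)
    (hqi : Integrable q) (hq' : Measurable q') (hqi' : Integrable q') :
    IQ a₁ a₂ L f (fun v => q v - q' v) = IQ a₁ a₂ L f q - IQ a₁ a₂ L f q' := by
  have e1 := int_prod a₁ a₂ L f hf h01 hfi q hq hqi
  have e2 := int_prod a₁ a₂ L f hf h01 hfi q' hq' hqi'
  have e3 := int_prod a₁ a₂ L f hf h01 hfi (fun v => q v - q' v) (hq.sub hq') (hqi.sub hqi')
  unfold IQ
  rw [← integral_prod _ e1, ← integral_prod _ e2, ← integral_prod _ e3, ← integral_sub e1 e2]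
  refine integral_congr_ae (Filter.Eventually.of_forall fun z => ?_)
  simp only
  ring

private lemma IQ_ind (a₁ a₂ L : ℂ) (f : ℂ → ℝ) (c r s : ℝ) :
    IQ a₁ a₂ L f ((ann r s).indicator fun _ => c) =
      c * ∫ x : ℂ, ∫ v in ann r s, f x * f (x + L * a₁ * v) * f (x + L * a₂ * v) := by
  unfold IQ
  rw [← integral_const_mul]
  refine integral_congr_ae (Filter.Eventually.of_forall fun x => ?_)
  simp only
  rw [← integral_const_mul, ← integral_indicator (ann_meas r s)]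
  refine integral_congr_ae (Filter.Eventually.of_forall fun v => ?_)
  simp only [Set.indicator]
  split_ifs <;> simp

private lemma scale (k : ℝ) (hk : 0 < k) (G : ℂ → ℝ) :
    ∫ v in ann 1 2, G ((k : ℂ) * v) = (1 / k ^ 2) * ∫ w in ann k (2 * k), G w := by
  have h := Measure.integral_comp_smul (volume : Measure ℂ)
    (fun w => (ann k (2 * k)).indicator G w) k
  rw [Complex.finrank_real_complex, integral_indicator (ann_meas _ _)] at h
  rw [← integral_indicator (ann_meas 1 2)]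
  have e : (fun v : ℂ => (ann 1 2).indicator (fun v => G ((k : ℂ) * v)) v) =
      fun v => (ann k (2 * k)).indicator G (k • v) := by
    funext v
    have hiff : (k • v ∈ ann k (2 * k)) ↔ v ∈ ann 1 2 := by
      simp only [ann, Set.mem_ofPred_eq, norm_smul, Real.norm_of_nonneg hk.le]
      constructor
      · rintro ⟨h1, h2⟩
        exact ⟨by nlinarith, by nlinarith⟩
      · rintro ⟨h1, h2⟩
        exact ⟨by nlinarith, by nlinarith⟩
    by_cases hv : v ∈ ann 1 2
    · rw [Set.indicator_of_mem hv, Set.indicator_of_mem (hiff.2 hv)]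
      simp
    · rw [Set.indicator_of_notMem hv, Set.indicator_of_notMem (fun h => hv (hiff.1 h))]
  rw [e, h, abs_of_pos (by positivity), smul_eq_mul, one_div]

private lemma ind_int (c r s : ℝ) :
    Integrable ((ann r s).indicator fun _ => c) :=
  (integrable_indicator_iff (ann_meas r s)).2 (integrableOn_const (ann_lt_top r s).ne)

private lemma ind_integral (c r s : ℝ) (hr : 0 ≤ r) (hs : r ≤ s) :
    ∫ v, (ann r s).indicator (fun _ => c) v = c * (Real.pi * (s ^ 2 - r ^ 2)) := by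
  rw [integral_indicator (ann_meas r s), setIntegral_const, ann_vol r s hr hs, smul_eq_mul]
  ring


private lemma small_eta (C' c e : ℝ) (hC : 0 < C') (hc : 0 < c) (he : 0 < e) :
    ∃ η : ℝ, 0 < η ∧ η ≤ 1 / 2 ∧ C' * η ^ c ≤ e := by
  refine ⟨min (1 / 2) ((e / C') ^ (1 / c)), ?_, min_le_left _ _, ?_⟩
  · exact lt_min (by norm_num) (Real.rpow_pos_of_pos (div_pos he hC) _)
  · have h0 : 0 ≤ min (1 / 2) ((e / C') ^ (1 / c)) :=
      le_min (by norm_num) (Real.rpow_nonneg (div_pos he hC).le _)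
    have h1 : (min (1 / 2) ((e / C') ^ (1 / c))) ^ c ≤ ((e / C') ^ (1 / c)) ^ c :=
      Real.rpow_le_rpow h0 (min_le_right _ _) hc.le
    have h2 : ((e / C') ^ (1 / c)) ^ c = e / C' := by
      rw [← Real.rpow_mul (div_pos he hC).le, one_div_mul_cancel hc.ne', Real.rpow_one]
    rw [h2] at h1
    calc C' * (min (1 / 2) ((e / C') ^ (1 / c))) ^ c ≤ C' * (e / C') :=
          mul_le_mul_of_nonneg_left h1 hC.le
      _ = e := by field_simp

private lemma bx_sub (T : ℝ) : bx T ⊆ Metric.closedBall (0 : ℂ) (2 * T) := by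
  intro x hx
  have := Complex.norm_le_abs_re_add_abs_im x
  rw [Metric.mem_closedBall, dist_zero_right]
  linarith [hx.1, hx.2]

/-- The main contradiction from the four inputs. -/
theorem plane_of (a₁ a₂ : ℂ)
    (hsmooth : ∀ R : ℝ, 1 ≤ R → ∃ C c : ℝ, 0 < C ∧ 0 < c ∧ ∀ (η : ℝ) (f₀ f₁ f₂ : ℂ → ℂ),
      0 < η → η ≤ 1 / 2 →
      Bd R f₀ → (∀ x, x ∉ sq 0 1 → f₀ x = 0) → Bd R f₁ → Bd R f₂ →
      ‖Tq a₁ a₂ η f₀ f₁ f₂‖ ≤ C * η ^ c)
    (hkern : ∀ (n : ℕ) (q : Fin n → ℂ → ℝ), (∀ i, Measurable (q i)) → ∀ (B R : ℝ),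
      (∀ i v, |q i v| ≤ B) → (∀ i v, R < ‖v‖ → q i v = 0) → (∀ i, ∫ v, q i v = 0) →
      ∀ (ε : ℝ), 0 < ε →
      ∃ (κ : ℝ) (J : ℕ), 0 < κ ∧ ∀ (l : ℕ → ℝ) (f : ℂ → ℝ) (V : ℝ), (∀ j, 0 < l j) →
      (∀ j, l j ≤ κ * l (j + 1)) → Measurable f → (∀ x, 0 ≤ f x ∧ f x ≤ 1) → Integrable f →
      0 < V → ∫ x, f x ≤ V →
      ∃ j < J, ∀ i, |∫ x : ℂ, ∫ v : ℂ, q i v * (f x * f (x + (l j : ℂ) * a₁ * v) *
        f (x + (l j : ℂ) * a₂ * v))| ≤ ε * V)
    (hcorn : ∀ δ : ℝ, 0 < δ → ∃ (N : ℕ) (c K : ℝ), 1 ≤ N ∧ 0 < c ∧ 1 ≤ K ∧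
      ∀ (A : Set ℂ) (T l : ℝ), MeasurableSet A →
      A ⊆ bx T → 0 < l → l * K ≤ T → δ * T ^ 2 ≤ volume.real A →
      ∃ t : ℕ, 1 ≤ t ∧ t ≤ N ∧ c * T ^ 2 ≤ ∫ x : ℂ, ∫ v in {v : ℂ | 1 ≤ ‖v‖ ∧ ‖v‖ ≤ 2},
        A.indicator (fun _ => (1 : ℝ)) x *
          A.indicator (fun _ => (1 : ℝ)) (x + (t * l : ℝ) * a₁ * v) *
          A.indicator (fun _ => (1 : ℝ)) (x + (t * l : ℝ) * a₂ * v))
    (htrans : ∀ (R C c : ℝ), 0 < C → 0 < c → 1 + ‖a₁‖ + ‖a₂‖ ≤ R / 4 →
      (∀ (η : ℝ) (f₀ f₁ f₂ : ℂ → ℂ), 0 < η → η ≤ 1 / 2 →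
        Bd R f₀ → (∀ x, x ∉ sq 0 1 → f₀ x = 0) → Bd R f₁ → Bd R f₂ →
        ‖Tq a₁ a₂ η f₀ f₁ f₂‖ ≤ C * η ^ c) →
      ∃ C' : ℝ, 0 < C' ∧ ∀ (A : Set ℂ) (T l η : ℝ), MeasurableSet A → A ⊆ bx T → 0 < l → l ≤ T →
        0 < η → η ≤ 1 / 2 →
        (∀ (x : ℂ) (φ : ℝ), ¬ (x ∈ A ∧ x + l * a₁ * cu φ ∈ A ∧ x + l * a₂ * cu φ ∈ A)) →
        (1 / η) * (∫ x : ℂ, ∫ v in {v : ℂ | 1 ≤ ‖v‖ ∧ ‖v‖ ≤ 1 + η},
          A.indicator (fun _ => (1 : ℝ)) x *
            A.indicator (fun _ => (1 : ℝ)) (x + (l : ℂ) * a₁ * v) *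
            A.indicator (fun _ => (1 : ℝ)) (x + (l : ℂ) * a₂ * v)) ≤ C' * η ^ c * T ^ 2)
    (A : Set ℂ) (hA : MeasurableSet A)
    (δ : ℝ) (hδ : 0 < δ) (hT : ∀ T₀ : ℝ, ∃ T, T₀ ≤ T ∧ δ * T ^ 2 ≤ volume.real (A ∩ bx T)) :
    ∃ l₀ : ℝ, 0 < l₀ ∧ ∀ l : ℝ, l₀ ≤ l → ∃ (x : ℂ) (φ : ℝ),
      x ∈ A ∧ x + l * a₁ * cu φ ∈ A ∧ x + l * a₂ * cu φ ∈ A := by
  by_contra hcon
  have hbad : ∀ l₀ : ℝ, ∃ l : ℝ, l₀ ≤ l ∧ 0 < l ∧ ∀ (x : ℂ) (φ : ℝ),
      ¬ (x ∈ A ∧ x + l * a₁ * cu φ ∈ A ∧ x + l * a₂ * cu φ ∈ A) := by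
    intro l₀
    by_contra h
    push Not at h
    refine hcon ⟨max l₀ 1, lt_max_of_lt_right one_pos, fun l hl => ?_⟩
    obtain ⟨x, φ, hx⟩ := h l ((le_max_left _ _).trans hl)
      (one_pos.trans_le ((le_max_right _ _).trans hl))
    exact ⟨x, φ, hx⟩
  have n1 := norm_nonneg a₁
  have n2 := norm_nonneg a₂
  obtain ⟨C, c, hC, hc, hsm⟩ := hsmooth (4 * (1 + ‖a₁‖ + ‖a₂‖)) (by linarith)
  obtain ⟨C', hC', htr⟩ := htrans (4 * (1 + ‖a₁‖ + ‖a₂‖)) C c hC hc (by linarith) hsm
  obtain ⟨N, cB, K, hN, hcB, hK, hco⟩ := hcorn δ hδ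
  obtain ⟨η, hη, hη2, hηc⟩ := small_eta C' c (cB / 100) hC' hc (by positivity)
  have hNpos : (0 : ℝ) < N := by exact_mod_cast hN
  have hpi := Real.pi_pos
  have hpi3 := Real.pi_gt_three
  have hpi4 := Real.pi_lt_d2
  -- the kernels
  set r : Fin N → ℝ := fun i => ((i : ℕ) + 1 : ℝ) / N with hr
  have hr0 : ∀ i, 0 < r i := fun i => by positivity
  have hr1 : ∀ i, r i ≤ 1 := fun i => by
    rw [hr]
    simp only
    rw [div_le_one hNpos]
    have := i.2
    exact_mod_cast this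
  set ca : Fin N → ℝ := fun i => 1 / (3 * Real.pi) * (1 / r i ^ 2) with hca
  set cb : ℝ := 1 / (Real.pi * ((1 + η) ^ 2 - 1)) with hcb
  have hden : 0 < (1 + η) ^ 2 - 1 := by nlinarith
  obtain ⟨κ, J, hκ, hker⟩ := hkern N
    (fun i v => (ann (r i) (2 * r i)).indicator (fun _ => ca i) v -
      (ann 1 (1 + η)).indicator (fun _ => cb) v)
    (fun i => (measurable_const.indicator (ann_meas _ _)).sub
      (measurable_const.indicator (ann_meas _ _)))
    ((∑ i, |ca i|) + |cb|) 2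
    (by
      intro i v
      refine (abs_sub _ _).trans (add_le_add ?_ ?_)
      · have : |(ann (r i) (2 * r i)).indicator (fun _ => ca i) v| ≤ |ca i| := by
          by_cases hv : v ∈ ann (r i) (2 * r i)
          · rw [Set.indicator_of_mem hv]
          · rw [Set.indicator_of_notMem hv, abs_zero]
            exact abs_nonneg _
        exact this.trans (Finset.single_le_sum (f := fun i => |ca i|)
          (fun j _ => abs_nonneg _) (Finset.mem_univ i))
      · by_cases hv : v ∈ ann 1 (1 + η)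
        · rw [Set.indicator_of_mem hv]
        · rw [Set.indicator_of_notMem hv, abs_zero]
          exact abs_nonneg _)
    (by
      intro i v hv
      have h1 : v ∉ ann (r i) (2 * r i) := fun h => by
        have := h.2
        have := hr1 i
        linarith
      have h2 : v ∉ ann 1 (1 + η) := fun h => by
        have := h.2
        linarith
      rw [Set.indicator_of_notMem h1, Set.indicator_of_notMem h2, sub_zero])
    (by
      intro i
      rw [integral_sub (ind_int _ _ _) (ind_int _ _ _),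
        ind_integral _ _ _ (hr0 i).le (by linarith [hr0 i]),
        ind_integral _ _ _ zero_le_one (by linarith)]
      have h1 := (hr0 i).ne'
      have h2 := hden.ne'
      have h3 := hpi.ne'
      have e1 : ca i * (Real.pi * ((2 * r i) ^ 2 - r i ^ 2)) = 1 := by
        rw [hca]
        simp only
        field_simp
        ring
      have e2 : cb * (Real.pi * ((1 + η) ^ 2 - 1 ^ 2)) = 1 := by
        rw [hcb, one_pow]
        field_simp
      rw [e1, e2, sub_self])
    (cB / 1000) (by positivity)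
  -- the sequence of bad scales
  choose g hg1 hg2 hg3 using hbad
  set l : ℕ → ℝ := fun j => Nat.rec (g 0) (fun _ y => g (y / κ)) j with hl
  have hlpos : ∀ j, 0 < l j := by
    intro j
    cases j with
    | zero => exact hg2 _
    | succ j => exact hg2 _
  have hlbad : ∀ j (x : ℂ) (φ : ℝ),
      ¬ (x ∈ A ∧ x + l j * a₁ * cu φ ∈ A ∧ x + l j * a₂ * cu φ ∈ A) := by
    intro j
    cases j with
    | zero => exact hg3 _
    | succ j => exact hg3 _
  have hlκ : ∀ j, l j ≤ κ * l (j + 1) := by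
    intro j
    have : l j / κ ≤ l (j + 1) := hg1 _
    rwa [div_le_iff₀' hκ] at this
  obtain ⟨T, hT1, hT2⟩ := hT (1 + ∑ j ∈ Finset.range J, (l j * K + l j))
  have hnn : ∀ j ∈ Finset.range J, 0 ≤ l j * K + l j := fun j _ => by
    have := hlpos j
    positivity
  have hTj : ∀ j < J, l j * K + l j ≤ T - 1 := fun j hj => by
    have := Finset.single_le_sum hnn (Finset.mem_range.2 hj)
    linarith
  have hTpos : 1 ≤ T := by
    have := Finset.sum_nonneg hnn
    linarith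
  -- the function
  set A' : Set ℂ := A ∩ bx T with hA'
  have hbm : MeasurableSet (bx T) := by
    have e1 : Measurable fun x : ℂ => |x.re| := Complex.measurable_re.abs
    have e2 : Measurable fun x : ℂ => |x.im| := Complex.measurable_im.abs
    exact (measurableSet_le e1 measurable_const).inter (measurableSet_le e2 measurable_const)
  have hA'm : MeasurableSet A' := hA.inter hbm
  have hA's : A' ⊆ bx T := Set.inter_subset_right
  have hA'f : volume A' < ⊤ :=
    lt_of_le_of_lt (measure_mono (hA's.trans (bx_sub T))) (cb_lt_top _)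
  set f : ℂ → ℝ := A'.indicator (fun _ => (1 : ℝ)) with hf
  have hfm : Measurable f := measurable_const.indicator hA'm
  have hf01 : ∀ x, 0 ≤ f x ∧ f x ≤ 1 := by
    intro x
    by_cases hx : x ∈ A'
    · rw [hf, Set.indicator_of_mem hx]
      norm_num
    · rw [hf, Set.indicator_of_notMem hx]
      norm_num
  have hfi : Integrable f :=
    (integrable_indicator_iff hA'm).2 (integrableOn_const hA'f.ne)
  have hfV : ∫ x, f x ≤ Real.pi * (2 * T) ^ 2 := by
    rw [hf, integral_indicator hA'm, setIntegral_const, smul_eq_mul, mul_one]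
    rw [← cb_vol (2 * T) (by linarith)]
    exact measureReal_mono (hA's.trans (bx_sub T)) (cb_lt_top _).ne
  obtain ⟨j, hj, hjq⟩ := hker l f (Real.pi * (2 * T) ^ 2) hlpos hlκ hfm hf01 hfi
    (by positivity) hfV
  have hljpos := hlpos j
  have hKj := hTj j hj
  have hlKpos : 0 < l j * K := by positivity
  -- corners
  have hlN : l j / N ≤ l j := div_le_self hljpos.le (by exact_mod_cast hN)
  obtain ⟨t, ht1, htN, hct⟩ := hco A' T (l j / N) hA'm hA's (by positivity)
    (by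
      have : l j / N * K ≤ l j * K := mul_le_mul_of_nonneg_right hlN (by linarith)
      linarith) hT2
  -- no triangles
  have htr1 := htr A' T (l j) η hA'm hA's hljpos (by linarith) hη hη2
    (fun x φ h => hlbad j x φ ⟨h.1.1, h.2.1.1, h.2.2.1⟩)
  set i : Fin N := ⟨t - 1, by omega⟩ with hi
  have hri : r i = (t : ℝ) / N := by
    rw [hr, hi]
    simp only
    congr 1
    have : t - 1 + 1 = t := by omega
    exact_mod_cast this
  have hjqi := hjq i
  set X : ℝ := ∫ x : ℂ, ∫ v in ann (r i) (2 * r i),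
    f x * f (x + (l j : ℂ) * a₁ * v) * f (x + (l j : ℂ) * a₂ * v) with hX
  set Y : ℝ := ∫ x : ℂ, ∫ v in ann 1 (1 + η),
    f x * f (x + (l j : ℂ) * a₁ * v) * f (x + (l j : ℂ) * a₂ * v) with hY
  have hIQ : (∫ x : ℂ, ∫ v : ℂ, ((ann (r i) (2 * r i)).indicator (fun _ => ca i) v -
      (ann 1 (1 + η)).indicator (fun _ => cb) v) * (f x * f (x + (l j : ℂ) * a₁ * v) *
        f (x + (l j : ℂ) * a₂ * v))) = ca i * X - cb * Y := by
    have := IQ_sub a₁ a₂ (l j : ℂ) f hfm hf01 hfi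
      ((ann (r i) (2 * r i)).indicator (fun _ => ca i)) ((ann 1 (1 + η)).indicator (fun _ => cb))
      (measurable_const.indicator (ann_meas _ _)) (ind_int _ _ _)
      (measurable_const.indicator (ann_meas _ _)) (ind_int _ _ _)
    rw [IQ_ind, IQ_ind] at this
    exact this
  rw [hIQ] at hjqi
  have hX1 : cB * T ^ 2 ≤ (1 / r i ^ 2) * X := by
    refine hct.trans (le_of_eq ?_)
    rw [hX, ← integral_const_mul]
    refine integral_congr_ae (Filter.Eventually.of_forall fun x => ?_)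
    simp only
    rw [← scale (r i) (hr0 i) (fun w => f x * f (x + (l j : ℂ) * a₁ * w) *
      f (x + (l j : ℂ) * a₂ * w))]
    have hset : {v : ℂ | 1 ≤ ‖v‖ ∧ ‖v‖ ≤ 2} = ann 1 2 := rfl
    rw [hset]
    refine integral_congr_ae (Filter.Eventually.of_forall fun v => ?_)
    simp only
    have hNc : (N : ℂ) ≠ 0 := by exact_mod_cast hNpos.ne'
    have e : ∀ a : ℂ, ((t * (l j / N) : ℝ) : ℂ) * a * v = (l j : ℂ) * a * ((r i : ℂ) * v) := by
      intro a
      rw [hri]
      push_cast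
      field_simp
    rw [e a₁, e a₂]
  have hY1 : (1 / η) * Y ≤ cB / 100 * T ^ 2 :=
    htr1.trans (mul_le_mul_of_nonneg_right hηc (by positivity))
  have hY0 : 0 ≤ Y := by
    rw [hY]
    refine integral_nonneg fun x => integral_nonneg fun v => ?_
    exact mul_nonneg (mul_nonneg (hf01 _).1 (hf01 _).1) (hf01 _).1
  have hcbY : cb * Y ≤ cB / 600 * T ^ 2 := by
    have h1 : cb ≤ 1 / 6 * (1 / η) := by
      rw [hcb, ← one_div_mul_one_div_rev]
      have : 1 / Real.pi ≤ 1 / 3 := one_div_le_one_div_of_le (by norm_num) hpi3.le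
      have h2 : 1 / ((1 + η) ^ 2 - 1) ≤ 1 / (2 * η) :=
        one_div_le_one_div_of_le (by positivity) (by nlinarith)
      calc 1 / ((1 + η) ^ 2 - 1) * (1 / Real.pi) ≤ 1 / (2 * η) * (1 / 3) :=
            mul_le_mul h2 this (by positivity) (by positivity)
        _ = 1 / 6 * (1 / η) := by
            field_simp
            norm_num
    calc cb * Y ≤ 1 / 6 * (1 / η) * Y := mul_le_mul_of_nonneg_right h1 hY0
      _ = 1 / 6 * ((1 / η) * Y) := by ring
      _ ≤ 1 / 6 * (cB / 100 * T ^ 2) := mul_le_mul_of_nonneg_left hY1 (by norm_num)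
      _ = cB / 600 * T ^ 2 := by ring
  have hcaX : 1 / 10 * (cB * T ^ 2) ≤ ca i * X := by
    have h1 : (1 : ℝ) / 10 ≤ 1 / (3 * Real.pi) :=
      one_div_le_one_div_of_le (by positivity) (by linarith)
    have h2 : ca i * X = 1 / (3 * Real.pi) * ((1 / r i ^ 2) * X) := by
      rw [hca]
      simp only
      ring
    rw [h2]
    exact mul_le_mul h1 hX1 (by positivity) (by positivity)
  have hup := (abs_le.1 hjqi).2
  have hcT : 0 < cB * T ^ 2 := by positivity
  have hpT : cB / 1000 * (Real.pi * (2 * T) ^ 2) ≤ 2 / 100 * (cB * T ^ 2) := by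
    have : Real.pi * (cB * T ^ 2) ≤ 3.15 * (cB * T ^ 2) :=
      mul_le_mul_of_nonneg_right hpi4.le hcT.le
    nlinarith
  nlinarith

end Pool.Agent.H67.Pl
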