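import Pool.Agent.H67.Pl.Tools

/-!
# The smoothing theorem
-/

open MeasureTheory
open scoped ComplexConjugate

namespace Pool.Agent.H67.Pl

/-- The smoothing theorem, at small scales. -/
theorem smoothing_core (a₁ a₂ : ℂ) (h1 : a₁ ≠ 0) (h2 : a₂ ≠ 0) (hFR : FRx a₁ a₂) (R₀ : ℝ)
    (hR₀ : 1 ≤ R₀) (hR₀a : 2 + 2 * ‖a₁‖ + 2 * ‖a₂‖ ≤ R₀)
    (HA : ∀ R : ℝ, 1 ≤ R → ∃ (C C₁ : ℕ) (R' : ℝ), R ≤ R' ∧
      ∀ (D M η : ℝ) (f₀ f₁ f₂ : ℂ → ℂ), 2 ≤ D → 0 < M →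
      M * ‖a₁‖ ≤ 1 → M ≤ 1 / 2 → 0 < η → η ≤ 1 / 2 → M ^ 2 / η ≤ 1 / D ^ C →
      Bd R f₀ → Bd R f₁ → Bd R f₂ → 1 / D ≤ ‖Tq a₁ a₂ η f₀ f₁ f₂‖ →
      ∃ (p : ℂ) (ξ a : ℤ × ℤ → ℂ), (∀ k, ‖a k‖ ≤ 1) ∧
        1 / D ^ C ≤ ‖Tq a₁ a₂ η f₀ (bind R' (pw p (M * ‖a₁‖ / D ^ C₁) ξ a)) f₂‖)
    (HB : ∀ R : ℝ, 1 ≤ R → ∃ (C C₁ : ℕ) (R' : ℝ), R ≤ R' ∧
      ∀ (D M η : ℝ) (f₀ f₁ f₂ : ℂ → ℂ), 2 ≤ D → 0 < M →
      M * ‖a₂‖ ≤ 1 → M ≤ 1 / 2 → 0 < η → η ≤ 1 / 2 → M ^ 2 / η ≤ 1 / D ^ C →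
      Bd R f₀ → Bd R f₁ → Bd R f₂ → 1 / D ≤ ‖Tq a₂ a₁ η f₀ f₁ f₂‖ →
      ∃ (p : ℂ) (ξ a : ℤ × ℤ → ℂ), (∀ k, ‖a k‖ ≤ 1) ∧
        1 / D ^ C ≤ ‖Tq a₂ a₁ η f₀ (bind R' (pw p (M * ‖a₂‖ / D ^ C₁) ξ a)) f₂‖)
    (HF : ∀ R : ℝ, 1 ≤ R → ∃ C : ℕ, ∀ (D η m m₁ m₂ : ℝ) (f₀ : ℂ → ℂ) (p₁ p₂ : ℂ)
      (ξ₁ α₁ ξ₂ α₂ : ℤ × ℤ → ℂ),
      2 ≤ D → 0 < η → η ≤ 1 / 2 → 0 < m → m ≤ m₁ → m ≤ m₂ → m ^ 2 ≤ η → η * D ^ C ≤ m →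
      Bd R f₀ → (∀ x, x ∉ sq 0 1 → f₀ x = 0) →
      (∀ k, ‖α₁ k‖ ≤ 1) → (∀ k, ‖α₂ k‖ ≤ 1) →
      1 / D ≤ ‖Tq a₁ a₂ η f₀ (bind R (pw p₁ m₁ ξ₁ α₁)) (bind R (pw p₂ m₂ ξ₂ α₂))‖ →
      ∃ (u₀ u₁ u₂ : ℂ → ℂ) (G : Set (ℂ × ℝ)), Measurable u₀ ∧ Measurable u₁ ∧ Measurable u₂ ∧
        MeasurableSet G ∧ 1 / D ^ C ≤ volume.real G ∧
        ∀ z ∈ G, z.1 ∈ sq (-1 - Complex.I) 3 ∧ 0 ≤ z.2 ∧ z.2 < 2 * Real.pi ∧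
          ‖u₀ z.1 + u₁ (z.1 + a₁ * cu z.2) + u₂ (z.1 + a₂ * cu z.2)‖ ≤ D ^ C * η / m ∧
          |(Zf a₁ a₂ u₁ u₂ z.1 z.2).im| ≤ D ^ C * η / m ∧
          1 / D ^ C ≤ |(Zf a₁ a₂ u₁ u₂ z.1 z.2).re| ∧
          |(Zf a₁ a₂ u₁ u₂ z.1 z.2).re| ≤ D ^ C) :
    ∃ (B : ℕ) (κ₀ : ℝ), 0 < κ₀ ∧ ∀ (D η : ℝ) (f₀ f₁ f₂ : ℂ → ℂ), 2 ≤ D → 0 < η → η ≤ 1 / 2 →
      D ^ B * η ^ ((1 : ℝ) / 8) ≤ κ₀ →
      Bd R₀ f₀ → (∀ x, x ∉ sq 0 1 → f₀ x = 0) → Bd R₀ f₁ → Bd R₀ f₂ →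
      ‖Tq a₁ a₂ η f₀ f₁ f₂‖ ≤ 1 / D := by
  obtain ⟨CF, hCF⟩ := hFR
  obtain ⟨Ca, C1a, R₁, hR₁, hA⟩ := HA R₀ hR₀
  obtain ⟨Cb, C1b, R₂, hR₂, hB⟩ := HB R₁ (hR₀.trans hR₁)
  obtain ⟨Cf, hF⟩ := HF R₂ (hR₀.trans (hR₁.trans hR₂))
  have hn1 : 0 < ‖a₁‖ := norm_pos_iff.mpr h1
  have hn2 : 0 < ‖a₂‖ := norm_pos_iff.mpr h2
  -- the constant
  obtain ⟨κ, hκ, hκ2, hκa, hκb⟩ : ∃ κ : ℝ, 0 < κ ∧ κ ≤ 1 / 2 ∧ κ * ‖a₁‖ ≤ 1 ∧ κ * ‖a₂‖ ≤ 1 := by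
    refine ⟨min (1 / 2) (min (1 / ‖a₁‖) (1 / ‖a₂‖)), ?_, min_le_left _ _, ?_, ?_⟩
    · exact lt_min (by norm_num) (lt_min (by positivity) (by positivity))
    · calc _ ≤ (1 / ‖a₁‖) * ‖a₁‖ := by
            apply mul_le_mul_of_nonneg_right _ hn1.le
            exact (min_le_right _ _).trans (min_le_left _ _)
        _ = 1 := by field_simp
    · calc _ ≤ (1 / ‖a₂‖) * ‖a₂‖ := by
            apply mul_le_mul_of_nonneg_right _ hn2.le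
            exact (min_le_right _ _).trans (min_le_right _ _)
        _ = 1 := by field_simp
  set A1 : ℕ := max Ca 1 with hA1
  set A2 : ℕ := A1 * max Cb 1 with hA2
  set A3 : ℕ := A2 * max Cf 1 with hA3
  set B : ℕ := C1a + A1 * C1b + Ca + A1 * Cb + A2 * Cf + A3 * CF with hBdef
  set κ₁ : ℝ := κ * min ‖a₁‖ ‖a₂‖ with hκ₁
  have hmin : 0 < min ‖a₁‖ ‖a₂‖ := lt_min hn1 hn2
  have hκ₁0 : 0 < κ₁ := by positivity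
  refine ⟨B, min κ₁ 1, lt_min hκ₁0 one_pos, ?_⟩
  intro D η f₀ f₁ f₂ hD hη hη1 hDη b0 b0' b1 b2
  by_contra hcon
  have hcon' : 1 / D ≤ ‖Tq a₁ a₂ η f₀ f₁ f₂‖ := (not_le.mp hcon).le
  have hD1 : (1 : ℝ) ≤ D := by linarith
  have hD0 : (0 : ℝ) < D := by linarith
  have hη1' : η ≤ 1 := by linarith
  set t : ℝ := η ^ ((1 : ℝ) / 8) with ht
  have ht0 : 0 < t := Real.rpow_pos_of_pos hη _
  have ht1 : t ≤ 1 := Real.rpow_le_one hη.le hη1' (by norm_num)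
  have ht8 : t ^ 8 = η := by
    rw [ht, ← Real.rpow_natCast, ← Real.rpow_mul hη.le]
    norm_num
  have hDt : D ^ B * t ≤ κ₁ := hDη.trans (min_le_left _ _)
  have hDt1 : D ^ B * t ≤ 1 := hDη.trans (min_le_right _ _)
  have hpow : ∀ n : ℕ, n ≤ B → D ^ n * t ≤ 1 := by
    intro n hn
    refine le_trans ?_ hDt1
    exact mul_le_mul_of_nonneg_right (pow_le_pow_right₀ hD1 hn) ht0.le
  -- the window
  set M : ℝ := κ * t ^ 5 with hM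
  have hM0 : 0 < M := by positivity
  have ht5 : t ^ 5 ≤ 1 := pow_le_one₀ ht0.le ht1
  have hMκ : M ≤ κ := by
    rw [hM]
    calc κ * t ^ 5 ≤ κ * 1 := mul_le_mul_of_nonneg_left ht5 hκ.le
      _ = κ := mul_one _
  have hM2 : M ^ 2 / η ≤ t ^ 2 := by
    rw [hM, ← ht8, div_le_iff₀ (by positivity)]
    have : κ ^ 2 ≤ 1 := pow_le_one₀ hκ.le (by linarith)
    calc (κ * t ^ 5) ^ 2 = κ ^ 2 * t ^ 10 := by ring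
      _ ≤ 1 * t ^ 10 := mul_le_mul_of_nonneg_right this (by positivity)
      _ = t ^ 2 * t ^ 8 := by ring
  have hMn : ∀ n : ℕ, n ≤ B → M ^ 2 / η ≤ 1 / D ^ n := by
    intro n hn
    refine hM2.trans ?_
    rw [le_div_iff₀ (by positivity)]
    calc t ^ 2 * D ^ n = t * (D ^ n * t) := by ring
      _ ≤ 1 * 1 := mul_le_mul ht1 (hpow n hn) (by positivity) zero_le_one
      _ = 1 := one_mul 1
  have hMa1 : M * ‖a₁‖ ≤ 1 := (mul_le_mul_of_nonneg_right hMκ hn1.le).trans hκa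
  have hMa2 : M * ‖a₂‖ ≤ 1 := (mul_le_mul_of_nonneg_right hMκ hn2.le).trans hκb
  -- first replacement
  obtain ⟨p₁, ξ₁, α₁, hα₁, g1⟩ := hA D M η f₀ f₁ f₂ hD hM0 hMa1 (hMκ.trans hκ2) hη hη1
    (hMn Ca (by omega)) b0 b1 b2 hcon'
  set m₁ : ℝ := M * ‖a₁‖ / D ^ C1a with hm₁
  have hm₁0 : 0 < m₁ := by positivity
  set D2 : ℝ := D ^ A1 with hD2
  have hD2' : 2 ≤ D2 := by
    calc (2 : ℝ) ≤ D ^ 1 := by simpa using hD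
      _ ≤ D ^ A1 := pow_le_pow_right₀ hD1 (le_max_right _ _)
  have g2 : 1 / D2 ≤ ‖Tq a₂ a₁ η f₀ f₂ (bind R₁ (pw p₁ m₁ ξ₁ α₁))‖ := by
    rw [← Tq_comm]
    refine le_trans ?_ g1
    exact one_div_le_one_div_of_le (by positivity) (pow_le_pow_right₀ hD1 (le_max_left _ _))
  obtain ⟨p₂, ξ₂, α₂, hα₂, g3⟩ := hB D2 M η f₀ f₂ (bind R₁ (pw p₁ m₁ ξ₁ α₁)) hD2' hM0 hMa2
    (hMκ.trans hκ2) hη hη1 (by
      rw [hD2, ← pow_mul]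
      exact hMn _ (by omega)) (b0.mono hR₁) (b2.mono hR₁) (bd_pw R₁ p₁ m₁ ξ₁ α₁ hα₁) g2
  set m₂ : ℝ := M * ‖a₂‖ / D2 ^ C1b with hm₂
  have hm₂0 : 0 < m₂ := by positivity
  set D3 : ℝ := D ^ A2 with hD3
  have hD3' : 2 ≤ D3 := by
    calc (2 : ℝ) ≤ D ^ 1 := by simpa using hD
      _ ≤ D ^ A2 := pow_le_pow_right₀ hD1 (by
          rw [hA2]
          exact Nat.mul_pos (by rw [hA1]; exact lt_of_lt_of_le one_pos (le_max_right _ _))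
            (lt_of_lt_of_le one_pos (le_max_right _ _)))
  have g4 : 1 / D3 ≤ ‖Tq a₁ a₂ η f₀ (bind R₂ (pw p₁ m₁ ξ₁ α₁)) (bind R₂ (pw p₂ m₂ ξ₂ α₂))‖ := by
    rw [Tq_comm] at g3
    rw [Tq_congr a₁ a₂ η hη hη1 f₀ _ _ (bind R₂ (pw p₁ m₁ ξ₁ α₁)) (bind R₂ (pw p₂ m₂ ξ₂ α₂)) R₁
      (hR₀a.trans hR₁) b0' (by
        intro x hx
        unfold bind
        rw [if_pos hx, if_pos (hx.trans hR₂)]) (fun x _ => rfl)] at g3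
    refine le_trans ?_ g3
    apply one_div_le_one_div_of_le (by positivity)
    rw [hD2, hD3, ← pow_mul]
    exact pow_le_pow_right₀ hD1 (by rw [hA2]; exact Nat.mul_le_mul_left _ (le_max_left _ _))
  -- the fields
  set m : ℝ := κ₁ * t ^ 5 / D ^ (C1a + A1 * C1b) with hm
  have hm0 : 0 < m := by positivity
  have hmm₁ : m ≤ m₁ := by
    rw [hm, hm₁, hM, hκ₁]
    apply div_le_div₀ (by positivity) _ (by positivity)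
      (pow_le_pow_right₀ hD1 (by omega))
    have := min_le_left ‖a₁‖ ‖a₂‖
    calc κ * min ‖a₁‖ ‖a₂‖ * t ^ 5 = κ * t ^ 5 * min ‖a₁‖ ‖a₂‖ := by ring
      _ ≤ κ * t ^ 5 * ‖a₁‖ := mul_le_mul_of_nonneg_left this (by positivity)
  have hmm₂ : m ≤ m₂ := by
    rw [hm, hm₂, hM, hκ₁, hD2, ← pow_mul]
    apply div_le_div₀ (by positivity) _ (by positivity)
      (pow_le_pow_right₀ hD1 (by omega))
    have := min_le_right ‖a₁‖ ‖a₂‖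
    calc κ * min ‖a₁‖ ‖a₂‖ * t ^ 5 = κ * t ^ 5 * min ‖a₁‖ ‖a₂‖ := by ring
      _ ≤ κ * t ^ 5 * ‖a₂‖ := mul_le_mul_of_nonneg_left this (by positivity)
  have hκ₁1 : κ₁ ≤ 1 := by
    rw [hκ₁]
    exact (mul_le_mul_of_nonneg_left (min_le_left _ _) hκ.le).trans hκa
  have hDE : 1 ≤ D ^ (C1a + A1 * C1b) := one_le_pow₀ hD1
  have hm5 : m ≤ t ^ 5 := by
    rw [hm]
    calc κ₁ * t ^ 5 / D ^ (C1a + A1 * C1b) ≤ κ₁ * t ^ 5 := div_le_self (by positivity) hDE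
      _ ≤ 1 * t ^ 5 := mul_le_mul_of_nonneg_right hκ₁1 (by positivity)
      _ = t ^ 5 := one_mul _
  have hm2 : m ^ 2 ≤ η := by
    calc m ^ 2 ≤ (t ^ 5) ^ 2 := pow_le_pow_left₀ hm0.le hm5 2
      _ = t ^ 2 * t ^ 8 := by ring
      _ ≤ 1 * t ^ 8 := mul_le_mul_of_nonneg_right (pow_le_one₀ ht0.le ht1) (by positivity)
      _ = η := by rw [one_mul, ht8]
  -- the main smallness
  have key : ∀ n : ℕ, n + (C1a + A1 * C1b) ≤ B → D ^ n * η ≤ t ^ 2 * m := by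
    intro n hn
    rw [hm, ← ht8, ← mul_div_assoc, le_div_iff₀ (by positivity)]
    have e1 : D ^ n * D ^ (C1a + A1 * C1b) * t ≤ κ₁ := by
      refine le_trans ?_ hDt
      rw [← pow_add]
      exact mul_le_mul_of_nonneg_right (pow_le_pow_right₀ hD1 hn) ht0.le
    calc D ^ n * t ^ 8 * D ^ (C1a + A1 * C1b)
        = (D ^ n * D ^ (C1a + A1 * C1b) * t) * t ^ 7 := by ring
      _ ≤ κ₁ * t ^ 7 := mul_le_mul_of_nonneg_right e1 (by positivity)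
      _ = t ^ 2 * (κ₁ * t ^ 5) := by ring
  have hfm : η * D3 ^ Cf ≤ m := by
    rw [hD3, ← pow_mul, mul_comm]
    refine (key (A2 * Cf) (by omega)).trans ?_
    calc t ^ 2 * m ≤ 1 * m := mul_le_mul_of_nonneg_right (pow_le_one₀ ht0.le ht1) hm0.le
      _ = m := one_mul _
  obtain ⟨u₀, u₁, u₂, G, mu0, mu1, mu2, mG, vG, hG⟩ := hF D3 η m m₁ m₂ f₀ p₁ p₂ ξ₁ α₁ ξ₂ α₂ hD3' hη
    hη1 hm0 hmm₁ hmm₂ hm2 hfm (b0.mono (hR₁.trans hR₂)) b0' hα₁ hα₂ g4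
  -- the contradiction
  set D4 : ℝ := D ^ A3 with hD4
  have hD4' : 2 ≤ D4 := by
    calc (2 : ℝ) ≤ D3 := hD3'
      _ = D3 ^ 1 := (pow_one _).symm
      _ ≤ D3 ^ max Cf 1 := pow_le_pow_right₀ (by linarith) (le_max_right _ _)
      _ = D4 := by rw [hD3, hD4, hA3, ← pow_mul]
  have hD34 : D3 ^ Cf ≤ D4 := by
    rw [hD3, hD4, ← pow_mul]
    exact pow_le_pow_right₀ hD1 (by rw [hA3]; exact Nat.mul_le_mul_left _ (le_max_left _ _))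
  have hD3p : 0 < D3 ^ Cf := by positivity
  have hD4p : 0 < D4 := by linarith
  have hle : 1 / D4 ≤ 1 / D3 ^ Cf := one_div_le_one_div_of_le hD3p hD34
  have hδ : D3 ^ Cf * η / m ≤ (1 / D4) ^ CF := by
    rw [one_div, inv_pow, ← one_div, div_le_div_iff₀ hm0 (by positivity), one_mul, hD3, hD4,
      ← pow_mul, ← pow_mul]
    have e2 := key (A2 * Cf + A3 * CF) (by omega)
    calc D ^ (A2 * Cf) * η * D ^ (A3 * CF) = D ^ (A2 * Cf + A3 * CF) * η := by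
          rw [pow_add]; ring
      _ ≤ t ^ 2 * m := e2
      _ ≤ 1 * m := mul_le_mul_of_nonneg_right (pow_le_one₀ ht0.le ht1) hm0.le
      _ = m := one_mul _
  refine hCF (1 / D4) (D3 ^ Cf * η / m) u₀ u₁ u₂ G (by positivity)
    (one_div_le_one_div_of_le (by norm_num) hD4') (by positivity) hδ mu0 mu1 mu2 mG
    (hle.trans vG) ?_
  intro z hz
  obtain ⟨c1, c2, c3, c4, c5, c6, c7⟩ := hG z hz
  refine ⟨c1, c2, c3, c4, c5, hle.trans c6, c7.trans ?_⟩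
  rw [one_div_one_div]
  exact hD34


end Pool.Agent.H67.Pl
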